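import Pool.Agent.P.MP_67bca4_pr.MinEx

namespace Pool.Agent.P.MP_67bca4_pr

open Finset
open scoped Classical

variable {D : ℕ}

/-- A minimiser of the shifted flat problem, lifted by `c`, minimises among all configurations
that are flat at height `c` outside the interior box. -/
lemma Sand.lift_le {n : ℕ} {ξ : Dis D} (c : ℤ) {U : Conf D}
    (hU : IsMin n (shift (fun _ => c) ξ) U) (W : Conf D)
    (hW : ∀ y, y ∉ inB D n → W y = flat c) :
    En n ξ (fun y => sh (-c) (U y)) ≤ En n ξ W := by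
  have h1 : En n ξ (fun y => sh (-c) (U y)) = En n (shift (fun _ => c) ξ) U := by
    rw [← En_shift_const (n := n) (ξ := ξ) c (fun y => sh (-c) (U y))]
    congr 1
    funext y
    rw [sh_sh]; simp
  have h2 : Cfg n (fun y => sh c (W y)) := by
    intro y hy
    simp only [hW y hy, sh_flat, sub_self]
  rw [h1, ← En_shift_const (n := n) (ξ := ξ) c W]
  exact hU.2 _ h2

/-- The sandwich: localisation of the two flat problems localises the anchored problem. -/
theorem sandwich {n H : ℕ} (hH : 1 ≤ H) {a b : ℝ} (ha : 0 ≤ a) (hab : a ≤ b) {ξ : Dis D}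
    (h : TwoV a b ξ) {h₀ : ℕ} (hh : 4 * h₀ + 1 ≤ H) {U₁ U₂ : Conf D}
    (h₁ : IsMin n (shift (fun _ => ((H : ℤ) - 1) / 2) ξ) U₁)
    (h₂ : IsMin n (shift (fun _ => (H : ℤ) / 2) ξ) U₂)
    (w₁ : Win (-(2 * h₀ : ℤ)) (2 * h₀) U₁) (w₂ : Win (-(2 * h₀ : ℤ)) (2 * h₀) U₂)
    {x : V D} (f₁ : U₁ x = flat 0) (f₂ : U₂ x = flat 0) :
    ∃ U, IsMinC n ξ (Slab n H) U ∧ (U x = flat (((H : ℤ) - 1) / 2) ∨ U x = flat ((H : ℤ) / 2)) := by
  have hH' : (1 : ℤ) ≤ H := by exact_mod_cast hH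
  have hh' : 4 * (h₀ : ℤ) + 1 ≤ H := by exact_mod_cast hh
  have h0' : (0 : ℤ) ≤ h₀ := Int.natCast_nonneg _
  have hpos : ∀ y o k, 0 ≤ ξ y o k := fun y o k => ha.trans (h.le hab y o k).1
  obtain ⟨S, hS, hSm⟩ := exists_isMinC (n := n) (K := Slab n H) ha (ha.trans hab) h
    ⟨fun _ => flat (((H : ℤ) - 1) / 2), ⟨fun y => ⟨fun k hk => by simp only [mem_flat]; omega,
      fun k hk => by simp only [mem_flat] at hk; omega⟩, fun y _ =>
      ⟨fun k hk => by simp only [mem_flat]; omega,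
        fun k hk => by simp only [mem_flat] at hk; omega⟩⟩⟩
  set lo : ℤ := ((H : ℤ) - 1) / 2 with hlo
  set hi : ℤ := (H : ℤ) / 2 with hhi
  set Um : Conf D := fun y => sh (-lo) (U₁ y) with hUm
  set Up : Conf D := fun y => sh (-hi) (U₂ y) with hUp
  have Um_off : ∀ y, y ∉ inB D n → Um y = flat lo := fun y hy => by
    simp only [hUm, h₁.1 y hy, sh_flat, zero_sub, neg_neg]
  have Up_off : ∀ y, y ∉ inB D n → Up y = flat hi := fun y hy => by
    simp only [hUp, h₂.1 y hy, sh_flat, zero_sub, neg_neg]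
  set W : Conf D := fun y => (S y).inter (Up y) with hW
  have hWs : Slab n H W := by
    refine ⟨fun y => ⟨fun k hk => ?_, fun k hk => ?_⟩, fun y hy => ⟨fun k hk => ?_, fun k hk => ?_⟩⟩
    · refine Col.mem_inter.2 ⟨(hS.1 y).1 k hk, ?_⟩
      simp only [hUp, mem_sh]
      exact (w₂ y).1 _ (by omega)
    · exact (hS.1 y).2 k (Col.mem_inter.1 hk).1
    · refine Col.mem_inter.2 ⟨(hS.2 y hy).1 k hk, ?_⟩
      rw [Up_off y hy, mem_flat]; omega
    · exact (hS.2 y hy).2 k (Col.mem_inter.1 hk).1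
  have hWe : En n ξ W ≤ En n ξ S := by
    have h3 := En_submod (n := n) hpos S Up
    have h4 : En n ξ Up ≤ En n ξ (fun y => (S y).union (Up y)) := by
      refine Sand.lift_le hi h₂ _ fun y hy => ?_
      ext k
      rw [Col.mem_union, Up_off y hy, mem_flat]
      exact ⟨fun hk => hk.elim (fun hk => (hS.2 y hy).2 k hk) id, Or.inr⟩
    linarith
  set W' : Conf D := fun y => (W y).union (Um y) with hW'
  have hW's : Slab n H W' := by
    refine ⟨fun y => ⟨fun k hk => ?_, fun k hk => ?_⟩, fun y hy => ⟨fun k hk => ?_, fun k hk => ?_⟩⟩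
    · exact Col.mem_union.2 (Or.inl ((hWs.1 y).1 k hk))
    · rcases Col.mem_union.1 hk with hk | hk
      · exact (hWs.1 y).2 k hk
      · simp only [hUm, mem_sh] at hk
        have := (w₁ y).2 _ hk
        omega
    · exact Col.mem_union.2 (Or.inl ((hWs.2 y hy).1 k hk))
    · rcases Col.mem_union.1 hk with hk | hk
      · exact (hWs.2 y hy).2 k hk
      · rw [Um_off y hy, mem_flat] at hk; omega
  have hW'e : En n ξ W' ≤ En n ξ W := by
    have h3 := En_submod (n := n) hpos W Um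
    have h4 : En n ξ Um ≤ En n ξ (fun y => (W y).inter (Um y)) := by
      refine Sand.lift_le lo h₁ _ fun y hy => ?_
      ext k
      rw [Col.mem_inter, Um_off y hy, mem_flat]
      exact ⟨fun hk => hk.2, fun hk => ⟨(hWs.2 y hy).1 k hk, hk⟩⟩
    linarith
  refine ⟨W', ⟨hW's, fun U' hU' => hW'e.trans (hWe.trans (hSm U' hU'))⟩, ?_⟩
  have key : ∀ k, k ∈ (W' x).s ↔ (k ∈ (S x).s ∧ k ≤ hi) ∨ k ≤ lo := by
    intro k
    simp only [hW', hW, hUm, hUp, Col.mem_union, Col.mem_inter, f₁, f₂, sh_flat, zero_sub,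
      neg_neg, mem_flat]
  by_cases hx : hi ∈ (S x).s
  · right
    ext k
    rw [key, mem_flat]
    refine ⟨fun hk => hk.elim (fun hk => hk.2) fun hk => by omega, fun hk => ?_⟩
    by_cases hk' : k = hi
    · exact Or.inl ⟨hk' ▸ hx, hk⟩
    · right; omega
  · left
    ext k
    rw [key, mem_flat]
    refine ⟨fun hk => hk.elim (fun hk => ?_) id, Or.inr⟩
    have : k ≠ hi := fun h' => hx (h' ▸ hk.1)
    have := hk.2
    omega

end Pool.Agent.P.MP_67bca4_pr
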