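import Pool.Agent.P.MP_67bca4_pr.PT
import Pool.Agent.P.MP_67bca4_pr.Sand

namespace Pool.Agent.P.MP_67bca4_pr

open Finset
open scoped Classical

variable {D : ℕ}

variable {n N : ℕ} {a b : ℝ}

theorem dis_mono (hab : a ≤ b) {ω ω' : Ix D n N → Bool} (h : ∀ i, ω i = true → ω' i = true)
    (x : V D) (o : Option (Fin D)) (k : ℤ) : dis a b ω x o k ≤ dis a b ω' x o k := by
  unfold dis
  split_ifs with h1 h2 h3 h3
  · exact le_rfl
  · exact absurd (h _ h2) h3
  · exact hab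
  · exact le_rfl
  · exact le_rfl

theorem GEc_mono (ha : 0 ≤ a) (hab : a ≤ b) {ξ ξ' : Dis D} (h : TwoV a b ξ) (h' : TwoV a b ξ')
    (hle : ∀ x o k, ξ x o k ≤ ξ' x o k) {K : Conf D → Prop} (hK : ∃ U, K U) :
    GEc n ξ K ≤ GEc n ξ' K := by
  obtain ⟨U, hU⟩ := exists_isMinC (n := n) ha (ha.trans hab) h' hK
  rw [hU.GEc_eq]
  exact (GEc_le (fun x o k => ha.trans (h.le hab x o k).1) hU.1).trans (En_mono hle U)

theorem sum_perturb {I : Type} [DecidableEq I] (hab : a ≤ b) (S : Finset I) {ω ω' : I → Bool}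
    (e₁ e₂ : I) (h : ∀ i, i ≠ e₁ → i ≠ e₂ → ω' i = ω i) :
    ∑ i ∈ S, (if ω' i then b else a) ≤ ∑ i ∈ S, (if ω i then b else a) + 2 * (b - a) := by
  have h1 : ∀ i ∈ S, (if ω' i then b else a) ≤ (if ω i then b else a) +
      ((if i = e₁ then b - a else 0) + if i = e₂ then b - a else 0) := by
    intro i _
    by_cases h1 : i = e₁
    · split_ifs <;> linarith
    by_cases h2 : i = e₂
    · split_ifs <;> linarith
    rw [h i h1 h2]; simp [h1, h2]
  refine (sum_le_sum h1).trans ?_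
  rw [sum_add_distrib, sum_add_distrib, sum_ite_eq', sum_ite_eq']
  split_ifs <;> linarith

/-- A profitable shift for the perturbed disorder is good for the original disorder. -/
theorem good_of_perturb [NeZero N] (hD : 100 ≤ D) (ha : 0 < a) (hab : a ≤ b) (hb : 2 * b < a * D)
    {R : ℕ} (hN : 4 * R < N) (hR : b * ((n : ℝ) + 1) ^ D < a * R) {ω ω' : Ix D n N → Bool}
    (h1 : ∀ i, ω i = true → ω' i = true) (e₁ e₂ : Ix D n N)
    (h2 : ∀ i, i ≠ e₁ → i ≠ e₂ → ω' i = ω i) {y : V D} {s : Fn D} {X : ℕ} (hX : D ^ 3 ≤ X)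
    (hs : Adm n y s (2 * X)) (hg : GE n (shift s (dis a b ω')) + a * X ≤ GE n (dis a b ω')) :
    Good n a (dis a b ω) y s (2 * X) := by
  refine ⟨hs, ?_⟩
  have g1 : GE n (shift s (dis a b ω)) ≤ GE n (shift s (dis a b ω')) :=
    GEc_mono ha.le hab ((twoV_dis a b ω).shift s) ((twoV_dis a b ω').shift s)
      (fun x o k => dis_mono hab h1 _ _ _) ⟨_, cfg_flat n⟩
  obtain ⟨U, hU⟩ := exists_isMinC (n := n) ha.le (ha.le.trans hab) (twoV_dis a b ω)
    ⟨_, cfg_flat n⟩
  have hW := win_of_isMin hD ha hab hb (twoV_dis a b ω) hU hR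
  obtain ⟨S, hS, -, -⟩ := en_linear (n := n) (N := N) (by omega) hW
  have g2 : GE n (dis a b ω') ≤ GE n (dis a b ω) + 2 * (b - a) := by
    have g3 : GE n (dis a b ω') ≤ En n (dis a b ω') U :=
      GEc_le (fun x o k => ha.le.trans ((twoV_dis a b ω').le hab x o k).1) hU.1
    have g4 : GE n (dis a b ω) = En n (dis a b ω) U := hU.GEc_eq
    rw [g4, hS]
    rw [hS] at g3
    exact g3.trans (sum_perturb hab S e₁ e₂ h2)
  have g5 : (2 : ℝ) * D ≤ X := by
    have : 2 * D ≤ D ^ 3 := by nlinarith [Nat.mul_le_mul hD hD]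
    exact_mod_cast this.trans hX
  have g6 : a * (2 * D) ≤ a * X := by gcongr
  push_cast
  linarith

/-- The bad event for one boundary level. -/
def BadEv (n N : ℕ) (a b : ℝ) (x : V D) (h₀ : ℕ) (ω : Ix D n N → Bool) : Prop :=
  (∃ s m, h₀ ≤ m ∧ Good n a (dis a b ω) x s m) ∨ (∃ s m, D ^ 3 ≤ m ∧ Good n a (dis a b ω) x s m) ∨
    ∃ y ∈ inB D n, ∃ s m, h₀ ≤ m ∧ Good n a (dis a b ω) y s m

theorem loc_of_not_bad [NeZero N] (hD : 100 ≤ D) (ha : 0 < a) (hab : a ≤ b) (hb : 2 * b < a * D)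
    {R : ℕ} (hN : 4 * R < N) (hR : b * ((n : ℝ) + 1) ^ D < a * R) {ω ω' : Ix D n N → Bool}
    (h1 : ∀ i, ω i = true → ω' i = true) (e₁ e₂ : Ix D n N)
    (h2 : ∀ i, i ≠ e₁ → i ≠ e₂ → ω' i = ω i) {x : V D} {h₀ : ℕ} (hh : 1 ≤ h₀)
    (hbad : ¬BadEv n N a b x h₀ ω) :
    ∃ U, IsMin n (dis a b ω') U ∧ Win (-(2 * h₀ : ℤ)) (2 * h₀) U ∧ U x = flat 0 := by
  obtain ⟨U, hU⟩ := exists_isMinC (n := n) ha.le (ha.le.trans hab) (twoV_dis a b ω')
    ⟨_, cfg_flat n⟩
  refine ⟨U, hU, ?_, ?_⟩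
  · by_contra hW
    obtain ⟨y, hy, s, X, d1, d2, d3, d4⟩ := det_win hD ha hab hb (twoV_dis a b ω') hU hh hW
    exact hbad (Or.inr (Or.inr ⟨y, hy, s, 2 * X, by omega,
      good_of_perturb hD ha hab hb hN hR h1 e₁ e₂ h2 d1 d3 d4⟩))
  · by_contra hx
    obtain ⟨s, X, d1, -, d3, d4⟩ := det_flat hD ha hab hb (twoV_dis a b ω') hU hx
    exact hbad (Or.inr (Or.inl ⟨s, 2 * X, by omega,
      good_of_perturb hD ha hab hb hN hR h1 e₁ e₂ h2 d1 d3 d4⟩))

theorem slab_nonempty {H : ℕ} (hH : 1 ≤ H) : ∃ U : Conf D, Slab n H U :=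
  ⟨fun _ => flat (((H : ℤ) - 1) / 2), fun _ => ⟨fun k hk => by simp only [mem_flat]; omega,
    fun k hk => by simp only [mem_flat] at hk; omega⟩,
    fun _ _ => ⟨fun k hk => hk, fun k hk => by simp only [mem_flat] at hk; omega⟩⟩

/-- An edge used by a minimiser is essential. -/
theorem drop_of_flat [NeZero N] {H : ℕ} (hN : H < N) (ha : 0 ≤ a) (hab : a ≤ b)
    {ω : Ix D n N → Bool} {U : Conf D} (hU : IsMinC n (dis a b ω) (Slab n H) U) {x : V D}
    (hx : x ∈ hatB D n) {c : ℤ} (hc : U x = flat c)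
    (he : ω (⟨x, hx⟩, none, (c : ZMod N)) = true) :
    b - a ≤ GEc n (dis a b ω) (Slab n H) -
      GEc n (dis a b (Function.update ω (⟨x, hx⟩, none, (c : ZMod N)) false)) (Slab n H) := by
  obtain ⟨S, hS, -, hS'⟩ := en_linear (n := n) (N := N) (by omega) hU.1.1
  have hm := hS' x hx c (by simp [hc])
  have g1 := GEc_le (n := n) (fun y o k => ha.trans ((twoV_dis a b
    (Function.update ω (⟨x, hx⟩, none, (c : ZMod N)) false)).le hab y o k).1) hU.1
  rw [hU.GEc_eq, hS]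
  rw [hS, ← add_sum_erase _ _ hm] at g1
  rw [← add_sum_erase _ _ hm, he]
  rw [Function.update_self, sum_congr rfl (g := fun i => if ω i then b else a)
    (fun i hi => by rw [Function.update_of_ne (mem_erase.1 hi).1])] at g1
  simp only [Bool.false_eq_true, if_false, if_true] at g1 ⊢
  linarith

theorem Ex_update_le {I : Type} [Fintype I] [DecidableEq I] {p : ℝ} (h0 : 0 ≤ p) (h1 : p ≤ 1)
    (e : I) {f : (I → Bool) → ℝ} (hf : ∀ ω, 0 ≤ f ω) :
    p * Ex p (fun ω => f (Function.update ω e true)) ≤ Ex p f := by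
  rw [Ex_update e f]
  have : 0 ≤ Ex p fun ω => f (Function.update ω e false) :=
    sum_nonneg fun ω _ => mul_nonneg (wt_nonneg h0 h1 ω) (hf _)
  have := mul_nonneg (sub_nonneg.2 h1) this
  linarith

/-- Two edges, one of which is essential with probability at least one half. -/
theorem two_edges {I : Type} [Fintype I] [DecidableEq I] {p : ℝ} (h0 : 0 ≤ p) (h1 : p ≤ 1)
    (f : (I → Bool) → ℝ) (hf : ∀ ω e, f (Function.update ω e false) ≤ f (Function.update ω e true))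
    (e₁ e₂ : I) {δ : ℝ} (hδ : 0 ≤ δ) (B : (I → Bool) → Prop) (hB : Pr p B ≤ 1 / 2)
    (h : ∀ ω, ¬B ω → ∃ e, (e = e₁ ∨ e = e₂) ∧
      δ ≤ f (Function.update (Function.update ω e₁ true) e₂ true) -
        f (Function.update (Function.update (Function.update ω e₁ true) e₂ true) e false)) :
    ∃ e, (e = e₁ ∨ e = e₂) ∧
      p * δ / 4 ≤ Ex p fun ω => f (Function.update ω e true) - f (Function.update ω e false) := by
  set T : (I → Bool) → I → Bool := fun ω => Function.update (Function.update ω e₁ true) e₂ true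
    with hT
  set d : I → (I → Bool) → ℝ := fun e ω =>
    f (Function.update ω e true) - f (Function.update ω e false) with hd
  have d0 : ∀ e ω, 0 ≤ d e ω := fun e ω => sub_nonneg.2 (hf ω e)
  have t1 : ∀ ω, Function.update (T ω) e₁ true = T ω := by
    intro ω; funext i
    by_cases h1 : i = e₁ <;> by_cases h2 : i = e₂ <;> simp [hT, Function.update_apply, h1, h2]
  have t2 : ∀ ω, Function.update (T ω) e₂ true = T ω := by
    intro ω; simp [hT]
  have k1 : p * Ex p (fun ω => d e₁ (T ω)) ≤ Ex p (d e₁) := by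
    have e : (fun ω => d e₁ (T ω)) = fun ω => d e₁ (Function.update ω e₂ true) := by
      funext ω
      have : ∀ v, Function.update (T ω) e₁ v = Function.update (Function.update ω e₂ true) e₁ v := by
        intro v; funext i
        by_cases h1 : i = e₁ <;> by_cases h2 : i = e₂ <;> simp [hT, Function.update_apply, h1, h2]
      simp only [hd, this]
    rw [e]
    exact Ex_update_le h0 h1 e₂ (d0 e₁)
  have k2 : p * Ex p (fun ω => d e₂ (T ω)) ≤ Ex p (d e₂) := by
    have e : (fun ω => d e₂ (T ω)) = fun ω => d e₂ (Function.update ω e₁ true) := by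
      funext ω
      simp only [hd, hT, Function.update_idem]
    rw [e]
    exact Ex_update_le h0 h1 e₁ (d0 e₂)
  have k3 : δ * Pr p (fun ω => ¬B ω) ≤ Ex p fun ω => d e₁ (T ω) + d e₂ (T ω) := by
    refine Pr_le_Ex h0 h1 (fun ω => add_nonneg (d0 _ _) (d0 _ _)) fun ω hω => ?_
    obtain ⟨e, rfl | rfl, h2⟩ := h ω hω
    · have : δ ≤ d e (T ω) := by simp only [hd, t1]; exact h2
      linarith [d0 e₂ (T ω)]
    · have : δ ≤ d e (T ω) := by simp only [hd, t2]; exact h2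
      linarith [d0 e₁ (T ω)]
  rw [Pr_not, Ex_add] at k3
  have k4 : δ * (1 / 2) ≤ δ * (1 - Pr p B) := by gcongr; linarith
  have k5 := mul_le_mul_of_nonneg_left (k4.trans k3) h0
  by_contra hc
  push Not at hc
  have c1 := hc e₁ (Or.inl rfl)
  have c2 := hc e₂ (Or.inr rfl)
  change Ex p (d e₁) < _ at c1
  change Ex p (d e₂) < _ at c2
  linarith

/-- The variance bound in the finite model. -/
theorem fin_var {ρ : ℝ} (hρ : 1 ≤ ρ) : ∃ D₀ : ℕ, ∀ D ≥ D₀, ∃ C : ℝ,
    ∀ a b : ℝ, 0 < a → a < b → b ≤ ρ * a → ∀ p : ℝ, 0 ≤ p → p ≤ 1 →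
    ∀ n H : ℕ, 2 ≤ n → C * Real.log n ^ 2 ≤ H → 1 ≤ H ∧ ∃ N₀ : ℕ, ∀ (N : ℕ) [NeZero N], N₀ ≤ N →
      p * (1 - p) * (p * (b - a) / 4) ^ 2 * ((n : ℝ) - 1) ^ D ≤
        Vr p fun ω : Ix D n N → Bool => GEc n (dis a b ω) (Slab n H) := by
  obtain ⟨D₀, hD₀, hρD, hPT⟩ := good_tail hρ
  refine ⟨D₀, fun D hDD => ?_⟩
  obtain ⟨C, hC⟩ := num_height D
  refine ⟨C, fun a b ha hab hρb p h0 h1 n H hn hH => ?_⟩
  obtain ⟨H5, hh1, hh2⟩ := hC n H hn hH
  have hD : 100 ≤ D := hD₀.trans hDD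
  have hb : 2 * b < a * D := by
    have : (D₀ : ℝ) ≤ D := by exact_mod_cast hDD
    nlinarith
  set h₀ := (H - 1) / 4 with hh₀
  obtain ⟨R, hR⟩ := exists_nat_gt (b * ((n : ℝ) + 1) ^ D / a)
  rw [div_lt_iff₀' ha] at hR
  refine ⟨by omega, 4 * R + H + 1, fun N _ hN => ?_⟩
  have hD3 : 1000000 ≤ D ^ 3 := le_trans (by norm_num) (Nat.pow_le_pow_left hD 3)
  set f : (Ix D n N → Bool) → ℝ := fun ω => GEc n (dis a b ω) (Slab n H) with hf
  have hbadP : ∀ x : V D, Pr p (BadEv n N a b x h₀) ≤ 1 / 4 := by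
    intro x
    have q1 := fun r => hPT D hDD a b ha hab hρb p h0 h1 n N R (by omega) hR r h₀ hh1
    have q2 := hPT D hDD a b ha hab hρb p h0 h1 n N R (by omega) hR x _ le_rfl
    have q3 := (Pr_union h0 h1 (inB D n) fun y (ω : Ix D n N → Bool) =>
      ∃ s m, h₀ ≤ m ∧ Good n a (dis a b ω) y s m).trans (sum_le_card_nsmul _ _ _ fun y _ => q1 y)
    rw [card_inB, nsmul_eq_mul] at q3
    have q4 : Real.exp (-√((D ^ 3 : ℕ) : ℝ)) ≤ 1 / 8 := by
      have h2 : (7 : ℝ) ≤ √((D ^ 3 : ℕ) : ℝ) := by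
        refine Real.le_sqrt_of_sq_le ?_
        exact_mod_cast (by omega : 7 ^ 2 ≤ D ^ 3)
      rw [Real.exp_neg, one_div]
      refine inv_anti₀ (by norm_num) ?_
      linarith [Real.add_one_le_exp √((D ^ 3 : ℕ) : ℝ)]
    have q5 : (((n - 1) ^ D : ℕ) : ℝ) + 1 ≤ ((n : ℝ) + 1) ^ D := by
      have : (n - 1) ^ D < (n + 1) ^ D := Nat.pow_lt_pow_left (by omega) (by omega)
      exact_mod_cast this
    have q6 := mul_le_mul_of_nonneg_right q5 (Real.exp_nonneg (-√(h₀ : ℝ)))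
    refine (Pr_or h0 h1 _ _).trans ((add_le_add (q1 x) ((Pr_or h0 h1 _ _).trans
      (add_le_add q2 q3))).trans ?_)
    linarith
  have key : ∀ x : {x // x ∈ inB D n}, ∃ e : Ix D n N, e.1.1 = x.1 ∧
      p * (b - a) / 4 ≤
        Ex p fun ω => f (Function.update ω e true) - f (Function.update ω e false) := by
    rintro ⟨x, hx⟩
    have hx' := inB_sub_hatB hx
    set lo : ℤ := ((H : ℤ) - 1) / 2 with hlo
    set hi : ℤ := (H : ℤ) / 2 with hhi
    set e₁ : Ix D n N := (⟨x, hx'⟩, none, (lo : ZMod N)) with he₁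
    set e₂ : Ix D n N := (⟨x, hx'⟩, none, (hi : ZMod N)) with he₂
    obtain ⟨e, he, h2⟩ := two_edges h0 h1 f (fun ω e => GEc_mono ha.le hab.le (twoV_dis _ _ _)
      (twoV_dis _ _ _) (dis_mono hab.le fun i => by
        by_cases hi : i = e <;> simp [hi]) (slab_nonempty (by omega)))
      e₁ e₂ (sub_pos.2 hab).le
      (fun ω => BadEv n N a b x h₀ (ω ∘ sperm fun _ => lo) ∨
        BadEv n N a b x h₀ (ω ∘ sperm fun _ => hi))
      ((Pr_or h0 h1 _ _).trans (by
        rw [Pr_perm _ (BadEv n N a b x h₀), Pr_perm _ (BadEv n N a b x h₀)]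
        linarith [hbadP x])) (by
      intro ω hω
      rw [not_or] at hω
      set ω' := Function.update (Function.update ω e₁ true) e₂ true with hω'
      have m1 : ∀ i, ω i = true → ω' i = true := by
        intro i hi
        by_cases h1 : i = e₁ <;> by_cases h2 : i = e₂ <;>
          simp [hω', Function.update_apply, h1, h2, hi]
      have m2 : ∀ i, i ≠ e₁ → i ≠ e₂ → ω' i = ω i := by
        intro i h1 h2; simp [hω', h1, h2]
      have loc : ∀ c : ℤ, ¬BadEv n N a b x h₀ (ω ∘ sperm fun _ => c) →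
          ∃ U, IsMin n (shift (fun _ => c) (dis a b ω')) U ∧
            Win (-(2 * h₀ : ℤ)) (2 * h₀) U ∧ U x = flat 0 := by
        intro c hc
        rw [shift_dis]
        refine loc_of_not_bad hD ha hab.le hb (by omega) hR (fun i => m1 _)
          ((sperm fun _ => c).symm e₁) ((sperm fun _ => c).symm e₂)
          (fun i h1 h2 => m2 _ ?_ ?_) (by omega) hc
        · exact fun h => h1 (by rw [← h]; simp)
        · exact fun h => h2 (by rw [← h]; simp)
      obtain ⟨U₁, u1, u2, u3⟩ := loc lo hω.1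
      obtain ⟨U₂, v1, v2, v3⟩ := loc hi hω.2
      obtain ⟨U, hU, hx2⟩ := sandwich (by omega) ha.le hab.le (twoV_dis a b ω') (by omega)
        u1 v1 u2 v2 u3 v3
      rcases hx2 with hx2 | hx2
      · refine ⟨e₁, Or.inl rfl, drop_of_flat (by omega) ha.le hab.le hU hx' hx2 ?_⟩
        change ω' e₁ = true
        by_cases h2 : e₁ = e₂ <;> simp [hω', h2]
      · refine ⟨e₂, Or.inr rfl, drop_of_flat (by omega) ha.le hab.le hU hx' hx2 ?_⟩
        change ω' e₂ = true
        simp [hω'])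
    refine ⟨e, ?_, h2⟩
    rcases he with rfl | rfl <;> rfl
  choose g g1 g2 using key
  have ginj : Function.Injective g := fun x y h => Subtype.ext (by rw [← g1, ← g1, h])
  refine le_trans ?_ (bessel h0 h1 f (univ.image g))
  rw [sum_image fun x _ y _ h => ginj h]
  refine le_trans ?_ (card_nsmul_le_sum univ _ (p * (1 - p) * (p * (b - a) / 4) ^ 2)
    fun x _ => ?_)
  · rw [card_univ, Fintype.card_coe, card_inB, nsmul_eq_mul, mul_comm, Nat.cast_pow,
      Nat.cast_sub (by omega), Nat.cast_one]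
  · have h2 : 0 ≤ p * (b - a) / 4 := by
      have := sub_pos.2 hab
      positivity
    have h3 : 0 ≤ p * (1 - p) := mul_nonneg h0 (sub_nonneg.2 h1)
    gcongr
    exact g2 x

end Pool.Agent.P.MP_67bca4_pr
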