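import Pool.Agent.P.MP_67bca4_pr.Defs

namespace Pool.Agent.P.MP_67bca4_pr

open Finset
open scoped Classical

variable {D : ℕ}

/-- The edges with both ends in `A`. -/
noncomputable def isoInner (A : Finset (V D)) : Finset (Ed D) :=
  (A ×ˢ univ).filter fun e => tip e ∈ A

lemma mem_isoInner {A : Finset (V D)} {e : Ed D} : e ∈ isoInner A ↔ e.1 ∈ A ∧ tip e ∈ A := by
  simp [isoInner]

lemma iso_arith {a b x : ℕ} (ha : x ≤ a) (hb : x ≤ b) :
    a ^ a * b ^ b * 2 ^ x ≤ (a + b) ^ (a + b) := by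
  have key : ∀ a b : ℕ, x ≤ a → a ≤ b → a ^ a * b ^ b * 2 ^ x ≤ (a + b) ^ (a + b) := by
    intro a b ha hab
    calc a ^ a * b ^ b * 2 ^ x ≤ a ^ a * b ^ b * 2 ^ a :=
          Nat.mul_le_mul_left _ (Nat.pow_le_pow_right (by norm_num) ha)
      _ = (2 * a) ^ a * b ^ b := by rw [mul_pow]; ring
      _ ≤ (a + b) ^ a * (a + b) ^ b :=
          Nat.mul_le_mul (Nat.pow_le_pow_left (by omega) _) (Nat.pow_le_pow_left (by omega) _)
      _ = (a + b) ^ (a + b) := by rw [pow_add]
  rcases le_total a b with h | h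
  · exact key a b ha h
  · have := key b a hb h
    rwa [mul_comm (b ^ b), add_comm b a] at this

lemma iso_split (A : Finset (V D)) (i : Fin D) (c : ℤ) :
    ∃ x : ℕ, x ≤ (A.filter fun z => z i ≤ c).card ∧ x ≤ (A.filter fun z => ¬ z i ≤ c).card ∧
      (isoInner A).card ≤ (isoInner (A.filter fun z => z i ≤ c)).card +
        (isoInner (A.filter fun z => ¬ z i ≤ c)).card + x := by
  set X : Finset (Ed D) := (isoInner A).filter fun e => e.1 i ≤ c ∧ ¬ tip e i ≤ c with hX
  have hdir : ∀ e ∈ X, e.2 = i := by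
    intro e he
    obtain ⟨-, h1, h2⟩ := mem_filter.1 he
    by_contra hne
    apply h2
    simp only [tip, Pi.add_apply, ee_ne (Ne.symm hne), add_zero]
    exact h1
  refine ⟨X.card, ?_, ?_, ?_⟩
  · refine card_le_card_of_injOn (fun e => e.1) (fun e he => ?_) (fun e he e' he' h => ?_)
    · obtain ⟨h0, h1, -⟩ := mem_filter.1 (mem_coe.1 he)
      exact mem_coe.2 (mem_filter.2 ⟨(mem_isoInner.1 h0).1, h1⟩)
    · exact Prod.ext h ((hdir e he).trans (hdir e' he').symm)
  · refine card_le_card_of_injOn (fun e => tip e) (fun e he => ?_) (fun e he e' he' h => ?_)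
    · obtain ⟨h0, -, h2⟩ := mem_filter.1 (mem_coe.1 he)
      exact mem_coe.2 (mem_filter.2 ⟨(mem_isoInner.1 h0).2, h2⟩)
    · have h1 := hdir e he
      have h2 := hdir e' he'
      refine Prod.ext ?_ (h1.trans h2.symm)
      simp only [tip, h1, h2] at h
      exact add_right_cancel h
  · refine le_trans (card_le_card (t := isoInner (A.filter fun z => z i ≤ c) ∪
      isoInner (A.filter fun z => ¬ z i ≤ c) ∪ X) fun e he => ?_) ?_
    · have h0 := mem_isoInner.1 he
      have hle : e.1 i ≤ tip e i := by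
        simp only [tip, Pi.add_apply, ee_apply]; split_ifs <;> omega
      simp only [mem_union, mem_isoInner, mem_filter, hX]
      by_cases h1 : e.1 i ≤ c
      · by_cases h2 : tip e i ≤ c
        · exact Or.inl (Or.inl ⟨⟨h0.1, h1⟩, h0.2, h2⟩)
        · exact Or.inr ⟨h0, h1, h2⟩
      · exact Or.inl (Or.inr ⟨⟨h0.1, h1⟩, h0.2, by omega⟩)
    · exact (card_union_le _ _).trans (Nat.add_le_add_right (card_union_le _ _) _)

lemma iso_inner_pow (n : ℕ) : ∀ A : Finset (V D), A.card = n →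
    2 ^ (isoInner A).card ≤ n ^ n := by
  induction n using Nat.strong_induction_on with
  | _ n ih =>
    intro A hA
    by_cases h1 : A.card ≤ 1
    · have : isoInner A = ∅ := by
        refine eq_empty_of_forall_notMem fun e he => ?_
        obtain ⟨h2, h3⟩ := mem_isoInner.1 he
        have h4 := congrFun (card_le_one.1 h1 _ h2 _ h3) e.2
        simp [tip] at h4
      rw [this, card_empty, pow_zero]
      have : n = 0 ∨ n = 1 := by omega
      rcases this with rfl | rfl <;> simp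
    · have main : ∀ x ∈ A, ∀ y ∈ A, ∀ i, x i < y i → 2 ^ (isoInner A).card ≤ n ^ n := by
        intro x hx y hy i hlt
        obtain ⟨t, h2, h3, h4⟩ := iso_split A i (x i)
        have hsum := card_filter_add_card_filter_not (s := A) (fun z => z i ≤ x i)
        have p1 : 0 < (A.filter fun z => z i ≤ x i).card :=
          card_pos.2 ⟨x, mem_filter.2 ⟨hx, le_rfl⟩⟩
        have p2 : 0 < (A.filter fun z => ¬ z i ≤ x i).card :=
          card_pos.2 ⟨y, mem_filter.2 ⟨hy, not_le.2 hlt⟩⟩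
        have i1 := ih _ (by omega) (A.filter fun z => z i ≤ x i) rfl
        have i2 := ih _ (by omega) (A.filter fun z => ¬ z i ≤ x i) rfl
        have := iso_arith h2 h3
        rw [hsum, hA] at this
        refine le_trans (Nat.pow_le_pow_right (by norm_num) h4) (le_trans ?_ this)
        rw [pow_add, pow_add]
        exact Nat.mul_le_mul_right _ (Nat.mul_le_mul i1 i2)
      obtain ⟨x, hx, y, hy, hxy⟩ := one_lt_card.1 (not_le.1 h1)
      obtain ⟨i, hi⟩ := Function.ne_iff.1 hxy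
      rcases lt_or_gt_of_ne hi with h | h
      · exact main x hx y hy i h
      · exact main y hy x hx i h

lemma iso_exit (A : Finset (V D)) (B : Finset (Ed D))
    (hB : ∀ e : Ed D, ¬(e.1 ∈ A ↔ tip e ∈ A) → e ∈ B) (i : Fin D) (x : V D) (hx : x ∈ A) :
    ∃ e ∈ B, ∀ j, j ≠ i → e.1 j = x j := by
  obtain ⟨y, hy, hmax⟩ := exists_max_image (A.filter fun z => ∀ j, j ≠ i → z j = x j)
    (fun z => z i) ⟨x, mem_filter.2 ⟨hx, fun _ _ => rfl⟩⟩
  obtain ⟨hy1, hy2⟩ := mem_filter.1 hy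
  refine ⟨(y, i), hB _ fun h => ?_, hy2⟩
  have h1 : y + ee i ∈ A := h.1 hy1
  have h2 := hmax (y + ee i) (mem_filter.2 ⟨h1, fun j hj => by
    simp only [Pi.add_apply, ee_ne hj, add_zero]; exact hy2 j hj⟩)
  simp at h2

lemma iso_card_sq (hD : 2 ≤ D) (A : Finset (V D)) (B : Finset (Ed D))
    (hB : ∀ e : Ed D, ¬(e.1 ∈ A ↔ tip e ∈ A) → e ∈ B) : A.card ≤ B.card ^ 2 := by
  choose! f hf1 hf2 using iso_exit A B hB
  let i0 : Fin D := ⟨0, by omega⟩
  let i1 : Fin D := ⟨1, by omega⟩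
  have hne : i0 ≠ i1 := by simp [i0, i1]
  rw [sq, ← card_product]
  refine card_le_card_of_injOn (fun x => (f i0 x, f i1 x)) (fun x hx => ?_)
    (fun x hx y hy h => ?_)
  · exact mem_coe.2 (mem_product.2 ⟨hf1 i0 x hx, hf1 i1 x hx⟩)
  · obtain ⟨h0, h1⟩ := Prod.mk.inj h
    funext j
    by_cases hj : j = i0
    · have hj1 : j ≠ i1 := hj ▸ hne
      rw [← hf2 i1 x hx j hj1, ← hf2 i1 y hy j hj1, h1]
    · rw [← hf2 i0 x hx j hj, ← hf2 i0 y hy j hj, h0]

lemma iso_pow_le (hD : 100 ≤ D) : D ^ 12 ≤ 2 ^ D := by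
  induction D, hD using Nat.le_induction with
  | base => norm_num
  | succ n hn ih =>
    have h1 : (100 * (n + 1)) ^ 12 ≤ (101 * n) ^ 12 := Nat.pow_le_pow_left (by omega) _
    rw [mul_pow, mul_pow] at h1
    have h2 : 101 ^ 12 * n ^ 12 ≤ 100 ^ 12 * (2 * n ^ 12) := by
      rw [← mul_assoc]; exact Nat.mul_le_mul_right _ (by norm_num)
    have h3 : (n + 1) ^ 12 ≤ 2 * n ^ 12 := Nat.le_of_mul_le_mul_left (h1.trans h2) (by norm_num)
    rw [pow_succ 2 n]
    omega

lemma iso_count (A : Finset (V D)) (B : Finset (Ed D))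
    (hB : ∀ e : Ed D, ¬(e.1 ∈ A ↔ tip e ∈ A) → e ∈ B) :
    2 * (D * A.card) ≤ 2 * (isoInner A).card + B.card := by
  have hsum := card_filter_add_card_filter_not (s := B) (fun e => e.1 ∈ A)
  have hc : (A ×ˢ (univ : Finset (Fin D))).card = D * A.card := by simp [mul_comm]
  have h1 : D * A.card ≤ (isoInner A).card + (B.filter fun e => e.1 ∈ A).card := by
    rw [← hc]
    refine le_trans (card_le_card fun e he => ?_) (card_union_le _ _)
    have h0 := (mem_product.1 he).1
    by_cases h : tip e ∈ A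
    · exact mem_union_left _ (mem_isoInner.2 ⟨h0, h⟩)
    · exact mem_union_right _ (mem_filter.2 ⟨hB e fun hh => h (hh.1 h0), h0⟩)
  have h2 : D * A.card ≤ (isoInner A).card + (B.filter fun e => ¬ e.1 ∈ A).card := by
    rw [← hc]
    refine le_trans (card_le_card_of_injOn (fun e => (e.1 - ee e.2, e.2)) (fun e he => ?_)
      (fun e _ e' _ h => ?_)) (card_union_le _ _)
    · have h0 := (mem_product.1 (mem_coe.1 he)).1
      have ht : tip (e.1 - ee e.2, e.2) ∈ A := by simpa using h0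
      refine mem_coe.2 ?_
      by_cases h : e.1 - ee e.2 ∈ A
      · exact mem_union_left _ (mem_isoInner.2 ⟨h, ht⟩)
      · exact mem_union_right _ (mem_filter.2 ⟨hB _ fun hh => h (hh.2 ht), h⟩)
    · obtain ⟨h3, h4⟩ := Prod.mk.inj h
      refine Prod.ext ?_ h4
      rw [h4] at h3
      exact sub_left_injective h3
  omega

/-- Small sets have a large edge boundary in high dimension. -/
theorem iso_small (hD : 100 ≤ D) (A : Finset (V D)) (B : Finset (Ed D))
    (hB : ∀ e : Ed D, ¬(e.1 ∈ A ↔ tip e ∈ A) → e ∈ B) (h : B.card ≤ D ^ 3) :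
    D * A.card ≤ B.card := by
  have h1 := iso_inner_pow _ A rfl
  have h2 : A.card ≤ D ^ 6 :=
    (iso_card_sq (by omega) A B hB).trans (by
      calc B.card ^ 2 ≤ (D ^ 3) ^ 2 := Nat.pow_le_pow_left h _
        _ = D ^ 6 := by ring)
  have h3 : 2 ^ (2 * (isoInner A).card) ≤ 2 ^ (D * A.card) := by
    calc 2 ^ (2 * (isoInner A).card) = (2 ^ (isoInner A).card) ^ 2 := by rw [← pow_mul, mul_comm]
      _ ≤ (A.card ^ A.card) ^ 2 := Nat.pow_le_pow_left h1 _
      _ ≤ ((D ^ 6) ^ A.card) ^ 2 := Nat.pow_le_pow_left (Nat.pow_le_pow_left h2 _) _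
      _ = (D ^ 12) ^ A.card := by rw [← pow_mul, ← pow_mul, ← pow_mul]; congr 1; ring
      _ ≤ (2 ^ D) ^ A.card := Nat.pow_le_pow_left (iso_pow_le hD) _
      _ = 2 ^ (D * A.card) := by rw [← pow_mul]
  have h4 := (Nat.pow_le_pow_iff_right (by norm_num : 1 < 2)).1 h3
  have h5 := iso_count A B hB
  omega

end Pool.Agent.P.MP_67bca4_pr
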