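import Pool.Agent.P.MP_67bca4_pr.Prim
import Pool.Agent.P.MP_67bca4_pr.Iso

namespace Pool.Agent.P.MP_67bca4_pr

open Finset
open scoped Classical

variable {D : ℕ}

/-- The set of columns to flip at height `k`. -/
lemma exists_flip (hD : 100 ≤ D) {n : ℕ} {U : Conf D} (hU : Cfg n U) {K : Finset (Ed D)}
    (hK : Closed (JU n U) K) (hc : K.card ≤ D ^ 3) (k : ℤ) :
    ∃ A : Finset (V D), A ⊆ inB D n ∧
      (∀ e : Ed D, ¬(e.1 ∈ A ↔ tip e ∈ A) ↔ e ∈ K ∧ k ∈ dif (U e.1) (U (tip e))) ∧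
      D * A.card ≤ (K.filter fun e => k ∈ dif (U e.1) (U (tip e))).card := by
  let g : V D → ℤ := fun x => (if k ∈ (U x).s then 1 else 0) - (if k ≤ 0 then 1 else 0)
  have hg : Supp n g := by
    intro x hx
    simp only [g, hU x hx, mem_flat, sub_self]
  have hJ : ∀ e, grad g e ≠ 0 → e ∈ JU n U := by
    intro e he
    rw [hU.mem_JU]
    intro h
    apply he
    simp only [grad, g, h, sub_self]
  obtain ⟨s, hs, hs'⟩ := exists_prim (by omega) g hg hJ hK
  have hmem : ∀ x, x ∈ (inB D n).filter (fun x => s x % 2 = 1) ↔ s x % 2 = 1 := by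
    intro x
    rw [mem_filter]
    refine ⟨fun h => h.2, fun h => ⟨?_, h⟩⟩
    by_contra hx
    rw [hs x hx] at h
    omega
  have key : ∀ e : Ed D, ¬(e.1 ∈ (inB D n).filter (fun x => s x % 2 = 1) ↔
      tip e ∈ (inB D n).filter (fun x => s x % 2 = 1)) ↔
      e ∈ K ∧ k ∈ dif (U e.1) (U (tip e)) := by
    intro e
    rw [hmem, hmem, mem_dif]
    have h1 := hs' e
    simp only [grad, g] at h1
    by_cases he : e ∈ K <;> by_cases h2 : k ∈ (U e.1).s <;> by_cases h3 : k ∈ (U (tip e)).s <;>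
      simp only [he, h2, h3, if_true, if_false] at h1 ⊢ <;> simp <;> omega
  refine ⟨_, filter_subset _ _, key, iso_small hD _ _ (fun e he => ?_) ?_⟩
  · exact mem_filter.2 ((key e).1 he)
  · exact (card_filter_le _ _).trans hc

lemma sum_le_of_sub_union {w : ℤ → ℝ} {b : ℝ} (h0 : ∀ k, 0 ≤ w k) (h1 : ∀ k, w k ≤ b)
    {S S' T : Finset ℤ} (h : S' ⊆ S ∪ T) : ∑ k ∈ S', w k ≤ ∑ k ∈ S, w k + b * T.card := by
  have e1 : ∑ k ∈ S', w k ≤ ∑ k ∈ S ∪ T, w k :=
    sum_le_sum_of_subset_of_nonneg h fun k _ _ => h0 k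
  have e2 := sum_union_inter (s₁ := S) (s₂ := T) (f := w)
  have e3 : 0 ≤ ∑ k ∈ S ∩ T, w k := sum_nonneg fun k _ => h0 k
  have e4 : ∑ k ∈ T, w k ≤ T.card • b := sum_le_card_nsmul _ _ _ fun k _ => h1 k
  rw [nsmul_eq_mul] at e4
  linarith

/-- In a minimiser all contour components are large. -/
theorem big_of_isMin (hD : 100 ≤ D) {n : ℕ} {a b : ℝ} (ha : 0 < a) (hb : 2 * b < a * D)
    {ξ : Dis D} (h : ∀ x o k, a ≤ ξ x o k ∧ ξ x o k ≤ b) {U : Conf D} (hU : IsMin n ξ U) :
    Big (JU n U) := by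
  intro K hK hne
  by_contra hc
  have hc' : K.card ≤ D ^ 3 := by omega
  choose A hA1 hA2 hA3 using exists_flip hD hU.1 hK hc'
  set H : Finset ℤ := K.biUnion fun e => dif (U e.1) (U (tip e)) with hH
  have hAH : ∀ k x, x ∈ A k → k ∈ H := by
    intro k x hx
    have h1 : 0 < (A k).card := card_pos.2 ⟨x, hx⟩
    have h2 : 0 < D * (A k).card := Nat.mul_pos (by omega) h1
    obtain ⟨e, he⟩ := card_pos.1 (h2.trans_le (hA3 k))
    exact mem_biUnion.2 ⟨e, mem_filter.1 he⟩
  let U' : Conf D := fun x => ⟨{k | ¬(k ∈ (U x).s ↔ x ∈ A k)},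
    ((U x).fin.union H.finite_toSet).subset fun k hk => by
      by_cases hx : x ∈ A k
      · exact Or.inr (hAH k x hx)
      · left
        simp only [Set.mem_ofPred_eq, hx] at hk ⊢
        tauto⟩
  have hU' : ∀ x k, k ∈ (U' x).s ↔ ¬(k ∈ (U x).s ↔ x ∈ A k) := fun _ _ => Iff.rfl
  have hcfg : Cfg n U' := by
    intro x hx
    ext k
    have : x ∉ A k := fun h1 => hx (hA1 k h1)
    rw [hU', hU.1 x hx]
    tauto
  have h0 : ∀ x o k, 0 ≤ ξ x o k := fun x o k => ha.le.trans (h x o k).1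
  have hb0 : 0 ≤ b := (h0 0 none 0).trans (h 0 none 0).2
  -- vertical part
  have hv : ∀ x, ∑ k ∈ bd (U' x), ξ x none k ≤
      ∑ k ∈ bd (U x), ξ x none k + 2 * b * (H.filter fun k => x ∈ A k).card := by
    intro x
    set T := H.filter fun k => x ∈ A k with hT
    have hs : bd (U' x) ⊆ bd (U x) ∪ (T ∪ T.image fun k => k - 1) := by
      intro k hk
      rw [mem_bd, hU', hU'] at hk
      by_cases h1 : x ∈ A k
      · exact mem_union_right _ (mem_union_left _ (mem_filter.2 ⟨hAH k x h1, h1⟩))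
      by_cases h2 : x ∈ A (k + 1)
      · exact mem_union_right _ (mem_union_right _
          (mem_image.2 ⟨k + 1, mem_filter.2 ⟨hAH _ x h2, h2⟩, by ring⟩))
      refine mem_union_left _ (mem_bd.2 ?_)
      tauto
    refine (sum_le_of_sub_union (h0 x none) (fun k => (h x none k).2) hs).trans ?_
    have h3 : (T ∪ T.image fun k => k - 1).card ≤ 2 * T.card :=
      (card_union_le _ _).trans (by have := card_image_le (s := T) (f := fun k => k - 1); omega)
    have h4 : ((T ∪ T.image fun k => k - 1).card : ℝ) ≤ 2 * T.card := by exact_mod_cast h3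
    nlinarith
  have hv2 : ∑ x ∈ hatB D n, (H.filter fun k => x ∈ A k).card ≤ ∑ k ∈ H, (A k).card := by
    simp only [card_filter]
    rw [sum_comm]
    refine sum_le_sum fun k _ => ?_
    rw [← card_filter]
    exact card_le_card fun x hx => (mem_filter.1 hx).2
  -- horizontal part
  have hh : ∀ e : Ed D, ∑ k ∈ dif (U' e.1) (U' (tip e)), ξ e.1 (some e.2) k +
      a * (if e ∈ K then ((dif (U e.1) (U (tip e))).card : ℝ) else 0) ≤
      ∑ k ∈ dif (U e.1) (U (tip e)), ξ e.1 (some e.2) k := by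
    intro e
    by_cases he : e ∈ K
    · have : dif (U' e.1) (U' (tip e)) = ∅ := by
        ext k
        have := hA2 k e
        rw [mem_dif] at this
        rw [mem_dif, hU', hU']
        simp only [notMem_empty]
        tauto
      rw [this, if_pos he, sum_empty, zero_add]
      have e4 := card_nsmul_le_sum (dif (U e.1) (U (tip e))) (fun k => ξ e.1 (some e.2) k) a
        fun k _ => (h _ _ k).1
      rw [nsmul_eq_mul] at e4
      linarith
    · have : dif (U' e.1) (U' (tip e)) = dif (U e.1) (U (tip e)) := by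
        ext k
        have := hA2 k e
        rw [mem_dif, mem_dif, hU', hU']
        tauto
      rw [this, if_neg he]
      simp
  have hKe : K ⊆ edB D n := hK.1.trans (filter_subset _ _)
  have hh2 : ∑ e ∈ edB D n, (if e ∈ K then ((dif (U e.1) (U (tip e))).card : ℝ) else 0) =
      ∑ e ∈ K, ((dif (U e.1) (U (tip e))).card : ℝ) := by
    rw [← sum_filter, filter_mem_eq_inter, inter_eq_right.2 hKe]
  have hh3 : ∑ k ∈ H, (K.filter fun e => k ∈ dif (U e.1) (U (tip e))).card =
      ∑ e ∈ K, (dif (U e.1) (U (tip e))).card := by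
    simp only [card_filter]
    rw [sum_comm]
    refine sum_congr rfl fun e he => ?_
    rw [← card_filter, filter_mem_eq_inter, inter_eq_right.2]
    exact subset_biUnion_of_mem (fun e => dif (U e.1) (U (tip e))) he
  have hpos : 0 < ∑ e ∈ K, (dif (U e.1) (U (tip e))).card := by
    refine sum_pos (fun e he => card_pos.2 (nonempty_iff_ne_empty.2 fun h1 => ?_)) hne
    exact (mem_filter.1 (hK.1 he)).2 (dif_eq_empty.1 h1)
  have hDA : D * ∑ k ∈ H, (A k).card ≤ ∑ e ∈ K, (dif (U e.1) (U (tip e))).card := by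
    rw [← hh3, mul_sum]
    exact sum_le_sum fun k _ => hA3 k
  have hle := hU.2 U' hcfg
  unfold En at hle
  have s1 := sum_le_sum (s := hatB D n) fun x _ => hv x
  have s2 := sum_le_sum (s := edB D n) fun e _ => hh e
  rw [sum_add_distrib, ← mul_sum] at s1 s2
  rw [hh2] at s2
  set SA : ℕ := ∑ k ∈ H, (A k).card with hSA
  set SB : ℕ := ∑ e ∈ K, (dif (U e.1) (U (tip e))).card with hSB
  have c1 : ∑ x ∈ hatB D n, ((H.filter fun k => x ∈ A k).card : ℝ) ≤ SA := by exact_mod_cast hv2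
  have c2 : ∑ e ∈ K, ((dif (U e.1) (U (tip e))).card : ℝ) = SB := by rw [hSB]; push_cast; rfl
  have c3 : (D : ℝ) * SA ≤ SB := by exact_mod_cast hDA
  have c4 : (0 : ℝ) < SB := by exact_mod_cast hpos
  have c5 : (0 : ℝ) ≤ SA := Nat.cast_nonneg _
  rw [c2] at s2
  have c6 : a * SB ≤ 2 * b * SA := by nlinarith
  rcases c5.eq_or_lt with c7 | c7
  · rw [← c7] at c6; nlinarith
  · nlinarith

end Pool.Agent.P.MP_67bca4_pr
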