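import Pool.Agent.P.MP_67bca4_pr.Defs

namespace Pool.Agent.P.MP_67bca4_pr

open Finset
open scoped Classical

variable {D : ℕ}

/-- A function with vanishing gradient along a ray is constant along it. -/
lemma prim_ray_const (u : V D → ℤ) (i : Fin D) (x : V D)
    (h : ∀ k : ℕ, grad u (x + (k : ℤ) • ee i, i) = 0) (k : ℕ) :
    u (x + (k : ℤ) • ee i) = u x := by
  induction k with
  | zero => simp
  | succ k ih =>
    have h1 := h k
    simp only [grad, tip_mk] at h1
    have e : x + ((k + 1 : ℕ) : ℤ) • ee i = x + (k : ℤ) • ee i + ee i := by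
      push_cast
      rw [add_smul, one_smul, add_assoc]
    rw [e, ← ih]
    omega

/-- A finitely supported function is determined by its gradient in one direction. -/
theorem eq_of_grad_dir {s t : Fn D} (i : Fin D) (h : ∀ x, grad s (x, i) = grad t (x, i)) :
    s = t := by
  rw [← sub_eq_zero]
  ext x
  by_contra hx
  have h1 : ∀ k : ℕ, (s - t : Fn D) (x + (k : ℤ) • ee i) = (s - t : Fn D) x :=
    prim_ray_const (s - t : Fn D) i x fun k => by rw [grad_sub, h, sub_self]
  have hinj : Function.Injective fun k : ℕ => x + (k : ℤ) • ee i := by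
    intro k l hkl
    have := congrFun hkl i
    simpa using this
  refine Set.infinite_of_injective_forall_mem hinj (s := ((s - t : Fn D).support : Set (V D)))
    (fun k => ?_) (Finset.finite_toSet _)
  rw [mem_coe, Finsupp.mem_support_iff, h1]
  simpa using hx

/-- A closed form supported on edges touching the interior box has a primitive supported in it. -/
lemma prim_of_closed (hD : 2 ≤ D) {n : ℕ} (ω : Ed D → ℤ)
    (hs : ∀ e : Ed D, e.1 ∉ inB D n → tip e ∉ inB D n → ω e = 0)
    (hc : ∀ z i j, i ≠ j → ω (z, i) + ω (z + ee i, j) = ω (z, j) + ω (z + ee j, i)) :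
    ∃ s : Fn D, Supp n s ∧ ∀ e, grad s e = ω e := by
  let i0 : Fin D := ⟨0, by omega⟩
  let i1 : Fin D := ⟨1, by omega⟩
  have h01 : i1 ≠ i0 := by simp [i0, i1]
  have hfar : ∀ (y : V D) (i j : Fin D), (n : ℤ) ≤ y j → ω (y, i) = 0 := by
    intro y i j hy
    apply hs
    · rw [mem_inB]; intro h; have := h j; simp only at this; omega
    · rw [mem_inB]; intro h; have := h j
      simp only [tip_mk, Pi.add_apply, ee_apply] at this
      split_ifs at this <;> omega
  have hlow : ∀ (y : V D) (i j : Fin D), j ≠ i → y j ≤ 0 → ω (y, i) = 0 := by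
    intro y i j hj hy
    apply hs
    · rw [mem_inB]; intro h; have := h j; simp only at this; omega
    · rw [mem_inB]; intro h; have := h j
      simp only [tip_mk, Pi.add_apply, ee_ne hj] at this
      omega
  let S : V D → ℕ → ℤ := fun x M => -∑ j ∈ range M, ω (x + (j : ℤ) • ee i0, i0)
  let s : V D → ℤ := fun x => S x ((n : ℤ) - x i0).toNat
  have hS : ∀ (x : V D) (M : ℕ), (n : ℤ) - x i0 ≤ M → s x = S x M := by
    intro x M hM
    simp only [s, S, neg_inj]
    refine sum_subset (range_subset_range.2 (by omega)) fun j _ hj => ?_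
    apply hfar _ _ i0
    simp only [mem_range, not_lt] at hj
    simp only [Pi.add_apply, Pi.smul_apply, ee_self, smul_eq_mul, mul_one]
    omega
  have hgrad : ∀ e, grad s e = ω e := by
    rintro ⟨x, i⟩
    simp only [grad, tip_mk]
    obtain ⟨M, hM⟩ : ∃ M : ℕ, (n : ℤ) - x i0 ≤ M := ⟨((n : ℤ) - x i0).toNat, by omega⟩
    by_cases hi : i = i0
    · subst hi
      rw [hS (x + ee i0) M (by simp only [Pi.add_apply, ee_self]; omega),
        hS x (M + 1) (by push_cast; omega)]
      simp only [S]
      rw [sum_range_succ']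
      have e : ∀ j : ℕ, x + ((j + 1 : ℕ) : ℤ) • ee i0 = x + ee i0 + (j : ℤ) • ee i0 := by
        intro j
        push_cast
        rw [add_smul, one_smul]
        abel
      simp only [e]
      simp
    · rw [hS (x + ee i) M (by simp only [Pi.add_apply, ee_ne (Ne.symm hi)]; omega), hS x M hM]
      simp only [S]
      have e : ∀ j : ℕ, ω (x + (j : ℤ) • ee i0, i0) - ω (x + ee i + (j : ℤ) • ee i0, i0) =
          ω (x + (j : ℤ) • ee i0, i) - ω (x + ((j + 1 : ℕ) : ℤ) • ee i0, i) := by
        intro j
        have h1 := hc (x + (j : ℤ) • ee i0) i i0 hi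
        have e1 : x + ((j + 1 : ℕ) : ℤ) • ee i0 = x + (j : ℤ) • ee i0 + ee i0 := by
          push_cast
          rw [add_smul, one_smul, add_assoc]
        have e2 : x + ee i + (j : ℤ) • ee i0 = x + (j : ℤ) • ee i0 + ee i := by abel
        rw [e1, e2]
        omega
      have h2 := sum_range_sub' (fun j : ℕ => ω (x + (j : ℤ) • ee i0, i)) M
      have h3 : ω (x + (M : ℤ) • ee i0, i) = 0 := by
        apply hfar _ _ i0
        simp only [Pi.add_apply, Pi.smul_apply, ee_self, smul_eq_mul, mul_one]
        omega
      simp only [← e, sum_sub_distrib, h3, Nat.cast_zero, zero_smul, add_zero, sub_zero] at h2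
      rw [← h2]
      ring
  have hA : ∀ (x : V D) (j : Fin D), j ≠ i0 → (x j ≤ 0 ∨ (n : ℤ) ≤ x j) → s x = 0 := by
    intro x j hj hx
    simp only [s, S, neg_eq_zero]
    refine sum_eq_zero fun k _ => ?_
    rcases hx with hx | hx
    · apply hlow _ _ j hj
      simpa [ee_ne hj] using hx
    · apply hfar _ _ j
      simpa [ee_ne hj] using hx
  have hsupp : Supp n s := by
    intro x hx
    rw [mem_inB] at hx
    push Not at hx
    obtain ⟨j, hj⟩ := hx
    by_cases hj0 : j = i0
    · subst hj0
      by_cases h1 : 1 ≤ x i0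
      · have h2 := hj h1
        rw [hS x 0 (by push_cast; omega)]
        simp [S]
      · have h2 : ∀ k : ℕ, s (x + (k : ℤ) • ee i1) = s x :=
          prim_ray_const s i1 x fun k => by
            rw [hgrad]
            apply hlow _ _ i0 h01.symm
            simp only [Pi.add_apply, Pi.smul_apply, ee_ne h01.symm, smul_eq_mul, mul_zero]
            omega
        rw [← h2 ((n : ℤ) - x i1).toNat]
        apply hA _ i1 h01
        right
        simp only [Pi.add_apply, Pi.smul_apply, ee_self, smul_eq_mul, mul_one]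
        omega
    · apply hA x j hj0
      by_cases h1 : 1 ≤ x j
      · have := hj h1
        omega
      · omega
  refine ⟨Finsupp.onFinset (inB D n) s fun x hx => ?_, hsupp, hgrad⟩
  by_contra h
  exact hx (hsupp x h)

/-- The primitive of the gradient of `g` restricted to a closed set of edges. -/
theorem exists_prim (hD : 2 ≤ D) {n : ℕ} (g : V D → ℤ) (hg : Supp n g) {J C : Finset (Ed D)}
    (hJ : ∀ e, grad g e ≠ 0 → e ∈ J) (hC : Closed J C) :
    ∃ s : Fn D, Supp n s ∧ ∀ e, grad s e = if e ∈ C then grad g e else 0 := by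
  refine prim_of_closed hD (fun e => if e ∈ C then grad g e else 0) (fun e h1 h2 => ?_)
    (fun z i j hij => ?_)
  · simp [grad, hg _ h1, hg _ h2]
  · by_cases h : ∃ e, InSq z i j e ∧ e ∈ C
    · obtain ⟨e, he, heC⟩ := h
      have key : ∀ f, InSq z i j f → (if f ∈ C then grad g f else 0) = grad g f := by
        intro f hf
        split_ifs with hfC
        · rfl
        · by_contra h0
          exact hfC (hC.2 e heC f (hJ f fun h1 => h0 h1.symm) ⟨z, i, j, hij, he, hf⟩)
      rw [key (z, i) (Or.inl rfl), key (z + ee j, i) (Or.inr (Or.inl rfl)),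
        key (z, j) (Or.inr (Or.inr (Or.inl rfl))), key (z + ee i, j) (Or.inr (Or.inr (Or.inr rfl)))]
      simp only [grad, tip_mk]
      rw [add_right_comm z (ee j) (ee i)]
      ring
    · push Not at h
      rw [if_neg (h (z, i) (Or.inl rfl)), if_neg (h (z + ee j, i) (Or.inr (Or.inl rfl))),
        if_neg (h (z, j) (Or.inr (Or.inr (Or.inl rfl)))),
        if_neg (h (z + ee i, j) (Or.inr (Or.inr (Or.inr rfl))))]

end Pool.Agent.P.MP_67bca4_pr
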