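import Pool.Agent.P.MP_67bca4_pr.Defs

namespace Pool.Agent.P.MP_67bca4_pr

open Finset
open scoped Classical

variable {D : ℕ}

variable {c : V D → ℝ} {r : V D} {P : Finset (V D)} {L : ℝ}

theorem Tour.insert_root (h : Tour c r P L) : Tour c r (insert r P) L := by
  obtain ⟨w, h1, h2⟩ := h
  refine ⟨w, fun p hp => ?_, h2⟩
  rcases mem_insert.1 hp with rfl | hp
  · exact List.mem_cons_self
  · exact h1 p hp

lemma tourL_detour (hc : ∀ v, c (-v) = c v) (p q : V D) (w : List (V D)) :
    ∀ r : V D, q ∈ r :: w → ∃ w' : List (V D), p ∈ w' ∧ (∀ x ∈ w, x ∈ w') ∧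
      wcost c r w' = wcost c r w + 2 * c (p - q) := by
  have base : ∀ w : List (V D), ∃ w' : List (V D), p ∈ w' ∧ (∀ x ∈ w, x ∈ w') ∧
      wcost c q w' = wcost c q w + 2 * c (p - q) := fun w => by
    refine ⟨p :: q :: w, List.mem_cons_self, fun x hx => by simp [hx], ?_⟩
    have : c (q - p) = c (p - q) := by rw [← hc, neg_sub]
    simp only [wcost, this]
    ring
  induction w with
  | nil =>
    intro r hr
    obtain rfl : q = r := by simpa using hr
    exact base []
  | cons a w ih =>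
    intro r hr
    rcases List.mem_cons.1 hr with rfl | hr
    · exact base _
    · obtain ⟨w', h1, h2, h3⟩ := ih a hr
      refine ⟨a :: w', List.mem_cons_of_mem _ h1, fun x hx => ?_, ?_⟩
      · rcases List.mem_cons.1 hx with rfl | hx
        · exact List.mem_cons_self
        · exact List.mem_cons_of_mem _ (h2 x hx)
      · simp only [wcost, h3]
        ring

/-- Insert a detour to `p` at a visited point `q`. -/
theorem Tour.insert (hc : ∀ v, c (-v) = c v) (h : Tour c r P L) {p q : V D} (hq : q ∈ P) :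
    Tour c r (insert p P) (L + 2 * c (p - q)) := by
  obtain ⟨w, h1, h2⟩ := h
  obtain ⟨w', h3, h4, h5⟩ := tourL_detour hc p q w r (h1 q hq)
  refine ⟨w', fun x hx => ?_, by rw [h5]; linarith⟩
  rcases mem_insert.1 hx with rfl | hx
  · exact List.mem_cons_of_mem _ h3
  · rcases List.mem_cons.1 (h1 x hx) with rfl | hx
    · exact List.mem_cons_self
    · exact List.mem_cons_of_mem _ (h4 x hx)

lemma tourL_cross {α : Type} {R : α → α → Prop} {S : α → Prop} {q p : α}
    (h : Relation.ReflTransGen R q p) (hq : S q) (hp : ¬S p) : ∃ x y, R x y ∧ S x ∧ ¬S y := by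
  induction h with
  | refl => exact absurd hq hp
  | @tail b c' _ h2 ih =>
    by_cases hb : S b
    · exact ⟨b, c', h2, hb, hp⟩
    · exact ih hb

/-- Growth along a connected structure: short steps cost at most `K`, the special step `f`
joins `α f` and `β f` and costs at most `K + w f`. -/
theorem Tour.grow (hc : ∀ v, c (-v) = c v) {A : Finset (V D)} (h : Tour c r A L) {ι : Type}
    (F : Finset ι) (α β : ι → V D) (w : ι → ℝ) (hw : ∀ f ∈ F, 0 ≤ w f) {K : ℝ} (hK : 0 ≤ K)
    (hP : ∀ p ∈ P, ∃ q ∈ A, Relation.ReflTransGen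
      (fun x y => x ∈ P ∧ y ∈ P ∧ (c (y - x) ≤ K ∨ ∃ f ∈ F,
        ((α f = x ∧ β f = y) ∨ (α f = y ∧ β f = x)) ∧ c (y - x) ≤ K + w f)) q p) :
    Tour c r (A ∪ P) (L + 2 * K * P.card + 2 * ∑ f ∈ F, w f) := by
  have mono : ∀ S T : Finset ι, S ⊆ T → T ⊆ F → ∑ f ∈ S, w f ≤ ∑ f ∈ T, w f := fun S T h1 h2 =>
    sum_le_sum_of_subset_of_nonneg h1 fun f hf _ => hw f (h2 hf)
  have key : ∀ n : ℕ, ∀ Q : Finset (V D), Q ⊆ P → P.card ≤ Q.card + n →
      Tour c r (A ∪ Q) (L + 2 * K * Q.card +
        2 * ∑ f ∈ F.filter fun f => α f ∈ A ∪ Q ∧ β f ∈ A ∪ Q, w f) →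
      Tour c r (A ∪ P) (L + 2 * K * P.card + 2 * ∑ f ∈ F, w f) := by
    intro n
    have fin : ∀ Q : Finset (V D), Q ⊆ P → P ⊆ A ∪ Q →
        Tour c r (A ∪ Q) (L + 2 * K * Q.card +
          2 * ∑ f ∈ F.filter fun f => α f ∈ A ∪ Q ∧ β f ∈ A ∪ Q, w f) →
        Tour c r (A ∪ P) (L + 2 * K * P.card + 2 * ∑ f ∈ F, w f) := fun Q h1 h2 h3 => by
      refine h3.mono (union_subset subset_union_left h2) ?_
      have h4 : (Q.card : ℝ) ≤ P.card := Nat.cast_le.2 (card_le_card h1)
      have h5 := mono _ _ (filter_subset (fun f => α f ∈ A ∪ Q ∧ β f ∈ A ∪ Q) F) Subset.rfl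
      have h6 := mul_le_mul_of_nonneg_left h4 hK
      linarith
    induction n with
    | zero =>
      intro Q h1 h2 h3
      exact fin Q h1 ((eq_of_subset_of_card_le h1 h2) ▸ subset_union_right) h3
    | succ n ih =>
      intro Q h1 h2 h3
      by_cases h4 : P ⊆ A ∪ Q
      · exact fin Q h1 h4 h3
      obtain ⟨p, hp, hp'⟩ := not_subset.1 h4
      obtain ⟨q, hq, hch⟩ := hP p hp
      obtain ⟨x, y, ⟨-, hy, hxy⟩, hx, hy'⟩ :=
        tourL_cross (S := fun x => x ∈ A ∪ Q) hch (mem_union_left _ hq) hp'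
      have hyQ : y ∉ Q := fun h0 => hy' (mem_union_right _ h0)
      refine ih (Insert.insert y Q) (insert_subset hy h1) (by rw [card_insert_of_notMem hyQ]; omega) ?_
      have hsub : A ∪ Q ⊆ A ∪ Insert.insert y Q := union_subset_union_right (subset_insert _ _)
      refine (h3.insert hc (p := y) hx).mono (by rw [union_insert]) ?_
      rw [card_insert_of_notMem hyQ]
      push_cast
      have hs : (F.filter fun f => α f ∈ A ∪ Q ∧ β f ∈ A ∪ Q) ⊆
          F.filter fun f => α f ∈ A ∪ Insert.insert y Q ∧ β f ∈ A ∪ Insert.insert y Q :=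
        fun f hf => mem_filter.2 ⟨(mem_filter.1 hf).1, hsub (mem_filter.1 hf).2.1,
          hsub (mem_filter.1 hf).2.2⟩
      rcases hxy with hxy | ⟨f, hf, hf', hxy⟩
      · have := mono _ _ hs (filter_subset _ _)
        linarith
      · have hyy : y ∈ A ∪ Insert.insert y Q := mem_union_right _ (mem_insert_self _ _)
        have hn : f ∉ F.filter fun f => α f ∈ A ∪ Q ∧ β f ∈ A ∪ Q := fun h0 => by
          have h5 := (mem_filter.1 h0).2
          rcases hf' with ⟨-, h6⟩ | ⟨h6, -⟩
          · exact hy' (h6 ▸ h5.2)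
          · exact hy' (h6 ▸ h5.1)
        have hm : f ∈ F.filter fun f =>
            α f ∈ A ∪ Insert.insert y Q ∧ β f ∈ A ∪ Insert.insert y Q := by
          refine mem_filter.2 ⟨hf, ?_⟩
          rcases hf' with ⟨h6, h7⟩ | ⟨h6, h7⟩ <;> rw [h6, h7]
          · exact ⟨hsub hx, hyy⟩
          · exact ⟨hyy, hsub hx⟩
        have := mono _ _ (insert_subset hm hs) (filter_subset _ _)
        rw [sum_insert hn] at this
        linarith
  refine key P.card ∅ (empty_subset _) (by simp) (h.mono (by simp) ?_)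
  have := mono ∅ (F.filter fun f => α f ∈ A ∪ ∅ ∧ β f ∈ A ∪ ∅) (empty_subset _) (filter_subset _ _)
  rw [sum_empty] at this
  rw [card_empty, Nat.cast_zero, mul_zero]
  linarith

theorem Tour.near (h : Tour l1 r P L) {Q : Finset (V D)} {δ : ℝ}
    (hQ : ∀ y ∈ Q, ∃ p ∈ P, l1 (y - p) ≤ δ) : Tour l1 r (P ∪ Q) (L + 2 * δ * Q.card) := by
  induction Q using Finset.induction_on with
  | empty => simpa using h
  | insert y Q hy ih =>
    obtain ⟨p, hp, h1⟩ := hQ y (mem_insert_self _ _)
    refine ((ih fun z hz => hQ z (mem_insert_of_mem hz)).insert l1_neg (p := y)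
      (mem_union_left _ hp)).mono (by rw [union_insert]) ?_
    rw [card_insert_of_notMem hy]
    push_cast
    linarith

theorem Tour.closure (h : Tour l1 r P L) {J R : Finset (Ed D)} (hR : ∀ e ∈ R, e ∈ J → e.1 ∈ P) :
    Tour l1 r (P ∪ bases (cl J R)) (L + 4 * (cl J R).card) := by
  have key := Tour.grow (P := bases (cl J R)) l1_neg h (∅ : Finset Unit) (fun _ => r) (fun _ => r)
    (fun _ => 0) (by simp) (K := 2) (by norm_num) (by
      intro p hp
      obtain ⟨e, he, rfl⟩ := mem_bases.1 hp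
      obtain ⟨-, e0, h1, h2, h3⟩ := mem_filter.1 he
      refine ⟨e0.1, hR e0 h1 h2, ?_⟩
      clear he hp
      induction h3 with
      | refl => exact .refl
      | tail h4 h5 ih =>
        exact ih.tail ⟨mem_bases.2 ⟨_, mem_filter.2 ⟨h5.1, e0, h1, h2, h4⟩, rfl⟩,
          mem_bases.2 ⟨_, mem_filter.2 ⟨h5.2.1, e0, h1, h2, h4.tail h5⟩, rfl⟩,
          Or.inl h5.2.2.l1_le⟩)
  refine key.mono Subset.rfl ?_
  have : ((bases (cl J R)).card : ℝ) ≤ (cl J R).card := Nat.cast_le.2 card_image_le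
  rw [sum_empty]
  linarith

lemma tourL_nonneg (w : List (V D)) : ∀ r : V D, 0 ≤ wcost l1 r w := by
  induction w with
  | nil => intro r; exact le_rfl
  | cons a w ih => intro r; exact add_nonneg (l1_nonneg _) (ih a)

lemma tourL_root (w : List (V D)) (r a : V D) : wcost l1 r w ≤ l1 (a - r) + wcost l1 a w := by
  cases w with
  | nil => simpa [wcost] using l1_nonneg _
  | cons b w =>
    have := l1_sub_le b a r
    simp only [wcost]
    linarith

lemma tourL_sublist {w w' : List (V D)} (h : w'.Sublist w) :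
    ∀ r : V D, wcost l1 r w' ≤ wcost l1 r w := by
  induction h with
  | slnil => intro r; exact le_rfl
  | cons a _ ih =>
    intro r
    exact (tourL_root _ r a).trans (add_le_add_right (ih a) _)
  | cons_cons a _ ih =>
    intro r
    exact add_le_add_right (ih a) _

lemma tourL_affine {θ K : ℝ} (hc : ∀ v, c v ≤ θ * l1 v + K) (w : List (V D)) :
    ∀ r : V D, wcost c r w ≤ θ * wcost l1 r w + K * w.length := by
  induction w with
  | nil => intro r; simp [wcost]
  | cons a w ih =>
    intro r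
    have h1 := hc (a - r)
    have h2 := ih a
    simp only [wcost, List.length_cons]
    push_cast
    linarith

/-- Shortcutting: visit the points of `P` only, once each. -/
theorem Tour.short (h : Tour l1 r P L) {θ K : ℝ} (hθ : 0 ≤ θ) (hc : ∀ v, c v ≤ θ * l1 v + K) :
    Tour c r P (θ * L + K * P.card) := by
  obtain ⟨w, h1, h2⟩ := h
  have hm : ∀ p, p ∈ ((r :: w).filter fun x => decide (x ∈ P)).dedup ↔ p ∈ P := fun p => by
    rw [List.mem_dedup, List.mem_filter, decide_eq_true_iff]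
    exact ⟨fun h0 => h0.2, fun h0 => ⟨h1 p h0, h0⟩⟩
  refine ⟨((r :: w).filter fun x => decide (x ∈ P)).dedup,
    fun p hp => List.mem_cons_of_mem _ ((hm p).2 hp), (tourL_affine hc _ r).trans ?_⟩
  have h3 := tourL_sublist ((List.dedup_sublist _).trans
    (List.filter_sublist (p := fun x => decide (x ∈ P)) (l := r :: w))) r
  have h4 : ((r :: w).filter fun x => decide (x ∈ P)).dedup.length = P.card := by
    rw [← List.toFinset_card_of_nodup (List.nodup_dedup _)]
    congr 1
    ext p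
    rw [List.mem_toFinset, hm]
  rw [h4]
  have h5 : wcost l1 r (r :: w) = wcost l1 r w := by simp [wcost]
  have := mul_le_mul_of_nonneg_left ((h3.trans h5.le).trans h2) hθ
  linarith

lemma tourL_ediv {q : ℤ} (hq : 0 < q) (a b : ℤ) : |a / q - b / q| ≤ |a - b| := by
  wlog hab : b ≤ a generalizing a b
  · rw [abs_sub_comm, abs_sub_comm a b]
    exact this b a (le_of_not_ge hab)
  have h1 : b / q ≤ a / q := Int.ediv_le_ediv hq hab
  have h2 : a / q ≤ (b + (a - b) * q) / q := Int.ediv_le_ediv hq (by nlinarith)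
  rw [Int.add_mul_ediv_right _ _ hq.ne'] at h2
  rw [abs_of_nonneg (by omega), abs_of_nonneg (by omega)]
  omega

lemma tourL_dn (l : ℕ) (x y : V D) : l1 (dn l x - dn l y) ≤ l1 (x - y) := by
  refine sum_le_sum fun i _ => ?_
  have := tourL_ediv (q := 2 ^ l) (by positivity) (x i) (y i)
  simp only [Pi.sub_apply, dn]
  exact_mod_cast this

theorem Tour.dn (h : Tour l1 r P L) (l : ℕ) : Tour l1 (dn l r) (P.image (dn l)) L := by
  obtain ⟨w, h1, h2⟩ := h
  refine ⟨w.map (MP_67bca4_pr.dn l), fun p hp => ?_, le_trans ?_ h2⟩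
  · obtain ⟨x, hx, rfl⟩ := mem_image.1 hp
    rw [← List.map_cons]
    exact List.mem_map_of_mem (h1 x hx)
  · clear h1 h2
    induction w generalizing r with
    | nil => exact le_rfl
    | cons a w ih => exact add_le_add (tourL_dn l a r) ih

end Pool.Agent.P.MP_67bca4_pr
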