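import Pool.Agent.P.MP_67bca4_pr.Defs

namespace Pool.Agent.P.MP_67bca4_pr

open Finset
open scoped Classical

variable {D : ℕ}

variable {f t : Fn D} {l : ℕ}

theorem dn_zero (x : V D) : dn 0 x = x := by
  funext i; simp [dn]

theorem dn_dn (l : ℕ) (x : V D) : dn 1 (dn l x) = dn (l + 1) x := by
  funext i
  simp only [dn, pow_one]
  rw [Int.ediv_ediv_of_nonneg (by positivity), pow_succ]

lemma up_ediv_eq_iff {a b q : ℤ} (hq : 0 < q) : a / q = b ↔ a ∈ Finset.Ico (b * q) (b * q + q) := by
  rw [Finset.mem_Ico, Int.ediv_eq_iff_of_pos hq]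

/-- The fibre of the floor division. -/
noncomputable def upFib (l : ℕ) (y : V D) : Finset (V D) :=
  Fintype.piFinset fun i => Finset.Ico (y i * 2 ^ l) (y i * 2 ^ l + 2 ^ l)

lemma mem_upFib {y x : V D} : x ∈ upFib l y ↔ dn l x = y := by
  rw [upFib, Fintype.mem_piFinset, funext_iff]
  exact forall_congr' fun i => (up_ediv_eq_iff (by positivity)).symm

lemma card_upFib (l : ℕ) (y : V D) : (upFib l y).card = 2 ^ (l * D) := by
  rw [upFib, Fintype.card_piFinset]
  have : ∀ i, (Finset.Ico (y i * 2 ^ l) (y i * 2 ^ l + 2 ^ l)).card = 2 ^ l := by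
    intro i
    rw [Int.card_Ico, add_sub_cancel_left]
    exact_mod_cast Int.toNat_natCast (2 ^ l)
  simp [this, pow_mul]

theorem exists_up (f : Fn D) (l : ℕ) : ∃ t : Fn D, ∀ x, t x = f (dn l x) := by
  refine ⟨Finsupp.onFinset (f.support.biUnion (upFib l)) (fun x => f (dn l x)) ?_, fun x => rfl⟩
  intro x hx
  exact mem_biUnion.2 ⟨dn l x, Finsupp.mem_support_iff.2 hx, mem_upFib.2 rfl⟩

lemma up_ediv_succ (a : ℤ) {q : ℤ} (hq : 0 < q) :
    (a + 1) / q = a / q ∨ ((a + 1) / q = a / q + 1 ∧ a = (a / q) * q + q - 1) := by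
  have h1 := Int.ediv_mul_add_emod a q
  have h2 := Int.emod_nonneg a hq.ne'
  have h3 := Int.emod_lt_of_pos a hq
  by_cases h : a % q + 1 < q
  · left
    rw [Int.ediv_eq_iff_of_pos hq]; constructor <;> omega
  · right
    refine ⟨?_, by omega⟩
    rw [Int.ediv_eq_iff_of_pos hq, add_mul]; constructor <;> omega

lemma up_jump_aux (h : ∀ x, t x = f (dn l x)) {e : Ed D} (he : e ∈ jumps t) :
    dn l (tip e) = dn l e.1 + ee e.2 ∧ e.1 e.2 = dn l e.1 e.2 * 2 ^ l + 2 ^ l - 1 := by
  obtain ⟨x, i⟩ := e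
  rw [mem_jumps, grad, h, h] at he
  rcases up_ediv_succ (x i) (q := 2 ^ l) (by positivity) with h1 | h1
  · exfalso
    apply he
    have : dn l (tip (x, i)) = dn l x := by
      funext j
      by_cases hj : j = i
      · subst hj; simpa [dn] using h1
      · simp [dn, ee_ne hj]
    rw [this, sub_self]
  · refine ⟨?_, h1.2⟩
    funext j
    by_cases hj : j = i
    · subst hj; simpa [dn] using h1.1
    · simp [dn, ee_ne hj]

lemma up_grad (h : ∀ x, t x = f (dn l x)) {e : Ed D} (he : e ∈ jumps t) :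
    grad t e = grad f (dn l e.1, e.2) := by
  rw [grad, grad, h, h, (up_jump_aux h he).1, tip_mk]

theorem up_jump (h : ∀ x, t x = f (dn l x)) {e : Ed D} (he : e ∈ jumps t) :
    (dn l e.1, e.2) ∈ jumps f := by
  rw [mem_jumps, ← up_grad h he]; exact mem_jumps.1 he

lemma up_fibre (h : ∀ x, t x = f (dn l x)) (a : Ed D) :
    ((jumps t).filter fun e => (dn l e.1, e.2) = a).card ≤ 2 ^ (l * (D - 1)) := by
  obtain ⟨y, i⟩ := a
  let F : Finset (V D) := Fintype.piFinset fun j =>
    if j = i then {y i * 2 ^ l + 2 ^ l - 1} else Finset.Ico (y j * 2 ^ l) (y j * 2 ^ l + 2 ^ l)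
  have hF : F.card = 2 ^ (l * (D - 1)) := by
    rw [Fintype.card_piFinset]
    have : ∀ j, (if j = i then ({y i * 2 ^ l + 2 ^ l - 1} : Finset ℤ)
        else Finset.Ico (y j * 2 ^ l) (y j * 2 ^ l + 2 ^ l)).card = if j = i then 1 else 2 ^ l := by
      intro j
      split_ifs
      · simp
      · rw [Int.card_Ico, add_sub_cancel_left]
        exact_mod_cast Int.toNat_natCast (2 ^ l)
    simp only [this]
    rw [← Finset.mul_prod_erase univ _ (mem_univ i), if_pos rfl, one_mul,
      prod_congr rfl fun j hj => if_neg (mem_erase.1 hj).1, prod_const, card_erase_of_mem (mem_univ i),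
      card_univ, Fintype.card_fin, pow_mul]
  rw [← hF]
  refine card_le_card_of_injOn Prod.fst ?_ ?_
  · intro e he
    obtain ⟨h1, h2⟩ := mem_filter.1 (mem_coe.1 he)
    obtain ⟨h3, h4⟩ := Prod.mk.inj h2
    have h5 := (up_jump_aux h h1).2
    rw [h3, h4] at h5
    refine mem_coe.2 (Fintype.mem_piFinset.2 fun j => ?_)
    split_ifs with hj
    · rw [hj, mem_singleton]; exact h5
    · exact Fintype.mem_piFinset.1 (mem_upFib.2 h3) j
  · intro e he e' he' hh
    have h4 := (Prod.mk.inj (mem_filter.1 (mem_coe.1 he)).2).2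
    have h4' := (Prod.mk.inj (mem_filter.1 (mem_coe.1 he')).2).2
    exact Prod.ext hh (h4.trans h4'.symm)

theorem up_TV (h : ∀ x, t x = f (dn l x)) : TV t ≤ 2 ^ (l * (D - 1)) * TV f := by
  unfold TV
  rw [← sum_fiberwise_of_maps_to (g := fun e : Ed D => (dn l e.1, e.2)) (t := jumps f)
    (fun e he => up_jump h he), mul_sum]
  refine sum_le_sum fun a _ => ?_
  rw [sum_congr rfl (g := fun _ => (grad f a).natAbs) fun e he => by
    rw [up_grad h (mem_filter.1 he).1, (mem_filter.1 he).2], sum_const, smul_eq_mul]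
  exact Nat.mul_le_mul_right _ (up_fibre h a)

lemma up_cube_le (hD : 100 ≤ D) : D ^ 3 ≤ 2 ^ (D - 1) := by
  induction D, hD using Nat.le_induction with
  | base => norm_num
  | succ n hn ih =>
    have h1 : n + 1 - 1 = (n - 1) + 1 := by omega
    rw [h1, pow_succ 2]
    have h2 : (n + 1) ^ 3 ≤ n ^ 3 * 2 := by
      have : 100 * n ^ 2 ≤ n ^ 3 := by
        rw [pow_succ' n 2]; exact Nat.mul_le_mul_right _ hn
      nlinarith
    exact h2.trans (Nat.mul_le_mul_right _ ih)

theorem up_big (hD : 100 ≤ D) (hl : l ≠ 0) (h : ∀ x, t x = f (dn l x)) : Big (jumps t) := by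
  rintro C hC ⟨⟨x, i⟩, he⟩
  have hq : (2 : ℤ) ≤ 2 ^ l := by
    calc (2 : ℤ) = 2 ^ 1 := by norm_num
      _ ≤ 2 ^ l := pow_le_pow_right₀ (by norm_num) (Nat.one_le_iff_ne_zero.2 hl)
  have hσ : ∀ j, ∃ σ : ℤ, (σ = 1 ∨ σ = -1) ∧ (x j + σ) / 2 ^ l = x j / 2 ^ l := by
    intro j
    rcases up_ediv_succ (x j) (q := 2 ^ l) (by positivity) with h1 | h1
    · exact ⟨1, Or.inl rfl, h1⟩
    · refine ⟨-1, Or.inr rfl, ?_⟩
      rw [Int.ediv_eq_iff_of_pos (by positivity)]
      have := h1.2
      constructor <;> omega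
  choose σ hσ1 hσ2 using hσ
  let X : Finset (Fin D) → V D := fun S j => if j ∈ S then x j + σ j else x j
  have hX : ∀ S : Finset (Fin D), i ∉ S → (X S, i) ∈ jumps t := by
    intro S hS
    have h0 := mem_jumps.1 (hC.1 he)
    have h1 : dn l (X S) = dn l x := by
      funext j
      simp only [dn, X]
      split_ifs
      · exact hσ2 j
      · rfl
    have h2 : dn l (X S + ee i) = dn l (x + ee i) := by
      funext j
      simp only [dn, X, Pi.add_apply]
      split_ifs with hj
      · have : j ≠ i := fun hh => hS (hh ▸ hj)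
        rw [ee_ne this, add_zero, add_zero]; exact hσ2 j
      · rfl
    rw [mem_jumps]
    simp only [grad, tip_mk, h] at h0 ⊢
    rwa [h1, h2]
  have hC' : ∀ S : Finset (Fin D), i ∉ S → (X S, i) ∈ C := by
    intro S
    induction S using Finset.induction_on with
    | empty =>
      intro _
      have : X ∅ = x := by funext j; simp [X]
      rwa [this]
    | insert j S hj ih =>
      intro hS
      have hij : i ≠ j := fun hh => hS (hh ▸ mem_insert_self _ _)
      have hS' : i ∉ S := fun hh => hS (mem_insert_of_mem hh)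
      refine hC.2 _ (ih hS') _ (hX _ hS) ?_
      rcases hσ1 j with h1 | h1
      · refine ⟨X S, i, j, hij, Or.inl rfl, Or.inr (Or.inl ?_)⟩
        congr 1
        funext k
        by_cases hk : k = j
        · subst hk; simp [X, hj, h1]
        · simp [X, hk, ee_ne hk]
      · refine ⟨X (insert j S), i, j, hij, Or.inr (Or.inl ?_), Or.inl rfl⟩
        congr 1
        funext k
        by_cases hk : k = j
        · subst hk; simp [X, hj, h1]
        · simp [X, hk, ee_ne hk]
  have hc : ((univ.erase i).powerset).card ≤ C.card := by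
    refine card_le_card_of_injOn (fun S => (X S, i)) ?_ ?_
    · intro S hS
      refine mem_coe.2 (hC' S fun hh => ?_)
      exact (mem_erase.1 (mem_powerset.1 (mem_coe.1 hS) hh)).1 rfl
    · intro S _ S' _ hh
      have h1 : X S = X S' := (Prod.mk.inj hh).1
      ext j
      have h2 := congrFun h1 j
      have h3 := hσ1 j
      simp only [X] at h2
      split_ifs at h2 with h4 h5 h5
      · simp [h4, h5]
      · omega
      · omega
      · simp [h4, h5]
  rw [card_powerset, card_erase_of_mem (mem_univ i), card_univ, Fintype.card_fin] at hc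
  exact (up_cube_le hD).trans hc

theorem card_le_of_dn {Y Z : Finset (V D)} (h : ∀ y ∈ Y, dn l y ∈ Z) :
    Y.card ≤ 2 ^ (l * D) * Z.card := by
  refine card_le_mul_card_image_of_maps_to h _ fun z _ => ?_
  rw [← card_upFib l z]
  exact card_le_card fun x hx => mem_upFib.2 (mem_filter.1 hx).2

end Pool.Agent.P.MP_67bca4_pr
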