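import Pool.Agent.P.MP_67bca4_pr.Coarse
import Pool.Agent.P.MP_67bca4_pr.Up
import Pool.Agent.P.MP_67bca4_pr.TourL
import Pool.Agent.P.MP_67bca4_pr.Prim

namespace Pool.Agent.P.MP_67bca4_pr

open Finset
open scoped Classical

variable {D : ℕ}

/-- The invariant of the coarse functions. -/
def ChInv (n : ℕ) (s : Fn D) (m l : ℕ) (f : Fn D) : Prop :=
  (∀ y, f y ≠ 0 → ∀ i, 1 ≤ y i ∧ y i ≤ (n : ℤ) / 2 ^ l - 1) ∧
  2 ^ (l * (D - 2)) * TV f ≤ m ∧
  ∀ e ∈ jumps f, ∃ e' ∈ jumps s, ∀ i, |2 ^ l * e.1 i - e'.1 i| ≤ 4 * (2 ^ l - 1)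

/-- The relation between two consecutive coarse functions. -/
def ChRel (f g : Fn D) : Prop :=
  (∀ Y : Finset (V D), (∀ y ∈ Y, f y ≠ g (dn 1 y)) → Y.card ≤ 3 * TV f) ∧
  ∀ y, f y ≠ g (dn 1 y) → ∃ e' ∈ jumps f, ∀ i, |e'.1 i - y i| ≤ 2

lemma chInv_zero {n : ℕ} {r : V D} {s : Fn D} {m : ℕ} (h : Adm n r s m) : ChInv n s m 0 s := by
  refine ⟨fun y hy i => ?_, by simpa using h.2.1, fun e he => ⟨e, he, fun i => by simp⟩⟩
  have h1 : y ∈ inB D n := by
    by_contra h2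
    exact hy (h.1 y h2)
  simpa using mem_inB.1 h1 i

lemma chInv_step (hD : 2 ≤ D) {n : ℕ} {s : Fn D} {m l : ℕ} {f : Fn D} (h : ChInv n s m l f) :
    ∃ g : Fn D, ChInv n s m (l + 1) g ∧ ChRel f g := by
  obtain ⟨h1, h2, h3⟩ := h
  obtain ⟨g, g1, g2, g3, g4, g5⟩ := coarse_step hD f 1 ((n : ℤ) / 2 ^ l - 1) h1
  refine ⟨g, ⟨fun z hz i => ?_, ?_, fun e he => ?_⟩, g3, g5⟩
  · have := g1 z hz i
    have e1 : (n : ℤ) / 2 ^ (l + 1) = (n : ℤ) / 2 ^ l / 2 := by
      rw [pow_succ, Int.ediv_ediv_of_nonneg]; positivity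
    rw [e1]
    omega
  · calc 2 ^ ((l + 1) * (D - 2)) * TV g = 2 ^ (l * (D - 2)) * (2 ^ (D - 2) * TV g) := by ring
      _ ≤ 2 ^ (l * (D - 2)) * TV f := Nat.mul_le_mul_left _ g2
      _ ≤ m := h2
  · obtain ⟨e', he', a1⟩ := g4 e he
    obtain ⟨e'', he'', a2⟩ := h3 e' he'
    refine ⟨e'', he'', fun i => ?_⟩
    have b1 := abs_le.1 (a1 i)
    have b2 := abs_le.1 (a2 i)
    have hq : (0 : ℤ) < 2 ^ l := by positivity
    rw [pow_succ, abs_le]
    constructor <;> nlinarith [b1.1, b1.2, b2.1, b2.2]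

lemma chain_seq (hD : 2 ≤ D) {n : ℕ} {r : V D} {s : Fn D} {m : ℕ} (h : Adm n r s m) :
    ∃ f : ℕ → Fn D, f 0 = s ∧ (∀ l, ChInv n s m l (f l)) ∧ ∀ l, ChRel (f l) (f (l + 1)) := by
  have key : ∀ l (f : {f : Fn D // ChInv n s m l f}),
      ∃ g : {g : Fn D // ChInv n s m (l + 1) g}, ChRel f.1 g.1 := fun l f => by
    obtain ⟨g, g1, g2⟩ := chInv_step hD f.2
    exact ⟨⟨g, g1⟩, g2⟩
  choose F hF using key
  let f : ∀ l, {f : Fn D // ChInv n s m l f} := fun l =>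
    Nat.rec (motive := fun l => {f : Fn D // ChInv n s m l f}) ⟨s, chInv_zero h⟩ F l
  exact ⟨fun l => (f l).1, rfl, fun l => (f l).2, fun l => hF l (f l)⟩

lemma chain_dn_bounds (l : ℕ) (x : V D) (i : Fin D) :
    2 ^ l * dn l x i ≤ x i ∧ x i ≤ 2 ^ l * dn l x i + (2 ^ l - 1) := by
  have hq : (0 : ℤ) < 2 ^ l := by positivity
  have h1 := Int.mul_ediv_add_emod (x i) (2 ^ l)
  have h2 := Int.emod_nonneg (x i) hq.ne'
  have h3 := Int.emod_lt_of_pos (x i) hq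
  simp only [dn]
  constructor <;> linarith

lemma chain_l1_le {v w : V D} {R : ℤ} (h : ∀ i, |v i - w i| ≤ R) : l1 (v - w) ≤ D * R := by
  refine l1_le_of_sup fun i => ?_
  have := h i
  rw [Pi.sub_apply]
  exact_mod_cast this

lemma ChInv.supp {n : ℕ} {s : Fn D} {m l : ℕ} {f t : Fn D} (h : ChInv n s m l f)
    (ht : ∀ x, t x = f (dn l x)) : Supp n t := by
  intro x hx
  by_contra h1
  rw [ht] at h1
  refine hx (mem_inB.2 fun i => ?_)
  have h2 := h.1 _ h1 i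
  have h3 := chain_dn_bounds l x i
  have hq : (0 : ℤ) < 2 ^ l := by positivity
  have h4 : 2 ^ l * ((n : ℤ) / 2 ^ l) ≤ n := Int.mul_ediv_self_le hq.ne'
  constructor <;> nlinarith [h2.1, h2.2, h3.1, h3.2]

lemma ChInv.tv_up (hD : 2 ≤ D) {n : ℕ} {s : Fn D} {m l : ℕ} {f t : Fn D} (h : ChInv n s m l f)
    (ht : ∀ x, t x = f (dn l x)) : TV t ≤ 2 ^ l * m := by
  obtain ⟨k, rfl⟩ := Nat.exists_eq_add_of_le hD
  have h2 := h.2.1
  have h3 := up_TV ht
  have e1 : 2 + k - 2 = k := by omega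
  have e2 : 2 + k - 1 = k + 1 := by omega
  rw [e1] at h2
  rw [e2] at h3
  calc TV t ≤ 2 ^ (l * (k + 1)) * TV f := h3
    _ = 2 ^ l * (2 ^ (l * k) * TV f) := by ring
    _ ≤ 2 ^ l * m := Nat.mul_le_mul_left _ h2

lemma ChInv.tv_le {n : ℕ} {s : Fn D} {m l : ℕ} {f : Fn D} (h : ChInv n s m l f) : TV f ≤ m :=
  (Nat.le_mul_of_pos_left _ (by positivity)).trans h.2.1

lemma ChInv.tour {n : ℕ} {r : V D} {s : Fn D} {m l : ℕ} {f : Fn D} (h : ChInv n s m l f)
    {J : Finset (Ed D)} (hJ : jumps s ⊆ J) (hT : Tour l1 r (bases J) (8 * D * m)) :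
    Tour l1 (dn l r) (bases (jumps f)) (16 * D * m) := by
  have h1 := (hT.dn l).near (Q := bases (jumps f)) (δ := D * (4 : ℤ)) (fun y hy => by
    obtain ⟨e, he, rfl⟩ := mem_bases.1 hy
    obtain ⟨e', he', a⟩ := h.2.2 e he
    refine ⟨dn l e'.1, mem_image_of_mem _ (mem_bases.2 ⟨e', hJ he', rfl⟩),
      chain_l1_le fun i => ?_⟩
    have b := abs_le.1 (a i)
    have c := chain_dn_bounds l e'.1 i
    have hq : (0 : ℤ) < 2 ^ l := by positivity
    rw [abs_le]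
    constructor
    · by_contra hh
      have : e.1 i - dn l e'.1 i ≤ -5 := by omega
      nlinarith [b.1, b.2, c.1, c.2]
    · by_contra hh
      have : 5 ≤ e.1 i - dn l e'.1 i := by omega
      nlinarith [b.1, b.2, c.1, c.2])
  refine h1.mono subset_union_right ?_
  have h2 : (bases (jumps f)).card ≤ m :=
    (card_image_le.trans (card_jumps_le f)).trans h.tv_le
  have h3 : ((bases (jumps f)).card : ℝ) ≤ m := by exact_mod_cast h2
  have h4 : (0 : ℝ) ≤ D := Nat.cast_nonneg _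
  push_cast
  nlinarith [mul_le_mul_of_nonneg_left h3 h4]

/-- The chain of coarse-grained shifts. -/
theorem exists_chain (hD : 100 ≤ D) {n : ℕ} {r : V D} {s : Fn D} {m : ℕ} (h : Adm n r s m) :
    ∃ t : ℕ → Fn D, t 0 = s ∧ (∀ l, Lev n r m l (t l)) ∧
      (∀ l, Pack n r m (2 ^ l) (t l) (t (l + 1) - t l).support) ∧
      ∀ l, m < 2 ^ (l * (D - 2)) → t l = 0 := by
  have hD2 : 2 ≤ D := by omega
  obtain ⟨f, f0, hf, hr⟩ := chain_seq hD2 h
  choose t ht using fun l => exists_up (f l) l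
  have t0 : t 0 = s := by
    ext x
    rw [ht, dn_zero, f0]
  obtain ⟨J, hJ, hJ1, hJ2, hJ3, hT⟩ := h.2.2
  have hD0 : (0 : ℝ) ≤ D := Nat.cast_nonneg _
  refine ⟨t, t0, fun l => ⟨?_, fun _ => ⟨f l, ht l, (hf l).2.1, (hf l).tour hJ hT⟩⟩,
    fun l => ?_, fun l hl => ?_⟩
  · rintro rfl
    rw [t0]; exact h
  · have hq : (0 : ℤ) < 2 ^ l := by positivity
    have hY : ∀ y ∈ (t (l + 1) - t l).support, f l (dn l y) ≠ f (l + 1) (dn 1 (dn l y)) := by
      intro y hy h1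
      rw [Finsupp.mem_support_iff, Finsupp.sub_apply, ht, ht, ← dn_dn, h1] at hy
      exact hy (sub_self _)
    have hnear : ∀ y ∈ (t (l + 1) - t l).support, ∃ p ∈ bases J,
        l1 (y - p) ≤ 7 * D * ((2 ^ l : ℕ) : ℝ) := by
      intro y hy
      obtain ⟨e', he', a1⟩ := (hr l).2 _ (hY y hy)
      obtain ⟨e'', he'', a2⟩ := (hf l).2.2 e' he'
      refine ⟨e''.1, mem_bases.2 ⟨e'', hJ he'', rfl⟩,
        (chain_l1_le (R := 7 * 2 ^ l) fun i => ?_).trans (le_of_eq (by push_cast; ring))⟩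
      have b1 := abs_le.1 (a1 i)
      have b2 := abs_le.1 (a2 i)
      have c := chain_dn_bounds l y i
      rw [abs_le]
      constructor <;> nlinarith [b1.1, b1.2, b2.1, b2.2, c.1, c.2]
    have htv := (hf l).tv_up hD2 (ht l)
    refine ⟨(hf l).supp (ht l), htv, fun y hy => ?_, ?_, bases J, ?_⟩
    · by_contra h1
      rw [Finsupp.mem_support_iff, Finsupp.sub_apply, (hf l).supp (ht l) y h1,
        (hf (l + 1)).supp (ht (l + 1)) y h1] at hy
      exact hy (sub_self _)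
    · have h1 : (t (l + 1) - t l).support.card ≤
          2 ^ (l * D) * ((t (l + 1) - t l).support.image (dn l)).card :=
        card_le_of_dn fun y hy => mem_image_of_mem _ hy
      have h2 := (hr l).1 ((t (l + 1) - t l).support.image (dn l)) (fun z hz => by
        obtain ⟨y, hy, rfl⟩ := mem_image.1 hz
        exact hY y hy)
      have h3 := (hf l).2.1
      have e1 : 2 ^ (l * D) = (2 ^ l) ^ 2 * 2 ^ (l * (D - 2)) := by
        rw [← pow_mul, ← pow_add, ← mul_add]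
        congr 2
        omega
      calc _ ≤ 2 ^ (l * D) * (3 * TV (f l)) := h1.trans (Nat.mul_le_mul_left _ h2)
        _ = 3 * (2 ^ l) ^ 2 * (2 ^ (l * (D - 2)) * TV (f l)) := by rw [e1]; ring
        _ ≤ 3 * (2 ^ l) ^ 2 * m := Nat.mul_le_mul_left _ h3
    · by_cases hl : l = 0
      · subst hl
        refine ⟨J, hT, t0 ▸ hJ, hJ1, hJ2, by simpa using hJ3,
          fun e he => ⟨e.1, mem_bases.2 ⟨e, he, rfl⟩, ?_⟩, hnear⟩
        rw [sub_self, l1_zero]
        positivity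
      · refine ⟨jumps (t l), hT, Subset.refl _, sqCl_jumps _, up_big hD hl (ht l),
          (card_jumps_le _).trans htv, fun e he => ?_, hnear⟩
        obtain ⟨e', he', a⟩ := (hf l).2.2 _ (up_jump (ht l) he)
        refine ⟨e'.1, mem_bases.2 ⟨e', hJ he', rfl⟩,
          (chain_l1_le (R := 5 * 2 ^ l) fun i => ?_).trans (le_of_eq (by push_cast; ring))⟩
        have b := abs_le.1 (a i)
        have c := chain_dn_bounds l e.1 i
        rw [abs_le]
        constructor <;> linarith [b.1, b.2, c.1, c.2]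
  · have h1 : TV (f l) = 0 := by
      by_contra h2
      have h3 := (hf l).2.1
      have : 2 ^ (l * (D - 2)) * 1 ≤ 2 ^ (l * (D - 2)) * TV (f l) :=
        Nat.mul_le_mul_left _ (Nat.pos_of_ne_zero h2)
      omega
    have h2 : jumps (f l) = ∅ := card_eq_zero.1 (by have := card_jumps_le (f l); omega)
    have h3 : f l = 0 := eq_of_grad_dir ⟨0, by omega⟩ fun x => by
      have h4 : (x, (⟨0, by omega⟩ : Fin D)) ∉ jumps (f l) := by rw [h2]; exact notMem_empty _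
      rw [mem_jumps, not_not] at h4
      rw [h4]; simp [grad]
    ext x
    rw [ht, h3]; rfl

end Pool.Agent.P.MP_67bca4_pr
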