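import Pool.Agent.P.MP_67bca4_pr.Defs

namespace Pool.Agent.P.MP_67bca4_pr

open Finset
open scoped Classical

variable {D : ℕ}

/-- A function without jumps in a box is constant there. -/
lemma coarse_jump (f : Fn D) (lo hi a b : V D) (ha : ∀ i, lo i ≤ a i ∧ a i ≤ hi i)
    (hb : ∀ i, lo i ≤ b i ∧ b i ≤ hi i) (h : f a ≠ f b) :
    ∃ e ∈ jumps f, ∀ i, lo i ≤ e.1 i ∧ e.1 i ≤ hi i := by
  by_contra hc
  have key : ∀ n : ℕ, ∀ y : V D, (∀ i, lo i ≤ y i ∧ y i ≤ hi i) →
      ∑ i, (y i - lo i).toNat = n → f y = f lo := by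
    intro n
    induction n with
    | zero =>
      intro y hy hs
      congr 1
      funext i
      have h1 := (sum_eq_zero_iff.1 hs) i (mem_univ _)
      have := hy i
      omega
    | succ n ih =>
      intro y hy hs
      obtain ⟨i, -, hi'⟩ := exists_ne_zero_of_sum_ne_zero (hs.trans_ne n.succ_ne_zero)
      have hy' : ∀ j, lo j ≤ (y - ee i) j ∧ (y - ee i) j ≤ hi j := by
        intro j
        have := hy j
        simp only [Pi.sub_apply, ee_apply]
        split_ifs with hj
        · subst hj; omega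
        · omega
      have hs' : ∑ j, ((y - ee i) j - lo j).toNat = n := by
        rw [← add_sum_erase _ _ (mem_univ i)] at hs ⊢
        have h2 : ∑ j ∈ univ.erase i, ((y - ee i) j - lo j).toNat =
            ∑ j ∈ univ.erase i, (y j - lo j).toNat :=
          sum_congr rfl fun j hj => by simp [ee_ne (ne_of_mem_erase hj)]
        rw [h2]
        simp only [Pi.sub_apply, ee_self]
        omega
      rw [← ih _ hy' hs']
      by_contra hne
      refine hc ⟨(y - ee i, i), ?_, hy'⟩
      rw [mem_jumps, grad, tip_mk, sub_add_cancel]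
      exact sub_ne_zero.2 hne
  exact h ((key _ a ha rfl).trans (key _ b hb rfl).symm)

lemma coarse_sum_le (f : Fn D) (J : Finset (Ed D)) : ∑ e ∈ J, (grad f e).natAbs ≤ TV f := by
  rw [TV_eq_sum (subset_union_right (s₁ := J))]
  exact sum_le_sum_of_subset subset_union_left

lemma coarse_sum_inj {ι : Type} (f : Fn D) (S : Finset ι) (ψ : ι → Ed D)
    (h : Set.InjOn ψ S) : ∑ s ∈ S, (grad f (ψ s)).natAbs ≤ TV f := by
  rw [← sum_image (f := fun e => (grad f e).natAbs) h]
  exact coarse_sum_le f _

/-- The whole block of `y` lies in the box. -/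
def CoarseGood (α β : ℤ) (y : V D) : Prop := ∀ i, α ≤ 2 * (y i / 2) ∧ 2 * (y i / 2) + 1 ≤ β

lemma coarse_bad {f : Fn D} {α β : ℤ} (hf : ∀ y, f y ≠ 0 → ∀ i, α ≤ y i ∧ y i ≤ β) {y : V D}
    (hy : ¬CoarseGood α β y) : ∃ i, f (y - ee i) = 0 ∨ f (y + ee i) = 0 := by
  by_contra hc
  push Not at hc
  refine hy fun i => ?_
  have h1 := hf _ (hc i).1 i
  have h2 := hf _ (hc i).2 i
  simp only [Pi.sub_apply, Pi.add_apply, ee_self] at h1 h2
  omega

lemma coarse_near {f : Fn D} {α β : ℤ} (hf : ∀ y, f y ≠ 0 → ∀ i, α ≤ y i ∧ y i ≤ β) (a : V D) :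
    ∃ a' : V D, f.filter (CoarseGood α β) a = f a' ∧ ∀ i, a i - 1 ≤ a' i ∧ a' i ≤ a i + 1 := by
  rw [Finsupp.filter_apply]
  split_ifs with h
  · exact ⟨a, rfl, fun i => by omega⟩
  · obtain ⟨i, h1 | h1⟩ := coarse_bad hf h
    · refine ⟨_, h1.symm, fun j => ?_⟩
      simp only [Pi.sub_apply, ee_apply]
      split_ifs <;> omega
    · refine ⟨_, h1.symm, fun j => ?_⟩
      simp only [Pi.add_apply, ee_apply]
      split_ifs <;> omega

lemma coarse_card {f : Fn D} {α β : ℤ} (hf : ∀ y, f y ≠ 0 → ∀ i, α ≤ y i ∧ y i ≤ β)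
    (Y : Finset (V D)) (hY : ∀ y ∈ Y, f y ≠ f.filter (CoarseGood α β) y) : Y.card ≤ TV f := by
  refine le_trans (card_le_card ?_)
    ((card_image_le (s := jumps f) (f := fun e => if f e.1 = 0 then tip e else e.1)).trans
      (card_jumps_le f))
  intro y hy
  have h := hY y hy
  rw [Finsupp.filter_apply] at h
  split_ifs at h with hg
  · exact absurd rfl h
  obtain ⟨i, h1 | h1⟩ := coarse_bad hf hg
  · refine mem_image.2 ⟨(y - ee i, i), ?_, by simp [h1]⟩
    simpa [grad, h1] using h
  · refine mem_image.2 ⟨(y, i), ?_, by simp [h]⟩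
    simpa [grad, h1] using h

lemma coarse_TV {f : Fn D} {α β : ℤ} (hf : ∀ y, f y ≠ 0 → ∀ i, α ≤ y i ∧ y i ≤ β) :
    TV (f.filter (CoarseGood α β)) ≤ TV f := by
  set G : V D → Prop := CoarseGood α β with hG
  set A := jumps (f.filter G) with hA
  set M := A.filter fun e => ¬(G e.1 ∧ G (tip e)) with hM
  set ψ : Ed D → Ed D := fun e => if G e.1 then (e.1 + ee e.2, e.2) else (e.1 - ee e.2, e.2)
    with hψ
  have hA' : ∀ e ∈ A, G e.1 ∨ G (tip e) := by
    intro e he
    by_contra hc
    push Not at hc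
    simp [hA, grad, Finsupp.filter_apply, hc.1, hc.2] at he
  have up : ∀ (y : V D) (i : Fin D), G y → ¬G (y + ee i) → y i % 2 = 1 ∧ β < y i + 2 := by
    intro y i h1 h2
    by_contra hc
    refine h2 fun j => ?_
    have := h1 j
    simp only [Pi.add_apply, ee_apply]
    split_ifs with hj
    · subst hj; omega
    · simpa using this
  have dw : ∀ (y : V D) (i : Fin D), ¬G y → G (y + ee i) → y i % 2 = 1 ∧ y i - 1 < α := by
    intro y i h1 h2
    by_contra hc
    refine h1 fun j => ?_
    have := h2 j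
    simp only [Pi.add_apply, ee_apply] at this
    split_ifs at this with hj
    · subst hj; omega
    · simpa using this
  have h1 : ∀ e ∈ A, (grad (f.filter G) e).natAbs ≤ (grad f e).natAbs +
      if ¬(G e.1 ∧ G (tip e)) then (grad f (ψ e)).natAbs else 0 := by
    rintro ⟨y, i⟩ he
    have h2 := hA' _ he
    simp only [tip_mk] at h2
    by_cases g1 : G y <;> by_cases g2 : G (y + ee i)
    · simp [grad, Finsupp.filter_apply, g1, g2]
    · have h3 : f (y + ee i + ee i) = 0 := by
        by_contra h0
        have h4 := hf _ h0 i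
        have h5 := up y i g1 g2
        simp only [Pi.add_apply, ee_self] at h4
        omega
      simp only [grad, Finsupp.filter_apply, g1, g2, hψ, tip_mk, h3, if_true, if_false, and_false,
        not_false_eq_true]
      omega
    · have h3 : f (y - ee i) = 0 := by
        by_contra h0
        have h4 := hf _ h0 i
        have h5 := dw y i g1 g2
        simp only [Pi.sub_apply, ee_self] at h4
        omega
      simp only [grad, Finsupp.filter_apply, g1, g2, hψ, tip_mk, h3, if_true, if_false, false_and,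
        not_false_eq_true, sub_add_cancel]
      omega
    · tauto
  have hinj : Set.InjOn ψ M := by
    rintro ⟨y, i⟩ he ⟨y', i'⟩ he' hh
    have a1 := mem_filter.1 (mem_coe.1 he)
    have a2 := mem_filter.1 (mem_coe.1 he')
    have b1 := hA' _ a1.1
    have b2 := hA' _ a2.1
    simp only [tip_mk] at a1 a2 b1 b2
    by_cases g1 : G y <;> by_cases g2 : G y' <;>
      simp only [hψ, g1, g2, if_true, if_false, Prod.mk.injEq] at hh <;>
      obtain ⟨hh, rfl⟩ := hh
    · rw [add_left_inj] at hh
      rw [hh]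
    · exfalso
      have c1 := up y i g1 fun h => a1.2 ⟨g1, h⟩
      have c2 := (b2.resolve_left g2) i
      have c3 := congrFun hh i
      simp only [Pi.add_apply, Pi.sub_apply, ee_self] at c2 c3
      omega
    · exfalso
      have c1 := up y' i g2 fun h => a2.2 ⟨g2, h⟩
      have c2 := (b1.resolve_left g1) i
      have c3 := congrFun hh i
      simp only [Pi.add_apply, Pi.sub_apply, ee_self] at c2 c3
      omega
    · rw [sub_left_inj] at hh
      rw [hh]
  have hdisj : Disjoint A (M.image ψ) := by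
    rw [disjoint_left]
    intro e he he'
    obtain ⟨⟨y, i⟩, hm, rfl⟩ := mem_image.1 he'
    have a1 := mem_filter.1 hm
    have b1 := hA' _ a1.1
    have b2 := hA' _ he
    simp only [tip_mk] at a1 b1
    by_cases g1 : G y
    · have g2 : ¬G (y + ee i) := fun h => a1.2 ⟨g1, h⟩
      simp only [hψ, g1, if_true, tip_mk] at b2
      have c1 := up y i g1 g2
      have c2 := (b2.resolve_left g2) i
      simp only [Pi.add_apply, ee_self] at c2
      omega
    · simp only [hψ, g1, if_false, tip_mk, sub_add_cancel, or_false] at b2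
      have c1 := dw y i g1 (b1.resolve_left g1)
      have c2 := b2 i
      simp only [Pi.sub_apply, ee_self] at c2
      omega
  calc TV (f.filter G) = ∑ e ∈ A, (grad (f.filter G) e).natAbs := rfl
    _ ≤ ∑ e ∈ A, ((grad f e).natAbs +
      if ¬(G e.1 ∧ G (tip e)) then (grad f (ψ e)).natAbs else 0) := sum_le_sum h1
    _ = ∑ e ∈ A, (grad f e).natAbs + ∑ e ∈ M, (grad f (ψ e)).natAbs := by
      rw [sum_add_distrib, hM, sum_filter]
    _ = ∑ e ∈ A ∪ M.image ψ, (grad f e).natAbs := by
      rw [sum_union hdisj, sum_image hinj]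
    _ ≤ TV f := coarse_sum_le f _

/-- The offsets inside a block. -/
def coarseCube (D : ℕ) : Finset (V D) := Fintype.piFinset fun _ => ({0, 1} : Finset ℤ)

lemma mem_coarseCube {u : V D} : u ∈ coarseCube D ↔ ∀ i, u i = 0 ∨ u i = 1 := by
  simp [coarseCube]

lemma card_coarseCube : (coarseCube D).card = 2 ^ D := by
  simp [coarseCube]

/-- Sampling at the offset `u` in each block. -/
noncomputable def coarseS (f : Fn D) (u : V D) : Fn D :=
  Finsupp.comapDomain (fun z : V D => fun i => 2 * z i + u i) f fun z _ z' _ h => by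
    funext i
    have := congrFun h i
    simp only at this
    omega

lemma coarseS_apply (f : Fn D) (u z : V D) : coarseS f u z = f fun i => 2 * z i + u i := rfl

lemma coarse_sum_TV (f : Fn D) : ∑ u ∈ coarseCube D, TV (coarseS f u) ≤ 2 * TV f := by
  set S := (coarseCube D).sigma fun u => jumps (coarseS f u) with hS
  let ψ : (Σ _ : V D, Ed D) → Ed D := fun s => (fun i => 2 * s.2.1 i + s.1 i, s.2.2)
  have hinj : Set.InjOn ψ S := by
    rintro ⟨u, z, i⟩ h1 ⟨u', z', i'⟩ h2 h
    have a1 := mem_coarseCube.1 (mem_sigma.1 (mem_coe.1 h1)).1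
    have a2 := mem_coarseCube.1 (mem_sigma.1 (mem_coe.1 h2)).1
    simp only [ψ, Prod.mk.injEq] at h a1 a2
    obtain ⟨h, rfl⟩ := h
    have e1 : u = u' := by
      funext j
      have := congrFun h j; have := a1 j; have := a2 j
      omega
    have e2 : z = z' := by
      funext j
      have := congrFun h j; have := a1 j; have := a2 j
      omega
    rw [e1, e2]
  have hinj' : Set.InjOn (fun s => (tip (ψ s), (ψ s).2)) S := by
    intro s hs s' hs' h
    refine hinj hs hs' ?_
    simp only [Prod.mk.injEq, tip] at h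
    obtain ⟨h1, h2⟩ := h
    rw [h2, add_left_inj] at h1
    exact Prod.ext h1 h2
  calc ∑ u ∈ coarseCube D, TV (coarseS f u)
      = ∑ s ∈ S, (grad (coarseS f s.1) s.2).natAbs := by
        rw [hS, sum_sigma]; rfl
    _ ≤ ∑ s ∈ S, ((grad f (ψ s)).natAbs + (grad f (tip (ψ s), (ψ s).2)).natAbs) := by
        refine sum_le_sum fun s _ => ?_
        have e : (fun i => 2 * (tip s.2) i + s.1 i) = tip (tip (ψ s), (ψ s).2) := by
          funext j
          simp only [tip, ψ, Pi.add_apply]
          ring
        simp only [grad, coarseS_apply, e]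
        simp only [ψ]
        omega
    _ ≤ 2 * TV f := by
        rw [sum_add_distrib, two_mul]
        exact add_le_add (coarse_sum_inj f S ψ hinj) (coarse_sum_inj f S _ hinj')

lemma coarse_sum_ch (f : Fn D) (B : Finset (V D)) :
    ∑ u ∈ coarseCube D, (B.filter fun y => f y ≠ coarseS f u (dn 1 y)).card ≤ 2 ^ D * TV f := by
  rw [← card_sigma]
  set S := (coarseCube D).sigma fun u => B.filter fun y => f y ≠ coarseS f u (dn 1 y) with hS
  let H : (Σ _ : V D, V D) → ℕ → V D := fun s k j =>
    if j.1 < k then 2 * (s.2 j / 2) + s.1 j else s.2 j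
  have hex : ∀ s : (Σ _ : V D, V D), ∃ k : ℕ, s ∈ S → k < D ∧ f (H s k) ≠ f (H s (k + 1)) := by
    intro s
    by_contra hc
    push Not at hc
    have hs := (hc 0).1
    have h1 : ∀ k, k ≤ D → f (H s k) = f s.2 := by
      intro k
      induction k with
      | zero => intro _; congr 1
      | succ k ih => intro hk; rw [← (hc k).2 hk, ih (by omega)]
    have h2 := (mem_filter.1 (mem_sigma.1 hs).2).2
    refine h2 ((h1 D le_rfl).symm.trans ?_)
    rw [coarseS_apply]
    congr 1
    funext j
    simp [H, dn]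
  choose K hK using hex
  rcases Nat.eq_zero_or_pos D with hD | hD
  · have : S = ∅ := eq_empty_of_forall_notMem fun s hs => by have := (hK s hs).1; omega
    simp [this]
  let κ : (Σ _ : V D, V D) → Fin D := fun s => ⟨K s % D, Nat.mod_lt _ hD⟩
  have hκ : ∀ s ∈ S, (κ s).1 = K s := fun s hs => Nat.mod_eq_of_lt (hK s hs).1
  let Φ : (Σ _ : V D, V D) → Ed D × V D := fun s =>
    ((fun j => if j = κ s then 2 * (s.2 j / 2) else H s (K s) j, κ s),
      fun j => if j ≤ κ s then s.2 j % 2 else s.1 j)
  have hdiff : ∀ s ∈ S, s.1 (κ s) + s.2 (κ s) % 2 = 1 := by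
    intro s hs
    by_contra hc
    refine (hK s hs).2 ?_
    congr 1
    funext j
    have a1 := mem_coarseCube.1 (mem_sigma.1 hs).1 j
    have a2 := hκ s hs
    by_cases hj : j = κ s
    · have a3 : j.1 = K s := by rw [hj, a2]
      rw [← hj] at hc
      simp only [H, a3, lt_irrefl, if_false, Nat.lt_succ_self, if_true]
      omega
    · have a3 : j.1 ≠ K s := fun h => hj (Fin.ext (h.trans a2.symm))
      have a4 : j.1 < K s + 1 ↔ j.1 < K s := by omega
      simp only [H, a4]
  have hmap : ∀ s ∈ S, Φ s ∈ jumps f ×ˢ coarseCube D := by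
    intro s hs
    have a1 := mem_coarseCube.1 (mem_sigma.1 hs).1
    have a2 := hκ s hs
    have a5 := hdiff s hs
    refine mem_product.2 ⟨?_, mem_coarseCube.2 fun j => ?_⟩
    · have hne := (hK s hs).2
      rw [mem_jumps, grad, sub_ne_zero]
      have e1 : ∀ j, j ≠ κ s → H s (K s + 1) j = H s (K s) j := by
        intro j hj
        have a3 : j.1 ≠ K s := fun h => hj (Fin.ext (h.trans a2.symm))
        have a4 : j.1 < K s + 1 ↔ j.1 < K s := by omega
        simp only [H, a4]
      have e2 : H s (K s) (κ s) = s.2 (κ s) := by simp [H, a2]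
      have e3 : H s (K s + 1) (κ s) = 2 * (s.2 (κ s) / 2) + s.1 (κ s) := by simp [H, a2]
      rcases a1 (κ s) with h0 | h0
      · have f1 : tip (Φ s).1 = H s (K s) := by
          funext j
          simp only [tip, Φ, Pi.add_apply, ee_apply]
          split_ifs with hj
          · rw [hj, e2]; omega
          · simp
        have f2 : (Φ s).1.1 = H s (K s + 1) := by
          funext j
          simp only [Φ]
          split_ifs with hj
          · rw [hj, e3]; omega
          · exact (e1 j hj).symm
        rw [f1, f2]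
        exact hne
      · have f1 : tip (Φ s).1 = H s (K s + 1) := by
          funext j
          simp only [tip, Φ, Pi.add_apply, ee_apply]
          split_ifs with hj
          · rw [hj, e3]; omega
          · rw [e1 j hj]; simp
        have f2 : (Φ s).1.1 = H s (K s) := by
          funext j
          simp only [Φ]
          split_ifs with hj
          · rw [hj, e2]; omega
          · rfl
        rw [f1, f2]
        exact hne.symm
    · have := a1 j
      simp only [Φ]
      split_ifs <;> omega
  have hinj : Set.InjOn Φ S := by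
    intro s hs s' hs' h
    have a1 := mem_coarseCube.1 (mem_sigma.1 hs).1
    have a1' := mem_coarseCube.1 (mem_sigma.1 hs').1
    have a2 := hκ s hs
    have a2' := hκ s' hs'
    have a5 := hdiff s hs
    have a5' := hdiff s' hs'
    simp only [Φ, Prod.mk.injEq] at h
    obtain ⟨⟨h1, h2⟩, h3⟩ := h
    have h4 : K s' = (κ s).1 := by rw [← a2', h2]
    rw [← h2] at h1 h3 a5'
    have key : ∀ j, s.1 j = s'.1 j ∧ s.2 j = s'.2 j := by
      intro j
      have b1 := congrFun h1 j
      have b3 := congrFun h3 j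
      have := a1 j
      have := a1' j
      simp only [H, ← a2, h4] at b1 b3
      rcases lt_trichotomy j (κ s) with hj | hj | hj
      · have c1 : j.1 < (κ s).1 := hj
        simp only [hj.ne, hj.le, c1, if_true, if_false] at b1 b3
        omega
      · rw [← hj] at a5 a5'
        simp only [hj, le_refl, if_true] at b1 b3
        rw [← hj] at b1 b3
        omega
      · have c1 : ¬j.1 < (κ s).1 := not_lt.2 hj.le
        simp only [hj.ne', not_le.2 hj, c1, if_false] at b1 b3
        omega
    obtain ⟨u, y⟩ := s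
    obtain ⟨u', y'⟩ := s'
    have e1 : u = u' := funext fun j => (key j).1
    have e2 : y = y' := funext fun j => (key j).2
    rw [e1, e2]
  calc S.card ≤ (jumps f ×ˢ coarseCube D).card := card_le_card_of_injOn Φ hmap hinj
    _ ≤ 2 ^ D * TV f := by
      rw [card_product, card_coarseCube, mul_comm]
      exact Nat.mul_le_mul_left _ (card_jumps_le f)

/-- One coarse-graining step for a function supported in the box `[α, β]^D`. -/
theorem coarse_step (hD : 2 ≤ D) (f : Fn D) (α β : ℤ)
    (hf : ∀ y, f y ≠ 0 → ∀ i, α ≤ y i ∧ y i ≤ β) :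
    ∃ g : Fn D, (∀ z, g z ≠ 0 → ∀ i, α ≤ 2 * z i ∧ 2 * z i + 1 ≤ β) ∧
      2 ^ (D - 2) * TV g ≤ TV f ∧
      (∀ Y : Finset (V D), (∀ y ∈ Y, f y ≠ g (dn 1 y)) → Y.card ≤ 3 * TV f) ∧
      (∀ e ∈ jumps g, ∃ e' ∈ jumps f, ∀ i, |e'.1 i - 2 * e.1 i| ≤ 4) ∧
      (∀ y, f y ≠ g (dn 1 y) → ∃ e' ∈ jumps f, ∀ i, |e'.1 i - y i| ≤ 2) := by
  set F := f.filter (CoarseGood α β) with hF
  set B : Finset (V D) := Fintype.piFinset fun _ => Finset.Icc α β with hB
  have hTV : TV F ≤ TV f := coarse_TV hf
  obtain ⟨d, rfl⟩ : ∃ d, D = d + 2 := ⟨D - 2, by omega⟩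
  obtain ⟨u, hu, hle⟩ : ∃ u ∈ coarseCube (d + 2), 2 ^ (d + 1) * TV (coarseS F u) +
      (B.filter fun y => F y ≠ coarseS F u (dn 1 y)).card ≤ 2 * TV F := by
    refine exists_le_of_sum_le ⟨0, mem_coarseCube.2 fun _ => Or.inl rfl⟩ ?_
    rw [sum_add_distrib, ← mul_sum, sum_const, card_coarseCube, smul_eq_mul]
    have h1 := Nat.mul_le_mul_left (2 ^ (d + 1)) (coarse_sum_TV F)
    have h2 := coarse_sum_ch F B
    have h3 : 2 ^ (d + 1) * (2 * TV F) = 2 ^ (d + 2) * TV F := by ring
    have h4 : 2 ^ (d + 2) * (2 * TV F) = 2 ^ (d + 2) * TV F + 2 ^ (d + 2) * TV F := by ring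
    omega
  have hu' := mem_coarseCube.1 hu
  have hgood : ∀ y, F y ≠ 0 → CoarseGood α β y := by
    intro y hy
    by_contra hc
    exact hy (Finsupp.filter_apply_neg _ _ hc)
  have hsupp : ∀ z, coarseS F u z ≠ 0 → ∀ i, α ≤ 2 * z i ∧ 2 * z i + 1 ≤ β := by
    intro z hz i
    have h1 := hgood _ hz i
    have h2 := hu' i
    simp only at h1
    omega
  refine ⟨coarseS F u, hsupp, ?_, fun Y hY => ?_, fun e he => ?_, fun y hy => ?_⟩
  · have h1 : 2 ^ (d + 1) * TV (coarseS F u) = 2 * (2 ^ (d + 2 - 2) * TV (coarseS F u)) := by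
      rw [Nat.add_sub_cancel]; ring
    omega
  · have h1 := coarse_card hf (Y.filter fun y => f y ≠ F y) fun y hy => (mem_filter.1 hy).2
    have h2 : Y.filter (fun y => ¬f y ≠ F y) ⊆
        B.filter fun y => F y ≠ coarseS F u (dn 1 y) := by
      intro y hy
      obtain ⟨a1, a2⟩ := mem_filter.1 hy
      rw [not_not] at a2
      have a3 := hY y a1
      refine mem_filter.2 ⟨Fintype.mem_piFinset.2 fun i => mem_Icc.2 ?_, a2 ▸ a3⟩
      by_cases h0 : f y = 0
      · have a4 := hsupp (dn 1 y) (fun h => a3 (h0.trans h.symm)) i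
        simp only [dn, pow_one] at a4
        omega
      · exact hf y h0 i
    have h3 := card_le_card h2
    have h4 := card_filter_add_card_filter_not (s := Y) fun y => f y ≠ F y
    omega
  · obtain ⟨a, ha, ha'⟩ := coarse_near hf fun i => 2 * e.1 i + u i
    obtain ⟨b, hb, hb'⟩ := coarse_near hf fun i => 2 * tip e i + u i
    have hne : f a ≠ f b := by
      rw [← ha, ← hb]
      rw [mem_jumps, grad, sub_ne_zero] at he
      exact he.symm
    obtain ⟨e', he', h⟩ := coarse_jump f (fun i => 2 * e.1 i - 4) (fun i => 2 * e.1 i + 4) a b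
      (fun i => by have := ha' i; have := hu' i; omega)
      (fun i => by
        have h1 := hb' i; have := hu' i
        simp only [tip, Pi.add_apply, ee_apply] at h1
        split_ifs at h1 <;> omega) hne
    exact ⟨e', he', fun i => by have := h i; rw [abs_le]; omega⟩
  · obtain ⟨b, hb, hb'⟩ := coarse_near hf fun i => 2 * dn 1 y i + u i
    obtain ⟨e', he', h⟩ := coarse_jump f (fun i => y i - 2) (fun i => y i + 2) y b
      (fun i => by omega)
      (fun i => by
        have h1 := hb' i; have := hu' i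
        simp only [dn, pow_one] at h1
        omega) (by rw [← hb]; exact hy)
    exact ⟨e', he', fun i => by have := h i; rw [abs_le]; omega⟩

end Pool.Agent.P.MP_67bca4_pr
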