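import Pool.Agent.P.MP_67bca4_pr.Tal

namespace Pool.Agent.P.MP_67bca4_pr

open Finset
open scoped Classical

variable {D : ℕ}

variable {I : Type} [Fintype I] [DecidableEq I] {p : ℝ}

/-- Gluing the bits inside and outside a set of indices. -/
def glueB (P : I → Prop) [DecidablePred P] (η : {i // P i} → Bool) (ζ : {i // ¬P i} → Bool) :
    I → Bool := fun i => if h : P i then η ⟨i, h⟩ else ζ ⟨i, h⟩

omit [DecidableEq I] in
lemma wt_glueB (P : I → Prop) [DecidablePred P] (η : {i // P i} → Bool)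
    (ζ : {i // ¬P i} → Bool) : wt p (glueB P η ζ) = wt p η * wt p ζ := by
  unfold wt
  rw [← Fintype.prod_subtype_mul_prod_subtype P]
  congr 1
  · exact prod_congr rfl fun i _ => by simp [glueB, i.2]
  · exact prod_congr rfl fun i _ => by simp [glueB, i.2]

lemma Ex_glueB (P : I → Prop) [DecidablePred P] (f : (I → Bool) → ℝ) :
    Ex p f = ∑ ζ : {i // ¬P i} → Bool, wt p ζ * Ex p (fun η => f (glueB P η ζ)) := by
  unfold Ex
  rw [← (Equiv.piEquivPiSubtypeProd P fun _ => Bool).symm.sum_comp, Fintype.sum_prod_type_right]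
  refine sum_congr rfl fun ζ _ => ?_
  rw [mul_sum]
  refine sum_congr rfl fun η _ => ?_
  change wt p (glueB P η ζ) * f (glueB P η ζ) = _
  rw [wt_glueB]; ring

/-- The exponential moment of the change under a permutation of all indices. -/
lemma perm_mgf (h0 : 0 ≤ p) (h1 : p ≤ 1) (F : (I → Bool) → ℝ) {B : ℝ}
    (hF : ∀ ω, ∃ g : I → ℝ, ∑ i, g i ^ 2 ≤ B ∧
      ∀ ω', F ω' ≤ F ω + ∑ i, g i * (bit (ω' i) - bit (ω i))) (π : Equiv.Perm I) {θ : ℝ}
    (hθ : 0 ≤ θ) :
    Ex p (fun ω => Real.exp (θ * (F (ω ∘ π) - F ω))) ≤ Real.exp (4 * θ ^ 2 * B) := by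
  have ht := tal_conc h0 h1 F hF (2 * θ) (by positivity)
  rw [← Ex_perm π fun ω => Real.exp (2 * θ * F ω)] at ht
  have hcs : Ex p (fun ω => Real.exp (θ * (F (ω ∘ π) - F ω))) ^ 2 ≤
      Ex p (fun ω => Real.exp (2 * θ * F (ω ∘ π))) *
        Ex p (fun ω => Real.exp (-(2 * θ * F ω))) := by
    unfold Ex
    refine sum_sq_le_sum_mul_sum_of_sq_le_mul _
      (fun ω _ => mul_nonneg (wt_nonneg h0 h1 ω) (Real.exp_pos _).le)
      (fun ω _ => mul_nonneg (wt_nonneg h0 h1 ω) (Real.exp_pos _).le) fun ω _ => le_of_eq ?_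
    have : Real.exp (θ * (F (ω ∘ π) - F ω)) ^ 2 =
        Real.exp (2 * θ * F (ω ∘ π)) * Real.exp (-(2 * θ * F ω)) := by
      rw [sq, ← Real.exp_add, ← Real.exp_add]; congr 1; ring
    rw [mul_pow, this]; ring
  refine (abs_le_of_sq_le_sq' ?_ (Real.exp_pos _).le).2
  refine (hcs.trans ht).trans (le_of_eq ?_)
  rw [sq (Real.exp _), ← Real.exp_add]; congr 1; ring

/-- The tail of the change of `F` under a permutation that moves only indices in `Y`. -/
theorem perm_tail (h0 : 0 ≤ p) (h1 : p ≤ 1) (F : (I → Bool) → ℝ) (Y : Finset I) {B : ℝ}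
    (hB : 0 < B)
    (hF : ∀ ω, ∃ g : I → ℝ, ∑ i ∈ Y, g i ^ 2 ≤ B ∧ ∀ ω', (∀ i, i ∉ Y → ω' i = ω i) →
      F ω' ≤ F ω + ∑ i ∈ Y, g i * (bit (ω' i) - bit (ω i)))
    (π : Equiv.Perm I) (hπ : ∀ i, i ∉ Y → π i = i) {lam : ℝ} (hlam : 0 ≤ lam) :
    Pr p (fun ω => lam ≤ F (ω ∘ π) - F ω) ≤ Real.exp (-(lam ^ 2 / (16 * B))) := by
  set θ := lam / (8 * B) with hθd
  have hθ : 0 ≤ θ := by positivity
  have hinv : ∀ i, π i ∈ Y ↔ i ∈ Y := by
    intro i
    constructor
    · intro h; by_contra h'; rw [hπ i h'] at h; exact h' h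
    · intro h; by_contra h'
      have := π.injective (hπ _ h'); rw [this] at h'; exact h' h
  let π' : Equiv.Perm {i // i ∈ Y} := π.subtypePerm hinv
  have hgl : ∀ (η : {i // i ∈ Y} → Bool) (ζ : {i // ¬i ∈ Y} → Bool),
      glueB (fun i => i ∈ Y) η ζ ∘ π = glueB (fun i => i ∈ Y) (η ∘ π') ζ := by
    intro η ζ; funext i
    by_cases h : i ∈ Y
    · have h' := (hinv i).2 h
      simp only [glueB, Function.comp, h, h', dif_pos]
      rfl
    · simp only [glueB, Function.comp, hπ i h, h, not_false_eq_true, dif_neg]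
  have hm : Ex p (fun ω => Real.exp (θ * (F (ω ∘ π) - F ω))) ≤ Real.exp (4 * θ ^ 2 * B) := by
    rw [Ex_glueB fun i => i ∈ Y]
    calc _ ≤ ∑ ζ : {i // ¬i ∈ Y} → Bool, wt p ζ * Real.exp (4 * θ ^ 2 * B) := by
          refine sum_le_sum fun ζ _ => mul_le_mul_of_nonneg_left ?_ (wt_nonneg h0 h1 ζ)
          simp only [hgl]
          refine @perm_mgf _ (Subtype.fintype fun i => i ∈ Y) _ _ h0 h1
            (fun η => F (glueB (fun i => i ∈ Y) η ζ)) _ (fun η => ?_) π' _ hθ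
          obtain ⟨g, hg1, hg2⟩ := hF (glueB (fun i => i ∈ Y) η ζ)
          refine ⟨fun i => g i.1, ?_, fun η' => ?_⟩
          · rwa [← sum_subtype Y (fun _ => Iff.rfl) fun i => g i ^ 2]
          · refine (hg2 (glueB (fun i => i ∈ Y) η' ζ) fun i hi => by simp [glueB, hi]).trans
              (le_of_eq ?_)
            congr 1
            rw [sum_subtype Y (p := fun i => i ∈ Y) (fun _ => Iff.rfl)]
            exact sum_congr rfl fun i _ => by simp [glueB, i.2]
      _ = _ := by rw [← sum_mul, sum_wt, one_mul]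
  have hmk : Real.exp (θ * lam) * Pr p (fun ω => lam ≤ F (ω ∘ π) - F ω) ≤ _ :=
    (Pr_le_Ex h0 h1 (fun ω => (Real.exp_pos _).le) fun ω hω =>
      Real.exp_le_exp.2 (mul_le_mul_of_nonneg_left hω hθ)).trans hm
  rw [← le_div_iff₀' (Real.exp_pos _), ← Real.exp_sub] at hmk
  refine hmk.trans (le_of_eq ?_)
  congr 1
  rw [hθd]; field_simp; ring

end Pool.Agent.P.MP_67bca4_pr
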