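import Pool.Agent.P.MP_67bca4_pr.Prim

namespace Pool.Agent.P.MP_67bca4_pr

open Finset
open scoped Classical

variable {D : ℕ}

theorem count_lists {c : V D → ℝ} (hc : ∀ S : Finset (V D), ∑ v ∈ S, Real.exp (-c v) ≤ 1 / 2)
    (n : ℕ) : ∀ (r : V D) (L : Finset (List (V D))), (∀ w ∈ L, w.length < n) →
      ∑ w ∈ L, Real.exp (-wcost c r w) ≤ 2 := by
  induction n with
  | zero =>
    intro r L h
    rw [eq_empty_of_forall_notMem fun w hw => Nat.not_lt_zero _ (h w hw), sum_empty]
    norm_num
  | succ n ih =>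
    intro r L h
    rw [← sum_filter_add_sum_filter_not L (fun w => w = [])]
    have h1 : ∑ w ∈ L.filter (fun w => w = []), Real.exp (-wcost c r w) ≤ 1 := by
      refine (sum_le_sum_of_subset_of_nonneg (t := {[]}) (fun w hw => ?_)
        fun _ _ _ => (Real.exp_pos _).le).trans ?_
      · exact mem_singleton.2 (mem_filter.1 hw).2
      · simp [wcost]
    have h2 : ∑ w ∈ L.filter (fun w => ¬w = []), Real.exp (-wcost c r w) ≤ 1 := by
      set L' := L.filter (fun w => ¬w = []) with hL'
      rw [← sum_fiberwise_of_maps_to (s := L') (t := L'.image fun w => w.headD r)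
        (g := fun w => w.headD r) fun w hw => mem_image_of_mem _ hw]
      have h3 : ∀ x ∈ L'.image fun w => w.headD r,
          ∑ w ∈ L' with w.headD r = x, Real.exp (-wcost c r w) ≤ Real.exp (-c (x - r)) * 2 := by
        intro x _
        have h4 : ∀ w ∈ L'.filter fun w => w.headD r = x, w = x :: w.tail := by
          intro w hw
          obtain ⟨h5, h6⟩ := mem_filter.1 hw
          rcases w with _ | ⟨y, w⟩
          · exact absurd rfl (mem_filter.1 h5).2
          · exact congrArg (· :: w) h6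
        have h5 := ih x ((L'.filter fun w => w.headD r = x).image List.tail) (by
          intro w hw
          obtain ⟨u, hu, rfl⟩ := mem_image.1 hw
          have h6 := h u (mem_filter.1 (mem_filter.1 hu).1).1
          rw [h4 u hu, List.length_cons] at h6
          omega)
        rw [sum_image fun u hu u' hu' h6 => by rw [h4 u hu, h4 u' hu', h6]] at h5
        refine le_trans (le_of_eq ?_) (mul_le_mul_of_nonneg_left h5 (Real.exp_pos _).le)
        rw [mul_sum]
        refine sum_congr rfl fun w hw => ?_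
        rw [← Real.exp_add, ← neg_add]
        conv_lhs => rw [h4 w hw, wcost]
      refine (sum_le_sum h3).trans ?_
      have h6 := hc ((L'.image fun w => w.headD r).image fun x => x - r)
      rw [sum_image fun x _ y _ hxy => sub_left_injective hxy] at h6
      rw [← sum_mul]
      linarith
    linarith

theorem count_len {c : V D → ℝ} (hc : ∀ S : Finset (V D), ∑ v ∈ S, Real.exp (-c v) ≤ 1 / 2)
    (w : List (V D)) : ∀ r : V D, (2 : ℝ) ^ w.length ≤ Real.exp (wcost c r w) := by
  induction w with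
  | nil => intro r; simp [wcost]
  | cons x w ih =>
    intro r
    have h1 := hc {x - r}
    rw [sum_singleton, Real.exp_neg, one_div,
      inv_le_inv₀ (Real.exp_pos _) (by norm_num)] at h1
    rw [List.length_cons, pow_succ', wcost, Real.exp_add]
    exact mul_le_mul h1 (ih x) (by positivity) (Real.exp_pos _).le

theorem count_int (Z : Finset ℤ) : ∑ z ∈ Z, Real.exp (-(z.natAbs : ℝ)) ≤ 3 := by
  have h1 : HasSum (fun z : ℤ => (1 / 2 : ℝ) ^ z.natAbs) (2 + 1 / 2 * 2) := by
    refine HasSum.of_nat_of_neg_add_one (by simpa using hasSum_geometric_two) ?_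
    have e : (fun n : ℕ => (1 / 2 : ℝ) ^ (-((n : ℤ) + 1)).natAbs)
        = fun n : ℕ => 1 / 2 * (1 / 2 : ℝ) ^ n := by
      funext n
      rw [Int.natAbs_neg, ← Nat.cast_succ, Int.natAbs_natCast, pow_succ']
    rw [e]
    exact hasSum_geometric_two.mul_left (1 / 2)
  refine (sum_le_sum fun z _ => ?_).trans ((sum_le_hasSum Z (fun _ _ => by positivity) h1).trans
    (by norm_num))
  rw [← mul_neg_one, Real.exp_nat_mul]
  refine pow_le_pow_left₀ (Real.exp_pos _).le ?_ _
  rw [Real.exp_neg, one_div]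
  exact inv_anti₀ (by norm_num) (by linarith [Real.add_one_le_exp 1])

theorem count_fixed (P : Finset (V D)) (i : Fin D) (G : Finset (Fn D))
    (hG : ∀ f ∈ G, bases (dirE (jumps f) i) ⊆ P) :
    ∑ f ∈ G, Real.exp (-(TVi f i : ℝ)) ≤ 3 ^ P.card := by
  have h0 : ∀ f ∈ G, ∀ x, x ∉ P → grad f (x, i) = 0 := fun f hf x hx => by
    by_contra h
    exact hx (hG f hf (mem_bases.2 ⟨(x, i), mem_filter.2 ⟨mem_jumps.2 h, rfl⟩, rfl⟩))
  let φ : Fn D → (P → ℤ) := fun f p => grad f (p.1, i)
  have h1 : ∀ f ∈ G, ∀ g ∈ G, φ f = φ g → f = g := fun f hf g hg h =>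
    eq_of_grad_dir i fun x => by
      by_cases hx : x ∈ P
      · exact congrFun h ⟨x, hx⟩
      · rw [h0 f hf x hx, h0 g hg x hx]
  have h2 : ∀ f ∈ G, Real.exp (-(TVi f i : ℝ)) ≤ ∏ p : P, Real.exp (-((φ f p).natAbs : ℝ)) := by
    intro f _
    rw [← Real.exp_sum, sum_neg_distrib, Real.exp_le_exp, neg_le_neg_iff, ← Nat.cast_sum,
      Nat.cast_le, sum_coe_sort P fun x => (grad f (x, i)).natAbs,
      ← sum_image (g := fun x : V D => ((x, i) : Ed D)) (f := fun e => (grad f e).natAbs)
        fun x _ y _ h => congrArg Prod.fst h]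
    refine sum_le_sum_of_ne_zero fun e he h => mem_filter.2 ⟨mem_jumps.2 fun h' => h ?_, ?_⟩
    · rw [h']; rfl
    · obtain ⟨x, -, rfl⟩ := mem_image.1 he
      rfl
  refine (sum_le_sum h2).trans ?_
  rw [← sum_image (g := φ) (f := fun v : P → ℤ => ∏ p : P, Real.exp (-((v p).natAbs : ℝ))) h1]
  refine (sum_le_sum_of_subset_of_nonneg
    (t := Fintype.piFinset fun p : P => G.image fun f => φ f p) (fun v hv => ?_)
    fun _ _ _ => by positivity).trans ?_
  · obtain ⟨f, hf, rfl⟩ := mem_image.1 hv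
    exact Fintype.mem_piFinset.2 fun p => mem_image_of_mem _ hf
  · rw [← prod_univ_sum (fun p : P => G.image fun f => φ f p)
      fun _ z => Real.exp (-(z.natAbs : ℝ))]
    refine (prod_le_prod (fun _ _ => sum_nonneg fun _ _ => (Real.exp_pos _).le)
      fun p _ => count_int _).trans (le_of_eq ?_)
    simp

/-- Counting functions by a tour through their jumps in one direction. -/
theorem count_fn {c : V D → ℝ} (hc : ∀ S : Finset (V D), ∑ v ∈ S, Real.exp (-c v) ≤ 1 / 2)
    (r : V D) (i : Fin D) (A T : ℝ) (S : Finset (Fn D))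
    (hS : ∀ f ∈ S, Tour c r (bases (dirE (jumps f) i)) A ∧ (TVi f i : ℝ) ≤ T) :
    (S.card : ℝ) ≤ Real.exp (4 * A + T + 2) := by
  choose! w hw1 hw2 using fun f hf => (hS f hf).1
  have h1 : ∀ u ∈ S.image w, (#{f ∈ S | w f = u} : ℝ) ≤
      3 * Real.exp (4 * A + T) * Real.exp (-wcost c r u) := by
    intro u hu
    obtain ⟨g, hg, hgu⟩ := mem_image.1 hu
    have h2 : wcost c r u ≤ A := hgu ▸ hw2 g hg
    have h3 := count_fixed (r :: u).toFinset i {f ∈ S | w f = u} fun f hf p hp => by
      obtain ⟨h4, h5⟩ := mem_filter.1 hf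
      exact List.mem_toFinset.2 (h5 ▸ hw1 f h4 p hp)
    have h4 := card_nsmul_le_sum {f ∈ S | w f = u} (fun f => Real.exp (-(TVi f i : ℝ)))
      (Real.exp (-T)) fun f hf => Real.exp_le_exp.2 (neg_le_neg (hS f (mem_filter.1 hf).1).2)
    rw [nsmul_eq_mul] at h4
    have h5 : (3 : ℝ) ^ (r :: u).toFinset.card ≤ 3 * Real.exp (3 * A) := by
      refine (pow_le_pow_right₀ (by norm_num) (List.toFinset_card_le _)).trans ?_
      rw [List.length_cons, pow_succ']
      refine mul_le_mul_of_nonneg_left ?_ (by norm_num)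
      calc (3 : ℝ) ^ u.length ≤ (2 ^ 3) ^ u.length := pow_le_pow_left₀ (by norm_num) (by norm_num) _
        _ = (2 ^ u.length) ^ 3 := by rw [← pow_mul, ← pow_mul, mul_comm]
        _ ≤ Real.exp A ^ 3 := pow_le_pow_left₀ (by positivity)
            ((count_len hc u r).trans (Real.exp_le_exp.2 h2)) 3
        _ = Real.exp (3 * A) := by rw [← Real.exp_nat_mul]; norm_num
    have h6 := mul_le_mul_of_nonneg_right (h4.trans (h3.trans h5)) (Real.exp_pos T).le
    rw [mul_assoc, ← Real.exp_add, neg_add_cancel, Real.exp_zero, mul_one, mul_assoc,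
      ← Real.exp_add] at h6
    refine h6.trans ?_
    rw [mul_assoc, ← Real.exp_add]
    exact mul_le_mul_of_nonneg_left (Real.exp_le_exp.2 (by linarith)) (by norm_num)
  rw [card_eq_sum_card_image w S, Nat.cast_sum]
  refine (sum_le_sum h1).trans ?_
  rw [← mul_sum, Real.exp_add (4 * A + T) 2]
  have h2 := count_lists hc ((S.image w).sup List.length + 1) r (S.image w) fun u hu =>
    Nat.lt_succ_of_le (le_sup (f := List.length) hu)
  have h3 : (6 : ℝ) ≤ Real.exp 2 := by
    have h4 := Real.exp_one_gt_d9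
    rw [show (2 : ℝ) = 1 + 1 by norm_num, Real.exp_add]
    nlinarith
  have h4 := Real.exp_pos (4 * A + T)
  nlinarith

end Pool.Agent.P.MP_67bca4_pr
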