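import Pool.Agent.P.MP_67bca4_pr.TourL

namespace Pool.Agent.P.MP_67bca4_pr

open Finset
open scoped Classical

variable {D : ℕ}

namespace LM

/-- Close to the set `P`. -/
def Near (P : Finset (V D)) (x : V D) : Prop := ∃ p ∈ P, l1 (x - p) ≤ 3

/-- A point of `P` close to `x`, when there is one. -/
noncomputable def phi (P : Finset (V D)) (x : V D) : V D :=
  if h : Near P x then h.choose else x

lemma phi_spec {P : Finset (V D)} {x : V D} (h : Near P x) :
    phi P x ∈ P ∧ l1 (x - phi P x) ≤ 3 := by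
  rw [phi, dif_pos h]; exact h.choose_spec

/-- The point `k` steps above `x`. -/
def up (i : Fin D) (x : V D) (k : ℕ) : V D := x + (k : ℤ) • ee i

lemma up_zero (i : Fin D) (x : V D) : up i x 0 = x := by simp [up]
lemma up_succ (i : Fin D) (x : V D) (k : ℕ) : up i x (k + 1) = up i x k + ee i := by
  simp [up, add_smul, add_assoc]
lemma up_succ' (i : Fin D) (x : V D) (k : ℕ) : up i x (k + 1) = up i (x + ee i) k := by
  simp only [up, Nat.cast_succ, add_smul, one_smul]; abel
lemma up_apply (i : Fin D) (x : V D) (k : ℕ) : up i x k i = x i + k := by simp [up]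
lemma up_add (i : Fin D) (x : V D) (k l : ℕ) : up i x (k + l) = up i (up i x k) l := by
  simp [up, add_smul, add_assoc]
lemma up_inj (i : Fin D) {x y : V D} {k : ℕ} (h : up i x k = up i y k) : x = y :=
  add_right_cancel h

/-- The height of the first near point above `x`. -/
noncomputable def hgt (P : Finset (V D)) (i : Fin D) (x : V D) : ℕ :=
  sInf {k | Near P (up i x k)}

/-- The point of `P` attached to `x`. -/
noncomputable def psi (P : Finset (V D)) (i : Fin D) (x : V D) : V D :=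
  phi P (up i x (hgt P i x))

lemma far_of_lt {P : Finset (V D)} {i : Fin D} {x : V D} {k : ℕ} (h : k < hgt P i x) :
    ¬Near P (up i x k) := Nat.notMem_of_lt_sInf h

lemma psi_near {P : Finset (V D)} {i : Fin D} {x : V D} (h : Near P x) : psi P i x = phi P x := by
  have : hgt P i x = 0 := Nat.sInf_eq_zero.2 (Or.inl (by simpa [up_zero] using h))
  rw [psi, this, up_zero]

lemma hgt_le {P : Finset (V D)} {i : Fin D} {x : V D} {k : ℕ} (h : Near P (up i x k)) :
    hgt P i x ≤ k := Nat.sInf_le h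

lemma hgt_near {P : Finset (V D)} {i : Fin D} {x : V D} (h : ∃ k, Near P (up i x k)) :
    Near P (up i x (hgt P i x)) := Nat.sInf_mem (s := {k | Near P (up i x k)}) h

lemma psi_def (P : Finset (V D)) (i : Fin D) (x : V D) :
    psi P i x = phi P (up i x (hgt P i x)) := rfl

attribute [local irreducible] phi hgt psi

variable {J : Finset (Ed D)} {i : Fin D}

lemma mem_P {x : V D} : x ∈ bases (dirE J i) ↔ (x, i) ∈ J := by
  simp only [mem_bases, dirE, mem_filter]
  constructor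
  · rintro ⟨⟨y, j⟩, ⟨h1, h2⟩, h3⟩
    dsimp only at h2 h3; rw [← h2, ← h3]; exact h1
  · intro h; exact ⟨(x, i), ⟨h, rfl⟩, rfl⟩

lemma stop (h1 : SqCl J) {x : V D} {j : Fin D} (h : (x, j) ∈ J) (h' : (x + ee i, j) ∉ J) :
    ∃ p ∈ bases (dirE J i), l1 (x - p) ≤ 1 := by
  by_cases hj : i = j
  · subst hj; exact ⟨x, mem_P.2 h, by simp⟩
  rcases h1 x i j hj h with h2 | h2 | h2
  · exact absurd h2 h'
  · exact ⟨x, mem_P.2 h2, by simp⟩
  · exact ⟨_, mem_P.2 h2, by rw [l1_sub_comm]; simp⟩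

lemma stack (h1 : SqCl J) {x : V D} {j : Fin D} (h : (x, j) ∈ J) (k : ℕ)
    (hk : ∀ l < k, ¬Near (bases (dirE J i)) (up i x l)) : (up i x k, j) ∈ J := by
  induction k with
  | zero => rwa [up_zero]
  | succ k ih =>
    have h2 := ih fun l hl => hk l (by omega)
    rw [up_succ]
    by_contra h3
    obtain ⟨p, hp, h4⟩ := stop h1 h2 h3
    exact hk k (by omega) ⟨p, hp, by linarith⟩

lemma bound (J : Finset (Ed D)) (i : Fin D) : ∃ M : ℤ, ∀ e ∈ J, e.1 i ≤ M := by
  obtain ⟨M, hM⟩ := (J.image fun e => e.1 i).bddAbove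
  exact ⟨M, fun e he => hM (mem_coe.2 (mem_image_of_mem _ he))⟩

lemma near_hgt (h1 : SqCl J) {x : V D} {j : Fin D} (h : (x, j) ∈ J) :
    Near (bases (dirE J i)) (up i x (hgt (bases (dirE J i)) i x)) := by
  refine hgt_near ?_
  by_contra h2
  obtain ⟨M, hM⟩ := bound J i
  have h3 := hM _ (stack (i := i) h1 h ((M - x i).toNat + 1) fun l _ hl => h2 ⟨l, hl⟩)
  dsimp only at h3
  rw [up_apply] at h3
  push_cast at h3
  omega

lemma psi_mem (h1 : SqCl J) {e : Ed D} (h : e ∈ J) :
    psi (bases (dirE J i)) i e.1 ∈ bases (dirE J i) := by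
  rw [psi_def]; exact (phi_spec (near_hgt (j := e.2) h1 h)).1

lemma psi_far (h1 : SqCl J) {x : V D} {j : Fin D} (h : (x + ee i, j) ∈ J)
    (hx : ¬Near (bases (dirE J i)) x) :
    psi (bases (dirE J i)) i x = psi (bases (dirE J i)) i (x + ee i) := by
  have h2 := near_hgt (i := i) h1 h
  have : hgt (bases (dirE J i)) i x = hgt (bases (dirE J i)) i (x + ee i) + 1 := by
    apply le_antisymm
    · exact hgt_le (by rwa [up_succ'])
    · have h3 : Near (bases (dirE J i)) (up i x (hgt (bases (dirE J i)) i x)) :=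
        hgt_near ⟨_ + 1, by rw [up_succ']; exact h2⟩
      generalize hgt (bases (dirE J i)) i x = k at h3
      cases k with
      | zero => exact absurd (by simpa [up_zero] using h3) hx
      | succ k =>
        rw [up_succ'] at h3
        exact Nat.succ_le_succ (hgt_le h3)
  rw [psi_def, this, up_succ', psi_def]

/-- The edges carrying a special step. -/
noncomputable def FF (J : Finset (Ed D)) (i : Fin D) : Finset (Ed D) :=
  J.filter fun f => Near (bases (dirE J i)) f.1 ∧ (f.1 + ee i, f.2) ∈ J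

/-- The length of the special step. -/
noncomputable def rho (J : Finset (Ed D)) (i : Fin D) (f : Ed D) : ℕ :=
  hgt (bases (dirE J i)) i (f.1 + ee i) + 1

lemma sum_rho (h1 : SqCl J) : ∑ f ∈ FF J i, rho J i f ≤ J.card := by
  have : ∑ f ∈ FF J i, rho J i f = ((FF J i).sigma fun f => range (rho J i f)).card := by
    simp [card_sigma]
  rw [this]
  have key : ∀ f ∈ FF J i, ∀ f' ∈ FF J i, ∀ k < rho J i f, ∀ k', k' < k →
      up i f.1 (k + 1) ≠ up i f'.1 (k' + 1) := by
    intro f _ f' hf' k hk k' hk' h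
    obtain ⟨d, rfl⟩ := Nat.exists_eq_add_of_lt hk'
    have h2 : up i f.1 (d + 1) = f'.1 := by
      apply up_inj i (k := k' + 1)
      rw [← up_add, ← h]; congr 1; omega
    have h3 := (mem_filter.1 hf').2.1
    rw [← h2, up_succ'] at h3
    exact far_of_lt (by unfold rho at hk; omega) h3
  refine card_le_card_of_injOn (fun a => (up i a.1.1 (a.2 + 1), a.1.2)) ?_ ?_
  · rintro ⟨f, k⟩ ha
    simp only [coe_sigma, Set.mem_sigma_iff, mem_coe, mem_range] at ha
    simp only [mem_coe, up_succ']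
    exact stack h1 (mem_filter.1 ha.1).2.2 k fun l hl =>
      far_of_lt (by have := ha.2; unfold rho at this; omega)
  · rintro ⟨f, k⟩ ha ⟨f', k'⟩ ha' h
    simp only [coe_sigma, Set.mem_sigma_iff, mem_coe, mem_range] at ha ha'
    simp only [Prod.mk.injEq] at h
    have hk : k = k' := by
      rcases lt_trichotomy k k' with h2 | h2 | h2
      · exact absurd h.1.symm (key f' ha'.1 f ha.1 k' ha'.2 k h2)
      · exact h2
      · exact absurd h.1 (key f ha.1 f' ha'.1 k ha.2 k' h2)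
    subst hk
    have : f = f' := Prod.ext (up_inj i h.1) h.2
    subst this
    rfl

/-- One step of the graph on the base points. -/
def St (J : Finset (Ed D)) (i : Fin D) (c : V D → ℝ) (K : ℝ) (x y : V D) : Prop :=
  x ∈ bases (dirE J i) ∧ y ∈ bases (dirE J i) ∧ (c (y - x) ≤ K ∨ ∃ f ∈ FF J i,
    ((phi (bases (dirE J i)) f.1 = x ∧ psi (bases (dirE J i)) i (f.1 + ee i) = y) ∨
      (phi (bases (dirE J i)) f.1 = y ∧ psi (bases (dirE J i)) i (f.1 + ee i) = x)) ∧
    c (y - x) ≤ K + (rho J i f : ℝ) / D)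

variable {c : V D → ℝ} {K : ℝ}

lemma St.symm (hc : ∀ v, c (-v) = c v) {x y : V D} (h : St J i c K x y) : St J i c K y x := by
  obtain ⟨h1, h2, h3⟩ := h
  refine ⟨h2, h1, ?_⟩
  rw [← neg_sub y x, hc]
  rcases h3 with h3 | ⟨f, hf, h3, h4⟩
  · exact Or.inl h3
  · exact Or.inr ⟨f, hf, h3.symm, h4⟩

lemma rt_symm (hc : ∀ v, c (-v) = c v) {x y : V D} (h : Relation.ReflTransGen (St J i c K) x y) :
    Relation.ReflTransGen (St J i c K) y x := by
  induction h with
  | refl => exact .refl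
  | tail _ h2 ih => exact .head (h2.symm hc) ih

lemma st_short (hs : ∀ (ρ : ℤ) (w : V D), l1 w ≤ 8 → c (ρ • ee i + w) ≤ |(ρ : ℝ)| / D + K)
    {x y : V D} (hx : x ∈ bases (dirE J i)) (hy : y ∈ bases (dirE J i)) (h : l1 (y - x) ≤ 8) :
    St J i c K x y := ⟨hx, hy, Or.inl (by simpa using hs 0 _ h)⟩

lemma rt_up (h1 : SqCl J)
    (hs : ∀ (ρ : ℤ) (w : V D), l1 w ≤ 8 → c (ρ • ee i + w) ≤ |(ρ : ℝ)| / D + K)
    {x : V D} {j : Fin D} (h : (x, j) ∈ J) (h' : (x + ee i, j) ∈ J) :
    Relation.ReflTransGen (St J i c K) (psi (bases (dirE J i)) i x)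
      (psi (bases (dirE J i)) i (x + ee i)) := by
  by_cases hx : Near (bases (dirE J i)) x
  swap
  · rw [psi_far h1 h' hx]
  rw [psi_near hx]
  refine .single ⟨(phi_spec hx).1, psi_mem h1 h', Or.inr ⟨(x, j), mem_filter.2 ⟨h, hx, h'⟩,
    Or.inl ⟨rfl, rfl⟩, ?_⟩⟩
  have a1 := (phi_spec hx).2
  have a2 := (phi_spec (near_hgt (i := i) h1 h')).2
  rw [l1_sub_comm, ← psi_def, ← up_succ'] at a2
  have a0 : hgt (bases (dirE J i)) i (x + ee i) + 1 = rho J i (x, j) := rfl
  rw [a0] at a2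
  generalize rho J i (x, j) = ρ at a2 ⊢
  generalize psi (bases (dirE J i)) i (x + ee i) = b at a2 ⊢
  generalize phi (bases (dirE J i)) x = a at a1 ⊢
  have a3 := hs ρ ((b - up i x ρ) + (x - a)) ((l1_add_le _ _).trans (by linarith))
  have e : (ρ : ℤ) • ee i + ((b - up i x ρ) + (x - a)) = b - a := by
    unfold up; abel
  rw [e] at a3
  simp only [Int.cast_natCast, Nat.abs_cast] at a3
  linarith

lemma rt_adj (h1 : SqCl J) (hc : ∀ v, c (-v) = c v)
    (hs : ∀ (ρ : ℤ) (w : V D), l1 w ≤ 8 → c (ρ • ee i + w) ≤ |(ρ : ℝ)| / D + K)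
    {e e' : Ed D} (he : e ∈ J) (he' : e' ∈ J) (h : l1 (e'.1 - e.1) ≤ 2) :
    Relation.ReflTransGen (St J i c K) (psi (bases (dirE J i)) i e.1)
      (psi (bases (dirE J i)) i e'.1) := by
  obtain ⟨M, hM⟩ := bound J i
  obtain ⟨n, hn⟩ : ∃ n : ℕ, M - e.1 i < n := ⟨(M - e.1 i).toNat + 1, by push_cast; omega⟩
  induction n generalizing e e' with
  | zero => have := hM e he; omega
  | succ n ih =>
    obtain ⟨x, j⟩ := e
    obtain ⟨x', j'⟩ := e'
    dsimp only at h hn ⊢
    have both : Near (bases (dirE J i)) x → Near (bases (dirE J i)) x' →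
        Relation.ReflTransGen (St J i c K) (psi (bases (dirE J i)) i x)
          (psi (bases (dirE J i)) i x') := by
      intro a a'
      rw [psi_near a, psi_near a']
      refine .single (st_short hs (phi_spec a).1 (phi_spec a').1 ?_)
      have b := (phi_spec a).2
      have b' := (phi_spec a').2
      rw [l1_sub_comm] at b'
      linarith [l1_sub_le (phi (bases (dirE J i)) x') x' (phi (bases (dirE J i)) x),
        l1_sub_le x' x (phi (bases (dirE J i)) x)]
    by_cases a : (x + ee i, j) ∈ J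
    swap
    · obtain ⟨p, hp, b⟩ := stop h1 he a
      exact both ⟨p, hp, by linarith⟩ ⟨p, hp, by linarith [l1_sub_le x' x p]⟩
    by_cases a' : (x' + ee i, j') ∈ J
    swap
    · obtain ⟨p, hp, b⟩ := stop h1 he' a'
      exact both ⟨p, hp, by linarith [l1_sub_le x x' p, l1_sub_comm x x']⟩ ⟨p, hp, by linarith⟩
    have b := ih a a' (by simpa using h) (by simp only [Pi.add_apply, ee_self]; omega)
    exact ((rt_up h1 hs he a).trans b).trans (rt_symm hc (rt_up h1 hs he' a'))

lemma reps (h1 : SqCl J) (h2 : Big J) (hc : ∀ v, c (-v) = c v)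
    (hs : ∀ (ρ : ℤ) (w : V D), l1 w ≤ 8 → c (ρ • ee i + w) ≤ |(ρ : ℝ)| / D + K) :
    ∃ A ⊆ bases (dirE J i), D ^ 3 * A.card ≤ J.card ∧
      ∀ p ∈ bases (dirE J i), ∃ q ∈ A, Relation.ReflTransGen (St J i c K) q p := by
  let s : Setoid (V D) := ⟨Relation.ReflTransGen (St J i c K),
    ⟨fun _ => .refl, rt_symm hc, .trans⟩⟩
  let rep : V D → V D := fun p => (Quotient.mk s p).out
  have r1 : ∀ p, Relation.ReflTransGen (St J i c K) (rep p) p := fun p => Quotient.mk_out (s := s) p
  have r2 : ∀ p q, Relation.ReflTransGen (St J i c K) p q → rep p = rep q := fun p q h =>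
    congrArg Quotient.out (Quotient.sound (s := s) h)
  refine ⟨(bases (dirE J i)).image rep, ?_, ?_, fun p hp => ⟨_, mem_image_of_mem _ hp, r1 p⟩⟩
  · intro q hq
    obtain ⟨p, hp, rfl⟩ := mem_image.1 hq
    rcases (r1 p).cases_head with h | ⟨_, h, -⟩
    · rwa [h]
    · exact h.1
  · refine mul_card_image_le_card_of_maps_to (f := fun e => rep (psi (bases (dirE J i)) i e.1))
      (fun e he => mem_image_of_mem _ (psi_mem h1 he)) _ fun q hq => h2 _ ⟨filter_subset _ _, ?_⟩ ?_
    · intro e he e' he' h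
      obtain ⟨a, b⟩ := mem_filter.1 he
      exact mem_filter.2 ⟨he', (r2 _ _ (rt_adj h1 hc hs a he' h.l1_le)).symm.trans b⟩
    · obtain ⟨p, hp, rfl⟩ := mem_image.1 hq
      have a : Near (bases (dirE J i)) p := ⟨p, hp, by simp⟩
      refine ⟨(p, i), mem_filter.2 ⟨mem_P.1 hp, r2 _ _ ?_⟩⟩
      dsimp only
      rw [psi_near a]
      exact .single (st_short hs (phi_spec a).1 hp (by linarith [(phi_spec a).2]))

end LM

/-- The Lebowitz-Mazel tour through the edges of one direction. -/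
theorem lm_tour (hD : 1 ≤ D) {J : Finset (Ed D)} (h1 : SqCl J) (h2 : Big J) {r : V D} {L : ℝ}
    (h3 : Tour l1 r (bases J) L) (i : Fin D) {c : V D → ℝ} (hc : ∀ v, c (-v) = c v)
    {θ K₁ K₂ : ℝ} (hθ : 0 ≤ θ) (hK₁ : 0 ≤ K₁) (hK₂ : 0 ≤ K₂)
    (hl : ∀ v, c v ≤ θ * l1 v + K₁)
    (hs : ∀ (ρ : ℤ) (w : V D), l1 w ≤ 8 → c (ρ • ee i + w) ≤ |(ρ : ℝ)| / D + K₂) :
    Tour c r (bases (dirE J i))
      (θ * L + K₁ * (J.card / (D : ℝ) ^ 3) + 2 * K₂ * (dirE J i).card + 2 * J.card / D) := by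
  obtain ⟨A, hA, hA', hP⟩ := LM.reps h1 h2 hc hs
  have hD' : (0 : ℝ) < D := by exact_mod_cast hD
  have t1 := (h3.mono (hA.trans (image_subset_image (filter_subset _ _))) le_rfl).short hθ hl
  have t2 := t1.grow (P := bases (dirE J i)) hc (LM.FF J i)
    (fun f => LM.phi (bases (dirE J i)) f.1) (fun f => LM.psi (bases (dirE J i)) i (f.1 + ee i))
    (fun f => (LM.rho J i f : ℝ) / D) (fun f _ => div_nonneg (Nat.cast_nonneg _) hD'.le) hK₂
    hP
  refine t2.mono subset_union_right ?_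
  have a1 : (A.card : ℝ) ≤ J.card / (D : ℝ) ^ 3 := by
    rw [le_div_iff₀ (by positivity), mul_comm]; exact_mod_cast hA'
  have a2 : ((bases (dirE J i)).card : ℝ) ≤ (dirE J i).card := by exact_mod_cast card_image_le
  have a3 : ∑ f ∈ LM.FF J i, (LM.rho J i f : ℝ) / D ≤ J.card / D := by
    rw [← sum_div]
    exact div_le_div_of_nonneg_right (by exact_mod_cast LM.sum_rho h1) hD'.le
  have a4 := mul_le_mul_of_nonneg_left a1 hK₁
  have a5 := mul_le_mul_of_nonneg_left a2 hK₂
  rw [mul_div_assoc]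
  linarith

end Pool.Agent.P.MP_67bca4_pr
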