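import Pool.Agent.P.MP_67bca4_pr.Defs

namespace Pool.Agent.P.MP_67bca4_pr

open Finset
open scoped Classical

variable {D : ℕ}

/-- The cost of a long step. -/
noncomputable def cLong (θ : ℝ) (v : V D) : ℝ := θ * l1 v + (D * Real.log (3 / θ) + Real.log 4)

/-- The cost of a step that is short except in direction `i`. -/
noncomputable def cShort (i : Fin D) (v : V D) : ℝ :=
  |(v i : ℝ)| / D + Real.log (4 * D) * ∑ j ∈ univ.erase i, |(v j : ℝ)| +
    (Real.log (3 * D) + 1 + Real.log 4)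

/-- The two-sided geometric sum. -/
lemma sum_exp_abs_le {θ : ℝ} (h0 : 0 < θ) (T : Finset ℤ) :
    ∑ z ∈ T, Real.exp (-(θ * |(z : ℝ)|)) ≤ 1 + 2 / (Real.exp θ - 1) := by
  set r := Real.exp (-θ) with hr
  have hr0 : 0 < r := Real.exp_pos _
  have hr1 : r < 1 := by rw [hr, Real.exp_lt_one_iff]; linarith
  have hg := hasSum_geometric_of_lt_one hr0.le hr1
  have h1 : HasSum (fun n : ℕ => Real.exp (-(θ * |((n : ℤ) : ℝ)|))) (1 - r)⁻¹ := by
    convert hg using 2 with n
    rw [hr, ← Real.exp_nat_mul]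
    congr 1
    simp only [Int.cast_natCast, Nat.abs_cast]
    ring
  have h2 : HasSum (fun n : ℕ => Real.exp (-(θ * |((-((n : ℤ) + 1) : ℤ) : ℝ)|)))
      (r * (1 - r)⁻¹) := by
    have e : (fun n : ℕ => Real.exp (-(θ * |((-((n : ℤ) + 1) : ℤ) : ℝ)|))) =
        fun n : ℕ => r * r ^ n := by
      funext n
      rw [hr, ← Real.exp_nat_mul, ← Real.exp_add]
      congr 1
      have : |((-((n : ℤ) + 1) : ℤ) : ℝ)| = (n : ℝ) + 1 := by
        push_cast
        rw [abs_neg, abs_of_nonneg (by positivity)]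
      rw [this]
      ring
    rw [e]
    exact hg.mul_left r
  have h3 : HasSum (fun z : ℤ => Real.exp (-(θ * |(z : ℝ)|))) ((1 - r)⁻¹ + r * (1 - r)⁻¹) :=
    HasSum.of_nat_of_neg_add_one h1 h2
  refine (sum_le_hasSum T (fun z _ => (Real.exp_pos _).le) h3).trans (le_of_eq ?_)
  have hE : Real.exp θ = r⁻¹ := by rw [hr, Real.exp_neg, inv_inv]
  have h4 : 1 - r ≠ 0 := by linarith
  have h5 : r⁻¹ - 1 = (1 - r) / r := by field_simp
  rw [hE, h5]
  field_simp
  ring

lemma sum_exp_abs_le' {θ : ℝ} (h0 : 0 < θ) (h1 : θ ≤ 1) (T : Finset ℤ) :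
    ∑ z ∈ T, Real.exp (-(θ * |(z : ℝ)|)) ≤ 3 / θ := by
  refine (sum_exp_abs_le h0 T).trans ?_
  have h2 : θ ≤ Real.exp θ - 1 := by linarith [Real.add_one_le_exp θ]
  have h3 : 2 / (Real.exp θ - 1) ≤ 2 / θ := div_le_div_of_nonneg_left (by norm_num) h0 h2
  have h4 : 1 ≤ 1 / θ := by rw [le_div_iff₀ h0]; linarith
  have h5 : 3 / θ = 1 / θ + 2 / θ := by ring
  linarith

/-- Sums of product weights. -/
lemma sum_prod_le (g : Fin D → ℤ → ℝ) (c : Fin D → ℝ) (hg : ∀ j z, 0 ≤ g j z)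
    (hc : ∀ j (T : Finset ℤ), ∑ z ∈ T, g j z ≤ c j) (S : Finset (V D)) :
    ∑ v ∈ S, ∏ j, g j (v j) ≤ ∏ j, c j := by
  have hsub : S ⊆ Fintype.piFinset fun j => S.image fun v => v j := by
    intro v hv
    rw [Fintype.mem_piFinset]
    exact fun j => mem_image_of_mem _ hv
  calc ∑ v ∈ S, ∏ j, g j (v j)
      ≤ ∑ v ∈ Fintype.piFinset (fun j => S.image fun v => v j), ∏ j, g j (v j) :=
        sum_le_sum_of_subset_of_nonneg hsub fun v _ _ => prod_nonneg fun j _ => hg j _
    _ = ∏ j, ∑ z ∈ S.image (fun v => v j), g j z := (prod_univ_sum _ _).symm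
    _ ≤ ∏ j, c j := prod_le_prod (fun j _ => sum_nonneg fun z _ => hg j z) fun j _ => hc j _

theorem sum_cLong {θ : ℝ} (h0 : 0 < θ) (h1 : θ ≤ 1) (S : Finset (V D)) :
    ∑ v ∈ S, Real.exp (-cLong θ v) ≤ 1 / 4 := by
  have hp : 0 < 3 / θ := by positivity
  have key : ∀ v : V D, Real.exp (-cLong θ v) =
      (∏ j, Real.exp (-(θ * |(v j : ℝ)|))) * (((3 / θ) ^ D)⁻¹ * (1 / 4)) := by
    intro v
    rw [← Real.exp_sum, cLong, l1, neg_add, Real.exp_add, neg_add, Real.exp_add, mul_sum,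
      ← sum_neg_distrib, Real.exp_neg (D * _), Real.exp_nat_mul, Real.exp_log hp,
      Real.exp_neg (Real.log 4), Real.exp_log (by norm_num), one_div]
  simp only [key]
  rw [← sum_mul]
  have h2 := sum_prod_le (D := D) (fun _ z => Real.exp (-(θ * |(z : ℝ)|))) (fun _ => 3 / θ)
    (fun _ _ => (Real.exp_pos _).le) (fun _ T => sum_exp_abs_le' h0 h1 T) S
  simp only [prod_const, card_univ, Fintype.card_fin] at h2
  have h3 : 0 < (3 / θ) ^ D := by positivity
  calc _ ≤ (3 / θ) ^ D * (((3 / θ) ^ D)⁻¹ * (1 / 4)) :=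
        mul_le_mul_of_nonneg_right h2 (by positivity)
    _ = 1 / 4 := by field_simp

theorem sum_cShort (i : Fin D) (S : Finset (V D)) :
    ∑ v ∈ S, Real.exp (-cShort i v) ≤ 1 / 4 := by
  have hD : 0 < D := i.pos
  have hD1 : (1 : ℝ) ≤ D := by exact_mod_cast hD
  have hD0 : (0 : ℝ) < D := by linarith
  set g : Fin D → ℤ → ℝ := fun j z =>
    if j = i then Real.exp (-(1 / D * |(z : ℝ)|)) else Real.exp (-(Real.log (4 * D) * |(z : ℝ)|))
    with hg
  set c : Fin D → ℝ := fun j => if j = i then 3 * D else 1 + 1 / D with hc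
  have key : ∀ v : V D, Real.exp (-cShort i v) =
      (∏ j, g j (v j)) * ((3 * (D : ℝ))⁻¹ * (Real.exp 1)⁻¹ * (1 / 4)) := by
    intro v
    have e1 : ∏ j, g j (v j) = Real.exp (-(|(v i : ℝ)| / D)) *
        Real.exp (-(Real.log (4 * D) * ∑ j ∈ univ.erase i, |(v j : ℝ)|)) := by
      rw [← mul_prod_erase univ _ (mem_univ i), mul_sum, ← sum_neg_distrib, Real.exp_sum]
      congr 1
      · simp only [hg, if_true]
        congr 1
        ring
      · refine prod_congr rfl fun j hj => ?_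
        simp only [hg, if_neg (ne_of_mem_erase hj)]
    rw [e1, cShort, neg_add, Real.exp_add, neg_add, Real.exp_add, neg_add, Real.exp_add, neg_add,
      Real.exp_add, Real.exp_neg (Real.log (3 * D)), Real.exp_log (by positivity),
      Real.exp_neg 1, Real.exp_neg (Real.log 4), Real.exp_log (by norm_num), one_div]
  simp only [key]
  rw [← sum_mul]
  have h2 := sum_prod_le (D := D) g c
    (fun j z => by simp only [hg]; split_ifs <;> exact (Real.exp_pos _).le) (fun j T => by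
      simp only [hg, hc]
      split_ifs
      · refine (sum_exp_abs_le' (by positivity) (by rw [div_le_one hD0]; exact hD1) T).trans
          (le_of_eq ?_)
        field_simp
      · refine (sum_exp_abs_le (Real.log_pos (by linarith)) T).trans ?_
        rw [Real.exp_log (by positivity)]
        have : 2 / (4 * (D : ℝ) - 1) ≤ 1 / D := by
          rw [div_le_div_iff₀ (by linarith) hD0]; linarith
        linarith) S
  have h3 : ∏ j, c j ≤ 3 * D * Real.exp 1 := by
    rw [← mul_prod_erase univ _ (mem_univ i)]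
    have e1 : c i = 3 * D := by simp [hc]
    rw [e1]
    refine mul_le_mul_of_nonneg_left ?_ (by positivity)
    calc ∏ j ∈ univ.erase i, c j ≤ ∏ _j ∈ univ.erase i, Real.exp (1 / D) := by
          refine prod_le_prod (fun j hj => ?_) fun j hj => ?_
          · simp only [hc, if_neg (ne_of_mem_erase hj)]; positivity
          · simp only [hc, if_neg (ne_of_mem_erase hj)]
            linarith [Real.add_one_le_exp (1 / (D : ℝ))]
      _ = Real.exp (((univ.erase i).card : ℕ) * (1 / D)) := by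
          rw [prod_const, Real.exp_nat_mul]
      _ ≤ Real.exp 1 := by
          refine Real.exp_le_exp.2 ?_
          have : (((univ.erase i).card : ℕ) : ℝ) ≤ D := by
            exact_mod_cast (card_le_univ _).trans (le_of_eq (Fintype.card_fin D))
          rw [mul_one_div, div_le_one hD0]
          exact this
  have h4 : 0 < Real.exp 1 := Real.exp_pos _
  calc _ ≤ 3 * D * Real.exp 1 * ((3 * (D : ℝ))⁻¹ * (Real.exp 1)⁻¹ * (1 / 4)) :=
        mul_le_mul_of_nonneg_right (h2.trans h3) (by positivity)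
    _ = 1 / 4 := by field_simp

theorem cShort_le (hD : 100 ≤ D) (i : Fin D) (ρ : ℤ) (w : V D) (hw : l1 w ≤ 8) :
    cShort i (ρ • ee i + w) ≤ |(ρ : ℝ)| / D + 13 * Real.log D := by
  have hD1 : (100 : ℝ) ≤ D := by exact_mod_cast hD
  have hD0 : (0 : ℝ) < D := by linarith
  have hl2 := Real.log_two_gt_d9
  have hl2' := Real.log_two_lt_d9
  have hl4 : Real.log 4 = 2 * Real.log 2 := by
    rw [show (4 : ℝ) = 2 ^ 2 by norm_num, Real.log_pow]; norm_num
  have hl64 : 6 * Real.log 2 ≤ Real.log D := by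
    have : Real.log ((2 : ℝ) ^ 6) ≤ Real.log D := Real.log_le_log (by norm_num) (by linarith)
    rw [Real.log_pow] at this
    exact_mod_cast this
  have h4D : Real.log (4 * D) = Real.log 4 + Real.log D :=
    Real.log_mul (by norm_num) hD0.ne'
  have h3D : Real.log (3 * D) ≤ Real.log (4 * D) := Real.log_le_log (by positivity) (by linarith)
  have hsplit : |(w i : ℝ)| + ∑ j ∈ univ.erase i, |(w j : ℝ)| = l1 w :=
    add_sum_erase univ (fun j => |(w j : ℝ)|) (mem_univ i)
  have hs0 : 0 ≤ ∑ j ∈ univ.erase i, |(w j : ℝ)| := sum_nonneg fun _ _ => abs_nonneg _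
  have hi0 : 0 ≤ |(w i : ℝ)| := abs_nonneg _
  have e1 : ∑ j ∈ univ.erase i, |(((ρ • ee i + w : V D) j : ℤ) : ℝ)| =
      ∑ j ∈ univ.erase i, |(w j : ℝ)| := by
    refine sum_congr rfl fun j hj => ?_
    simp [ee_ne (ne_of_mem_erase hj)]
  have e2 : |(((ρ • ee i + w : V D) i : ℤ) : ℝ)| ≤ |(ρ : ℝ)| + 8 := by
    have : (((ρ • ee i + w : V D) i : ℤ) : ℝ) = ρ + w i := by simp
    rw [this]
    linarith [abs_add_le (ρ : ℝ) (w i)]
  have e3 : |(((ρ • ee i + w : V D) i : ℤ) : ℝ)| / D ≤ |(ρ : ℝ)| / D + 1 := by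
    have a1 : |(((ρ • ee i + w : V D) i : ℤ) : ℝ)| / D ≤ (|(ρ : ℝ)| + 8) / D :=
      div_le_div_of_nonneg_right e2 hD0.le
    have a2 : (8 : ℝ) / D ≤ 1 := by rw [div_le_one hD0]; linarith
    rw [add_div] at a1
    linarith
  have e4 : Real.log (4 * D) * ∑ j ∈ univ.erase i, |(w j : ℝ)| ≤ Real.log (4 * D) * 8 :=
    mul_le_mul_of_nonneg_left (by linarith) (by linarith)
  rw [cShort, e1]
  linarith

end Pool.Agent.P.MP_67bca4_pr
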