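import Pool.Agent.P.MP_67bca4_pr.Count
import Pool.Agent.P.MP_67bca4_pr.Weights
import Pool.Agent.P.MP_67bca4_pr.LM

namespace Pool.Agent.P.MP_67bca4_pr

open Finset
open scoped Classical

variable {D : ℕ}

lemma cl_log_le (hD : 100 ≤ D) : Real.log D ≤ D / 10 + 8 := by
  have h0 : (0 : ℝ) < D := by exact_mod_cast (by omega : 0 < D)
  have h1 : Real.log D = Real.log (D / 10) + Real.log 10 := by
    rw [← Real.log_mul (by positivity) (by norm_num)]; congr 1; ring
  have h2 := Real.log_le_sub_one_of_pos (x := (D : ℝ) / 10) (by positivity)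
  have h3 := Real.log_le_sub_one_of_pos (x := (10 : ℝ)) (by norm_num)
  linarith

lemma cl_one_le_log (hD : 100 ≤ D) : 1 ≤ Real.log D := by
  have h0 : (100 : ℝ) ≤ D := by exact_mod_cast hD
  rw [Real.le_log_iff_exp_le (by linarith)]
  have := Real.exp_one_lt_d9
  linarith

lemma cl_exists_dir (hD : 100 ≤ D) (J : Finset (Ed D)) (s : Fn D) {m : ℕ} (h1 : J.card ≤ m)
    (h2 : TV s ≤ m) : ∃ i : Fin D, D * ((dirE J i).card + TVi s i) ≤ 2 * m := by
  by_contra h
  push Not at h
  have a : J.card = ∑ i : Fin D, (dirE J i).card :=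
    card_eq_sum_card_fiberwise (f := Prod.snd) (fun _ _ => mem_univ _)
  have b : TV s = ∑ i : Fin D, TVi s i :=
    (sum_fiberwise_of_maps_to (g := Prod.snd) (fun _ _ => mem_univ _) _).symm
  have : Nonempty (Fin D) := ⟨⟨0, by omega⟩⟩
  have c := sum_lt_sum_of_nonempty (s := (univ : Finset (Fin D))) univ_nonempty fun i _ => h i
  rw [sum_const, card_univ, Fintype.card_fin, smul_eq_mul, ← mul_sum, sum_add_distrib, ← a,
    ← b] at c
  have := Nat.lt_of_mul_lt_mul_left c
  omega

lemma cl_bases_dirE_mono {J J' : Finset (Ed D)} (h : J ⊆ J') (i : Fin D) :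
    bases (dirE J i) ⊆ bases (dirE J' i) :=
  image_subset_image (filter_subset_filter _ h)

lemma count_lev_zero (hD : 100 ≤ D) (n : ℕ) (r : V D) (m : ℕ) (S : Finset (Fn D))
    (hS : ∀ t ∈ S, Adm n r t m) : (S.card : ℝ) ≤ Real.exp (300 * m * Real.log D / D + D) := by
  have h100 : (100 : ℝ) ≤ D := by exact_mod_cast hD
  have h0 : (0 : ℝ) < D := by linarith
  have hl1 := cl_log_le hD
  have hl2 := cl_one_le_log hD
  have h3 := Real.log_le_sub_one_of_pos (x := (3 : ℝ)) (by norm_num)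
  have h4 := Real.log_le_sub_one_of_pos (x := (4 : ℝ)) (by norm_num)
  have h3' : 0 ≤ Real.log 3 := Real.log_nonneg (by norm_num)
  have h4' : 0 ≤ Real.log 4 := Real.log_nonneg (by norm_num)
  set θ : ℝ := 1 / (D : ℝ) ^ 2 with hθ
  have hθ0 : 0 < θ := by positivity
  have hθ1 : θ ≤ 1 := by rw [hθ, div_le_one (by positivity)]; nlinarith
  have hK : Real.log (3 / θ) = Real.log 3 + 2 * Real.log D := by
    rw [hθ, div_div_eq_mul_div, div_one, Real.log_mul (by norm_num) (by positivity), Real.log_pow]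
    norm_num
  set K₁ : ℝ := D * Real.log (3 / θ) + Real.log 4 with hK₁
  have hK0 : 0 ≤ K₁ := by rw [hK₁, hK]; positivity
  have hK1 : K₁ ≤ (D : ℝ) ^ 2 := by rw [hK₁, hK]; nlinarith
  let c : Fin D → V D → ℝ := fun i v => min (cLong θ v) (cShort i v)
  set u : ℝ := m / D with hu
  have hu0 : 0 ≤ u := by positivity
  let Q : Fin D → Fn D → Prop := fun i f =>
    Tour (c i) r (bases (dirE (jumps f) i)) ((11 + 52 * Real.log D) * u) ∧ (TVi f i : ℝ) ≤ 2 * u
  have hQ : ∀ t ∈ S, ∃ i, Q i t := by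
    intro t ht
    obtain ⟨-, h1, J, hJ, h2, h3, h4, h5⟩ := hS t ht
    obtain ⟨i, hi⟩ := cl_exists_dir hD J t h4 h1
    have hi' : ((dirE J i).card : ℝ) + TVi t i ≤ 2 * u := by
      rw [hu, ← mul_div_assoc, le_div_iff₀ h0, mul_comm]
      exact_mod_cast hi
    have hJm : (J.card : ℝ) ≤ m := by exact_mod_cast h4
    have a0 : (0 : ℝ) ≤ (dirE J i).card := Nat.cast_nonneg _
    have a1 : (0 : ℝ) ≤ TVi t i := Nat.cast_nonneg _
    refine ⟨i, (lm_tour (by omega) h2 h3 h5 i (c := c i) (θ := θ) (K₁ := K₁)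
      (K₂ := 13 * Real.log D) (fun v => ?_) hθ0.le hK0 (by positivity)
      (fun v => min_le_left _ _)
      (fun ρ w hw => (min_le_right _ _).trans (cShort_le hD i ρ w hw))).mono
      (cl_bases_dirE_mono hJ i) ?_, by linarith⟩
    · simp [c, cLong, cShort, l1_neg]
    · have b1 : θ * (8 * D * m) = 8 * u := by rw [hθ, hu]; field_simp
      have b2 : K₁ * (J.card / (D : ℝ) ^ 3) ≤ u := by
        calc K₁ * (J.card / (D : ℝ) ^ 3) ≤ (D : ℝ) ^ 2 * (m / (D : ℝ) ^ 3) := by gcongr
          _ = u := by rw [hu]; field_simp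
      have b3 : 2 * (J.card : ℝ) / D ≤ 2 * u := by
        rw [hu, mul_div_assoc]; gcongr
      have b4 : 2 * (13 * Real.log D) * (dirE J i).card ≤ 2 * (13 * Real.log D) * (2 * u) := by
        gcongr; linarith
      rw [b1]
      nlinarith
  have hc : ∀ i, ((S.filter (Q i)).card : ℝ) ≤
      Real.exp (4 * ((11 + 52 * Real.log D) * u) + 2 * u + 2) := fun i =>
    count_fn (c := c i) (fun T => by
      have a := sum_cLong hθ0 hθ1 T
      have b := sum_cShort i T
      have : ∑ v ∈ T, Real.exp (-c i v) ≤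
          ∑ v ∈ T, (Real.exp (-cLong θ v) + Real.exp (-cShort i v)) := sum_le_sum fun v _ => by
        have p := Real.exp_pos (-cLong θ v)
        have q := Real.exp_pos (-cShort i v)
        rcases min_choice (cLong θ v) (cShort i v) with h | h <;> simp only [c, h] <;> linarith
      rw [sum_add_distrib] at this
      linarith) r i _ _ _ fun f hf => (mem_filter.1 hf).2
  have hsub : S ⊆ univ.biUnion fun i => S.filter (Q i) := fun t ht => by
    obtain ⟨i, hi⟩ := hQ t ht
    exact mem_biUnion.2 ⟨i, mem_univ _, mem_filter.2 ⟨ht, hi⟩⟩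
  calc (S.card : ℝ) ≤ ∑ i : Fin D, ((S.filter (Q i)).card : ℝ) := by
        exact_mod_cast (card_le_card hsub).trans card_biUnion_le
    _ ≤ ∑ _i : Fin D, Real.exp (4 * ((11 + 52 * Real.log D) * u) + 2 * u + 2) :=
        sum_le_sum fun i _ => hc i
    _ = Real.exp (Real.log D + (4 * ((11 + 52 * Real.log D) * u) + 2 * u + 2)) := by
        rw [Real.exp_add (Real.log D), Real.exp_log h0]; simp
    _ ≤ _ := by
        refine Real.exp_le_exp.2 ?_
        have : 300 * m * Real.log D / D = 300 * Real.log D * u := by rw [hu]; ring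
        rw [this]
        nlinarith [mul_nonneg hu0 (sub_nonneg.2 hl2)]

/-- The number of shifts of a level. -/
theorem count_lev (hD : 100 ≤ D) (n : ℕ) (r : V D) (m l : ℕ) (S : Finset (Fn D))
    (hS : ∀ t ∈ S, Lev n r m l t) : (S.card : ℝ) ≤ Real.exp (ent D m l) := by
  by_cases hl : l = 0
  · rw [ent, if_pos hl]
    exact count_lev_zero hD n r m S fun t ht => (hS t ht).1 hl
  rw [ent, if_neg hl]
  have h100 : (100 : ℝ) ≤ D := by exact_mod_cast hD
  have h0 : (0 : ℝ) < D := by linarith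
  have hl1 := cl_log_le hD
  have hl2 := cl_one_le_log hD
  have h3 := Real.log_le_sub_one_of_pos (x := (3 : ℝ)) (by norm_num)
  have h4 := Real.log_le_sub_one_of_pos (x := (4 : ℝ)) (by norm_num)
  have h3' : 0 ≤ Real.log 3 := Real.log_nonneg (by norm_num)
  have h4' : 0 ≤ Real.log 4 := Real.log_nonneg (by norm_num)
  have h2 := Real.log_two_lt_d9
  have h2' : 0 ≤ Real.log 2 := Real.log_nonneg (by norm_num)
  have hl' : (1 : ℝ) ≤ l := by exact_mod_cast Nat.one_le_iff_ne_zero.2 hl
  set q : ℝ := 2 ^ (l * (D - 2)) with hq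
  have hq1 : 1 ≤ q := one_le_pow₀ (by norm_num)
  set θ : ℝ := 1 / (D * q) with hθ
  have hθ0 : 0 < θ := by positivity
  have hθ1 : θ ≤ 1 := by rw [hθ, div_le_one (by positivity)]; nlinarith
  have hlq : Real.log q ≤ l * D * 0.7 := by
    rw [hq, Real.log_pow]
    have : ((l * (D - 2) : ℕ) : ℝ) ≤ l * D := by
      exact_mod_cast Nat.mul_le_mul_left l (Nat.sub_le D 2)
    calc ((l * (D - 2) : ℕ) : ℝ) * Real.log 2 ≤ l * D * Real.log 2 := by gcongr
      _ ≤ l * D * 0.7 := by gcongr; linarith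
  have hlq0 : 0 ≤ Real.log q := Real.log_nonneg hq1
  have hK : Real.log (3 / θ) = Real.log 3 + (Real.log D + Real.log q) := by
    rw [hθ, div_div_eq_mul_div, div_one, Real.log_mul (by norm_num) (by positivity),
      Real.log_mul (by positivity) (by positivity)]
  set K : ℝ := D * Real.log (3 / θ) + Real.log 4 with hKd
  have hK0 : 0 ≤ K := by rw [hKd, hK]; positivity
  have hK1 : 4 * (16 + K) + 1 ≤ 5 * (D : ℝ) ^ 2 * l := by
    have a : D * Real.log q ≤ D * (l * D * 0.7) := by gcongr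
    have b : D * Real.log D ≤ D * (D / 10 + 8) := by gcongr
    have c : D * Real.log 3 ≤ D * 2 := by gcongr; linarith
    have d : (D : ℝ) ^ 2 * 1 ≤ (D : ℝ) ^ 2 * l := by gcongr
    rw [hKd, hK]
    nlinarith
  set T : ℝ := m / q with hT
  have hT0 : 0 ≤ T := by positivity
  choose! f hf using fun t ht => (hS t ht).2 hl
  have hinj : Set.InjOn f S := fun t ht t' ht' h => by
    ext x
    rw [(hf t ht).1, (hf t' ht').1, h]
  rw [← card_image_of_injOn hinj]
  let i : Fin D := ⟨0, by omega⟩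
  refine (count_fn (c := cLong θ) (fun U => (sum_cLong hθ0 hθ1 U).trans (by norm_num))
    (dn l r) i (16 * T + K * T) T _ fun g hg => ?_).trans (Real.exp_le_exp.2 ?_)
  · obtain ⟨t, ht, rfl⟩ := mem_image.1 hg
    obtain ⟨-, a, b⟩ := hf t ht
    have hTV : (TV (f t) : ℝ) ≤ T := by
      rw [hT, le_div_iff₀ (by positivity), mul_comm, hq]
      exact_mod_cast a
    refine ⟨(b.short hθ0.le (K := K) fun v => le_rfl).mono
      (image_subset_image (filter_subset _ _)) ?_, le_trans ?_ hTV⟩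
    · have b1 : θ * (16 * D * m) = 16 * T := by rw [hθ, hT]; field_simp
      have b2 : ((bases (jumps (f t))).card : ℝ) ≤ T :=
        le_trans (by exact_mod_cast card_image_le.trans (card_jumps_le _)) hTV
      rw [b1]
      gcongr
    · exact_mod_cast sum_le_sum_of_subset (filter_subset _ _)
  · have : 5 * m * (D : ℝ) ^ 2 * l / q = 5 * (D : ℝ) ^ 2 * l * T := by rw [hT]; ring
    rw [this]
    nlinarith [mul_le_mul_of_nonneg_right hK1 hT0]

end Pool.Agent.P.MP_67bca4_pr
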