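import Pool.Agent.P.MP_67bca4_pr.Defs

namespace Pool.Agent.P.MP_67bca4_pr

open Finset
open scoped Classical

variable {D : ℕ}

variable {n : ℕ} {a b : ℝ} {ξ ξ' : Dis D} {K : Conf D → Prop} {U : Conf D}

theorem En_nonneg (h : ∀ x o k, 0 ≤ ξ x o k) (U : Conf D) : 0 ≤ En n ξ U :=
  add_nonneg (sum_nonneg fun _ _ => sum_nonneg fun _ _ => h _ _ _)
    (sum_nonneg fun _ _ => sum_nonneg fun _ _ => h _ _ _)

theorem En_mono (h : ∀ x o k, ξ x o k ≤ ξ' x o k) (U : Conf D) : En n ξ U ≤ En n ξ' U :=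
  add_le_add (sum_le_sum fun _ _ => sum_le_sum fun _ _ => h _ _ _)
    (sum_le_sum fun _ _ => sum_le_sum fun _ _ => h _ _ _)

theorem exists_isMinC (ha : 0 ≤ a) (hb : 0 ≤ b) (h : TwoV a b ξ) (hK : ∃ U, K U) :
    ∃ U, IsMinC n ξ K U := by
  have hw : (AddSubmonoid.closure ({a, b} : Set ℝ) : Set ℝ).IsPWO :=
    Set.IsPWO.addSubmonoid_closure (by rintro x (rfl | rfl) <;> assumption)
      (Set.toFinite _).isPWO
  have hm : ∀ x o k, ξ x o k ∈ AddSubmonoid.closure ({a, b} : Set ℝ) := fun x o k =>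
    AddSubmonoid.subset_closure (by rcases h x o k with e | e <;> simp [e])
  have hE : ∀ U : Conf D, En n ξ U ∈ AddSubmonoid.closure ({a, b} : Set ℝ) := fun U =>
    add_mem (sum_mem fun _ _ => sum_mem fun _ _ => hm _ _ _)
      (sum_mem fun _ _ => sum_mem fun _ _ => hm _ _ _)
  have hS : {E | ∃ U, K U ∧ E = En n ξ U}.IsWF :=
    hw.isWF.mono (by rintro _ ⟨U, -, rfl⟩; exact hE U)
  obtain ⟨U0, hU0⟩ := hK
  have hne : {E | ∃ U, K U ∧ E = En n ξ U}.Nonempty := ⟨_, U0, hU0, rfl⟩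
  obtain ⟨U, hU, e⟩ := hS.min_mem hne
  exact ⟨U, hU, fun U' hU' => e ▸ hS.min_le hne ⟨U', hU', rfl⟩⟩

theorem IsMinC.GEc_eq (h : IsMinC n ξ K U) : GEc n ξ K = En n ξ U :=
  IsLeast.csInf_eq ⟨⟨U, h.1, rfl⟩, by rintro _ ⟨U', hU', rfl⟩; exact h.2 U' hU'⟩

theorem GEc_le (h : ∀ x o k, 0 ≤ ξ x o k) (hU : K U) : GEc n ξ K ≤ En n ξ U :=
  csInf_le ⟨0, by rintro _ ⟨U', -, rfl⟩; exact En_nonneg h U'⟩ ⟨U, hU, rfl⟩

theorem GEc_nonneg (h : ∀ x o k, 0 ≤ ξ x o k) : 0 ≤ GEc n ξ K :=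
  Real.sInf_nonneg (by rintro _ ⟨U', -, rfl⟩; exact En_nonneg h U')

theorem GE_le_flat (h0 : ∀ x o k, 0 ≤ ξ x o k) (h : ∀ x o k, ξ x o k ≤ b) :
    GE n ξ ≤ b * ((n : ℝ) + 1) ^ D := by
  refine (GEc_le h0 (cfg_flat n)).trans ?_
  simp only [En, bd_flat, sum_singleton, dif_self, sum_empty, sum_const_zero, add_zero]
  calc ∑ x ∈ hatB D n, ξ x none 0 ≤ ∑ _x ∈ hatB D n, b := sum_le_sum fun x _ => h _ _ _
    _ = _ := by rw [sum_const, card_hatB, nsmul_eq_mul]; push_cast; ring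

theorem sum_dif_submod {w : ℤ → ℝ} (hw : ∀ k, 0 ≤ w k) (S S' T T' : Col) :
    ∑ k ∈ dif (S.inter S') (T.inter T'), w k + ∑ k ∈ dif (S.union S') (T.union T'), w k ≤
      ∑ k ∈ dif S T, w k + ∑ k ∈ dif S' T', w k := by
  have key : ∀ A : Finset ℤ, A ⊆ dif S T ∪ dif S' T' →
      ∑ k ∈ A, w k = ∑ k ∈ dif S T ∪ dif S' T', if k ∈ A then w k else 0 := by
    intro A hA
    rw [← sum_filter, filter_mem_eq_inter, inter_eq_right.2 hA]
  rw [key (dif (S.inter S') (T.inter T')), key (dif (S.union S') (T.union T')),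
    key (dif S T) subset_union_left, key (dif S' T') subset_union_right, ← sum_add_distrib,
    ← sum_add_distrib]
  · refine sum_le_sum fun k _ => ?_
    have := hw k
    simp only [mem_dif, Col.mem_inter, Col.mem_union]
    by_cases h1 : k ∈ S.s <;> by_cases h2 : k ∈ S'.s <;> by_cases h3 : k ∈ T.s <;>
      by_cases h4 : k ∈ T'.s <;> simp [h1, h2, h3, h4, this]
  · intro k
    simp only [mem_dif, Col.mem_union, mem_union]
    tauto
  · intro k
    simp only [mem_dif, Col.mem_inter, mem_union]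
    tauto

/-- Submodularity of the energy. -/
theorem En_submod (h : ∀ x o k, 0 ≤ ξ x o k) (U U' : Conf D) :
    En n ξ (fun x => (U x).inter (U' x)) + En n ξ (fun x => (U x).union (U' x)) ≤
      En n ξ U + En n ξ U' := by
  unfold En
  rw [add_add_add_comm, add_add_add_comm (∑ x ∈ hatB D n, ∑ k ∈ bd (U x), ξ x none k),
    ← sum_add_distrib, ← sum_add_distrib, ← sum_add_distrib, ← sum_add_distrib]
  refine add_le_add (sum_le_sum fun x _ => ?_) (sum_le_sum fun e _ => ?_)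
  · exact sum_dif_submod (h x none) (U x) (U' x) (sh 1 (U x)) (sh 1 (U' x))
  · exact sum_dif_submod (h e.1 (some e.2)) _ _ _ _

/-- A constant shift of disorder and configuration keeps the energy. -/
theorem En_shift_const (c : ℤ) (U : Conf D) :
    En n (shift (fun _ => c) ξ) (fun x => sh c (U x)) = En n ξ U := by
  unfold En shift
  congr 1
  · exact sum_congr rfl fun x _ => sum_bd_sh (ξ x none) c (U x)
  · exact sum_congr rfl fun e _ => sum_dif_sh (ξ e.1 (some e.2)) c _ _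

end Pool.Agent.P.MP_67bca4_pr
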