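import Pool.Agent.P.MP_67bca4_pr.Emb
import Pool.Agent.P.MP_67bca4_pr.MinEx

namespace Pool.Agent.P.MP_67bca4_pr

open Finset
open scoped Classical

variable {D : ℕ}

/-- The lattice edges cut by a configuration. -/
noncomputable def cutE (n : ℕ) (U : Conf D) : Finset (Sym2 (Fin (D + 1) → ℤ)) :=
  ((hatB D n).sigma fun x => bd (U x)).image (fun p => edg p.1 none p.2) ∪
    ((edB D n).sigma fun e => dif (U e.1) (U (tip e))).image fun p => edg p.1.1 (some p.1.2) p.2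

theorem mem_cutE {n : ℕ} {U : Conf D} {e : Sym2 (Fin (D + 1) → ℤ)} :
    e ∈ cutE n U ↔ (∃ x ∈ hatB D n, ∃ k ∈ bd (U x), edg x none k = e) ∨
      ∃ f ∈ edB D n, ∃ k ∈ dif (U f.1) (U (tip f)), edg f.1 (some f.2) k = e := by
  simp only [cutE, mem_union, mem_image, mem_sigma]
  constructor
  · rintro (⟨p, ⟨h1, h2⟩, h3⟩ | ⟨p, ⟨h1, h2⟩, h3⟩)
    · exact Or.inl ⟨p.1, h1, p.2, h2, h3⟩
    · exact Or.inr ⟨p.1, h1, p.2, h2, h3⟩
  · rintro (⟨x, h1, k, h2, h3⟩ | ⟨x, h1, k, h2, h3⟩)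
    · exact Or.inl ⟨⟨x, k⟩, ⟨h1, h2⟩, h3⟩
    · exact Or.inr ⟨⟨x, k⟩, ⟨h1, h2⟩, h3⟩

theorem sum_cutE (n : ℕ) (U : Conf D) (c : Sym2 (Fin (D + 1) → ℤ) → ℝ) :
    ∑ e ∈ cutE n U, c e = ∑ x ∈ hatB D n, ∑ k ∈ bd (U x), c (edg x none k) +
      ∑ f ∈ edB D n, ∑ k ∈ dif (U f.1) (U (tip f)), c (edg f.1 (some f.2) k) := by
  rw [cutE, sum_union, sum_image, sum_image, sum_sigma, sum_sigma]
  · rintro ⟨⟨x, i⟩, k⟩ - ⟨⟨y, j⟩, l⟩ - h
    obtain ⟨h1, h2, h3⟩ := edg_inj h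
    simp only [Option.some.injEq] at h1 h2 h3
    subst h1 h2 h3
    rfl
  · rintro ⟨x, k⟩ - ⟨y, l⟩ - h
    obtain ⟨h1, -, h3⟩ := edg_inj h
    simp only at h1 h3
    subst h1 h3
    rfl
  · rw [disjoint_left]
    intro e h1 h2
    obtain ⟨p, -, rfl⟩ := mem_image.1 h1
    obtain ⟨q, -, h⟩ := mem_image.1 h2
    exact absurd (edg_inj h).2.1 (by simp)

theorem cut_win_bd {β : ℤ} {U : Conf D} (h : Win 0 β U) {x : V D} {k : ℤ} (hk : k ∈ bd (U x)) :
    0 ≤ k ∧ k ≤ β := by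
  rw [mem_bd] at hk
  obtain ⟨h1, h2⟩ := h x
  constructor
  · by_contra hc
    exact hk ⟨fun _ => h1 _ (by omega), fun _ => h1 _ (by omega)⟩
  · by_contra hc
    exact hk ⟨fun h3 => absurd (h2 _ h3) hc, fun h3 => absurd (h2 _ h3) (by omega)⟩

theorem cut_win_dif {β : ℤ} {U : Conf D} (h : Win 0 β U) {x y : V D} {k : ℤ}
    (hk : k ∈ dif (U x) (U y)) : 0 ≤ k ∧ k ≤ β := by
  rw [mem_dif] at hk
  constructor
  · by_contra hc
    exact hk ⟨fun _ => (h y).1 _ (by omega), fun _ => (h x).1 _ (by omega)⟩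
  · by_contra hc
    exact hk ⟨fun h3 => absurd ((h x).2 _ h3) hc, fun h3 => absurd ((h y).2 _ h3) hc⟩

theorem cut_dis {n N : ℕ} [NeZero N] (a b : ℝ) (ω : Set (Sym2 (Fin (D + 1) → ℤ))) {x : V D}
    (hx : x ∈ hatB D n) (o : Option (Fin D)) {k : ℤ} (h0 : 0 ≤ k) (h1 : k < N) :
    dis a b (fun i : Ix D n N => decide (emb i ∈ ω)) x o k = if edg x o k ∈ ω then b else a := by
  have e : (((k : ZMod N).val : ℕ) : ℤ) = k := by
    rw [ZMod.val_intCast, Int.emod_eq_of_lt h0 h1]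
  simp only [dis, hx, dif_pos, emb, e, decide_eq_true_eq]

theorem cut_En {n H N : ℕ} [NeZero N] (hN : H < N) (a b : ℝ)
    (ω : Set (Sym2 (Fin (D + 1) → ℤ))) {U : Conf D} (hU : Win 0 ((H : ℤ) - 1) U) :
    En n (dis a b fun i : Ix D n N => decide (emb i ∈ ω)) U =
      ∑ e ∈ cutE n U, if e ∈ ω then b else a := by
  rw [sum_cutE, En]
  congr 1
  · refine sum_congr rfl fun x hx => sum_congr rfl fun k hk => ?_
    have := cut_win_bd hU hk
    exact cut_dis a b ω hx none this.1 (by omega)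
  · refine sum_congr rfl fun f hf => sum_congr rfl fun k hk => ?_
    have := cut_win_dif hU hk
    exact cut_dis a b ω (mem_edB.1 hf).1 _ this.1 (by omega)

theorem pt_mem_cyl {n H : ℕ} {x : V D} {k : ℤ} :
    pt x k ∈ cyl D n H ↔ x ∈ hatB D n ∧ 0 ≤ k ∧ k ≤ H := by
  simp [cyl, mem_hatB]

theorem pt_mem_cylBd {n H : ℕ} {x : V D} {k : ℤ} :
    pt x k ∈ cylBd D n H ↔
      (x ∈ hatB D n ∧ 0 ≤ k ∧ k ≤ H) ∧ (x ∉ inB D n ∨ k = 0 ∨ k = H) := by
  rw [← pt_mem_cyl]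
  simp only [cylBd, Set.mem_ofPred_eq, pt_castSucc, pt_last]
  refine and_congr_right fun h => or_congr_left ?_
  have h1 := mem_hatB.1 (pt_mem_cyl.1 h).1
  rw [mem_inB, not_forall]
  refine exists_congr fun i => ?_
  have := h1 i
  omega

/-- The cut of a slab configuration separates. -/
theorem cutE_separates {n H : ℕ} {U : Conf D} (hU : Slab n H U) :
    Separates D n H (cutE n U) := by
  intro x hx y hy hx2 hy2 w _ hw
  let S : Set (Fin (D + 1) → ℤ) := {z | z (Fin.last D) ∈ (U fun i => z i.castSucc).s}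
  have hS : ∀ x k, pt x k ∈ S ↔ k ∈ (U x).s := by
    intro x k
    simp [S]
  have hxS : x ∈ S := by
    rw [← pt_eta x] at hx ⊢
    rw [hS]
    obtain ⟨⟨-, h1, h2⟩, h3 | h3 | h3⟩ := pt_mem_cylBd.1 hx
    · exact (hU.2 _ h3).1 _ (by omega)
    · exact (hU.1 _).1 _ h3.le
    · omega
  have hyS : y ∉ S := by
    rw [← pt_eta y] at hy ⊢
    rw [hS]
    intro hc
    obtain ⟨⟨-, h1, h2⟩, h3 | h3 | h3⟩ := pt_mem_cylBd.1 hy
    · have := (hU.2 _ h3).2 _ hc; omega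
    · omega
    · have := (hU.1 _).2 _ hc; omega
  obtain ⟨d, hd, h1, h2⟩ := w.exists_boundary_dart S hxS hyS
  refine ⟨d.edge, List.mem_map.2 ⟨d, hd, rfl⟩, ?_⟩
  have c1 := hw _ (w.dart_fst_mem_support_of_mem_darts hd)
  have c2 := hw _ (w.dart_snd_mem_support_of_mem_darts hd)
  obtain ⟨z, o, k, h⟩ := adj_iff.1 d.adj
  have h' : d.edge = edg z o k := h
  rw [h', mem_cutE]
  cases o with
  | none =>
    refine Or.inl ⟨z, ?_, k, ?_, rfl⟩
    · rcases Sym2.eq_iff.1 h with ⟨e1, -⟩ | ⟨-, e1⟩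
      · exact (pt_mem_cyl.1 (e1 ▸ c1)).1
      · exact (pt_mem_cyl.1 (e1 ▸ c2)).1
    · rw [mem_bd]
      rcases Sym2.eq_iff.1 h with ⟨e1, e2⟩ | ⟨e1, e2⟩ <;> rw [e1, hS] at h1 <;>
        rw [e2, hS] at h2 <;> tauto
  | some i =>
    refine Or.inr ⟨(z, i), ?_, k, ?_, rfl⟩
    · rw [mem_edB]
      rcases Sym2.eq_iff.1 h with ⟨e1, e2⟩ | ⟨e1, e2⟩
      · exact ⟨(pt_mem_cyl.1 (e1 ▸ c1)).1, (pt_mem_cyl.1 (e2 ▸ c2)).1⟩
      · exact ⟨(pt_mem_cyl.1 (e2 ▸ c2)).1, (pt_mem_cyl.1 (e1 ▸ c1)).1⟩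
    · rw [mem_dif, tip_mk]
      rcases Sym2.eq_iff.1 h with ⟨e1, e2⟩ | ⟨e1, e2⟩ <;> rw [e1, hS] at h1 <;>
        rw [e2, hS] at h2 <;> tauto

/-- Points reached from the lower half of the boundary inside the cylinder, avoiding `E`. -/
def Rch (D n H : ℕ) (E : Finset (Sym2 (Fin (D + 1) → ℤ))) (z : Fin (D + 1) → ℤ) : Prop :=
  ∃ x ∈ cylBd D n H, 2 * x (Fin.last D) < H ∧ ∃ w : (lattice (D + 1)).Walk x z,
    (∀ u ∈ w.support, u ∈ cyl D n H) ∧ ∀ e ∈ w.edges, e ∉ E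

theorem Rch.base {n H : ℕ} (E : Finset (Sym2 (Fin (D + 1) → ℤ))) {z : Fin (D + 1) → ℤ}
    (hz : z ∈ cylBd D n H) (h : 2 * z (Fin.last D) < H) : Rch D n H E z :=
  ⟨z, hz, h, .nil, by simpa using hz.1, by simp⟩

theorem Rch.step {n H : ℕ} {E : Finset (Sym2 (Fin (D + 1) → ℤ))} {z z' : Fin (D + 1) → ℤ}
    (h : Rch D n H E z) (hz : z' ∈ cyl D n H) (ha : s(z, z') ∈ (lattice (D + 1)).edgeSet)
    (he : s(z, z') ∉ E) : Rch D n H E z' := by
  obtain ⟨x, h1, h2, w, h3, h4⟩ := h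
  refine ⟨x, h1, h2, w.concat ha, fun u hu => ?_, fun e h5 => ?_⟩
  · rw [SimpleGraph.Walk.support_concat] at hu
    rcases (by simpa using hu : u ∈ w.support ∨ u = z') with hu | hu
    · exact h3 u hu
    · rw [hu]; exact hz
  · rw [SimpleGraph.Walk.edges_concat] at h5
    rcases (by simpa using h5 : e ∈ w.edges ∨ e = s(z, z')) with hu | hu
    · exact h4 e hu
    · rw [hu]; exact he

theorem Rch.iff {n H : ℕ} {E : Finset (Sym2 (Fin (D + 1) → ℤ))} {z z' : Fin (D + 1) → ℤ}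
    (hz : z ∈ cyl D n H) (hz' : z' ∈ cyl D n H) (ha : s(z, z') ∈ (lattice (D + 1)).edgeSet)
    (he : s(z, z') ∉ E) : Rch D n H E z ↔ Rch D n H E z' :=
  ⟨fun h => h.step hz' ha he, fun h => h.step hz (Sym2.eq_swap ▸ ha) (Sym2.eq_swap ▸ he)⟩

theorem Rch.not_upper {n H : ℕ} {E : Finset (Sym2 (Fin (D + 1) → ℤ))} (hE : Separates D n H E)
    {z : Fin (D + 1) → ℤ} (hz : z ∈ cylBd D n H) (h : (H : ℤ) < 2 * z (Fin.last D)) :
    ¬Rch D n H E z := by
  rintro ⟨x, h1, h2, w, h3, h4⟩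
  obtain ⟨e, he, he'⟩ := hE x h1 z hz h2 h w.bypass w.bypass_isPath
    fun u hu => h3 u (w.support_bypass_subset_support hu)
  exact h4 e (w.edges_bypass_subset_edges he) he'

/-- The column of reached points. -/
def rcol (n H : ℕ) (E : Finset (Sym2 (Fin (D + 1) → ℤ))) (x : V D) : Col :=
  ⟨{k | k < 0 ∨ (k ≤ H ∧ Rch D n H E (pt x k))},
    (Set.finite_Icc (0 : ℤ) H).subset fun k hk => by
      simp only [Set.mem_ofPred_eq] at hk
      constructor
      · by_contra hc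
        exact hk ⟨fun _ => by omega, fun _ => Or.inl (by omega)⟩
      · by_contra hc
        exact hk ⟨fun h => by omega, fun h => by omega⟩⟩

theorem mem_rcol {n H : ℕ} {E : Finset (Sym2 (Fin (D + 1) → ℤ))} {x : V D} {k : ℤ} :
    k ∈ (rcol n H E x).s ↔ k < 0 ∨ (k ≤ H ∧ Rch D n H E (pt x k)) := Iff.rfl

/-- A separating set contains the cut of a slab configuration. -/
theorem exists_slab {n H : ℕ} (hH : 1 ≤ H) {E : Finset (Sym2 (Fin (D + 1) → ℤ))}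
    (hE : Separates D n H E) : ∃ U : Conf D, Slab n H U ∧ cutE n U ⊆ E := by
  let U : Conf D := fun x => if x ∈ hatB D n then rcol n H E x else flat (((H : ℤ) - 1) / 2)
  have hin : ∀ x ∈ hatB D n, U x = rcol n H E x := fun x hx => if_pos hx
  have hout : ∀ x, x ∉ hatB D n → U x = flat (((H : ℤ) - 1) / 2) := fun x hx => if_neg hx
  have hW : Win 0 ((H : ℤ) - 1) U := by
    intro x
    by_cases hx : x ∈ hatB D n
    · rw [hin x hx]
      refine ⟨fun k hk => mem_rcol.2 ?_, fun k hk => ?_⟩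
      · rcases hk.lt_or_eq with hk | rfl
        · exact Or.inl hk
        · exact Or.inr ⟨by omega, Rch.base E
            (pt_mem_cylBd.2 ⟨⟨hx, le_rfl, by omega⟩, Or.inr (Or.inl rfl)⟩) (by simp; omega)⟩
      · rcases mem_rcol.1 hk with hk | ⟨h1, h2⟩
        · omega
        · by_contra hc
          exact Rch.not_upper hE
            (pt_mem_cylBd.2 ⟨⟨hx, by omega, h1⟩, Or.inr (Or.inr (by omega))⟩)
            (by rw [pt_last]; omega) h2
    · rw [hout x hx]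
      simp only [mem_flat]
      exact ⟨fun k hk => by omega, fun k hk => by omega⟩
  refine ⟨U, ⟨hW, fun x hx' => ?_⟩, fun e he => ?_⟩
  · by_cases hx : x ∈ hatB D n
    · rw [hin x hx]
      refine ⟨fun k hk => mem_rcol.2 ?_, fun k hk => ?_⟩
      · by_cases h0 : k < 0
        · exact Or.inl h0
        · exact Or.inr ⟨by omega, Rch.base E
            (pt_mem_cylBd.2 ⟨⟨hx, by omega, by omega⟩, Or.inl hx'⟩) (by rw [pt_last]; omega)⟩
      · rcases mem_rcol.1 hk with hk | ⟨h1, h2⟩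
        · omega
        · by_contra hc
          exact Rch.not_upper hE (pt_mem_cylBd.2 ⟨⟨hx, by omega, h1⟩, Or.inl hx'⟩)
            (by rw [pt_last]; omega) h2
    · rw [hout x hx]
      simp only [mem_flat]
      exact ⟨fun k hk => hk, fun k hk => by omega⟩
  · by_contra hc
    rcases mem_cutE.1 he with ⟨x, hx, k, hk, rfl⟩ | ⟨f, hf, k, hk, rfl⟩
    · have h1 := cut_win_bd hW hk
      have h2 := Rch.iff (n := n) (H := H) (pt_mem_cyl.2 ⟨hx, h1.1, by omega⟩)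
        (pt_mem_cyl.2 ⟨hx, by omega, by omega⟩) (edg_mem x none k) hc
      rw [mem_bd, hin x hx, mem_rcol, mem_rcol, h2] at hk
      apply hk
      rw [or_iff_right (by omega), or_iff_right (by omega), and_iff_right (by omega),
        and_iff_right (by omega)]
    · have h1 := cut_win_dif hW hk
      obtain ⟨hx, hy⟩ := mem_edB.1 hf
      have h2 := Rch.iff (n := n) (H := H) (pt_mem_cyl.2 ⟨hx, h1.1, by omega⟩)
        (pt_mem_cyl.2 ⟨hy, h1.1, by omega⟩) (edg_mem f.1 (some f.2) k) hc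
      rw [mem_dif, hin _ hx, hin _ hy, mem_rcol, mem_rcol, h2] at hk
      exact hk Iff.rfl

/-- The anchored minimal cut is the least energy of a slab configuration. -/
theorem tau_eq {n H N : ℕ} [NeZero N] (hH : 1 ≤ H) (hN : H < N) {a b : ℝ} (ha : 0 ≤ a)
    (hb : 0 ≤ b) (ω : Set (Sym2 (Fin (D + 1) → ℤ))) :
    tau D n H a b ω =
      GEc n (dis a b fun i : Ix D n N => decide (emb i ∈ ω)) (Slab n H) := by
  have hc : ∀ e, 0 ≤ (if e ∈ ω then b else a) := fun e => by split_ifs <;> assumption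
  have hmem : ∀ U : Conf D, ∀ e ∈ cutE n U, e ∈ (lattice (D + 1)).edgeSet := by
    intro U e he
    rcases mem_cutE.1 he with ⟨x, -, k, -, rfl⟩ | ⟨f, -, k, -, rfl⟩ <;> exact edg_mem _ _ _
  have h0 : Slab n H fun _ : V D => flat (((H : ℤ) - 1) / 2) := by
    refine ⟨fun x => ⟨fun k hk => ?_, fun k hk => ?_⟩, fun x _ => ⟨fun k hk => hk, fun k hk => ?_⟩⟩
      <;> simp only [mem_flat] at hk ⊢ <;> omega
  apply le_antisymm
  · refine le_csInf ⟨_, _, h0, rfl⟩ ?_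
    rintro _ ⟨U, hU, rfl⟩
    refine csInf_le ⟨0, ?_⟩ ⟨cutE n U, hmem U, cutE_separates hU, cut_En hN a b ω hU.1⟩
    rintro _ ⟨E, -, -, rfl⟩
    exact sum_nonneg fun e _ => hc e
  · refine le_csInf ⟨_, _, hmem _, cutE_separates h0, rfl⟩ ?_
    rintro _ ⟨E, -, hE, rfl⟩
    obtain ⟨U, hU, hs⟩ := exists_slab hH hE
    refine (GEc_le (fun x o k => ?_) hU).trans ?_
    · rcases twoV_dis a b (fun i : Ix D n N => decide (emb i ∈ ω)) x o k with h | h <;>
        rw [h] <;> assumption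
    · rw [cut_En hN a b ω hU.1]
      exact sum_le_sum_of_subset_of_nonneg hs fun e _ _ => hc e

end Pool.Agent.P.MP_67bca4_pr
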