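import Mathlib

/-!
Definitions for the localisation of anchored minimal surfaces (columns, configurations,
energies, shifts, contours, tours, the finite probability space), with their basic API.
-/

namespace Pool.Agent.P.MP_67bca4_pr

open Finset
open scoped Classical

noncomputable section

/-! ### The base lattice -/

abbrev V (D : ℕ) := Fin D → ℤ
/-- An edge is a base point and a direction. -/
abbrev Ed (D : ℕ) := V D × Fin D
/-- Finitely supported integer functions (shifts). -/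
abbrev Fn (D : ℕ) := V D →₀ ℤ

variable {D : ℕ}

def ee (i : Fin D) : V D := Pi.single i 1
def tip (e : Ed D) : V D := e.1 + ee e.2
def l1 (v : V D) : ℝ := ∑ i, |(v i : ℝ)|

@[simp] lemma ee_self (i : Fin D) : ee i i = 1 := by simp [ee]
lemma ee_ne {i j : Fin D} (h : j ≠ i) : ee i j = 0 := by simp [ee, h]
lemma ee_apply (i j : Fin D) : ee i j = if j = i then 1 else 0 := by simp [ee, Pi.single_apply]
@[simp] lemma tip_mk (x : V D) (i : Fin D) : tip (x, i) = x + ee i := rfl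

lemma l1_nonneg (v : V D) : 0 ≤ l1 v := sum_nonneg fun _ _ => abs_nonneg _
@[simp] lemma l1_zero : l1 (0 : V D) = 0 := by simp [l1]
lemma l1_neg (v : V D) : l1 (-v) = l1 v := by simp [l1]
lemma l1_sub_comm (v w : V D) : l1 (v - w) = l1 (w - v) := by rw [← l1_neg, neg_sub]
lemma l1_add_le (v w : V D) : l1 (v + w) ≤ l1 v + l1 w := by
  unfold l1; rw [← sum_add_distrib]
  exact sum_le_sum fun i _ => by push_cast [Pi.add_apply]; exact abs_add_le _ _
lemma l1_sub_le (u v w : V D) : l1 (u - w) ≤ l1 (u - v) + l1 (v - w) := by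
  have := l1_add_le (u - v) (v - w); rwa [sub_add_sub_cancel] at this
@[simp] lemma l1_ee (i : Fin D) : l1 (ee i) = 1 := by
  unfold l1
  rw [sum_eq_single i] <;> simp +contextual [ee_apply]
lemma l1_le_of_sup {v : V D} {R : ℝ} (h : ∀ i, |(v i : ℝ)| ≤ R) : l1 v ≤ D * R := by
  calc l1 v ≤ ∑ _i : Fin D, R := sum_le_sum fun i _ => h i
    _ = D * R := by simp

/-- The interior box `[1, n-1]^D`. -/
def inB (D n : ℕ) : Finset (V D) := Fintype.piFinset fun _ => Finset.Icc 1 ((n : ℤ) - 1)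
/-- The closed box `[0, n]^D`. -/
def hatB (D n : ℕ) : Finset (V D) := Fintype.piFinset fun _ => Finset.Icc 0 (n : ℤ)
/-- The edges inside the closed box. -/
def edB (D n : ℕ) : Finset (Ed D) := (hatB D n ×ˢ univ).filter fun e => tip e ∈ hatB D n

lemma mem_inB {n : ℕ} {x : V D} : x ∈ inB D n ↔ ∀ i, 1 ≤ x i ∧ x i ≤ (n : ℤ) - 1 := by
  simp [inB]
lemma mem_hatB {n : ℕ} {x : V D} : x ∈ hatB D n ↔ ∀ i, 0 ≤ x i ∧ x i ≤ (n : ℤ) := by
  simp [hatB]
lemma mem_edB {n : ℕ} {e : Ed D} : e ∈ edB D n ↔ e.1 ∈ hatB D n ∧ tip e ∈ hatB D n := by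
  simp [edB]
lemma inB_sub_hatB {n : ℕ} {x : V D} (h : x ∈ inB D n) : x ∈ hatB D n := by
  rw [mem_inB] at h; rw [mem_hatB]; intro i; have := h i; omega
lemma mem_edB_of_base {n : ℕ} {e : Ed D} (h : e.1 ∈ inB D n) : e ∈ edB D n := by
  refine mem_edB.2 ⟨inB_sub_hatB h, ?_⟩
  rw [mem_inB] at h; rw [mem_hatB]; intro i; have := h i
  simp only [tip, Pi.add_apply, ee_apply]; split_ifs <;> omega
lemma mem_edB_of_tip {n : ℕ} {e : Ed D} (h : tip e ∈ inB D n) : e ∈ edB D n := by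
  refine mem_edB.2 ⟨?_, inB_sub_hatB h⟩
  rw [mem_inB] at h; rw [mem_hatB]; intro i; have := h i
  simp only [tip, Pi.add_apply, ee_apply] at this; split_ifs at this <;> omega
lemma card_hatB (n : ℕ) : (hatB D n).card = (n + 1) ^ D := by
  simp [hatB]
lemma card_inB (n : ℕ) : (inB D n).card = (n - 1) ^ D := by
  simp [inB]

/-! ### Gradients, jumps and total variation -/

def grad (s : V D → ℤ) (e : Ed D) : ℤ := s (tip e) - s e.1

lemma jumps_finite (s : Fn D) : {e : Ed D | grad s e ≠ 0}.Finite := by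
  refine ((s.support ×ˢ (univ : Finset (Fin D))).finite_toSet.union
    (((s.support ×ˢ (univ : Finset (Fin D))).image
      fun e => (e.1 - ee e.2, e.2)).finite_toSet)).subset ?_
  rintro ⟨x, i⟩ h
  by_cases h1 : s x = 0
  · right
    have h2 : s (x + ee i) ≠ 0 := by
      intro h2; apply h; simp [grad, h1, h2]
    simp only [coe_image, Set.mem_image, mem_coe, mem_product, Finsupp.mem_support_iff]
    exact ⟨(x + ee i, i), ⟨h2, mem_univ _⟩, by simp⟩
  · left; simpa using h1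

def jumps (s : Fn D) : Finset (Ed D) := (jumps_finite s).toFinset
@[simp] lemma mem_jumps {s : Fn D} {e : Ed D} : e ∈ jumps s ↔ grad s e ≠ 0 := by simp [jumps]

/-- Total variation. -/
def TV (s : Fn D) : ℕ := ∑ e ∈ jumps s, (grad s e).natAbs
/-- Total variation in one direction. -/
def TVi (s : Fn D) (i : Fin D) : ℕ := ∑ e ∈ (jumps s).filter (·.2 = i), (grad s e).natAbs
/-- The base points of a set of edges. -/
def bases (J : Finset (Ed D)) : Finset (V D) := J.image Prod.fst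
/-- The edges of a set pointing in direction `i`. -/
def dirE (J : Finset (Ed D)) (i : Fin D) : Finset (Ed D) := J.filter (·.2 = i)
/-- Supported in the interior box. -/
def Supp (n : ℕ) (s : V D → ℤ) : Prop := ∀ x, x ∉ inB D n → s x = 0

lemma mem_bases {J : Finset (Ed D)} {x : V D} : x ∈ bases J ↔ ∃ e ∈ J, e.1 = x := by
  simp [bases]
lemma TV_eq_sum {s : Fn D} {J : Finset (Ed D)} (h : jumps s ⊆ J) :
    TV s = ∑ e ∈ J, (grad s e).natAbs :=
  sum_subset h fun e _ he => by simpa using he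
lemma card_jumps_le (s : Fn D) : (jumps s).card ≤ TV s := by
  rw [card_eq_sum_ones]
  exact sum_le_sum fun e he => Int.natAbs_pos.2 (mem_jumps.1 he)
lemma grad_add (s t : Fn D) (e : Ed D) : grad (s + t : Fn D) e = grad s e + grad t e := by
  simp only [grad, Finsupp.add_apply]; ring
lemma grad_sub (s t : Fn D) (e : Ed D) : grad (s - t : Fn D) e = grad s e - grad t e := by
  simp only [grad, Finsupp.sub_apply]; ring
lemma jumps_add (s t : Fn D) : jumps (s + t) ⊆ jumps s ∪ jumps t := by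
  intro e he
  simp only [mem_union, mem_jumps, grad_add] at he ⊢
  omega
lemma jumps_sub (s t : Fn D) : jumps (s - t) ⊆ jumps s ∪ jumps t := by
  intro e he
  simp only [mem_union, mem_jumps, grad_sub] at he ⊢
  omega
lemma TV_add_le (s t : Fn D) : TV (s + t) ≤ TV s + TV t := by
  rw [TV_eq_sum (jumps_add s t), TV_eq_sum (subset_union_left (s₂ := jumps t)),
    TV_eq_sum (subset_union_right (s₁ := jumps s)), ← sum_add_distrib]
  exact sum_le_sum fun e _ => by rw [grad_add]; exact Int.natAbs_add_le _ _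
lemma TV_sub_le (s t : Fn D) : TV (s - t) ≤ TV s + TV t := by
  rw [TV_eq_sum (jumps_sub s t), TV_eq_sum (subset_union_left (s₂ := jumps t)),
    TV_eq_sum (subset_union_right (s₁ := jumps s)), ← sum_add_distrib]
  exact sum_le_sum fun e _ => by rw [grad_sub]; exact Int.natAbs_sub_le _ _

/-! ### Square adjacency, closed sets of edges -/

/-- The four edges of the unit square at `z` spanned by `i` and `j`. -/
def InSq (z : V D) (i j : Fin D) (e : Ed D) : Prop :=
  e = (z, i) ∨ e = (z + ee j, i) ∨ e = (z, j) ∨ e = (z + ee i, j)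
/-- Two edges lie on a common unit square. -/
def SqAdj (e e' : Ed D) : Prop := ∃ z i j, i ≠ j ∧ InSq z i j e ∧ InSq z i j e'
/-- `C` is a union of square-connected components of `J`. -/
def Closed (J C : Finset (Ed D)) : Prop := C ⊆ J ∧ ∀ e ∈ C, ∀ e' ∈ J, SqAdj e e' → e' ∈ C
/-- One step inside `J`. -/
def Step (J : Finset (Ed D)) (e e' : Ed D) : Prop := e ∈ J ∧ e' ∈ J ∧ SqAdj e e'
/-- The union of the components of `J` that meet `R`. -/
def cl (J R : Finset (Ed D)) : Finset (Ed D) :=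
  J.filter fun e => ∃ r ∈ R, r ∈ J ∧ Relation.ReflTransGen (Step J) r e
/-- No unit square meets `J` in its lower edge only. -/
def SqCl (J : Finset (Ed D)) : Prop :=
  ∀ z i j, i ≠ j → (z, j) ∈ J → (z + ee i, j) ∈ J ∨ (z, i) ∈ J ∨ (z + ee j, i) ∈ J
/-- All components have at least `D ^ 3` edges. -/
def Big (J : Finset (Ed D)) : Prop := ∀ C, Closed J C → C.Nonempty → D ^ 3 ≤ C.card

lemma SqAdj.symm {e e' : Ed D} (h : SqAdj e e') : SqAdj e' e := by
  obtain ⟨z, i, j, h1, h2, h3⟩ := h; exact ⟨z, i, j, h1, h3, h2⟩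
lemma SqAdj.l1_le {e e' : Ed D} (h : SqAdj e e') : l1 (e'.1 - e.1) ≤ 2 := by
  obtain ⟨z, i, j, -, h2, h3⟩ := h
  have a : ∀ f, InSq z i j f → l1 (f.1 - z) ≤ 1 := by
    rintro f (rfl | rfl | rfl | rfl) <;> simp
  have := l1_sub_le e'.1 z e.1
  rw [l1_sub_comm z] at this
  linarith [a e h2, a e' h3]
lemma cl_closed (J R : Finset (Ed D)) : Closed J (cl J R) := by
  refine ⟨filter_subset _ _, fun e he e' he' h => ?_⟩
  obtain ⟨h1, r, hr, hr', h2⟩ := mem_filter.1 he
  exact mem_filter.2 ⟨he', r, hr, hr', h2.tail ⟨h1, he', h⟩⟩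
lemma mem_cl {J R : Finset (Ed D)} {e : Ed D} (h : e ∈ R) (h' : e ∈ J) : e ∈ cl J R :=
  mem_filter.2 ⟨h', e, h, h', .refl⟩
lemma cl_sub {J R C : Finset (Ed D)} (hC : Closed J C) (h : ∀ e ∈ R, e ∈ J → e ∈ C) :
    cl J R ⊆ C := by
  intro e he
  obtain ⟨-, r, hr, hr', h2⟩ := mem_filter.1 he
  induction h2 with
  | refl => exact h r hr hr'
  | tail h3 h4 ih => exact hC.2 _ (ih (mem_filter.2 ⟨h4.1, r, hr, hr', h3⟩)) _ h4.2.1 h4.2.2
lemma Closed.sdiff {J C C' : Finset (Ed D)} (h : Closed J C) (h' : Closed J C') :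
    Closed J (C \ C') := by
  refine ⟨sdiff_subset.trans h.1, fun e he e' he' hs => ?_⟩
  rw [mem_sdiff] at he ⊢
  exact ⟨h.2 e he.1 e' he' hs, fun h2 => he.2 (h'.2 e' h2 e (h.1 he.1) hs.symm)⟩
lemma SqCl.union {J J' : Finset (Ed D)} (h : SqCl J) (h' : SqCl J') : SqCl (J ∪ J') := by
  intro z i j hij hz
  simp only [mem_union] at hz ⊢
  rcases hz with hz | hz
  · have := h z i j hij hz; tauto
  · have := h' z i j hij hz; tauto
lemma Big.union {J J' : Finset (Ed D)} (h : Big J) (h' : Big J') : Big (J ∪ J') := by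
  have key : ∀ K : Finset (Ed D), Big K → K ⊆ J ∪ J' → ∀ C, Closed (J ∪ J') C →
      ∀ e ∈ C, e ∈ K → D ^ 3 ≤ C.card := by
    intro K hK hs C hC e he heK
    refine (hK (C ∩ K) ⟨inter_subset_right, fun f hf f' hf' hh => ?_⟩
      ⟨e, mem_inter.2 ⟨he, heK⟩⟩).trans (card_le_card inter_subset_left)
    exact mem_inter.2 ⟨hC.2 f (mem_inter.1 hf).1 f' (hs hf') hh, hf'⟩
  rintro C hC ⟨e, he⟩
  rcases mem_union.1 (hC.1 he) with h1 | h1
  · exact key J h subset_union_left C hC e he h1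
  · exact key J' h' subset_union_right C hC e he h1
lemma sqCl_jumps (s : Fn D) : SqCl (jumps s) := by
  intro z i j _ hz
  simp only [mem_jumps, grad, tip_mk] at hz ⊢
  rw [add_right_comm z (ee j) (ee i)]
  omega

/-! ### Tours -/

/-- The cost of the walk `r, w₁, w₂, ...` for the step cost `c`. -/
def wcost (c : V D → ℝ) : V D → List (V D) → ℝ
  | _, [] => 0
  | r, x :: w => c (x - r) + wcost c x w

/-- A walk from `r` of cost at most `L` visits all of `P`. -/
def Tour (c : V D → ℝ) (r : V D) (P : Finset (V D)) (L : ℝ) : Prop :=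
  ∃ w : List (V D), (∀ p ∈ P, p ∈ r :: w) ∧ wcost c r w ≤ L

lemma Tour.mono {c : V D → ℝ} {r : V D} {P P' : Finset (V D)} {L L' : ℝ} (h : Tour c r P L)
    (hP : P' ⊆ P) (hL : L ≤ L') : Tour c r P' L' := by
  obtain ⟨w, h1, h2⟩ := h
  exact ⟨w, fun p hp => h1 p (hP hp), h2.trans hL⟩

/-- Admissible shifts of size `m` rooted at `r`. -/
def Adm (n : ℕ) (r : V D) (s : Fn D) (m : ℕ) : Prop :=
  Supp n s ∧ TV s ≤ m ∧ ∃ J : Finset (Ed D), jumps s ⊆ J ∧ SqCl J ∧ Big J ∧ J.card ≤ m ∧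
    Tour l1 r (bases J) (8 * D * m)

/-- Coordinatewise floor division by `2 ^ l`. -/
def dn (l : ℕ) (x : V D) : V D := fun i => x i / 2 ^ l

/-- The coarse-grained shifts at level `l` of admissible shifts of size `m`. -/
def Lev (n : ℕ) (r : V D) (m l : ℕ) (t : Fn D) : Prop :=
  (l = 0 → Adm n r t m) ∧
  (l ≠ 0 → ∃ f : Fn D, (∀ x, t x = f (dn l x)) ∧ 2 ^ (l * (D - 2)) * TV f ≤ m ∧
    Tour l1 (dn l r) (bases (jumps f)) (16 * D * m))

/-- The entropy of level `l`. -/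
def ent (D m l : ℕ) : ℝ :=
  if l = 0 then 300 * m * Real.log D / D + D else 5 * m * (D : ℝ) ^ 2 * l / 2 ^ (l * (D - 2)) + 2

/-- What the layering bound needs to know about two consecutive levels (`q = 2 ^ l`). -/
def Pack (n : ℕ) (r : V D) (m q : ℕ) (t : Fn D) (Y : Finset (V D)) : Prop :=
  Supp n t ∧ TV t ≤ q * m ∧ Y ⊆ inB D n ∧ Y.card ≤ 3 * q ^ 2 * m ∧
  ∃ (P : Finset (V D)) (J : Finset (Ed D)), Tour l1 r P (8 * D * m) ∧
    jumps t ⊆ J ∧ SqCl J ∧ Big J ∧ J.card ≤ q * m ∧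
    (∀ e ∈ J, ∃ p ∈ P, l1 (e.1 - p) ≤ 5 * D * q) ∧ (∀ y ∈ Y, ∃ p ∈ P, l1 (y - p) ≤ 7 * D * q)

/-! ### Columns -/

/-- A column: a set of heights that differs from `(-∞, 0]` in finitely many places. -/
@[ext] structure Col where
  s : Set ℤ
  fin : {k | ¬(k ∈ s ↔ k ≤ 0)}.Finite

lemma Col.dif_finite (S T : Col) : {k | ¬(k ∈ S.s ↔ k ∈ T.s)}.Finite :=
  (S.fin.union T.fin).subset fun k hk => by
    simp only [Set.mem_ofPred_eq, Set.mem_union] at hk ⊢; tauto

/-- The heights where two columns differ. -/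
def dif (S T : Col) : Finset ℤ := (S.dif_finite T).toFinset
@[simp] lemma mem_dif {S T : Col} {k : ℤ} : k ∈ dif S T ↔ ¬(k ∈ S.s ↔ k ∈ T.s) := by simp [dif]

def flat (c : ℤ) : Col :=
  ⟨Set.Iic c, (Set.finite_Icc (-|c|) |c|).subset fun k hk => by
    simp only [Set.mem_Iic, Set.mem_ofPred_eq] at hk
    have := le_abs_self c; have := neg_abs_le c
    constructor <;> omega⟩
@[simp] lemma mem_flat {c k : ℤ} : k ∈ (flat c).s ↔ k ≤ c := Iff.rfl

/-- The column lowered by `t`. -/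
def sh (t : ℤ) (S : Col) : Col :=
  ⟨{k | k + t ∈ S.s}, ((S.dif_finite (flat t)).image fun k => k - t).subset fun k hk => by
    refine ⟨k + t, ?_, by simp⟩
    simp only [Set.mem_ofPred_eq, mem_flat] at hk ⊢
    rwa [add_le_iff_nonpos_left]⟩
@[simp] lemma mem_sh {t k : ℤ} {S : Col} : k ∈ (sh t S).s ↔ k + t ∈ S.s := Iff.rfl

def Col.inter (S T : Col) : Col :=
  ⟨S.s ∩ T.s, (S.fin.union T.fin).subset fun k hk => by
    simp only [Set.mem_ofPred_eq, Set.mem_union, Set.mem_inter_iff] at hk ⊢; tauto⟩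
def Col.union (S T : Col) : Col :=
  ⟨S.s ∪ T.s, (S.fin.union T.fin).subset fun k hk => by
    simp only [Set.mem_ofPred_eq, Set.mem_union] at hk ⊢; tauto⟩
@[simp] lemma Col.mem_inter {S T : Col} {k : ℤ} : k ∈ (S.inter T).s ↔ k ∈ S.s ∧ k ∈ T.s := Iff.rfl
@[simp] lemma Col.mem_union {S T : Col} {k : ℤ} : k ∈ (S.union T).s ↔ k ∈ S.s ∨ k ∈ T.s := Iff.rfl

/-- The vertical boundary of a column: `k` such that exactly one of `k`, `k + 1` lies in it. -/
def bd (S : Col) : Finset ℤ := dif S (sh 1 S)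
@[simp] lemma mem_bd {S : Col} {k : ℤ} : k ∈ bd S ↔ ¬(k ∈ S.s ↔ k + 1 ∈ S.s) := by simp [bd]

lemma dif_comm (S T : Col) : dif S T = dif T S := by ext k; simp only [mem_dif]; tauto
@[simp] lemma dif_self (S : Col) : dif S S = ∅ := by ext k; simp
lemma dif_eq_empty {S T : Col} : dif S T = ∅ ↔ S = T := by
  refine ⟨fun h => Col.ext (Set.ext fun k => ?_), fun h => h ▸ dif_self S⟩
  by_contra hk
  exact notMem_empty k (h ▸ mem_dif.2 hk)
@[simp] lemma sh_flat (t c : ℤ) : sh t (flat c) = flat (c - t) := by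
  ext k; simp only [mem_sh, mem_flat]; omega
@[simp] lemma sh_zero (S : Col) : sh 0 S = S := by ext k; simp
lemma sh_sh (t u : ℤ) (S : Col) : sh t (sh u S) = sh (t + u) S := by ext k; simp [add_assoc]
@[simp] lemma bd_flat (c : ℤ) : bd (flat c) = {c} := by
  ext k; simp only [mem_bd, mem_flat, mem_singleton]; omega
lemma flat_inj {c c' : ℤ} (h : flat c = flat c') : c = c' := by
  have := congrArg bd h; simpa using this
lemma sum_dif_sh (w : ℤ → ℝ) (t : ℤ) (S T : Col) :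
    ∑ k ∈ dif (sh t S) (sh t T), w (k + t) = ∑ k ∈ dif S T, w k :=
  sum_bij' (fun k _ => k + t) (fun k _ => k - t) (fun k hk => by simpa using hk)
    (fun k hk => by simpa using hk) (by simp) (by simp) (by simp)
lemma sum_bd_sh (w : ℤ → ℝ) (t : ℤ) (S : Col) :
    ∑ k ∈ bd (sh t S), w (k + t) = ∑ k ∈ bd S, w k := by
  rw [bd, bd, sh_sh, add_comm 1 t, ← sh_sh, sum_dif_sh]
lemma Col.bounds (S : Col) : ∃ B : ℤ, 0 ≤ B ∧ (∀ k, k ≤ -B → k ∈ S.s) ∧ ∀ k ∈ S.s, k ≤ B := by
  obtain ⟨B, hB⟩ := (S.fin.image fun k => |k|).bddAbove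
  refine ⟨|B| + 1, by positivity, fun k hk => ?_, fun k hk => ?_⟩
  · by_contra h
    have h1 : |k| ≤ B := hB ⟨k, by
      simp only [Set.mem_ofPred_eq, h, false_iff, not_not]; have := abs_nonneg B; omega, rfl⟩
    have := neg_abs_le k; have := le_abs_self B; have := neg_le_abs k; omega
  · by_contra h
    have h1 : |k| ≤ B := hB ⟨k, by
      simp only [Set.mem_ofPred_eq, hk, true_iff, not_le]; have := abs_nonneg B; omega, rfl⟩
    have := le_abs_self k; have := le_abs_self B; omega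

/-! ### Configurations and energies -/

abbrev Conf (D : ℕ) := V D → Col
/-- A disorder: weights of vertical edges (`none`) and horizontal edges (`some i`) by base
column and height. -/
abbrev Dis (D : ℕ) := V D → Option (Fin D) → ℤ → ℝ

/-- Flat at height zero outside the interior box. -/
def Cfg (n : ℕ) (U : Conf D) : Prop := ∀ x, x ∉ inB D n → U x = flat 0
/-- All columns contain `(-∞, α]` and lie inside `(-∞, β]`. -/
def Win (α β : ℤ) (U : Conf D) : Prop := ∀ x, (∀ k, k ≤ α → k ∈ (U x).s) ∧ ∀ k ∈ (U x).s, k ≤ β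
/-- The configurations of the anchored cut problem in the cylinder of height `H`. -/
def Slab (n H : ℕ) (U : Conf D) : Prop :=
  Win 0 ((H : ℤ) - 1) U ∧ ∀ x, x ∉ inB D n →
    (∀ k, k ≤ ((H : ℤ) - 1) / 2 → k ∈ (U x).s) ∧ ∀ k ∈ (U x).s, k ≤ (H : ℤ) / 2

/-- The energy. -/
def En (n : ℕ) (ξ : Dis D) (U : Conf D) : ℝ :=
  ∑ x ∈ hatB D n, ∑ k ∈ bd (U x), ξ x none k +
    ∑ e ∈ edB D n, ∑ k ∈ dif (U e.1) (U (tip e)), ξ e.1 (some e.2) k

/-- The vertical shift of the disorder. -/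
def shift (s : V D → ℤ) (ξ : Dis D) : Dis D := fun x o k => ξ x o (k + s x)

/-- The least energy in a class of configurations. -/
def GEc (n : ℕ) (ξ : Dis D) (K : Conf D → Prop) : ℝ := sInf {E | ∃ U, K U ∧ E = En n ξ U}
def IsMinC (n : ℕ) (ξ : Dis D) (K : Conf D → Prop) (U : Conf D) : Prop :=
  K U ∧ ∀ U', K U' → En n ξ U ≤ En n ξ U'
/-- The ground energy with flat boundary condition. -/
def GE (n : ℕ) (ξ : Dis D) : ℝ := GEc n ξ (Cfg n)
def IsMin (n : ℕ) (ξ : Dis D) (U : Conf D) : Prop := IsMinC n ξ (Cfg n) U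
/-- Two-valued disorder. -/
def TwoV (a b : ℝ) (ξ : Dis D) : Prop := ∀ x o k, ξ x o k = a ∨ ξ x o k = b

/-- A shift whose energy gain is at least `a m / 4`. -/
def Good (n : ℕ) (a : ℝ) (ξ : Dis D) (r : V D) (s : Fn D) (m : ℕ) : Prop :=
  Adm n r s m ∧ GE n (shift s ξ) + a * m / 4 ≤ GE n ξ

/-- Overhang columns. -/
def Ovh (S : Col) : Prop := ∀ c, S ≠ flat c
/-- Edges whose two columns differ. -/
def JU (n : ℕ) (U : Conf D) : Finset (Ed D) := (edB D n).filter fun e => U e.1 ≠ U (tip e)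
/-- Edges whose two columns differ or that touch an overhang column. -/
def Jst (n : ℕ) (U : Conf D) : Finset (Ed D) :=
  (edB D n).filter fun e => U e.1 ≠ U (tip e) ∨ Ovh (U e.1) ∨ Ovh (U (tip e))
/-- Horizontal weight. -/
def Wt (U : Conf D) (C : Finset (Ed D)) : ℕ := ∑ e ∈ C, (dif (U e.1) (U (tip e))).card
/-- Overhang columns touched by `C`. -/
def Fov (n : ℕ) (U : Conf D) (C : Finset (Ed D)) : Finset (V D) :=
  (hatB D n).filter fun x => Ovh (U x) ∧ ∃ e ∈ C, e.1 = x ∨ tip e = x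
/-- The excess area of `C`. -/
def Xs (n : ℕ) (U : Conf D) (C : Finset (Ed D)) : ℕ :=
  Wt U C + ∑ x ∈ Fov n U C, ((bd (U x)).card - 1)
/-- The number of cut edges based on the columns of `Y`. -/
def Lay (n : ℕ) (U : Conf D) (Y : Finset (V D)) : ℕ :=
  ∑ x ∈ Y, (bd (U x)).card + Wt U ((edB D n).filter fun e => e.1 ∈ Y)

lemma shift_shift (s t : V D → ℤ) (ξ : Dis D) : shift s (shift t ξ) = shift (s + t) ξ := by
  funext x o k; simp [shift, add_assoc]
@[simp] lemma shift_zero (ξ : Dis D) : shift 0 ξ = ξ := by funext x o k; simp [shift]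
lemma TwoV.shift {a b : ℝ} {ξ : Dis D} (h : TwoV a b ξ) (s : V D → ℤ) : TwoV a b (shift s ξ) :=
  fun _ _ _ => h _ _ _
lemma TwoV.le {a b : ℝ} {ξ : Dis D} (h : TwoV a b ξ) (hab : a ≤ b) (x : V D) (o : Option (Fin D))
    (k : ℤ) : a ≤ ξ x o k ∧ ξ x o k ≤ b := by
  rcases h x o k with h | h <;> rw [h] <;> simp [hab]
lemma cfg_flat (n : ℕ) : Cfg n (fun _ : V D => flat 0) := fun _ _ => rfl
lemma JU_sub_Jst (n : ℕ) (U : Conf D) : JU n U ⊆ Jst n U := fun _ he =>
  mem_filter.2 ⟨(mem_filter.1 he).1, Or.inl (mem_filter.1 he).2⟩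
lemma Cfg.mem_JU {n : ℕ} {U : Conf D} (h : Cfg n U) {e : Ed D} :
    e ∈ JU n U ↔ U e.1 ≠ U (tip e) := by
  refine ⟨fun he => (mem_filter.1 he).2, fun he => mem_filter.2 ⟨?_, he⟩⟩
  by_cases h1 : e.1 ∈ inB D n
  · exact mem_edB_of_base h1
  by_cases h2 : tip e ∈ inB D n
  · exact mem_edB_of_tip h2
  exact absurd ((h _ h1).trans (h _ h2).symm) he
lemma Cfg.ovh_mem {n : ℕ} {U : Conf D} (h : Cfg n U) {x : V D} (hx : Ovh (U x)) : x ∈ inB D n := by
  by_contra h1; exact hx 0 (h x h1)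
lemma Cfg.mem_Jst {n : ℕ} {U : Conf D} (h : Cfg n U) {e : Ed D} :
    e ∈ Jst n U ↔ U e.1 ≠ U (tip e) ∨ Ovh (U e.1) ∨ Ovh (U (tip e)) := by
  refine ⟨fun he => (mem_filter.1 he).2, fun he => mem_filter.2 ⟨?_, he⟩⟩
  rcases he with he | he | he
  · exact (mem_filter.1 (h.mem_JU.2 he)).1
  · exact mem_edB_of_base (h.ovh_mem he)
  · exact mem_edB_of_tip (h.ovh_mem he)

/-! ### The finite probability space -/

section Prob
variable {I : Type} [Fintype I] [DecidableEq I]

def wt (p : ℝ) (ω : I → Bool) : ℝ := ∏ i, if ω i then p else 1 - p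
def Ex (p : ℝ) (f : (I → Bool) → ℝ) : ℝ := ∑ ω, wt p ω * f ω
def Pr (p : ℝ) (A : (I → Bool) → Prop) : ℝ := ∑ ω, if A ω then wt p ω else 0
def Vr (p : ℝ) (f : (I → Bool) → ℝ) : ℝ := Ex p fun ω => (f ω - Ex p f) ^ 2
/-- The numerical value of a bit. -/
def bit (x : Bool) : ℝ := if x then 1 else 0

end Prob

/-- The index set of the periodic disorder. -/
abbrev Ix (D n N : ℕ) := {x : V D // x ∈ hatB D n} × Option (Fin D) × ZMod N

/-- The periodic disorder read off from the bits. -/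
def dis {n N : ℕ} (a b : ℝ) (ω : Ix D n N → Bool) : Dis D := fun x o k =>
  if h : x ∈ hatB D n then (if ω (⟨x, h⟩, o, (k : ZMod N)) then b else a) else a

/-- The shift as a permutation of the index set. -/
def sperm {n N : ℕ} (s : V D → ℤ) : Equiv.Perm (Ix D n N) where
  toFun i := (i.1, i.2.1, i.2.2 + (s i.1.1 : ZMod N))
  invFun i := (i.1, i.2.1, i.2.2 - (s i.1.1 : ZMod N))
  left_inv i := by simp
  right_inv i := by simp

lemma shift_dis {n N : ℕ} (a b : ℝ) (s : V D → ℤ) (ω : Ix D n N → Bool) :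
    shift s (dis a b ω) = dis a b (ω ∘ sperm s) := by
  funext x o k
  by_cases h : x ∈ hatB D n <;> simp [shift, dis, sperm, h]
lemma twoV_dis {n N : ℕ} (a b : ℝ) (ω : Ix D n N → Bool) : TwoV a b (dis a b ω) := by
  intro x o k; unfold dis; split_ifs <;> simp

end

end Pool.Agent.P.MP_67bca4_pr
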