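import Pool.Agent.P.MP_67bca4_pr.Star

namespace Pool.Agent.P.MP_67bca4_pr

open Finset
open scoped Classical

variable {D : ℕ}

theorem exc_mem_Fov {n : ℕ} {U : Conf D} (hU : Cfg n U) {C : Finset (Ed D)} {x : V D}
    (hx : Ovh (U x)) {e : Ed D} (he : e ∈ C) (hex : e.1 = x ∨ tip e = x) : x ∈ Fov n U C :=
  mem_filter.2 ⟨inB_sub_hatB (hU.ovh_mem hx), hx, e, he, hex⟩

theorem exc_core (hD : 2 ≤ D) {n : ℕ} {ξ : Dis D} (h : ∀ x o k, 0 < ξ x o k) {U : Conf D}
    (hU : IsMin n ξ U) {C : Finset (Ed D)} (hC : Closed (Jst n U) C) {y : V D}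
    (hy : y ∈ Fov n U C) (j : ℤ) (T : Col → Col) (P : Col → Prop)
    (hT1 : ∀ S S', dif (T S) (T S') ⊆ dif S S') (hT2 : ∀ x, ¬Ovh (U x) → T (U x) = U x)
    (hT3 : ∀ S, ¬P S → bd (T S) ⊆ bd S) (hT4 : ¬P (U y) → ∃ k ∈ bd (U y), k ∉ bd (T (U y)))
    (hP1 : ∀ x, P (U x) → Ovh (U x)) (hP2 : ∀ S S', P S → ¬P S' → j ∈ dif S S') :
    ∃ e ∈ C, j ∈ dif (U e.1) (U (tip e)) := by
  have hcfg : Cfg n U := hU.1
  have hne : ((Fov n U C).filter fun x => P (U x)).Nonempty := by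
    by_contra h0
    have hall : ∀ x ∈ Fov n U C, ¬P (U x) := fun x hx hp => h0 ⟨x, mem_filter.2 ⟨hx, hp⟩⟩
    have hcfg' : Cfg n fun x => if x ∈ Fov n U C then T (U x) else U x := by
      intro x hx
      have h1 : x ∉ Fov n U C := fun h1 => hx (hcfg.ovh_mem (mem_filter.1 h1).2.1)
      simp only [if_neg h1]
      exact hcfg x hx
    refine absurd (hU.2 _ hcfg') (not_le.2 ?_)
    unfold En
    refine add_lt_add_of_lt_of_le (sum_lt_sum (fun x _ => ?_) ⟨y, (mem_filter.1 hy).1, ?_⟩)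
      (sum_le_sum fun e _ => ?_)
    · by_cases h1 : x ∈ Fov n U C
      · simp only [if_pos h1]
        exact sum_le_sum_of_subset_of_nonneg (hT3 _ (hall x h1)) fun k _ _ => (h _ _ _).le
      · simp only [if_neg h1]
        exact le_rfl
    · simp only [if_pos hy]
      obtain ⟨k, hk, hk'⟩ := hT4 (hall y hy)
      exact sum_lt_sum_of_subset (hT3 _ (hall y hy)) hk hk' (h _ _ _) fun k _ _ => (h _ _ _).le
    · by_cases h1 : e.1 ∈ Fov n U C ∨ tip e ∈ Fov n U C
      · have heC : e ∈ C := by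
          rcases h1 with h1 | h1
          · exact star_mem hD hcfg hC h1 (Or.inl rfl)
          · exact star_mem hD hcfg hC h1 (Or.inr rfl)
        have key : ∀ x, (e.1 = x ∨ tip e = x) →
            (if x ∈ Fov n U C then T (U x) else U x) = T (U x) := by
          intro x hx
          by_cases h2 : x ∈ Fov n U C
          · rw [if_pos h2]
          · rw [if_neg h2, hT2 x fun h3 => h2 (exc_mem_Fov hcfg h3 heC hx)]
        simp only [key _ (Or.inl rfl), key _ (Or.inr rfl)]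
        exact sum_le_sum_of_subset_of_nonneg (hT1 _ _) fun k _ _ => (h _ _ _).le
      · rw [not_or] at h1
        simp only [if_neg h1.1, if_neg h1.2]
        exact le_rfl
  obtain ⟨x, hx, hmax⟩ := exists_max_image _ (fun x : V D => x ⟨0, by omega⟩) hne
  obtain ⟨hx1, hx2⟩ := mem_filter.1 hx
  have heC : (x, (⟨0, by omega⟩ : Fin D)) ∈ C := star_mem hD hcfg hC hx1 (Or.inl rfl)
  refine ⟨_, heC, hP2 _ _ hx2 fun hp => ?_⟩
  have h3 := hmax _ (mem_filter.2 ⟨exc_mem_Fov hcfg (hP1 _ hp) heC (Or.inr rfl), hp⟩)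
  simp only [tip_mk, Pi.add_apply, ee_self] at h3
  omega

theorem exc_change {S : Col} {j k : ℤ} (hjk : j ≤ k) (hne : ¬(j ∈ S.s ↔ k ∈ S.s)) :
    ∃ i ∈ bd S, j ≤ i ∧ i < k := by
  induction k, hjk using Int.leInduction with
  | base => exact absurd Iff.rfl hne
  | succ k hk ih =>
    by_cases h1 : j ∈ S.s ↔ k ∈ S.s
    · exact ⟨k, mem_bd.2 (by tauto), hk, by omega⟩
    · obtain ⟨i, hi, h2, h3⟩ := ih h1
      exact ⟨i, hi, h2, by omega⟩

theorem exc_card {U : Conf D} {C : Finset (Ed D)} {α : ℤ} {m : ℕ}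
    (h : ∀ j, α ≤ j → j < α + m → ∃ e ∈ C, j ∈ dif (U e.1) (U (tip e))) : m ≤ Wt U C := by
  have h1 : Finset.Ico α (α + m) ⊆ C.biUnion fun e => dif (U e.1) (U (tip e)) := by
    intro j hj
    rw [mem_Ico] at hj
    exact mem_biUnion.2 (h j hj.1 hj.2)
  have h2 := (card_le_card h1).trans card_biUnion_le
  simpa [Wt] using h2

/-- A high excursion of a minimiser forces a high column or a heavy overhang component. -/
theorem excursion (hD : 2 ≤ D) {n : ℕ} {ξ : Dis D} (h : ∀ x o k, 0 < ξ x o k) {U : Conf D}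
    (hU : IsMin n ξ U) {h₀ : ℕ} (h1 : 1 ≤ h₀) (hW : ¬Win (-(2 * h₀ : ℤ)) (2 * h₀) U) :
    (∃ y ∈ inB D n, h₀ ≤ (dif (U y) (flat 0)).card) ∨
      ∃ y ∈ inB D n, h₀ ≤ Wt U (cl (Jst n U) ((Jst n U).filter fun e => e.1 = y)) := by
  have hcfg : Cfg n U := hU.1
  by_cases hA : ∃ y ∈ inB D n, h₀ ≤ (dif (U y) (flat 0)).card
  · exact Or.inl hA
  right
  have hfl : ∀ x, ¬Ovh (U x) → ∃ c : ℤ, U x = flat c ∧ -(h₀ : ℤ) < c ∧ c < h₀ := by
    intro x hx
    obtain ⟨c, hc⟩ : ∃ c, U x = flat c := by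
      by_contra h2
      exact hx fun c hc => h2 ⟨c, hc⟩
    refine ⟨c, hc, ?_⟩
    by_cases h2 : x ∈ inB D n
    · have h3 : (dif (U x) (flat 0)).card < h₀ := not_le.1 fun h3 => hA ⟨x, h2, h3⟩
      rw [hc, card_dif_flat] at h3
      omega
    · have := flat_inj (hc.symm.trans (hcfg x h2))
      omega
  have hF : ∀ y, Ovh (U y) →
      y ∈ Fov n U (cl (Jst n U) ((Jst n U).filter fun e => e.1 = y)) := by
    intro y hy
    have h2 : (y, (⟨0, by omega⟩ : Fin D)) ∈ Jst n U := hcfg.mem_Jst.2 (Or.inr (Or.inl hy))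
    exact exc_mem_Fov hcfg hy (mem_cl (mem_filter.2 ⟨h2, rfl⟩) h2) (Or.inl rfl)
  obtain ⟨y, hy⟩ : ∃ y, (∃ k, k ≤ -(2 * h₀ : ℤ) ∧ k ∉ (U y).s) ∨ ∃ k ∈ (U y).s, 2 * (h₀ : ℤ) < k := by
    by_contra h2
    refine hW fun x => ⟨fun k hk => ?_, fun k hk => ?_⟩
    · by_contra h3
      exact h2 ⟨x, Or.inl ⟨k, hk, h3⟩⟩
    · by_contra h3
      exact h2 ⟨x, Or.inr ⟨k, hk, not_le.1 h3⟩⟩
  have hov : Ovh (U y) := by
    by_contra h2
    obtain ⟨c, hc, h3, h4⟩ := hfl y h2
    rcases hy with ⟨k, hk, hk'⟩ | ⟨k, hk, hk'⟩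
    · rw [hc, mem_flat] at hk'
      omega
    · rw [hc, mem_flat] at hk
      omega
  refine ⟨y, hcfg.ovh_mem hov, ?_⟩
  rcases hy with ⟨k, hk, hk'⟩ | ⟨k, hk, hk'⟩
  · refine exc_card (α := -(2 * h₀ : ℤ) + 1) fun j hj hj' => ?_
    refine exc_core hD h hU (cl_closed _ _) (hF y hov) j (fun S => S.union (flat j))
      (fun S => j ∉ S.s) (fun S S' i hi => ?_) (fun x hx => ?_) (fun S hS i hi => ?_)
      (fun hp => ?_) (fun x hx => ?_) (fun S S' h2 h3 => ?_)
    · simp only [mem_dif, Col.mem_union] at hi ⊢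
      tauto
    · obtain ⟨c, hc, h3, h4⟩ := hfl x hx
      rw [hc]
      ext i
      simp only [Col.mem_union, mem_flat]
      omega
    · simp only [mem_bd, Col.mem_union, mem_flat] at hi ⊢
      rw [not_not] at hS
      rcases lt_trichotomy i j with h2 | rfl | h2
      · exact absurd ⟨fun _ => Or.inr (by omega), fun _ => Or.inr h2.le⟩ hi
      · have : ¬(i + 1 ≤ i) := by omega
        tauto
      · have h3 : ¬(i ≤ j) := by omega
        have h4 : ¬(i + 1 ≤ j) := by omega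
        tauto
    · rw [not_not] at hp
      obtain ⟨i, hi, h2, h3⟩ := exc_change (S := U y) (j := k) (k := j) (by omega) (by tauto)
      refine ⟨i, hi, ?_⟩
      simp only [mem_bd, Col.mem_union, mem_flat, not_not]
      exact ⟨fun _ => Or.inr (by omega), fun _ => Or.inr h3.le⟩
    · by_contra h2
      obtain ⟨c, hc, h3, h4⟩ := hfl x h2
      rw [hc, mem_flat] at hx
      omega
    · rw [mem_dif]
      tauto
  · refine exc_card (α := h₀) fun j hj hj' => ?_
    refine exc_core hD h hU (cl_closed _ _) (hF y hov) j (fun S => S.inter (flat j))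
      (fun S => j ∈ S.s) (fun S S' i hi => ?_) (fun x hx => ?_) (fun S hS i hi => ?_)
      (fun hp => ?_) (fun x hx => ?_) (fun S S' h2 h3 => ?_)
    · simp only [mem_dif, Col.mem_inter] at hi ⊢
      tauto
    · obtain ⟨c, hc, h3, h4⟩ := hfl x hx
      rw [hc]
      ext i
      simp only [Col.mem_inter, mem_flat]
      omega
    · simp only [mem_bd, Col.mem_inter, mem_flat] at hi ⊢
      rcases lt_trichotomy i j with h2 | rfl | h2
      · have h3 : i ≤ j := h2.le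
        have h4 : i + 1 ≤ j := by omega
        tauto
      · have : ¬(i + 1 ≤ i) := by omega
        tauto
      · have h3 : ¬(i ≤ j) := by omega
        have h4 : ¬(i + 1 ≤ j) := by omega
        tauto
    · obtain ⟨i, hi, h2, h3⟩ := exc_change (S := U y) (j := j) (k := k) (by omega) (by tauto)
      refine ⟨i, hi, ?_⟩
      simp only [mem_bd, Col.mem_inter, mem_flat, not_not]
      have h4 : ¬(i + 1 ≤ j) := by omega
      refine ⟨fun h5 => ?_, fun h5 => absurd h5.2 h4⟩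
      have h6 : i = j := by omega
      exact absurd (h6 ▸ h5.1) hp
    · by_contra h2
      obtain ⟨c, hc, h3, h4⟩ := hfl x h2
      rw [hc, mem_flat] at hx
      omega
    · rw [mem_dif]
      tauto

end Pool.Agent.P.MP_67bca4_pr
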