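import Pool.Agent.P.MP_67bca4_pr.Defs

namespace Pool.Agent.P.MP_67bca4_pr

open Finset
open scoped Classical

variable {D : ℕ}

/-- Distance of a column from a flat column. -/
noncomputable def selPsi (C : Col) (k : ℤ) : ℤ := ((dif C (flat k)).card : ℤ)

lemma selPsi_succ_mem {C : Col} {k : ℤ} (h : k + 1 ∈ C.s) : selPsi C (k + 1) = selPsi C k - 1 := by
  have e : dif C (flat k) = insert (k + 1) (dif C (flat (k + 1))) := by
    ext j
    simp only [mem_insert, mem_dif, mem_flat]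
    by_cases hj : j = k + 1
    · subst hj; simp [h]
    · have : j ≤ k ↔ j ≤ k + 1 := by omega
      simp [hj, this]
  have hn : k + 1 ∉ dif C (flat (k + 1)) := by simp [h]
  unfold selPsi
  rw [e, card_insert_of_notMem hn]
  push_cast; ring

lemma selPsi_succ_not {C : Col} {k : ℤ} (h : k + 1 ∉ C.s) : selPsi C (k + 1) = selPsi C k + 1 := by
  have e : dif C (flat (k + 1)) = insert (k + 1) (dif C (flat k)) := by
    ext j
    simp only [mem_insert, mem_dif, mem_flat]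
    by_cases hj : j = k + 1
    · subst hj; simp [h]
    · have : j ≤ k ↔ j ≤ k + 1 := by omega
      simp [hj, this]
  have hn : k + 1 ∉ dif C (flat k) := by simp [h]
  unfold selPsi
  rw [e, card_insert_of_notMem hn]
  push_cast; ring

lemma selPsi_le (C C' : Col) (k : ℤ) : selPsi C k ≤ selPsi C' k + (dif C C').card := by
  have : dif C (flat k) ⊆ dif C' (flat k) ∪ dif C C' := by
    intro j hj
    simp only [mem_union, mem_dif] at hj ⊢
    tauto
  have h2 := (card_le_card this).trans (card_union_le _ _)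
  unfold selPsi
  exact_mod_cast h2

lemma selPsi_mono {C C' : Col} (h : C.s ⊆ C'.s) {k k' : ℤ} (hk : k ≤ k') :
    selPsi C' k' - selPsi C' k ≤ selPsi C k' - selPsi C k := by
  induction k', hk using Int.leInduction with
  | base => simp
  | succ j _ ih =>
    by_cases h1 : j + 1 ∈ C.s
    · rw [selPsi_succ_mem h1, selPsi_succ_mem (h h1)]; omega
    · rw [selPsi_succ_not h1]
      by_cases h2 : j + 1 ∈ C'.s
      · rw [selPsi_succ_mem h2]; omega
      · rw [selPsi_succ_not h2]; omega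

/-- The tilted functional. -/
noncomputable def selPhi (T0 t : ℤ) (C : Col) (k : ℤ) : ℤ := T0 * selPsi C k + t * k

/-- Least minimiser of the tilted functional. -/
def SelLM (T0 t : ℤ) (C : Col) (k : ℤ) : Prop :=
  (∀ j, selPhi T0 t C k ≤ selPhi T0 t C j) ∧ ∀ j, j < k → selPhi T0 t C k < selPhi T0 t C j

lemma selPhi_up {T0 t : ℤ} (ht : |t| < T0) {C : Col} {k : ℤ} (h : k + 1 ∉ C.s) :
    selPhi T0 t C k < selPhi T0 t C (k + 1) := by
  unfold selPhi
  rw [selPsi_succ_not h]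
  have := (abs_lt.1 ht).1
  nlinarith

lemma selPhi_down {T0 t : ℤ} (ht : |t| < T0) {C : Col} {k : ℤ} (h : k + 1 ∈ C.s) :
    selPhi T0 t C (k + 1) < selPhi T0 t C k := by
  unfold selPhi
  rw [selPsi_succ_mem h]
  have := (abs_lt.1 ht).2
  nlinarith

lemma sel_min_mem {T0 t : ℤ} (ht : |t| < T0) {C : Col} {k : ℤ}
    (h : ∀ j, selPhi T0 t C k ≤ selPhi T0 t C j) : k ∈ C.s ∧ k + 1 ∉ C.s := by
  constructor
  · by_contra hk
    have h1 : k - 1 + 1 ∉ C.s := by rwa [sub_add_cancel]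
    have h2 := selPhi_up ht h1
    rw [sub_add_cancel] at h2
    exact absurd (h (k - 1)) (not_le.2 h2)
  · intro hk
    exact absurd (h (k + 1)) (not_le.2 (selPhi_down ht hk))

lemma exists_selLM {T0 t : ℤ} (ht : |t| < T0) (C : Col) : ∃ k, SelLM T0 t C k := by
  obtain ⟨B, hB0, hlo, hhi⟩ := C.bounds
  have hup : ∀ j, B ≤ j → selPhi T0 t C B ≤ selPhi T0 t C j := by
    intro j hj
    induction j, hj using Int.leInduction with
    | base => exact le_rfl
    | succ i hi ih =>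
      refine ih.trans (selPhi_up ht fun hm => ?_).le
      have := hhi _ hm
      omega
  have hdn : ∀ j, j ≤ -B → selPhi T0 t C (-B) ≤ selPhi T0 t C j := by
    intro j hj
    induction j, hj using Int.leInductionDown with
    | base => exact le_rfl
    | pred i hi ih =>
      have h1 : i - 1 + 1 ∈ C.s := by rw [sub_add_cancel]; exact hlo i hi
      have h2 := selPhi_down ht h1
      rw [sub_add_cancel] at h2
      exact ih.trans h2.le
  obtain ⟨k0, -, hk0⟩ := exists_min_image (Icc (-B) B) (selPhi T0 t C)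
    ⟨0, mem_Icc.2 ⟨by omega, hB0⟩⟩
  have hmin : ∀ j, selPhi T0 t C k0 ≤ selPhi T0 t C j := by
    intro j
    by_cases h1 : B ≤ j
    · exact (hk0 B (mem_Icc.2 ⟨by omega, le_rfl⟩)).trans (hup j h1)
    · by_cases h2 : j ≤ -B
      · exact (hk0 (-B) (mem_Icc.2 ⟨le_rfl, by omega⟩)).trans (hdn j h2)
      · exact hk0 j (mem_Icc.2 ⟨by omega, by omega⟩)
  obtain ⟨k, hk, hl⟩ := Int.exists_least_of_bdd
    (P := fun k => ∀ j, selPhi T0 t C k ≤ selPhi T0 t C j)
    ⟨-B, fun z hz => by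
      by_contra hc
      exact (sel_min_mem ht hz).2 (hlo _ (by omega))⟩ ⟨k0, hmin⟩
  refine ⟨k, hk, fun j hj => lt_of_le_of_ne (hk j) fun he => ?_⟩
  have := hl j fun i => he ▸ hk i
  omega

lemma SelLM.mono {T0 t : ℤ} (hT : 0 ≤ T0) {C C' : Col} (h : C.s ⊆ C'.s) {k k' : ℤ}
    (hk : SelLM T0 t C k) (hk' : SelLM T0 t C' k') : k ≤ k' := by
  by_contra hc
  have h1 := hk.2 k' (by omega)
  have h2 := hk'.1 k
  have h3 := selPsi_mono h (show k' ≤ k by omega)
  have h4 := mul_le_mul_of_nonneg_left h3 hT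
  unfold selPhi at h1 h2
  nlinarith

lemma sel_tele (u v : ℕ → ℤ) (N : ℕ) (h : ∀ i, i < N → u i ≤ v (i + 1) - v i) :
    ∑ i ∈ range N, u i ≤ v N - v 0 := by
  rw [← sum_range_sub]
  exact sum_le_sum fun i hi => h i (mem_range.1 hi)

lemma sel_pair {B : ℕ} {g : ℤ → Col → ℤ}
    (hg : ∀ t C, |t| < (B : ℤ) + 3 → SelLM (B + 3) t C (g t C)) (S S' : Col)
    (hlo : ∀ k, k ≤ -(B : ℤ) → k ∈ (S.inter S').s) (hhi : ∀ k ∈ (S.inter S').s, k ≤ (B : ℤ)) :
    ∑ i ∈ range (2 * B + 3), (g (i - (B + 1)) S' - g (i - (B + 1)) S).natAbs ≤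
      (2 * B + 3) * (2 * (dif S S').card) := by
  by_cases hd : dif S S' = ∅
  · rw [dif_eq_empty.1 hd]; simp
  have hd1 : (1 : ℤ) ≤ (dif S S').card := by
    exact_mod_cast card_pos.2 (nonempty_iff_ne_empty.2 hd)
  set P := S.union S' with hP
  set M := S.inter S' with hM
  have hT : (0 : ℤ) ≤ (B : ℤ) + 3 := by positivity
  have ePM : dif P M = dif S S' := by
    ext k
    simp only [mem_dif, hP, hM, Col.mem_union, Col.mem_inter]
    tauto
  set φ : Col → ℤ → ℤ := fun C t => selPhi (B + 3) t C (g t C) with hφ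
  have hA : ∀ C t, |t + 1| < (B : ℤ) + 3 → φ C (t + 1) - φ C t ≤ g t C := by
    intro C t ht
    have := (hg _ C ht).1 (g t C)
    simp only [hφ, selPhi] at this ⊢
    nlinarith
  have hB : ∀ C t, |t| < (B : ℤ) + 3 → g (t + 1) C ≤ φ C (t + 1) - φ C t := by
    intro C t ht
    have := (hg _ C ht).1 (g (t + 1) C)
    simp only [hφ, selPhi] at this ⊢
    nlinarith
  have hC : ∀ C C' t, |t| < (B : ℤ) + 3 → φ C t ≤ φ C' t + (B + 3) * (dif C C').card := by
    intro C C' t ht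
    have h1 := (hg _ C ht).1 (g t C')
    have h2 := mul_le_mul_of_nonneg_left (selPsi_le C C' (g t C')) hT
    simp only [hφ, selPhi] at h1 ⊢
    nlinarith
  have hbd : ∀ t, |t| < (B : ℤ) + 3 → -(B : ℤ) ≤ g t M ∧ g t M ≤ B := by
    intro t ht
    have := sel_min_mem ht (hg t M ht).1
    refine ⟨?_, hhi _ this.1⟩
    by_contra hc
    exact this.2 (hlo _ (by omega))
  have h1 : ∑ i ∈ range (2 * B + 3), g (i - (B + 1)) P ≤
      φ P (((2 * B + 3 : ℕ) : ℤ) - (B + 2)) - φ P (((0 : ℕ) : ℤ) - (B + 2)) := by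
    refine sel_tele (fun i => g (i - (B + 1)) P) (fun i => φ P ((i : ℤ) - (B + 2))) _ fun i hi => ?_
    have := hB P ((i : ℤ) - (B + 2)) (abs_lt.2 ⟨by omega, by omega⟩)
    rw [show (i : ℤ) - (B + 2) + 1 = i - (B + 1) by ring] at this
    rw [show ((i + 1 : ℕ) : ℤ) - (B + 2) = i - (B + 1) by push_cast; ring]
    exact this
  have h2 : ∑ i ∈ range (2 * B + 3), -g (i - (B + 1)) M ≤
      -φ M (((2 * B + 3 : ℕ) : ℤ) - (B + 1)) - -φ M (((0 : ℕ) : ℤ) - (B + 1)) := by
    refine sel_tele (fun i => -g (i - (B + 1)) M) (fun i => -φ M ((i : ℤ) - (B + 1))) _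
      fun i hi => ?_
    have := hA M ((i : ℤ) - (B + 1)) (abs_lt.2 ⟨by omega, by omega⟩)
    rw [show ((i + 1 : ℕ) : ℤ) - (B + 1) = i - (B + 1) + 1 by push_cast; ring]
    linarith
  rw [show ((2 * B + 3 : ℕ) : ℤ) - (B + 2) = B + 1 by push_cast; ring,
    show ((0 : ℕ) : ℤ) - (B + 2) = -(B + 2) by push_cast; ring] at h1
  rw [show ((2 * B + 3 : ℕ) : ℤ) - (B + 1) = B + 1 + 1 by push_cast; ring,
    show ((0 : ℕ) : ℤ) - (B + 1) = -(B + 2) + 1 by push_cast; ring] at h2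
  have h3 := hC P M (B + 1) (abs_lt.2 ⟨by omega, by omega⟩)
  have h4 := hC M P (-(B + 2)) (abs_lt.2 ⟨by omega, by omega⟩)
  rw [dif_comm M P] at h4
  rw [ePM] at h3 h4
  have h5 := hB M (B + 1) (abs_lt.2 ⟨by omega, by omega⟩)
  have h6 := hA M (-(B + 2)) (abs_lt.2 ⟨by omega, by omega⟩)
  have h7 := (hbd (B + 1 + 1) (abs_lt.2 ⟨by omega, by omega⟩)).1
  have h8 := (hbd (-(B + 2)) (abs_lt.2 ⟨by omega, by omega⟩)).2
  have h9 : ∑ i ∈ range (2 * B + 3), ((g (i - (B + 1)) S' - g (i - (B + 1)) S).natAbs : ℤ) ≤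
      ∑ i ∈ range (2 * B + 3), g (i - (B + 1)) P +
        ∑ i ∈ range (2 * B + 3), -g (i - (B + 1)) M := by
    rw [← sum_add_distrib]
    refine sum_le_sum fun i hi => ?_
    have hi' := mem_range.1 hi
    have ht : |(i : ℤ) - (B + 1)| < (B : ℤ) + 3 := abs_lt.2 ⟨by omega, by omega⟩
    have a1 := SelLM.mono hT (C := M) (C' := S) (fun k hk => hk.1) (hg _ _ ht) (hg _ _ ht)
    have a2 := SelLM.mono hT (C := M) (C' := S') (fun k hk => hk.2) (hg _ _ ht) (hg _ _ ht)
    have a3 := SelLM.mono hT (C := S) (C' := P) (fun k hk => Or.inl hk) (hg _ _ ht) (hg _ _ ht)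
    have a4 := SelLM.mono hT (C := S') (C' := P) (fun k hk => Or.inr hk) (hg _ _ ht) (hg _ _ ht)
    omega
  have h10 : ∑ i ∈ range (2 * B + 3), ((g (i - (B + 1)) S' - g (i - (B + 1)) S).natAbs : ℤ) ≤
      (2 * B + 3) * (2 * ((dif S S').card : ℤ)) := by
    have hB0 : (0 : ℤ) ≤ B := by positivity
    nlinarith
  exact_mod_cast h10

/-- Selection of one sheet per column with controlled total variation. -/
theorem exists_sel {ι : Type} (T : Finset ι) (S S' : ι → Col) :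
    ∃ g : Col → ℤ, (∀ C : Col, g C ∈ C.s ∧ g C + 1 ∉ C.s) ∧
      ∑ e ∈ T, (g (S' e) - g (S e)).natAbs ≤ 2 * ∑ e ∈ T, (dif (S e) (S' e)).card := by
  choose b hb0 hlo hhi using fun e => ((S e).inter (S' e)).bounds
  set B : ℕ := T.sup fun e => (b e).toNat with hBdef
  have hb : ∀ e ∈ T, b e ≤ B := fun e he => by
    have : (b e).toNat ≤ B := le_sup (f := fun e => (b e).toNat) he
    omega
  have hex : ∀ (t : ℤ) (C : Col), ∃ k, |t| < (B : ℤ) + 3 → SelLM (B + 3) t C k := fun t C => by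
    by_cases ht : |t| < (B : ℤ) + 3
    · obtain ⟨k, hk⟩ := exists_selLM ht C
      exact ⟨k, fun _ => hk⟩
    · exact ⟨0, fun h => absurd h ht⟩
  choose g hg using hex
  have hsum : ∑ i ∈ range (2 * B + 3), ∑ e ∈ T,
      (g (i - (B + 1)) (S' e) - g (i - (B + 1)) (S e)).natAbs ≤
      ∑ _i ∈ range (2 * B + 3), 2 * ∑ e ∈ T, (dif (S e) (S' e)).card := by
    rw [sum_comm, sum_const, card_range, smul_eq_mul, mul_sum, mul_sum]
    refine sum_le_sum fun e he => sel_pair hg _ _ (fun k hk => hlo e k ?_) fun k hk => ?_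
    · have := hb e he
      omega
    · exact (hhi e k hk).trans (hb e he)
  obtain ⟨i, hi, h⟩ := exists_le_of_sum_le ⟨0, mem_range.2 (by omega)⟩ hsum
  have hi' := mem_range.1 hi
  have ht : |(i : ℤ) - (B + 1)| < (B : ℤ) + 3 := abs_lt.2 ⟨by omega, by omega⟩
  exact ⟨g (i - (B + 1)), fun C => sel_min_mem ht (hg _ C ht).1, h⟩

end Pool.Agent.P.MP_67bca4_pr
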