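import Pool.Agent.P.MP_67bca4_pr.Defs

namespace Pool.Agent.P.MP_67bca4_pr

open Finset
open scoped Classical

variable {D : ℕ}

variable {n : ℕ} {U : Conf D} {C : Finset (Ed D)}

theorem bd_nonempty (S : Col) : (bd S).Nonempty := by
  by_contra h
  rw [not_nonempty_iff_eq_empty] at h
  obtain ⟨B, hB0, hB1, hB2⟩ := S.bounds
  have step : ∀ k, k ∈ S.s → k + 1 ∈ S.s := by
    intro k hk
    by_contra h1
    have : k ∈ bd S := mem_bd.2 (by tauto)
    rw [h] at this
    exact notMem_empty _ this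
  have all : ∀ k, -B ≤ k → k ∈ S.s := by
    intro k hk
    induction k, hk using Int.leInduction with
    | base => exact hB1 _ le_rfl
    | succ m _ ih => exact step m ih
  have := hB2 (B + 1) (all _ (by omega))
  omega

theorem eq_flat_of_bd {S : Col} {c : ℤ} (h : bd S = {c}) : S = flat c := by
  obtain ⟨B, hB0, hB1, hB2⟩ := S.bounds
  have step : ∀ k, k ≠ c → (k ∈ S.s ↔ k + 1 ∈ S.s) := by
    intro k hk
    by_contra h1
    have : k ∈ bd S := mem_bd.2 h1
    rw [h, mem_singleton] at this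
    exact hk this
  have up : ∀ k, c + 1 ≤ k → (k ∈ S.s ↔ c + 1 ∈ S.s) := by
    intro k hk
    induction k, hk using Int.leInduction with
    | base => rfl
    | succ m hm ih => rw [← ih]; exact (step m (by omega)).symm
  have down : ∀ k, k ≤ c → (k ∈ S.s ↔ c ∈ S.s) := by
    intro k hk
    induction k, hk using Int.leInductionDown with
    | base => rfl
    | pred m hm ih =>
      rw [← ih]
      have := step (m - 1) (by omega)
      rwa [sub_add_cancel] at this
  have h1 : c ∈ S.s := (down (min c (-B)) (min_le_left _ _)).1 (hB1 _ (min_le_right _ _))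
  have h2 : c + 1 ∉ S.s := by
    intro h2
    have := hB2 _ ((up (max (c + 1) (B + 1)) (le_max_left _ _)).2 h2)
    have := le_max_right (c + 1) (B + 1)
    omega
  ext k
  rw [mem_flat]
  constructor
  · intro hk
    by_contra h3
    exact h2 ((up k (by omega)).1 hk)
  · intro hk
    exact (down k hk).2 h1

theorem Ovh.two_le {S : Col} (h : Ovh S) : 2 ≤ (bd S).card := by
  by_contra h1
  have h2 := (bd_nonempty S).card_pos
  obtain ⟨c, hc⟩ := card_eq_one.1 (show (bd S).card = 1 by omega)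
  exact h c (eq_flat_of_bd hc)

theorem card_bd_of_not_ovh {S : Col} (h : ¬Ovh S) : (bd S).card = 1 := by
  unfold Ovh at h
  push Not at h
  obtain ⟨c, rfl⟩ := h
  simp

theorem card_dif_flat (c c' : ℤ) : (dif (flat c) (flat c')).card = (c - c').natAbs := by
  have : dif (flat c) (flat c') = Ioc (min c c') (max c c') := by
    ext k
    simp only [mem_dif, mem_flat, mem_Ioc]
    omega
  rw [this, Int.card_Ioc]
  omega

theorem sqAdj_of_touch {x : V D} {e e' : Ed D} (he : e.1 = x ∨ tip e = x)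
    (he' : e'.1 = x ∨ tip e' = x) (hne : e.2 ≠ e'.2) : SqAdj e e' := by
  obtain ⟨y, i⟩ := e
  obtain ⟨y', j⟩ := e'
  simp only [tip_mk] at he he' hne
  rcases he with rfl | he
  · rcases he' with rfl | he'
    · exact ⟨y', i, j, hne, Or.inl rfl, Or.inr (Or.inr (Or.inl rfl))⟩
    · exact ⟨y', i, j, hne, Or.inr (Or.inl (by rw [he'])), Or.inr (Or.inr (Or.inl rfl))⟩
  · rcases he' with rfl | he'
    · exact ⟨y, i, j, hne, Or.inl rfl, Or.inr (Or.inr (Or.inr (by rw [he])))⟩
    · refine ⟨y - ee j, i, j, hne, Or.inr (Or.inl (by simp)), Or.inr (Or.inr (Or.inr ?_))⟩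
      have : y' = y - ee j + ee i := by
        rw [sub_add_eq_add_sub, he, ← he', add_sub_cancel_right]
      rw [this]

/-- All edges at an overhang column touched by a closed set belong to it. -/
theorem star_mem (hD : 2 ≤ D) (hU : Cfg n U) (hC : Closed (Jst n U) C) {x : V D}
    (hx : x ∈ Fov n U C) {e : Ed D} (he : e.1 = x ∨ tip e = x) : e ∈ C := by
  obtain ⟨-, hov, e0, he0, h0⟩ := mem_filter.1 hx
  have hJ : ∀ f : Ed D, (f.1 = x ∨ tip f = x) → f ∈ Jst n U := by
    intro f hf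
    refine hU.mem_Jst.2 (Or.inr ?_)
    rcases hf with hf | hf
    · left; rwa [hf]
    · right; rwa [hf]
  by_cases hne : e0.2 = e.2
  · have : Nontrivial (Fin D) := Fin.nontrivial_iff_two_le.2 hD
    obtain ⟨j, hj⟩ := exists_ne e.2
    have h1 : (x, j) ∈ C :=
      hC.2 e0 he0 (x, j) (hJ _ (Or.inl rfl))
        (sqAdj_of_touch h0 (Or.inl rfl) (by rw [hne]; exact hj.symm))
    exact hC.2 _ h1 e (hJ e he) (sqAdj_of_touch (Or.inl rfl) he hj)
  · exact hC.2 e0 he0 e (hJ e he) (sqAdj_of_touch h0 he hne)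

theorem Wt_le_Xs : Wt U C ≤ Xs n U C := Nat.le_add_right _ _

theorem card_JU_inter_le : (JU n U ∩ C).card ≤ Wt U C := by
  rw [card_eq_sum_ones]
  refine le_trans (sum_le_sum fun e he => ?_) (sum_le_sum_of_subset (inter_subset_right (s₁ := JU n U)))
  have h1 := (mem_filter.1 (mem_inter.1 he).1).2
  exact card_pos.2 (nonempty_iff_ne_empty.2 fun h => h1 (dif_eq_empty.1 h))

theorem card_Fov_le : (Fov n U C).card ≤ ∑ x ∈ Fov n U C, ((bd (U x)).card - 1) := by
  rw [card_eq_sum_ones]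
  refine sum_le_sum fun x hx => ?_
  have := (mem_filter.1 hx).2.1.two_le
  omega

theorem card_le_Xs (hD : 1 ≤ D) (hC : C ⊆ Jst n U) : C.card ≤ 2 * D * Xs n U C := by
  have hsub : C ⊆ (JU n U ∩ C) ∪ ((Fov n U C ×ˢ (univ : Finset (Fin D))) ∪
      (Fov n U C ×ˢ (univ : Finset (Fin D))).image fun e => (e.1 - ee e.2, e.2)) := by
    intro e he
    obtain ⟨h1, h2⟩ := mem_filter.1 (hC he)
    rcases h2 with h2 | h2 | h2
    · exact mem_union_left _ (mem_inter.2 ⟨mem_filter.2 ⟨h1, h2⟩, he⟩)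
    · refine mem_union_right _ (mem_union_left _ (mem_product.2 ⟨?_, mem_univ _⟩))
      exact mem_filter.2 ⟨(mem_edB.1 h1).1, h2, e, he, Or.inl rfl⟩
    · refine mem_union_right _ (mem_union_right _ (mem_image.2 ⟨(tip e, e.2), ?_, ?_⟩))
      · exact mem_product.2 ⟨mem_filter.2 ⟨(mem_edB.1 h1).2, h2, e, he, Or.inr rfl⟩, mem_univ _⟩
      · simp [tip]
  have h1 := card_le_card hsub
  have h2 := card_union_le (JU n U ∩ C) ((Fov n U C ×ˢ (univ : Finset (Fin D))) ∪
      (Fov n U C ×ˢ (univ : Finset (Fin D))).image fun e => (e.1 - ee e.2, e.2))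
  have h3 := card_union_le (Fov n U C ×ˢ (univ : Finset (Fin D)))
      ((Fov n U C ×ˢ (univ : Finset (Fin D))).image fun e => (e.1 - ee e.2, e.2))
  have h4 := card_image_le (s := Fov n U C ×ˢ (univ : Finset (Fin D)))
      (f := fun e : V D × Fin D => (e.1 - ee e.2, e.2))
  have h5 : (Fov n U C ×ˢ (univ : Finset (Fin D))).card = (Fov n U C).card * D := by
    simp
  have h6 := card_JU_inter_le (n := n) (U := U) (C := C)
  have h7 := card_Fov_le (n := n) (U := U) (C := C)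
  have h8 := Nat.mul_le_mul_right D h7
  have h9 : Wt U C ≤ 2 * D * Wt U C := Nat.le_mul_of_pos_left _ (by omega)
  unfold Xs
  rw [mul_add]
  nlinarith

theorem Lay_le (hD : 1 ≤ D) (hU : Cfg n U) {Y : Finset (V D)} (hY : Y ⊆ inB D n)
    (hC : C ⊆ Jst n U) (h : ∀ e ∈ Jst n U, e.1 ∈ Y → e ∈ C) :
    Lay n U Y ≤ Y.card + Xs n U C := by
  have h1 : ∑ x ∈ Y, (bd (U x)).card = Y.card + ∑ x ∈ Y, ((bd (U x)).card - 1) := by
    rw [card_eq_sum_ones, ← sum_add_distrib]
    refine sum_congr rfl fun x _ => ?_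
    have := (bd_nonempty (U x)).card_pos
    omega
  have h2 : ∑ x ∈ Y, ((bd (U x)).card - 1) ≤ ∑ x ∈ Fov n U C, ((bd (U x)).card - 1) := by
    refine sum_le_sum_of_ne_zero fun x hx hne => ?_
    have hov : Ovh (U x) := by
      by_contra h3
      rw [card_bd_of_not_ovh h3] at hne
      exact hne rfl
    refine mem_filter.2 ⟨inB_sub_hatB (hY hx), hov, (x, ⟨0, hD⟩), ?_, Or.inl rfl⟩
    exact h _ (hU.mem_Jst.2 (Or.inr (Or.inl hov))) hx
  have h3 : Wt U ((edB D n).filter fun e => e.1 ∈ Y) ≤ Wt U C := by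
    refine sum_le_sum_of_ne_zero fun e he hne => ?_
    refine h e (hU.mem_Jst.2 (Or.inl fun h4 => hne ?_)) (mem_filter.1 he).2
    rw [h4, dif_self, card_empty]
  have _ := hC
  unfold Lay Xs
  omega

theorem sqCl_JU_inter (hU : Cfg n U) (hC : Closed (Jst n U) C) : SqCl (JU n U ∩ C) := by
  intro z i j hij hz
  obtain ⟨h1, h2⟩ := mem_inter.1 hz
  have key : ∀ f, InSq z i j f → f ∈ JU n U → f ∈ JU n U ∩ C := fun f hf hf' =>
    mem_inter.2 ⟨hf', hC.2 _ h2 f (JU_sub_Jst n U hf')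
      ⟨z, i, j, hij, Or.inr (Or.inr (Or.inl rfl)), hf⟩⟩
  by_cases a1 : (z + ee i, j) ∈ JU n U
  · exact Or.inl (key _ (Or.inr (Or.inr (Or.inr rfl))) a1)
  by_cases a2 : (z, i) ∈ JU n U
  · exact Or.inr (Or.inl (key _ (Or.inl rfl) a2))
  by_cases a3 : (z + ee j, i) ∈ JU n U
  · exact Or.inr (Or.inr (key _ (Or.inr (Or.inl rfl)) a3))
  exfalso
  rw [hU.mem_JU] at h1 a1 a2 a3
  simp only [tip_mk, ne_eq, not_not] at h1 a1 a2 a3
  apply h1
  rw [a2, a1, a3, add_right_comm]

theorem closed_JU_inter (hC : Closed (Jst n U) C) : Closed (JU n U) (JU n U ∩ C) :=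
  ⟨inter_subset_left, fun e he e' he' hs =>
    mem_inter.2 ⟨he', hC.2 e (mem_inter.1 he).2 e' (JU_sub_Jst n U he') hs⟩⟩

theorem Big.JU_inter (h : Big (JU n U)) (hC : Closed (Jst n U) C) : Big (JU n U ∩ C) := by
  intro K hK hne
  refine h K ⟨hK.1.trans inter_subset_left, fun e he e' he' hs => ?_⟩ hne
  exact hK.2 e he e' ((closed_JU_inter hC).2 e (hK.1 he) e' he' hs) hs

theorem Big.le_Wt (h : Big (JU n U)) (hC : Closed (Jst n U) C) (h1 : 1 ≤ Wt U C) :
    D ^ 3 ≤ Wt U C := by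
  refine (h _ (closed_JU_inter hC) ?_).trans card_JU_inter_le
  obtain ⟨e, he, hne⟩ := exists_ne_zero_of_sum_ne_zero (Nat.one_le_iff_ne_zero.1 h1)
  refine ⟨e, mem_inter.2 ⟨mem_filter.2 ⟨(mem_filter.1 (hC.1 he)).1, fun h2 => hne ?_⟩, he⟩⟩
  rw [h2, dif_self, card_empty]

end Pool.Agent.P.MP_67bca4_pr
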