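import Pool.Agent.P.MP_67bca4_pr.Prim
import Pool.Agent.P.MP_67bca4_pr.TourL
import Pool.Agent.P.MP_67bca4_pr.Star

namespace Pool.Agent.P.MP_67bca4_pr

open Finset
open scoped Classical

variable {D : ℕ}

lemma sur_step (x : V D) (i : Fin D) (t : ℕ) :
    x + ((t + 1 : ℕ) : ℤ) • ee i = x + (t : ℤ) • ee i + ee i := by
  push_cast
  rw [add_smul, one_smul, add_assoc]

/-- The straight walk of length `M` in direction `i`. -/
lemma sur_ray_tour (i : Fin D) (M : ℕ) (r : V D) :
    ∃ w : List (V D), (∀ t : ℕ, t ≤ M → r + (t : ℤ) • ee i ∈ r :: w) ∧ wcost l1 r w = M := by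
  induction M generalizing r with
  | zero =>
    refine ⟨[], fun t ht => ?_, by simp [wcost]⟩
    obtain rfl : t = 0 := by omega
    simp
  | succ M ih =>
    obtain ⟨w, h1, h2⟩ := ih (r + ee i)
    refine ⟨(r + ee i) :: w, fun t ht => ?_, ?_⟩
    · rcases t with _ | t
      · simp
      · refine List.mem_cons_of_mem _ ?_
        have := h1 t (by omega)
        rwa [sur_step, add_right_comm]
    · simp only [wcost, h2, add_sub_cancel_left, l1_ee]
      push_cast; ring

lemma sur_const (s : V D → ℤ) (x : V D) (i : Fin D) (t : ℕ)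
    (h : ∀ j : ℕ, j < t → grad s (x + (j : ℤ) • ee i, i) = 0) :
    s (x + (t : ℤ) • ee i) = s x := by
  induction t with
  | zero => simp
  | succ t ih =>
    have h1 := h t (by omega)
    simp only [grad, tip_mk] at h1
    rw [sur_step, ← ih fun j hj => h j (by omega)]
    omega

lemma sur_jump {n : ℕ} {s : V D → ℤ} (hs : Supp n s) {x : V D} (hx : s x ≠ 0) (i : Fin D) :
    ∃ t : ℕ, grad s (x + (t : ℤ) • ee i, i) ≠ 0 := by
  by_contra h
  push Not at h
  apply hx
  rw [← sur_const s x i ((n : ℤ) - x i).toNat fun j _ => h j]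
  apply hs
  intro hm
  have := (mem_inB.1 hm i).2
  simp only [Pi.add_apply, Pi.smul_apply, ee_self, smul_eq_mul, mul_one] at this
  omega

/-- Some component carries a primitive that does not vanish at `y`. -/
lemma sur_comp (hD : 2 ≤ D) {n : ℕ} (g : V D → ℤ) (hg : Supp n g) {J : Finset (Ed D)}
    (hJ : ∀ e, grad g e ≠ 0 → e ∈ J) (y : V D) (N : ℕ) :
    ∀ S : Finset (Ed D), S.card ≤ N → Closed J S → ∀ s : Fn D, Supp n s →
      (∀ e, grad s e = if e ∈ S then grad g e else 0) → s y ≠ 0 →
      ∃ e0 ∈ J, ∃ s' : Fn D, Supp n s' ∧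
        (∀ e, grad s' e = if e ∈ cl J {e0} then grad g e else 0) ∧ s' y ≠ 0 := by
  have hempty : ∀ s : Fn D, (∀ e, grad s e = if e ∈ (∅ : Finset (Ed D)) then grad g e else 0) →
      s y = 0 := by
    intro s hs
    have : s = 0 := eq_of_grad_dir ⟨0, by omega⟩ fun x => by
      rw [hs]; simp [grad]
    simp [this]
  induction N with
  | zero =>
    intro S hS _ s _ hs hy
    obtain rfl : S = ∅ := card_eq_zero.1 (by omega)
    exact absurd (hempty s hs) hy
  | succ N ih =>
    intro S hS hc s hsupp hs hy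
    rcases S.eq_empty_or_nonempty with rfl | ⟨e0, he0⟩
    · exact absurd (hempty s hs) hy
    have he0J := hc.1 he0
    have hK : cl J {e0} ⊆ S := cl_sub hc fun e he _ => by rwa [mem_singleton.1 he]
    obtain ⟨s', h1, h2⟩ := exists_prim hD g hg hJ (cl_closed J {e0})
    by_cases hy' : s' y = 0
    swap
    · exact ⟨e0, he0J, s', h1, h2, hy'⟩
    refine ih (S \ cl J {e0}) ?_ (hc.sdiff (cl_closed J {e0})) (s - s') ?_ ?_ ?_
    · have : (S \ cl J {e0}).card < S.card :=
        card_lt_card ⟨sdiff_subset, fun h =>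
          (mem_sdiff.1 (h he0)).2 (mem_cl (mem_singleton_self e0) he0J)⟩
      omega
    · intro x hx
      simp [hsupp x hx, h1 x hx]
    · intro e
      rw [grad_sub, hs, h2]
      by_cases a : e ∈ cl J {e0}
      · simp [a, hK a]
      · simp [a]
    · simpa [hy'] using hy

/-- A jump on the ray from `y` whose component is at least as large as its distance. -/
lemma sur_key (hD : 2 ≤ D) {n : ℕ} (g : V D → ℤ) (hg : Supp n g) {J : Finset (Ed D)}
    (hJ : ∀ e, grad g e ≠ 0 → e ∈ J) (y : V D) (hy : g y ≠ 0) (i0 i1 : Fin D) (hi : i0 ≠ i1) :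
    ∃ t : ℕ, grad g (y + (t : ℤ) • ee i0, i0) ≠ 0 ∧
      t ≤ (cl J {(y + (t : ℤ) • ee i0, i0)}).card := by
  let s0 : Fn D := Finsupp.onFinset (inB D n) g fun x hx => by
    by_contra h; exact hx (hg x h)
  have hs0 : (s0 : V D → ℤ) = g := rfl
  obtain ⟨e0, he0, s, h1, h2, h3⟩ := sur_comp hD g hg hJ y J.card J le_rfl
    ⟨Subset.rfl, fun _ _ _ h _ => h⟩ s0 (by rw [hs0]; exact hg)
    (fun e => by
      rw [hs0]
      by_cases a : e ∈ J
      · simp [a]
      · rw [if_neg a]; by_contra h; exact a (hJ e h))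
    (by rw [hs0]; exact hy)
  have hK : ∀ e, grad s e ≠ 0 → e ∈ cl J {e0} ∧ grad g e ≠ 0 := by
    intro e he
    rw [h2] at he
    by_cases a : e ∈ cl J {e0}
    · exact ⟨a, by simpa [a] using he⟩
    · simp [a] at he
  have hex := sur_jump h1 h3 i0
  obtain ⟨ht1, ht2⟩ := hK _ (Nat.find_spec hex)
  set t := Nat.find hex with ht
  refine ⟨t, ht2, ?_⟩
  have hne : ∀ j : ℕ, j ≤ t → s (y + (j : ℤ) • ee i0) ≠ 0 := by
    intro j hj
    rw [sur_const s y i0 j fun j' hj' => by
      by_contra h; exact Nat.find_min hex (by omega : j' < Nat.find hex) h]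
    exact h3
  choose u hu using fun j (hj : j ≤ t) => sur_jump h1 (hne j hj) i1
  have hcard : (range (t + 1)).card ≤ (cl J {e0}).card := by
    refine card_le_card_of_injOn
      (fun j => if hj : j ≤ t then (y + (j : ℤ) • ee i0 + (u j hj : ℤ) • ee i1, i1) else e0)
      (fun j hj => ?_) (fun j hj j' hj' h => ?_)
    · have hj' : j ≤ t := by simpa [Nat.lt_succ_iff] using hj
      simp only [dif_pos hj', mem_coe]
      exact (hK _ (hu j hj')).1
    · have a : j ≤ t := by simpa [Nat.lt_succ_iff] using hj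
      have a' : j' ≤ t := by simpa [Nat.lt_succ_iff] using hj'
      simp only [dif_pos a, dif_pos a', Prod.mk.injEq, and_true] at h
      have := congrFun h i0
      simp only [Pi.add_apply, Pi.smul_apply, ee_self, ee_ne hi, smul_eq_mul, mul_one,
        mul_zero, add_zero] at this
      omega
  have hρ : (y + (t : ℤ) • ee i0, i0) ∈ J := (cl_closed J {e0}).1 ht1
  have he0' : e0 ∈ cl J {(y + (t : ℤ) • ee i0, i0)} := by
    by_contra h
    have := cl_sub ((cl_closed J {e0}).sdiff (cl_closed J {(y + (t : ℤ) • ee i0, i0)}))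
      (R := {e0}) (fun e he _ => by
        rw [mem_singleton.1 he]
        exact mem_sdiff.2 ⟨mem_cl (mem_singleton_self e0) he0, h⟩) ht1
    exact (mem_sdiff.1 this).2 (mem_cl (mem_singleton_self _) hρ)
  have hsub : cl J {e0} ⊆ cl J {(y + (t : ℤ) • ee i0, i0)} :=
    cl_sub (cl_closed _ _) fun e he _ => by rwa [mem_singleton.1 he]
  have := card_le_card hsub
  rw [card_range] at hcard
  omega

/-- The contours that surround a column. -/
theorem surround (hD : 2 ≤ D) {n : ℕ} {U : Conf D} (hU : Cfg n U) (y : V D) :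
    ∃ C, Closed (Jst n U) C ∧ (dif (U y) (flat 0)).card ≤ Wt U C ∧
      Tour l1 y (bases C) (5 * C.card) := by
  let i0 : Fin D := ⟨0, by omega⟩
  let i1 : Fin D := ⟨1, by omega⟩
  have hi : i0 ≠ i1 := by simp [i0, i1, Fin.ext_iff]
  set J := Jst n U with hJ
  let ρ : ℕ → Ed D := fun t => (y + (t : ℤ) • ee i0, i0)
  let R : Finset (Ed D) :=
    ((range (J.card + 1)).filter fun t => t ≤ (cl J {ρ t}).card).image ρ
  refine ⟨cl J R, cl_closed _ _, ?_, ?_⟩
  · refine le_trans (card_le_card ?_) (card_biUnion_le (s := cl J R)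
      (t := fun e => dif (U e.1) (U (tip e))))
    intro k hk
    let g : V D → ℤ := fun x => (if k ∈ (U x).s then 1 else 0) - (if k ≤ 0 then 1 else 0)
    have hg : Supp n g := fun x hx => by simp [g, hU x hx]
    have hdif : ∀ e, grad g e ≠ 0 → k ∈ dif (U e.1) (U (tip e)) := by
      intro e he
      rw [mem_dif]
      intro h
      apply he
      simp only [grad, g, h]
      ring
    have hgJ : ∀ e, grad g e ≠ 0 → e ∈ J := by
      intro e he
      refine hU.mem_Jst.2 (Or.inl fun h => ?_)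
      have := hdif e he
      rw [h, dif_self] at this
      exact notMem_empty _ this
    have hy : g y ≠ 0 := by
      rw [mem_dif, mem_flat] at hk
      simp only [g]
      by_cases a : k ∈ (U y).s <;> by_cases b : k ≤ 0 <;> simp [a, b] at hk ⊢
    obtain ⟨t, h1, h2⟩ := sur_key hD g hg hgJ y hy i0 i1 hi
    refine mem_biUnion.2 ⟨ρ t, mem_cl (mem_image.2 ⟨t, mem_filter.2 ⟨?_, h2⟩, rfl⟩) (hgJ _ h1),
      hdif _ h1⟩
    have := card_le_card (cl_closed J {ρ t}).1
    exact mem_range.2 (by change t ≤ (cl J {ρ t}).card at h2; omega)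
  · obtain ⟨w, h1, h2⟩ := sur_ray_tour i0 (cl J R).card y
    have h0 : Tour l1 y ((range ((cl J R).card + 1)).image fun t : ℕ => y + (t : ℤ) • ee i0)
        (cl J R).card := by
      refine ⟨w, fun p hp => ?_, h2.le⟩
      obtain ⟨t, ht, rfl⟩ := mem_image.1 hp
      exact h1 t (by simpa [Nat.lt_succ_iff] using ht)
    refine (h0.closure (J := J) (R := R) fun e he heJ => ?_).mono subset_union_right
      (by linarith)
    obtain ⟨t, ht, rfl⟩ := mem_image.1 he
    refine mem_image.2 ⟨t, mem_range.2 ?_, rfl⟩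
    have h3 := (mem_filter.1 ht).2
    have h4 : cl J {ρ t} ⊆ cl J R :=
      cl_sub (cl_closed _ _) fun e he' _ => by rw [mem_singleton.1 he']; exact mem_cl he heJ
    have := card_le_card h4
    omega

end Pool.Agent.P.MP_67bca4_pr
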