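import Pool.Agent.P.MP_67bca4_pr.MinEx
import Pool.Agent.P.MP_67bca4_pr.BigJ
import Pool.Agent.P.MP_67bca4_pr.LemA
import Pool.Agent.P.MP_67bca4_pr.TourL
import Pool.Agent.P.MP_67bca4_pr.Sur
import Pool.Agent.P.MP_67bca4_pr.Exc

namespace Pool.Agent.P.MP_67bca4_pr

open Finset
open scoped Classical

variable {D : ℕ}

variable {n : ℕ} {a b : ℝ} {ξ : Dis D} {U : Conf D}

/-- A closed set of contours with a short tour gives an admissible profitable shift. -/
theorem det_core (hD : 100 ≤ D) (ha : 0 < a) (hab : a ≤ b) (hb : 2 * b < a * D) (h : TwoV a b ξ)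
    (hU : IsMin n ξ U) {y : V D} {C : Finset (Ed D)} (hC : Closed (Jst n U) C)
    (h1 : 1 ≤ Wt U C) (hT : Tour l1 y (bases C) (5 * C.card)) :
    ∃ s : Fn D, D ^ 3 ≤ Xs n U C ∧ Adm n y s (2 * Xs n U C) ∧
      GE n (shift s ξ) + a * Xs n U C ≤ GE n ξ := by
  have hbig : Big (JU n U) := big_of_isMin hD ha hb (fun x o k => h.le hab x o k) hU
  obtain ⟨t, U', c1, c2, c3, c4, c5, -⟩ := lemA (n := n) (by omega) ha.le
    (fun x o k => (h.le hab x o k).1) hU.1 hC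
  refine ⟨t, (hbig.le_Wt hC h1).trans Wt_le_Xs, ⟨c2, c4, JU n U ∩ C, c3,
    sqCl_JU_inter hU.1 hC, hbig.JU_inter hC, ?_, ?_⟩, ?_⟩
  · have := (card_JU_inter_le (n := n) (U := U) (C := C)).trans (Wt_le_Xs (n := n))
    omega
  · refine hT.mono (image_subset_image inter_subset_right) ?_
    have h2 : (C.card : ℝ) ≤ 2 * D * Xs n U C := by
      exact_mod_cast card_le_Xs (by omega) hC.1
    have h3 : (0 : ℝ) ≤ D * Xs n U C := by positivity
    push_cast
    nlinarith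
  · have h2 : GE n (shift t ξ) ≤ En n (shift t ξ) U' :=
      GEc_le (fun x o k => ha.le.trans ((h.shift t).le hab x o k).1) c1
    have h3 : GE n ξ = En n ξ U := IsMinC.GEc_eq hU
    linarith

/-- A non-flat column of a minimiser gives a profitable shift rooted there. -/
theorem det_flat (hD : 100 ≤ D) (ha : 0 < a) (hab : a ≤ b) (hb : 2 * b < a * D) (h : TwoV a b ξ)
    (hU : IsMin n ξ U) {y : V D} (hy : U y ≠ flat 0) :
    ∃ (s : Fn D) (X : ℕ), D ^ 3 ≤ X ∧ (dif (U y) (flat 0)).card ≤ X ∧ Adm n y s (2 * X) ∧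
      GE n (shift s ξ) + a * X ≤ GE n ξ := by
  obtain ⟨C, hC, h1, h2⟩ := surround (n := n) (by omega) hU.1 y
  have h3 : 1 ≤ (dif (U y) (flat 0)).card :=
    card_pos.2 (nonempty_iff_ne_empty.2 fun h => hy (dif_eq_empty.1 h))
  obtain ⟨s, d1, d2, d3⟩ := det_core hD ha hab hb h hU hC (h3.trans h1) h2
  exact ⟨s, _, d1, h1.trans Wt_le_Xs, d2, d3⟩

/-- A high excursion of a minimiser gives a large profitable shift. -/
theorem det_win (hD : 100 ≤ D) (ha : 0 < a) (hab : a ≤ b) (hb : 2 * b < a * D) (h : TwoV a b ξ)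
    (hU : IsMin n ξ U) {h₀ : ℕ} (h1 : 1 ≤ h₀) (hW : ¬Win (-(2 * h₀ : ℤ)) (2 * h₀) U) :
    ∃ y ∈ inB D n, ∃ (s : Fn D) (X : ℕ), D ^ 3 ≤ X ∧ h₀ ≤ X ∧ Adm n y s (2 * X) ∧
      GE n (shift s ξ) + a * X ≤ GE n ξ := by
  rcases excursion (n := n) (by omega) (fun x o k => ha.trans_le (h.le hab x o k).1) hU h1 hW with
    ⟨y, hy, h2⟩ | ⟨y, hy, h2⟩
  · have h3 : U y ≠ flat 0 := by
      intro h3; rw [h3] at h2; simp at h2; omega
    obtain ⟨s, X, d1, d2, d3, d4⟩ := det_flat hD ha hab hb h hU h3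
    exact ⟨y, hy, s, X, d1, h2.trans d2, d3, d4⟩
  · have t0 : Tour l1 y {y} 0 := ⟨[], by simp, le_rfl⟩
    have t1 := t0.closure (J := Jst n U) (R := (Jst n U).filter fun e => e.1 = y)
      (fun e he _ => mem_singleton.2 (mem_filter.1 he).2)
    obtain ⟨s, d1, d2, d3⟩ := det_core (y := y) hD ha hab hb h hU (cl_closed _ _) (h1.trans h2)
      (t1.mono subset_union_right (by
        have : (0 : ℝ) ≤ (cl (Jst n U) ((Jst n U).filter fun e => e.1 = y)).card := by positivity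
        linarith))
    exact ⟨y, hy, s, _, d1, h2.trans Wt_le_Xs, d2, d3⟩

/-- The deterministic window. -/
theorem win_of_isMin (hD : 100 ≤ D) (ha : 0 < a) (hab : a ≤ b) (hb : 2 * b < a * D)
    (h : TwoV a b ξ) (hU : IsMin n ξ U) {R : ℕ} (hR : b * ((n : ℝ) + 1) ^ D < a * R) :
    Win (-(2 * R : ℤ)) (2 * R) U := by
  by_contra hW
  have hb0 : 0 ≤ b * ((n : ℝ) + 1) ^ D := mul_nonneg (ha.le.trans hab) (by positivity)
  have hR1 : 1 ≤ R := by
    rcases Nat.eq_zero_or_pos R with rfl | h0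
    · simp at hR; linarith
    · exact h0
  obtain ⟨y, -, s, X, -, d2, -, d4⟩ := det_win hD ha hab hb h hU hR1 hW
  have h2 : 0 ≤ GE n (shift s ξ) :=
    GEc_nonneg fun x o k => ha.le.trans ((h.shift s).le hab x o k).1
  have h3 : GE n ξ ≤ b * ((n : ℝ) + 1) ^ D :=
    GE_le_flat (fun x o k => ha.le.trans (h.le hab x o k).1) fun x o k => (h.le hab x o k).2
  have h4 : a * (R : ℝ) ≤ a * X := by gcongr
  linarith

end Pool.Agent.P.MP_67bca4_pr
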