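import Mathlib

/-!
The objects in the statement: lattice, capacities, cylinder, anchored minimal cut.
-/

namespace Pool.Agent.P.MP_67bca4_pr

open MeasureTheory ProbabilityTheory
open scoped Classical

/-- The nearest-neighbour graph on the integer lattice. -/
def lattice (d : ℕ) : SimpleGraph (Fin d → ℤ) where
  Adj x y := ∑ i, |x i - y i| = 1
  symm := ⟨fun x y h => by simpa only [abs_sub_comm] using h⟩
  loopless := ⟨fun x h => by simp at h⟩

/-- The law of the set of lattice edges with the large capacity: each edge belongs to it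
independently with probability `p`. -/
noncomputable def law (d : ℕ) (p : unitInterval) : Measure (Set (Sym2 (Fin d → ℤ))) :=
  setBernoulli (lattice d).edgeSet p

/-- The lattice points of the cylinder `[0, n]^D × [0, H]`; the last coordinate is the height. -/
def cyl (D n H : ℕ) : Set (Fin (D + 1) → ℤ) :=
  {z | (∀ i : Fin D, 0 ≤ z i.castSucc ∧ z i.castSucc ≤ n) ∧
    0 ≤ z (Fin.last D) ∧ z (Fin.last D) ≤ H}

/-- The lattice points on the boundary of the cylinder. -/
def cylBd (D n H : ℕ) : Set (Fin (D + 1) → ℤ) :=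
  {z | z ∈ cyl D n H ∧ ((∃ i : Fin D, z i.castSucc = 0 ∨ z i.castSucc = n) ∨
    z (Fin.last D) = 0 ∨ z (Fin.last D) = H)}

/-- Every lattice path inside the cylinder from the lower half of its boundary (height below
`H / 2`) to the upper half (height above `H / 2`) uses an edge of `E`. -/
def Separates (D n H : ℕ) (E : Finset (Sym2 (Fin (D + 1) → ℤ))) : Prop :=
  ∀ x ∈ cylBd D n H, ∀ y ∈ cylBd D n H, 2 * x (Fin.last D) < H → (H : ℤ) < 2 * y (Fin.last D) →
    ∀ w : (lattice (D + 1)).Walk x y, w.IsPath → (∀ z ∈ w.support, z ∈ cyl D n H) →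
      ∃ e ∈ w.edges, e ∈ E

/-- The anchored maximal flow: the least capacity of a separating finite set of lattice edges,
where the edges in `ω` have capacity `b` and the others capacity `a`. -/
noncomputable def tau (D n H : ℕ) (a b : ℝ) (ω : Set (Sym2 (Fin (D + 1) → ℤ))) : ℝ :=
  sInf {T | ∃ E : Finset (Sym2 (Fin (D + 1) → ℤ)), (∀ e ∈ E, e ∈ (lattice (D + 1)).edgeSet) ∧
    Separates D n H E ∧ T = ∑ e ∈ E, if e ∈ ω then b else a}

end Pool.Agent.P.MP_67bca4_pr
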