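import Pool.Agent.P.MP_67bca4_pr.Defs
import Pool.Agent.P.MP_67bca4_pr.Stmt

namespace Pool.Agent.P.MP_67bca4_pr

open Finset
open scoped Classical

variable {D : ℕ}

/-- The lattice point with base `x` and height `k`. -/
def pt (x : V D) (k : ℤ) : Fin (D + 1) → ℤ := Fin.snoc (α := fun _ => ℤ) x k

/-- The lattice edge with base `x`, direction `o` and height `k`. -/
def edg (x : V D) (o : Option (Fin D)) (k : ℤ) : Sym2 (Fin (D + 1) → ℤ) :=
  match o with
  | none => s(pt x k, pt x (k + 1))
  | some i => s(pt x k, pt (x + ee i) k)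

/-- The edge that carries an index. -/
def emb {n N : ℕ} (i : Ix D n N) : Sym2 (Fin (D + 1) → ℤ) := edg i.1.1 i.2.1 (i.2.2.val : ℤ)

@[simp] theorem pt_last (x : V D) (k : ℤ) : pt x k (Fin.last D) = k := by simp [pt]
@[simp] theorem pt_castSucc (x : V D) (k : ℤ) (i : Fin D) : pt x k i.castSucc = x i := by
  simp [pt]

theorem pt_eta (z : Fin (D + 1) → ℤ) : pt (fun i => z i.castSucc) (z (Fin.last D)) = z := by
  funext i
  refine Fin.lastCases ?_ (fun j => ?_) i
  · simp
  · simp

theorem pt_inj {x y : V D} {k l : ℤ} : pt x k = pt y l ↔ x = y ∧ k = l := by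
  constructor
  · intro h
    refine ⟨funext fun i => ?_, ?_⟩
    · simpa using congrFun h i.castSucc
    · simpa using congrFun h (Fin.last D)
  · rintro ⟨rfl, rfl⟩; rfl

theorem emb_pt_last (x : V D) (k : ℤ) : pt x k + ee (Fin.last D) = pt x (k + 1) := by
  funext i
  refine Fin.lastCases ?_ (fun j => ?_) i
  · simp
  · simp [ee_ne (Fin.castSucc_ne_last j)]

theorem emb_pt_cast (x : V D) (k : ℤ) (i : Fin D) :
    pt x k + ee i.castSucc = pt (x + ee i) k := by
  funext j
  refine Fin.lastCases ?_ (fun j => ?_) j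
  · simp [ee_ne (Fin.castSucc_ne_last i).symm]
  · simp [ee_apply]

theorem emb_lattice_adj {d : ℕ} {x y : V d} :
    (lattice d).Adj x y ↔ ∃ i, y = x + ee i ∨ x = y + ee i := by
  have key : ∀ (x : V d) (i : Fin d), ∑ j, |x j - (x + ee i) j| = 1 := by
    intro x i
    rw [Finset.sum_eq_single i]
    · simp
    · intro j _ hj; simp [ee_ne hj]
    · simp
  constructor
  · intro h
    change ∑ i, |x i - y i| = 1 at h
    obtain ⟨i, hi⟩ : ∃ i, x i ≠ y i := by
      by_contra hcon
      push Not at hcon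
      simp [hcon] at h
    rw [← Finset.add_sum_erase _ _ (Finset.mem_univ i)] at h
    have h1 : 0 ≤ ∑ j ∈ Finset.univ.erase i, |x j - y j| :=
      Finset.sum_nonneg fun j _ => abs_nonneg _
    have h2 : 0 < |x i - y i| := abs_pos.2 (sub_ne_zero.2 hi)
    have h3 : ∑ j ∈ Finset.univ.erase i, |x j - y j| = 0 := by omega
    have h4 : |x i - y i| = 1 := by omega
    have h5 : ∀ j, j ≠ i → x j = y j := by
      intro j hj
      have := (Finset.sum_eq_zero_iff_of_nonneg fun j _ => abs_nonneg _).1 h3 j (by simp [hj])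
      exact sub_eq_zero.1 (abs_eq_zero.1 this)
    refine ⟨i, ?_⟩
    rcases abs_eq (by norm_num : (0 : ℤ) ≤ 1) |>.1 h4 with h6 | h6
    · right
      funext j
      by_cases hj : j = i
      · subst hj; simp; omega
      · simp [ee_ne hj, h5 j hj]
    · left
      funext j
      by_cases hj : j = i
      · subst hj; simp; omega
      · simp [ee_ne hj, h5 j hj]
  · rintro ⟨i, rfl | rfl⟩
    · exact key x i
    · exact ((lattice d).adj_comm _ _).1 (key y i)

theorem emb_step (z : Fin (D + 1) → ℤ) (i : Fin (D + 1)) :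
    ∃ x o k, s(z, z + ee i) = edg x o k := by
  rw [← pt_eta z]
  refine Fin.lastCases ?_ (fun j => ?_) i
  · exact ⟨_, none, _, by rw [emb_pt_last]; rfl⟩
  · exact ⟨_, some j, _, by rw [emb_pt_cast]; rfl⟩

theorem edg_mem (x : V D) (o : Option (Fin D)) (k : ℤ) :
    edg x o k ∈ (lattice (D + 1)).edgeSet := by
  cases o with
  | none =>
    exact (SimpleGraph.mem_edgeSet _).2
      (emb_lattice_adj.2 ⟨Fin.last D, Or.inl (emb_pt_last x k).symm⟩)
  | some i =>
    exact (SimpleGraph.mem_edgeSet _).2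
      (emb_lattice_adj.2 ⟨i.castSucc, Or.inl (emb_pt_cast x k i).symm⟩)

theorem adj_iff {z z' : Fin (D + 1) → ℤ} :
    (lattice (D + 1)).Adj z z' ↔ ∃ x o k, s(z, z') = edg x o k := by
  constructor
  · intro h
    obtain ⟨i, rfl | rfl⟩ := emb_lattice_adj.1 h
    · exact emb_step z i
    · rw [Sym2.eq_swap]; exact emb_step z' i
  · rintro ⟨x, o, k, h⟩
    have := edg_mem x o k
    rw [← h] at this
    exact (SimpleGraph.mem_edgeSet _).1 this

theorem edg_inj {x y : V D} {o o' : Option (Fin D)} {k l : ℤ} (h : edg x o k = edg y o' l) :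
    x = y ∧ o = o' ∧ k = l := by
  have hne : ∀ (x : V D) (i : Fin D), x + ee i ≠ x := by
    intro x i h
    have := congrFun h i
    simp at this
  cases o with
  | none =>
    cases o' with
    | none =>
      simp only [edg, Sym2.eq_iff, pt_inj] at h
      rcases h with ⟨⟨h1, h2⟩, -⟩ | ⟨⟨-, h2⟩, -, h4⟩
      · exact ⟨h1, rfl, h2⟩
      · omega
    | some j =>
      simp only [edg, Sym2.eq_iff, pt_inj] at h
      rcases h with ⟨⟨-, h2⟩, -, h4⟩ | ⟨⟨-, h2⟩, -, h4⟩ <;> omega
  | some i =>
    cases o' with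
    | none =>
      simp only [edg, Sym2.eq_iff, pt_inj] at h
      rcases h with ⟨⟨-, h2⟩, -, h4⟩ | ⟨⟨-, h2⟩, -, h4⟩ <;> omega
    | some j =>
      simp only [edg, Sym2.eq_iff, pt_inj] at h
      rcases h with ⟨⟨h1, h2⟩, h3, -⟩ | ⟨⟨h1, -⟩, h3, -⟩
      · subst h1
        refine ⟨rfl, ?_, h2⟩
        have e := congrFun (add_left_cancel h3) i
        rw [ee_self, ee_apply] at e
        split_ifs at e with hij
        · rw [hij]
        · omega
      · have e1 := congrFun h1 i
        have e2 := congrFun h3 i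
        simp only [Pi.add_apply, ee_self] at e1 e2
        rw [ee_apply] at e1
        split_ifs at e1 <;> omega

theorem emb_inj {n N : ℕ} [NeZero N] : Function.Injective (emb (D := D) (n := n) (N := N)) := by
  rintro ⟨x, o, k⟩ ⟨y, o', l⟩ h
  obtain ⟨h1, h2, h3⟩ := edg_inj h
  simp only at h1 h2 h3
  have h4 : k = l := ZMod.val_injective N (by exact_mod_cast h3)
  rw [Subtype.ext h1, h2, h4]

end Pool.Agent.P.MP_67bca4_pr
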