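import Pool.Agent.P.MP_67bca4_pr.Star

namespace Pool.Agent.P.MP_67bca4_pr

open Finset
open scoped Classical

variable {D : ℕ}

private lemma lemB_card (c g : ℤ) : (dif (flat c) (flat (c - g))).card ≤ g.natAbs := by
  have hs : dif (flat c) (flat (c - g)) ⊆ Finset.Ioc (min c (c - g)) (max c (c - g)) := by
    intro k hk
    simp only [mem_dif, mem_flat] at hk
    simp only [mem_Ioc]
    omega
  refine (card_le_card hs).trans ?_
  rw [Int.card_Ioc]
  omega

private lemma lemB_edge {b : ℝ} {w : ℤ → ℝ} (h : ∀ k, 0 ≤ w k ∧ w k ≤ b) (S T : Col) (g : ℤ)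
    (hg : g ≠ 0 → ¬Ovh T) :
    ∑ k ∈ dif S (sh g T), w k ≤ ∑ k ∈ dif S T, w k + b * (g.natAbs : ℝ) := by
  have hb : 0 ≤ b := (h 0).1.trans (h 0).2
  by_cases h0 : g = 0
  · subst h0; simp
  have h1 := hg h0
  simp only [Ovh, not_forall, not_not] at h1
  obtain ⟨q, rfl⟩ := h1
  rw [sh_flat]
  have hs : dif S (flat (q - g)) ⊆ dif S (flat q) ∪ dif (flat q) (flat (q - g)) := by
    intro k hk
    simp only [mem_union, mem_dif] at hk ⊢
    tauto
  have h2 : ∑ k ∈ dif (flat q) (flat (q - g)), w k ≤ b * (g.natAbs : ℝ) := by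
    calc ∑ k ∈ dif (flat q) (flat (q - g)), w k
        ≤ (dif (flat q) (flat (q - g))).card • b := sum_le_card_nsmul _ _ _ fun k _ => (h k).2
      _ = b * ((dif (flat q) (flat (q - g))).card : ℝ) := by rw [nsmul_eq_mul, mul_comm]
      _ ≤ b * (g.natAbs : ℝ) := by
        gcongr
        exact_mod_cast lemB_card q g
  calc ∑ k ∈ dif S (flat (q - g)), w k
      ≤ ∑ k ∈ dif S (flat q) ∪ dif (flat q) (flat (q - g)), w k :=
        sum_le_sum_of_subset_of_nonneg hs fun k _ _ => (h k).1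
    _ ≤ ∑ k ∈ dif S (flat q), w k + ∑ k ∈ dif (flat q) (flat (q - g)), w k := by
        rw [← sum_union_inter]
        exact le_add_of_nonneg_right (sum_nonneg fun k _ => (h k).1)
    _ ≤ _ := by linarith

/-- The cost of a shift whose jumps end at interval columns. -/
theorem lemB {n : ℕ} {b : ℝ} {ξ : Dis D} (h : ∀ x o k, 0 ≤ ξ x o k ∧ ξ x o k ≤ b)
    {U : Conf D} (hU : Cfg n U) {t : Fn D} (ht : Supp n t)
    (hj : ∀ e ∈ jumps t, ¬Ovh (U (tip e))) :
    ∃ U' : Conf D, Cfg n U' ∧ En n (shift t ξ) U' ≤ En n ξ U + b * TV t := by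
  have hb : 0 ≤ b := (h 0 none 0).1.trans (h 0 none 0).2
  refine ⟨fun x => sh (t x) (U x), fun x hx => by simp only [ht x hx, hU x hx, sh_zero], ?_⟩
  have hv : ∀ x, ∑ k ∈ bd (sh (t x) (U x)), shift t ξ x none k = ∑ k ∈ bd (U x), ξ x none k :=
    fun x => sum_bd_sh (ξ x none) (t x) (U x)
  have he : ∀ e : Ed D, ∑ k ∈ dif (sh (t e.1) (U e.1)) (sh (t (tip e)) (U (tip e))),
      shift t ξ e.1 (some e.2) k ≤ ∑ k ∈ dif (U e.1) (U (tip e)), ξ e.1 (some e.2) k +
        b * ((grad t e).natAbs : ℝ) := by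
    intro e
    have h1 : sh (t (tip e)) (U (tip e)) = sh (t e.1) (sh (grad t e) (U (tip e))) := by
      rw [sh_sh]; congr 1; simp [grad]
    rw [h1]
    refine (sum_dif_sh (ξ e.1 (some e.2)) (t e.1) _ _).le.trans ?_
    exact lemB_edge (h e.1 (some e.2)) _ _ _ fun h0 => hj e (mem_jumps.2 h0)
  have hT : ∑ e ∈ edB D n, ((grad t e).natAbs : ℝ) ≤ (TV t : ℝ) := by
    rw [TV_eq_sum (subset_union_left (s₂ := edB D n))]
    push_cast
    exact sum_le_sum_of_subset_of_nonneg subset_union_right fun e _ _ => by positivity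
  unfold En
  simp only [hv]
  have h3 := sum_le_sum fun e (_ : e ∈ edB D n) => he e
  rw [sum_add_distrib, ← mul_sum] at h3
  have h4 := mul_le_mul_of_nonneg_left hT hb
  linarith

end Pool.Agent.P.MP_67bca4_pr
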