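import Pool.Agent.P.MP_67bca4_pr.Defs

namespace Pool.Agent.P.MP_67bca4_pr

open Finset
open scoped Classical

variable {D : ℕ}

/-- The heights of the cut edges of kind `o` based on the column `x`. -/
noncomputable def linK (n : ℕ) (U : Conf D) (x : V D) : Option (Fin D) → Finset ℤ
  | none => bd (U x)
  | some j => if tip (x, j) ∈ hatB D n then dif (U x) (U (tip (x, j))) else ∅

lemma linK_bound {n : ℕ} {α β : ℤ} {U : Conf D} (hU : Win α β U) {x : V D} {o : Option (Fin D)}
    {k : ℤ} (hk : k ∈ linK n U x o) : α ≤ k ∧ k ≤ β := by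
  cases o with
  | none =>
    simp only [linK, mem_bd] at hk
    have h1 := (hU x).1 k; have h2 := (hU x).1 (k + 1)
    have h3 := (hU x).2 k; have h4 := (hU x).2 (k + 1)
    constructor
    · by_contra h; exact hk ⟨fun _ => h2 (by omega), fun _ => h1 (by omega)⟩
    · by_contra h
      exact hk ⟨fun h' => absurd (h3 h') h, fun h' => absurd (h4 h') (by omega)⟩
  | some j =>
    simp only [linK] at hk
    split_ifs at hk with ht
    · rw [mem_dif] at hk
      have h1 := (hU x).1 k; have h2 := (hU (tip (x, j))).1 k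
      have h3 := (hU x).2 k; have h4 := (hU (tip (x, j))).2 k
      constructor
      · by_contra h; exact hk ⟨fun _ => h2 (by omega), fun _ => h1 (by omega)⟩
      · by_contra h
        exact hk ⟨fun h' => absurd (h3 h') h, fun h' => absurd (h4 h') h⟩
    · exact absurd hk (notMem_empty _)

/-- The indices of the cut edges. -/
noncomputable def linS (n N : ℕ) [NeZero N] (U : Conf D) : Finset (Ix D n N) :=
  univ.filter fun i => i.2.2 ∈ (linK n U i.1.1 i.2.1).image fun k : ℤ => (k : ZMod N)

lemma sum_linS {M : Type} [AddCommMonoid M] {n N : ℕ} [NeZero N] {α β : ℤ} (hN : β - α < N)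
    {U : Conf D} (hU : Win α β U) (f : Ix D n N → M) :
    ∑ i ∈ linS n N U, f i = ∑ x : {x : V D // x ∈ hatB D n}, ∑ o : Option (Fin D),
      ∑ k ∈ linK n U x.1 o, f (x, o, (k : ZMod N)) := by
  rw [linS, sum_filter, Fintype.sum_prod_type]
  refine sum_congr rfl fun x _ => ?_
  rw [Fintype.sum_prod_type]
  refine sum_congr rfl fun o _ => ?_
  rw [← sum_filter]
  have : (univ.filter fun z : ZMod N => z ∈ (linK n U x.1 o).image fun k : ℤ => (k : ZMod N)) =
      (linK n U x.1 o).image fun k : ℤ => (k : ZMod N) := by ext z; simp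
  simp only
  rw [this, sum_image]
  intro k hk l hl hkl
  have h1 := linK_bound hU (mem_coe.1 hk)
  have h2 := linK_bound hU (mem_coe.1 hl)
  have h3 : (N : ℤ) ∣ l - k := (ZMod.intCast_eq_intCast_iff_dvd_sub k l N).1 hkl
  have h4 := Int.eq_zero_of_abs_lt_dvd h3 (by rw [abs_lt]; constructor <;> omega)
  omega

lemma sum_linK {M : Type} [AddCommMonoid M] (n : ℕ) (U : Conf D)
    (g : V D → Option (Fin D) → ℤ → M) :
    ∑ x ∈ hatB D n, ∑ o : Option (Fin D), ∑ k ∈ linK n U x o, g x o k =
      ∑ x ∈ hatB D n, ∑ k ∈ bd (U x), g x none k +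
        ∑ e ∈ edB D n, ∑ k ∈ dif (U e.1) (U (tip e)), g e.1 (some e.2) k := by
  rw [edB, sum_filter, sum_product, ← sum_add_distrib]
  refine sum_congr rfl fun x _ => ?_
  rw [Fintype.sum_option]
  congr 1
  refine sum_congr rfl fun j _ => ?_
  simp only [linK]
  split_ifs <;> simp

/-- In a window shorter than the period the energy is a sum over distinct indices. -/
theorem en_linear {n N : ℕ} [NeZero N] {α β : ℤ} (hN : β - α < N) {U : Conf D} (hU : Win α β U) :
    ∃ S : Finset (Ix D n N),
      (∀ (a b : ℝ) (ω : Ix D n N → Bool),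
        En n (dis a b ω) U = ∑ i ∈ S, if ω i then b else a) ∧
      (∀ Y : Finset (V D), (S.filter fun i => i.1.1 ∈ Y).card ≤ Lay n U Y) ∧
      ∀ (x : V D) (hx : x ∈ hatB D n) (k : ℤ), k ∈ bd (U x) → (⟨x, hx⟩, none, (k : ZMod N)) ∈ S := by
  refine ⟨linS n N U, fun a b ω => ?_, fun Y => ?_, fun x hx k hk => ?_⟩
  · rw [sum_linS hN hU, En, ← sum_linK n U (dis a b ω), ← sum_coe_sort (hatB D n)]
    refine sum_congr rfl fun x _ => sum_congr rfl fun o _ => sum_congr rfl fun k _ => ?_
    simp [dis, x.2]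
  · rw [card_filter, sum_linS hN hU]
    have h := sum_linK n U (fun x _ _ => if x ∈ Y then 1 else 0 : V D → Option (Fin D) → ℤ → ℕ)
    rw [← sum_coe_sort (hatB D n)] at h
    simp only at h ⊢
    rw [h, Lay, Wt, sum_filter]
    refine add_le_add ?_ (le_of_eq (sum_congr rfl fun e _ => ?_))
    · calc ∑ x ∈ hatB D n, ∑ _k ∈ bd (U x), (if x ∈ Y then 1 else 0)
          = ∑ x ∈ (hatB D n).filter (· ∈ Y), (bd (U x)).card := by
            rw [sum_filter]
            exact sum_congr rfl fun x _ => by split_ifs <;> simp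
        _ ≤ _ := sum_le_sum_of_subset fun x hx => (mem_filter.1 hx).2
    · split_ifs <;> simp
  · exact mem_filter.2 ⟨mem_univ _, mem_image.2 ⟨k, hk, rfl⟩⟩

end Pool.Agent.P.MP_67bca4_pr
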