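import Pool.Agent.P.MP_67bca4_pr.ProbL

namespace Pool.Agent.P.MP_67bca4_pr

open Finset
open scoped Classical

variable {D : ℕ}

open MeasureTheory ProbabilityTheory in
lemma transfer_indep {α : Type} (S : Set α) (p : unitInterval) :
    iIndepFun (fun (e : α) (ω : Set α) => e ∈ ω) (setBernoulli S p) := by
  have h1 := iIndepFun_infinitePi (P := fun e : α =>
    unitInterval.toNNReal p • Measure.dirac (e ∈ S) +
      unitInterval.toNNReal (unitInterval.symm p) • Measure.dirac False)
    (X := fun _ P => P) (fun _ => measurable_id)
  rw [iIndepFun_iff_measure_inter_preimage_eq_mul] at h1 ⊢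
  intro T sets H
  simp only [setBernoulli_apply', Set.preimage_iInter]
  exact h1 T H

open MeasureTheory ProbabilityTheory in
lemma transfer_mem {α : Type} (S : Set α) (p : unitInterval) {e : α} (he : e ∈ S) :
    (setBernoulli S p).real {ω | e ∈ ω} = p := by
  have : setBernoulli S p {ω | e ∈ ω} = unitInterval.toNNReal p := by
    calc setBernoulli S p {ω | e ∈ ω} = Measure.infinitePi (fun e : α =>
          unitInterval.toNNReal p • Measure.dirac (e ∈ S) +
            unitInterval.toNNReal (unitInterval.symm p) • Measure.dirac False)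
          (cylinder {e} {fun _ => True}) := by
          rw [setBernoulli_apply']; congr!; ext; simp [funext_iff]
      _ = _ := by simp [Measure.infinitePi_cylinder, he]
  rw [measureReal_def, this]; rfl

open MeasureTheory ProbabilityTheory in
lemma transfer_meas {α : Type} {I : Type} (ι : I → α) :
    Measurable (fun (ω : Set α) (i : I) => decide (ι i ∈ ω)) := by
  refine measurable_pi_lambda _ fun i => ?_
  have h : Measurable (fun ω : Set α => ι i ∈ ω) := by fun_prop
  exact (Measurable.of_discrete (f := fun P : Prop => decide P)).comp h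

open MeasureTheory ProbabilityTheory in
lemma transfer_mass {α : Type} (S : Set α) (p : unitInterval) {I : Type}
    [Fintype I] [DecidableEq I] (ι : I → α) (hι : Function.Injective ι) (hS : ∀ i, ι i ∈ S)
    (η : I → Bool) :
    ((setBernoulli S p).map (fun (ω : Set α) (i : I) => decide (ι i ∈ ω))).real {η} =
      wt (p : ℝ) η := by
  have h0 : iIndepFun (fun (i : I) (ω : Set α) => ι i ∈ ω) (setBernoulli S p) :=
    (transfer_indep S p).precomp (g := ι) hι
  rw [iIndepFun_iff_measure_inter_preimage_eq_mul] at h0
  have h1 := h0 univ (sets := fun i => {P : Prop | decide P = η i})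
    (fun i _ => MeasurableSet.of_discrete)
  have e : (fun (ω : Set α) (i : I) => decide (ι i ∈ ω)) ⁻¹' {η} =
      ⋂ i ∈ (univ : Finset I), (fun ω : Set α => ι i ∈ ω) ⁻¹' {P : Prop | decide P = η i} := by
    ext ω
    simp [funext_iff]
  rw [measureReal_def, Measure.map_apply (transfer_meas ι) (MeasurableSet.singleton η), e, h1,
    ENNReal.toReal_prod, wt]
  refine prod_congr rfl fun i _ => ?_
  have hm : MeasurableSet {ω : Set α | ι i ∈ ω} := by
    have h : Measurable (fun ω : Set α => ι i ∈ ω) := by fun_prop
    exact measurableSet_setOfPred.2 h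
  cases hη : η i with
  | true =>
    have : (fun ω : Set α => ι i ∈ ω) ⁻¹' {P : Prop | decide P = true} = {ω | ι i ∈ ω} := by
      ext ω; simp
    rw [this, ← measureReal_def, transfer_mem S p (hS i)]
    simp
  | false =>
    have : (fun ω : Set α => ι i ∈ ω) ⁻¹' {P : Prop | decide P = false} = {ω | ι i ∈ ω}ᶜ := by
      ext ω; simp
    rw [this, ← measureReal_def, probReal_compl_eq_one_sub hm, transfer_mem S p (hS i)]
    simp

open MeasureTheory ProbabilityTheory in
/-- The variance of a function of finitely many memberships under the Bernoulli set law. -/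
theorem var_transfer {α : Type} [Countable α] (S : Set α) (p : unitInterval) {I : Type}
    [Fintype I] [DecidableEq I] (ι : I → α) (hι : Function.Injective ι) (hS : ∀ i, ι i ∈ S)
    (g : (I → Bool) → ℝ) :
    Var[fun ω : Set α => g fun i => decide (ι i ∈ ω); setBernoulli S p] = Vr (p : ℝ) g := by
  set φ : Set α → I → Bool := fun ω i => decide (ι i ∈ ω) with hφ
  have hm : Measurable φ := transfer_meas ι
  have : IsProbabilityMeasure ((setBernoulli S p).map φ) :=
    Measure.isProbabilityMeasure_map hm.aemeasurable
  have hint : ∀ f : (I → Bool) → ℝ, ∫ η, f η ∂((setBernoulli S p).map φ) = Ex (p : ℝ) f := by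
    intro f
    rw [integral_fintype (Integrable.of_finite), Ex]
    refine sum_congr rfl fun η _ => ?_
    rw [transfer_mass S p ι hι hS η, smul_eq_mul]
  have h1 : Var[g; (setBernoulli S p).map φ] = Var[g ∘ φ; setBernoulli S p] :=
    variance_map (Measurable.of_discrete).aemeasurable hm.aemeasurable
  change Var[g ∘ φ; setBernoulli S p] = _
  rw [← h1, variance_eq_integral (Measurable.of_discrete).aemeasurable, hint, hint, Vr]

end Pool.Agent.P.MP_67bca4_pr
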