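import Pool.Agent.P.MP_67bca4_pr.Fin
import Pool.Agent.P.MP_67bca4_pr.Cut
import Pool.Agent.P.MP_67bca4_pr.Transfer

/-!
The anchored flow is not superconcentrated in high dimension, for every ratio of the capacities.
-/

namespace Pool.Agent.Results.MP_67bca4_pr.Localised

open MeasureTheory ProbabilityTheory Pool.Agent.P.MP_67bca4_pr

theorem result (ρ : ℝ) : ∃ D₀ : ℕ, ∀ D ≥ D₀, ∃ C : ℝ, ∀ a b : ℝ, 0 < a → a < b → b ≤ ρ * a →
    ∀ p : unitInterval, 0 < p → p < 1 → ∃ c : ℝ, 0 < c ∧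
      ∀ n H : ℕ, 2 ≤ n → C * Real.log n ^ 2 ≤ H →
        c * (n : ℝ) ^ D ≤ Var[tau D n H a b; law (D + 1) p] := by
  obtain ⟨D₀, h⟩ := fin_var (ρ := max ρ 1) (le_max_right _ _)
  refine ⟨D₀, fun D hD => ?_⟩
  obtain ⟨C, h⟩ := h D hD
  refine ⟨C, fun a b ha hab hb p hp0 hp1 => ?_⟩
  have p0 : (0 : ℝ) < p := hp0
  have p1 : (p : ℝ) < 1 := hp1
  have hba : 0 < b - a := sub_pos.2 hab
  have h1p : (0 : ℝ) < 1 - p := sub_pos.2 p1
  refine ⟨p * (1 - p) * (p * (b - a) / 4) ^ 2 / 2 ^ D, by positivity, fun n H hn hH => ?_⟩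
  obtain ⟨hH1, N₀, h⟩ := h a b ha hab
    (hb.trans (mul_le_mul_of_nonneg_right (le_max_left _ _) ha.le)) p p0.le p1.le n H hn hH
  have : NeZero (N₀ + H + 1) := ⟨by omega⟩
  have h2 := h (N₀ + H + 1) (by omega)
  have h3 : tau D n H a b = fun ω => (fun η : Ix D n (N₀ + H + 1) → Bool =>
      GEc n (dis a b η) (Slab n H)) fun i => @decide (emb i ∈ ω) (Classical.propDecidable _) := by
    funext ω
    exact tau_eq hH1 (by omega) ha.le (ha.trans hab).le ω
  have h4 := var_transfer (lattice (D + 1)).edgeSet p emb emb_inj (fun i => edg_mem _ _ _)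
    (fun η : Ix D n (N₀ + H + 1) → Bool => GEc n (dis a b η) (Slab n H))
  rw [h3, law]
  refine le_trans (le_trans ?_ h2) h4.ge
  have hn' : (2 : ℝ) ≤ n := by exact_mod_cast hn
  rw [div_mul_eq_mul_div, mul_div_assoc, ← div_pow]
  gcongr
  linarith

end Pool.Agent.Results.MP_67bca4_pr.Localised
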