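import Pool.Agent.P.MP_67bca4_pr.Defs

namespace Pool.Agent.P.MP_67bca4_pr

open Finset
open scoped Classical

variable {D : ℕ}

theorem num_ev (R : ℝ) (hR : 1 ≤ R) : ∃ D₀ : ℕ, ∀ D ≥ D₀,
    300 * Real.log D / D ≤ 1 / (5 * R) ∧ (D : ℝ) ^ 2 / 2 ^ D ≤ 1 / (10000 * R) ∧
      (12 * R) ^ 4 ≤ (D : ℝ) ∧ 22 ≤ D := by
  have h1 := (Real.tendsto_pow_log_div_mul_add_atTop 1 0 1 one_ne_zero).comp
    (tendsto_natCast_atTop_atTop (R := ℝ))
  have h2 := tendsto_pow_const_div_const_pow_of_one_lt 2 (show (1 : ℝ) < 2 by norm_num)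
  have e1 := h1.eventually (ge_mem_nhds (show (0 : ℝ) < 1 / (1500 * R) by positivity))
  have e2 := h2.eventually (ge_mem_nhds (show (0 : ℝ) < 1 / (10000 * R) by positivity))
  have e3 := (tendsto_natCast_atTop_atTop (R := ℝ)).eventually_ge_atTop ((12 * R) ^ 4)
  obtain ⟨D₀, h⟩ := Filter.eventually_atTop.1
    (e1.and (e2.and (e3.and (Filter.eventually_ge_atTop 22))))
  refine ⟨D₀, fun D hD => ?_⟩
  obtain ⟨a1, a2, a3, a4⟩ := h D hD
  refine ⟨?_, a2, a3, a4⟩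
  simp only [Function.comp, pow_one, one_mul, add_zero] at a1
  have : 300 * Real.log D / D = 300 * (Real.log D / D) := by ring
  rw [this]
  have h3 : (1 : ℝ) / (5 * R) = 300 * (1 / (1500 * R)) := by field_simp; norm_num
  rw [h3]
  linarith

theorem num_level {ρ : ℝ} (hρ : 1 ≤ ρ) : ∃ D₀ : ℕ, ∀ D ≥ D₀, ∀ m l : ℕ, D ^ 3 ≤ m →
    2 ^ (l * (D - 2)) ≤ m →
    ent D m l + ent D m (l + 1) - m / (32 ^ l * (20000 * ρ ^ 3)) ≤ -(2 * √(m : ℝ)) := by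
  have hρ3 : 1 ≤ ρ ^ 3 := one_le_pow₀ hρ
  set R : ℝ := 20000 * ρ ^ 3 with hRdef
  have hR : 1 ≤ R := by linarith
  have hR0 : 0 < R := by linarith
  obtain ⟨D₀, h⟩ := num_ev R hR
  refine ⟨D₀, fun D hD m l hm hl => ?_⟩
  obtain ⟨a1, a2, a3, a4⟩ := h D hD
  have hD1 : (1 : ℝ) ≤ D := by exact_mod_cast (by omega : 1 ≤ D)
  have hm' : (D : ℝ) ^ 3 ≤ m := by exact_mod_cast hm
  have hDD : (D : ℝ) ≤ (D : ℝ) ^ 3 := le_self_pow₀ hD1 (by norm_num)
  have hm1 : (1 : ℝ) ≤ m := by linarith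
  set s : ℝ := √(m : ℝ) with hs
  have hs0 : 0 ≤ s := Real.sqrt_nonneg _
  have hss : s ^ 2 = m := Real.sq_sqrt (by linarith)
  have hs1 : (12 * R) ^ 2 ≤ s := by
    apply Real.le_sqrt_of_sq_le
    have : ((12 * R) ^ 2) ^ 2 = (12 * R) ^ 4 := by ring
    linarith
  have hs2 : 12 * R ≤ s := by
    have : 12 * R ≤ (12 * R) ^ 2 := le_self_pow₀ (by linarith) (by norm_num)
    linarith
  have h2D : (2 : ℝ) ^ D = 2 ^ (D - 8) * 256 := by
    have : D = (D - 8) + 8 := by omega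
    conv_lhs => rw [this, pow_add]
    norm_num
  have h2D' : (2 : ℝ) ^ D = 2 ^ (D - 2) * 4 := by
    have : D = (D - 2) + 2 := by omega
    conv_lhs => rw [this, pow_add]
    norm_num
  rcases Nat.eq_zero_or_pos l with rfl | hl0
  · simp only [ent, if_true, zero_add, one_ne_zero, if_false, pow_zero, one_mul, Nat.cast_one,
      mul_one]
    have b1 : 300 * (m : ℝ) * Real.log D / D ≤ m / (5 * R) := by
      have : 300 * (m : ℝ) * Real.log D / D = m * (300 * Real.log D / D) := by ring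
      rw [this, div_eq_mul_one_div (m : ℝ)]
      gcongr
    have b2 : (D : ℝ) ≤ m / (5 * R) := by
      rw [le_div_iff₀ (by positivity)]
      have c1 : 12 * R ≤ (12 * R) ^ 4 := le_self_pow₀ (by linarith) (by norm_num)
      have c2 : (D : ℝ) * (5 * R) ≤ D * D := by gcongr; linarith
      have c3 : (D : ℝ) * D ≤ (D : ℝ) ^ 3 := by
        have : (D : ℝ) ^ 2 ≤ (D : ℝ) ^ 3 := pow_le_pow_right₀ hD1 (by norm_num)
        nlinarith
      linarith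
    have b3 : 5 * (m : ℝ) * (D : ℝ) ^ 2 / 2 ^ (D - 2) ≤ m / (5 * R) := by
      have : 5 * (m : ℝ) * (D : ℝ) ^ 2 / 2 ^ (D - 2) = m * (20 * ((D : ℝ) ^ 2 / 2 ^ D)) := by
        rw [h2D']; field_simp; norm_num
      rw [this, div_eq_mul_one_div (m : ℝ)]
      have c1 : 20 * ((D : ℝ) ^ 2 / 2 ^ D) ≤ 20 * (1 / (10000 * R)) := by gcongr
      have c2 : 20 * (1 / (10000 * R)) ≤ 1 / (5 * R) := by
        rw [mul_one_div, div_le_div_iff₀ (by positivity) (by positivity)]; linarith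
      gcongr
      linarith
    have b4 : (2 : ℝ) ≤ m / (5 * R) := by
      have : (2 : ℝ) ≤ D := by exact_mod_cast (by omega : 2 ≤ D)
      linarith
    have b5 : 2 * s ≤ m / (5 * R) := by
      rw [le_div_iff₀ (by positivity), ← hss]
      nlinarith
    have b6 : (m : ℝ) / R = 5 * (m / (5 * R)) := by field_simp
    rw [b6]
    linarith
  · have hl1 : l ≠ 0 := by omega
    simp only [ent, hl1, if_false, Nat.add_eq_zero_iff, one_ne_zero, and_false]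
    have hl' : (1 : ℝ) ≤ l := by exact_mod_cast hl0
    set y : ℝ := 32 ^ l with hy
    set Q : ℝ := 2 ^ (l * (D - 2)) with hQ
    have hy1 : 1 ≤ y := one_le_pow₀ (by norm_num)
    have hQ0 : 0 < Q := by positivity
    have hQm : Q ≤ m := by rw [hQ]; exact_mod_cast hl
    have hy4 : y ^ 4 ≤ Q := by
      have : y ^ 4 = 2 ^ (l * 20) := by
        rw [hy, ← pow_mul, show (32 : ℝ) = 2 ^ 5 by norm_num, ← pow_mul]; congr 1; ring
      rw [this, hQ]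
      exact pow_le_pow_right₀ (by norm_num) (Nat.mul_le_mul_left _ (by omega))
    have hy2 : y ^ 2 ≤ s := by
      apply Real.le_sqrt_of_sq_le
      have : (y ^ 2) ^ 2 = y ^ 4 := by ring
      linarith
    have hys : 12 * R * y ≤ s := by
      refine (pow_le_pow_iff_left₀ (by positivity) hs0 two_ne_zero).1 ?_
      have : (12 * R * y) ^ 2 = (12 * R) ^ 2 * y ^ 2 := by ring
      rw [this, sq s]
      gcongr
    have c1 : 5 * (m : ℝ) * (D : ℝ) ^ 2 * ((l + 1 : ℕ) : ℝ) / 2 ^ ((l + 1) * (D - 2))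
        ≤ 5 * (m : ℝ) * (D : ℝ) ^ 2 * (2 * l) / Q := by
      have d1 : Q ≤ 2 ^ ((l + 1) * (D - 2)) :=
        pow_le_pow_right₀ (by norm_num) (Nat.mul_le_mul_right _ (by omega))
      have d2 : ((l + 1 : ℕ) : ℝ) ≤ 2 * l := by push_cast; linarith
      gcongr
    have c2 : y * l * 2 ^ (D - 8) ≤ Q := by
      have d1 : (l : ℝ) ≤ 2 ^ l := by exact_mod_cast Nat.lt_two_pow_self.le
      have d2 : y * 2 ^ l * 2 ^ (D - 8) = 2 ^ (l * 6 + (D - 8)) := by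
        rw [hy, show (32 : ℝ) = 2 ^ 5 by norm_num, ← pow_mul, ← pow_add, ← pow_add]
        congr 1; ring
      have d3 : l * 6 + (D - 8) ≤ l * (D - 2) := by
        have : D - 2 = 6 + (D - 8) := by omega
        rw [this, Nat.mul_add]
        have := Nat.le_mul_of_pos_left (D - 8) hl0
        omega
      calc y * l * 2 ^ (D - 8) ≤ y * 2 ^ l * 2 ^ (D - 8) := by gcongr
        _ ≤ Q := by rw [d2]; exact pow_le_pow_right₀ (by norm_num) d3
    have c3 : 15 * (m : ℝ) * (D : ℝ) ^ 2 * l / Q ≤ m / (y * R) / 2 := by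
      rw [h2D, div_le_div_iff₀ (by positivity) (by positivity)] at a2
      rw [div_div, div_le_div_iff₀ hQ0 (by positivity)]
      have d1 : (D : ℝ) ^ 2 * R * 30 ≤ 2 ^ (D - 8) := by
        have : (0 : ℝ) ≤ (D : ℝ) ^ 2 * R := by positivity
        nlinarith
      calc 15 * (m : ℝ) * (D : ℝ) ^ 2 * l * (y * R * 2)
          = m * (y * l * ((D : ℝ) ^ 2 * R * 30)) := by ring
        _ ≤ m * (y * l * 2 ^ (D - 8)) := by gcongr
        _ ≤ m * Q := by gcongr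
    have c4 : 4 + 2 * s ≤ m / (y * R) / 2 := by
      rw [div_div, le_div_iff₀ (by positivity), ← hss]
      have d1 : 4 + 2 * s ≤ 6 * s := by linarith
      calc (4 + 2 * s) * (y * R * 2) ≤ 6 * s * (y * R * 2) := by gcongr
        _ = s * (12 * R * y) := by ring
        _ ≤ s * s := by gcongr
        _ = s ^ 2 := by ring
    have c5 : 5 * (m : ℝ) * (D : ℝ) ^ 2 * l / Q + 5 * (m : ℝ) * (D : ℝ) ^ 2 * (2 * l) / Q
        = 15 * (m : ℝ) * (D : ℝ) ^ 2 * l / Q := by ring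
    linarith

theorem num_sum {m₁ : ℕ} (h : 2000 ≤ m₁) (S : Finset ℕ) (hS : ∀ m ∈ S, m₁ ≤ m) :
    ∑ m ∈ S, (m : ℝ) * Real.exp (-(2 * √(m : ℝ))) ≤ Real.exp (-√(m₁ : ℝ)) := by
  have hterm : ∀ m ∈ S, (m : ℝ) * Real.exp (-(2 * √(m : ℝ)))
      ≤ Real.exp (-√(m₁ : ℝ)) * (720 * ((m : ℝ) ^ 2)⁻¹) := by
    intro m hm
    have h1 : (m₁ : ℝ) ≤ m := by exact_mod_cast hS m hm
    have h0 : (0 : ℝ) < m := by
      have : (2000 : ℝ) ≤ m₁ := by exact_mod_cast h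
      linarith
    have h2 : Real.exp (-(2 * √(m : ℝ))) = Real.exp (-√(m : ℝ)) * Real.exp (-√(m : ℝ)) := by
      rw [← Real.exp_add]; congr 1; ring
    have h3 : Real.exp (-√(m : ℝ)) ≤ Real.exp (-√(m₁ : ℝ)) :=
      Real.exp_le_exp.2 (neg_le_neg (Real.sqrt_le_sqrt h1))
    have h4 := Real.pow_div_factorial_le_exp (√(m : ℝ)) (Real.sqrt_nonneg _) 6
    have h5 : √(m : ℝ) ^ 6 = (m : ℝ) ^ 3 := by
      rw [show 6 = 2 * 3 by norm_num, pow_mul, Real.sq_sqrt h0.le]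
    rw [h5] at h4
    have h6 : ((Nat.factorial 6 : ℕ) : ℝ) = 720 := by norm_num [Nat.factorial]
    rw [h6] at h4
    have h7 : (m : ℝ) * Real.exp (-√(m : ℝ)) ≤ 720 * ((m : ℝ) ^ 2)⁻¹ := by
      rw [Real.exp_neg, ← div_eq_mul_inv, ← div_eq_mul_inv,
        div_le_div_iff₀ (Real.exp_pos _) (by positivity)]
      have : (m : ℝ) * (m : ℝ) ^ 2 = (m : ℝ) ^ 3 := by ring
      linarith
    calc (m : ℝ) * Real.exp (-(2 * √(m : ℝ)))
        = Real.exp (-√(m : ℝ)) * ((m : ℝ) * Real.exp (-√(m : ℝ))) := by rw [h2]; ring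
      _ ≤ _ := by gcongr
  have hsub : S ⊆ Ioc (m₁ - 1) (S.sup id + m₁) := by
    intro m hm
    have h1 := hS m hm
    have h2 : m ≤ S.sup id := Finset.le_sup (f := id) hm
    rw [mem_Ioc]; omega
  have hsum := sum_Ioc_inv_sq_le_sub (α := ℝ) (k := m₁ - 1) (n := S.sup id + m₁) (by omega)
    (by omega)
  have h1 : ∑ m ∈ S, ((m : ℝ) ^ 2)⁻¹ ≤ ∑ m ∈ Ioc (m₁ - 1) (S.sup id + m₁), ((m : ℝ) ^ 2)⁻¹ :=
    sum_le_sum_of_subset_of_nonneg hsub fun _ _ _ => by positivity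
  have h2 : (((m₁ - 1 : ℕ) : ℝ))⁻¹ ≤ (1999 : ℝ)⁻¹ := by
    have : (1999 : ℝ) ≤ ((m₁ - 1 : ℕ) : ℝ) := by exact_mod_cast (by omega : 1999 ≤ m₁ - 1)
    exact inv_anti₀ (by norm_num) this
  have h3 : (0 : ℝ) ≤ (((S.sup id + m₁ : ℕ) : ℝ))⁻¹ := by positivity
  calc _ ≤ ∑ m ∈ S, Real.exp (-√(m₁ : ℝ)) * (720 * ((m : ℝ) ^ 2)⁻¹) := sum_le_sum hterm
    _ = Real.exp (-√(m₁ : ℝ)) * (720 * ∑ m ∈ S, ((m : ℝ) ^ 2)⁻¹) := by
        rw [← mul_sum, ← mul_sum]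
    _ ≤ Real.exp (-√(m₁ : ℝ)) * 1 := by
        gcongr
        linarith
    _ = _ := mul_one _

theorem num_height (D : ℕ) : ∃ C : ℝ, ∀ n H : ℕ, 2 ≤ n → C * Real.log n ^ 2 ≤ H →
    5 ≤ H ∧ D ^ 3 ≤ (H - 1) / 4 ∧
      ((n : ℝ) + 1) ^ D * Real.exp (-√(((H - 1) / 4 : ℕ) : ℝ)) ≤ 1 / 8 := by
  refine ⟨4 * (2 * D + 3) ^ 2 + 12 + 12 * ((D : ℝ) ^ 3 + 1), fun n H hn hH => ?_⟩
  have hn' : (2 : ℝ) ≤ n := by exact_mod_cast hn
  set L : ℝ := Real.log n with hL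
  have hl2 := Real.log_two_gt_d9
  have hL2 : Real.log 2 ≤ L := Real.log_le_log (by norm_num) hn'
  have hL0 : 0 < L := by linarith
  have hLL : 1 ≤ 3 * L ^ 2 := by nlinarith
  set M : ℕ := (H - 1) / 4 with hM
  have hMH : (H : ℝ) ≤ 4 * M + 4 := by exact_mod_cast (by omega : H ≤ 4 * M + 4)
  have hD3 : (0 : ℝ) ≤ (D : ℝ) ^ 3 := by positivity
  have hA : (0 : ℝ) ≤ (2 * D + 3) ^ 2 * L ^ 2 := by positivity
  have hM1 : (2 * (D : ℝ) + 3) ^ 2 * L ^ 2 + ((D : ℝ) ^ 3 + 1) ≤ M := by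
    have : ((D : ℝ) ^ 3 + 1) * 1 ≤ ((D : ℝ) ^ 3 + 1) * (3 * L ^ 2) := by gcongr
    nlinarith
  have hM2 : D ^ 3 + 1 ≤ M := by
    have : ((D ^ 3 + 1 : ℕ) : ℝ) ≤ M := by push_cast; linarith
    exact_mod_cast this
  refine ⟨by omega, by omega, ?_⟩
  have h1 : (2 * (D : ℝ) + 3) * L ≤ √(M : ℝ) := by
    apply Real.le_sqrt_of_sq_le
    rw [mul_pow]; linarith
  have h2 : ((n : ℝ) + 1) ^ D ≤ Real.exp (2 * D * L) := by
    have e1 : (n : ℝ) + 1 ≤ Real.exp (2 * L) := by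
      have : Real.exp (2 * L) = (n : ℝ) ^ 2 := by
        rw [show 2 * L = ((2 : ℕ) : ℝ) * L by norm_num, Real.exp_nat_mul, hL,
          Real.exp_log (by linarith)]
      rw [this]; nlinarith
    calc ((n : ℝ) + 1) ^ D ≤ Real.exp (2 * L) ^ D := by gcongr
      _ = _ := by rw [← Real.exp_nat_mul]; congr 1; ring
  have h3 : Real.exp (-(3 * L)) ≤ 1 / 8 := by
    have : Real.exp (-(3 * Real.log 2)) = 1 / 8 := by
      rw [Real.exp_neg, show 3 * Real.log 2 = ((3 : ℕ) : ℝ) * Real.log 2 by norm_num,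
        Real.exp_nat_mul, Real.exp_log (by norm_num)]
      norm_num
    rw [← this]
    exact Real.exp_le_exp.2 (by linarith)
  calc ((n : ℝ) + 1) ^ D * Real.exp (-√(M : ℝ))
      ≤ Real.exp (2 * D * L) * Real.exp (-((2 * (D : ℝ) + 3) * L)) := by gcongr
    _ = Real.exp (-(3 * L)) := by rw [← Real.exp_add]; congr 1; ring
    _ ≤ 1 / 8 := h3

end Pool.Agent.P.MP_67bca4_pr
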