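import Pool.Agent.P.MP_67bca4_pr.Step
import Pool.Agent.P.MP_67bca4_pr.Chain
import Pool.Agent.P.MP_67bca4_pr.LayB
import Pool.Agent.P.MP_67bca4_pr.CountLev
import Pool.Agent.P.MP_67bca4_pr.Num

namespace Pool.Agent.P.MP_67bca4_pr

open Finset
open scoped Classical

variable {D : ℕ}

theorem lev_finite (hD : 100 ≤ D) (n : ℕ) (r : V D) (m l : ℕ) :
    {t : Fn D | Lev n r m l t}.Finite := by
  by_contra h
  obtain ⟨S, h1, h2⟩ := Set.Infinite.exists_subset_card_eq h (⌈Real.exp (ent D m l)⌉₊ + 1)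
  have h3 := count_lev hD n r m l S fun t ht => h1 ht
  rw [h2] at h3
  have := Nat.le_ceil (Real.exp (ent D m l))
  push_cast at h3
  linarith

/-- The deterministic part: a maximal good shift forces a large step of the chain. -/
theorem exists_step (hD : 100 ≤ D) {n R : ℕ} {a b ρ : ℝ} (ha : 0 < a) (hab : a ≤ b)
    (hρ : b ≤ ρ * a) (hb : 2 * b < a * D) (hR : b * ((n : ℝ) + 1) ^ D < a * R) {ξ : Dis D}
    (h : TwoV a b ξ) {r : V D} {m : ℕ} (hm : 1 ≤ m) {s : Fn D} (hs : Good n a ξ r s m)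
    (hmax : ∀ s' m', m < m' → ¬Good n a ξ r s' m') :
    ∃ l < m, 2 ^ (l * (D - 2)) ≤ m ∧ ∃ t t' : Fn D, Lev n r m l t ∧ Lev n r m (l + 1) t' ∧
      ((t' - t).support.card : ℝ) ≤ 19 * ρ * (2 ^ l) ^ 3 * m ∧
      a * m / 2 ^ (l + 3) ≤ GT n R (t' - t).support (19 * ρ * (2 ^ l) ^ 3 * m) (shift t' ξ) -
        GT n R (t' - t).support (19 * ρ * (2 ^ l) ^ 3 * m) (shift t ξ) := by
  obtain ⟨t, t0, t1, t2, t3⟩ := exists_chain hD hs.1
  have hb0 : 0 ≤ b := ha.le.trans hab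
  have hρ1 : 1 ≤ ρ := by
    by_contra hc
    push Not at hc
    nlinarith
  have hm' : (0 : ℝ) < m := by exact_mod_cast hm
  have hnn : ∀ s : V D → ℤ, ∀ x o k, 0 ≤ shift s ξ x o k :=
    fun s x o k => ha.le.trans ((h.shift s).le hab x o k).1
  set G : ℕ → ℝ := fun l => GE n (shift (t l) ξ) with hG
  have hlt : ∀ l, l < 2 ^ (l * (D - 2)) := fun l =>
    Nat.lt_two_pow_self.trans_le (Nat.pow_le_pow_right (by norm_num)
      (Nat.le_mul_of_pos_right _ (by omega)))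
  obtain ⟨l, hl, h1⟩ : ∃ l < m, a * m / 2 ^ (l + 3) ≤ G (l + 1) - G l := by
    by_contra hc
    push Not at hc
    have key : ∀ l ≤ m, G l - G 0 ≤ a * m / 4 - a * m / 2 ^ (l + 2) := by
      intro l
      induction l with
      | zero => intro _; norm_num
      | succ l ih =>
        intro hl
        have h1 := ih (by omega)
        have h2 := hc l (by omega)
        have h3 : a * m / 2 ^ (l + 2) = 2 * (a * m / 2 ^ (l + 3)) := by
          field_simp; ring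
        rw [show l + 1 + 2 = l + 3 by ring]
        linarith
    have h1 := key m le_rfl
    have h2 : G m = GE n ξ := by simp [hG, t3 m (hlt m)]
    have h3 : G 0 = GE n (shift s ξ) := by simp [hG, t0]
    have h4 : 0 < a * m / 2 ^ (m + 2) := by positivity
    have := hs.2
    linarith
  have hl2 : 2 ^ (l * (D - 2)) ≤ m := by
    by_contra hc
    push Not at hc
    have h2 : m < 2 ^ ((l + 1) * (D - 2)) :=
      hc.trans_le (Nat.pow_le_pow_right (by norm_num) (Nat.mul_le_mul_right _ (by omega)))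
    have h3 : G (l + 1) = G l := by simp only [hG, t3 l hc, t3 (l + 1) h2]
    have h4 : 0 < a * m / 2 ^ (l + 3) := by positivity
    linarith
  have hY : (((t (l + 1) - t l).support).card : ℝ) ≤ 19 * ρ * (2 ^ l) ^ 3 * m := by
    have h2 : (((t (l + 1) - t l).support).card : ℝ) ≤ 3 * (2 ^ l) ^ 2 * m := by
      exact_mod_cast (t2 l).2.2.2.1
    have h3 : (1 : ℝ) ≤ 2 ^ l := one_le_pow₀ (by norm_num)
    refine h2.trans ?_
    gcongr
    · linarith
    · norm_num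
  refine ⟨l, hl, hl2, t l, t (l + 1), t1 l, t1 (l + 1), hY, h1.trans ?_⟩
  obtain ⟨U, hU⟩ := exists_isMinC (n := n) ha.le hb0 (h.shift (t l)) ⟨_, cfg_flat n⟩
  have hU1 := win_of_isMin hD ha hab hb (h.shift _) hU hR
  have hU2 := lay_bound hD ha hab hρ hb h hm Nat.one_le_two_pow (t2 l) hmax hU
  push_cast at hU2
  have h2 : GT n R (t (l + 1) - t l).support (19 * ρ * (2 ^ l) ^ 3 * m) (shift (t l) ξ) ≤ G l := by
    have : G l = En n (shift (t l) ξ) U := IsMinC.GEc_eq hU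
    rw [this]
    exact GEc_le (hnn _) ⟨hU.1, hU1, hU2⟩
  have h3 : G (l + 1) ≤
      GT n R (t (l + 1) - t l).support (19 * ρ * (2 ^ l) ^ 3 * m) (shift (t (l + 1)) ξ) := by
    obtain ⟨U', hU'⟩ := exists_isMinC (n := n) ha.le hb0 (h.shift (t (l + 1)))
      (K := fun U => Cfg n U ∧ Win (-(2 * R : ℤ)) (2 * R) U ∧
        (Lay n U (t (l + 1) - t l).support : ℝ) ≤ 19 * ρ * (2 ^ l) ^ 3 * m) ⟨U, hU.1, hU1, hU2⟩
    rw [GT, hU'.GEc_eq]
    exact GEc_le (hnn _) hU'.1.1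
  linarith

/-- Large good shifts are unlikely. -/
theorem good_tail {ρ : ℝ} (hρ : 1 ≤ ρ) : ∃ D₀ : ℕ, 100 ≤ D₀ ∧ 2 * ρ < D₀ ∧ ∀ D ≥ D₀,
    ∀ a b : ℝ, 0 < a → a < b → b ≤ ρ * a → ∀ p : ℝ, 0 ≤ p → p ≤ 1 →
    ∀ (n N R : ℕ) [NeZero N], 4 * R < N → b * ((n : ℝ) + 1) ^ D < a * R →
    ∀ (r : V D) (m₁ : ℕ), D ^ 3 ≤ m₁ →
      Pr p (fun ω : Ix D n N → Bool => ∃ s m, m₁ ≤ m ∧ Good n a (dis a b ω) r s m) ≤
        Real.exp (-√(m₁ : ℝ)) := by
  obtain ⟨D₁, hnum⟩ := num_level hρ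
  have hD₀ : 2 * ρ < ((D₁ + 100 + ⌈2 * ρ⌉₊ : ℕ) : ℝ) := by
    have := Nat.le_ceil (2 * ρ)
    have h0 : (0 : ℝ) ≤ D₁ := by positivity
    push_cast; linarith
  refine ⟨D₁ + 100 + ⌈2 * ρ⌉₊, by omega, hD₀, ?_⟩
  intro D hDD a b ha hab hρb p h0 h1 n N R _ hN hR r m₁ hm₁
  have hD : 100 ≤ D := by omega
  have hb : 2 * b < a * D := by
    have : ((D₁ + 100 + ⌈2 * ρ⌉₊ : ℕ) : ℝ) ≤ D := by exact_mod_cast hDD
    nlinarith
  have hm2 : 2000 ≤ m₁ := le_trans (by norm_num) ((Nat.pow_le_pow_left hD 3).trans hm₁)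
  set S := (range (4 * R)).filter fun m => m₁ ≤ m with hS
  set Ls := fun m => (range m).filter fun l => 2 ^ (l * (D - 2)) ≤ m with hLs
  set T := fun m l => (lev_finite hD n r m l).toFinset with hT
  set A : ℕ → ℕ → Fn D × Fn D → (Ix D n N → Bool) → Prop := fun m l tt ω =>
    ((tt.2 - tt.1).support.card : ℝ) ≤ 19 * ρ * (2 ^ l) ^ 3 * m ∧
    a * m / 2 ^ (l + 3) ≤
      GT n R (tt.2 - tt.1).support (19 * ρ * (2 ^ l) ^ 3 * m) (shift tt.2 (dis a b ω)) -
        GT n R (tt.2 - tt.1).support (19 * ρ * (2 ^ l) ^ 3 * m) (shift tt.1 (dis a b ω)) with hA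
  have step1 : ∀ ω : Ix D n N → Bool, (∃ s m, m₁ ≤ m ∧ Good n a (dis a b ω) r s m) →
      ∃ m ∈ S, ∃ l ∈ Ls m, ∃ tt ∈ T m l ×ˢ T m (l + 1), A m l tt ω := by
    rintro ω ⟨s₀, m₀, hm₀, hs₀⟩
    have h := twoV_dis a b ω
    have hbd : ∀ s m, Good n a (dis a b ω) r s m → m < 4 * R := by
      intro s m hs
      have h2 : 0 ≤ GE n (shift s (dis a b ω)) :=
        GEc_nonneg fun x o k => ha.le.trans ((h.shift s).le hab.le x o k).1
      have h3 : GE n (dis a b ω) ≤ b * ((n : ℝ) + 1) ^ D :=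
        GE_le_flat (fun x o k => ha.le.trans (h.le hab.le x o k).1)
          fun x o k => (h.le hab.le x o k).2
      have h4 := hs.2
      have h5 : a * m < a * (4 * R) := by linarith
      exact_mod_cast lt_of_mul_lt_mul_left h5 ha.le
    obtain ⟨m, hm, hmax⟩ := exists_max_image
      ((range (4 * R)).filter fun m => ∃ s, Good n a (dis a b ω) r s m) id
      ⟨m₀, mem_filter.2 ⟨mem_range.2 (hbd _ _ hs₀), s₀, hs₀⟩⟩
    obtain ⟨hm', s, hs⟩ := mem_filter.1 hm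
    have hmm : m₀ ≤ m := hmax m₀ (mem_filter.2 ⟨mem_range.2 (hbd _ _ hs₀), s₀, hs₀⟩)
    obtain ⟨l, l1, l2, t, t', l3, l4, l5, l6⟩ := exists_step hD ha hab.le hρb hb hR h
      (by omega) hs (fun s' m' hlt hs' => by
        have := hmax m' (mem_filter.2 ⟨mem_range.2 (hbd _ _ hs'), s', hs'⟩)
        simp only [id] at this
        omega)
    exact ⟨m, mem_filter.2 ⟨hm', by omega⟩, l, mem_filter.2 ⟨mem_range.2 l1, l2⟩, (t, t'),
      mem_product.2 ⟨(Set.Finite.mem_toFinset _).2 l3, (Set.Finite.mem_toFinset _).2 l4⟩, l5, l6⟩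
  have step2 : ∀ m ∈ S, ∀ l, ∀ tt, Pr p (A m l tt) ≤
      Real.exp (-(m / (32 ^ l * (20000 * ρ ^ 3)))) := by
    intro m hm l tt
    have hm0 : (0 : ℝ) < m := by
      have := (mem_filter.1 hm).2
      exact_mod_cast (by omega : 0 < m)
    by_cases hc : ((tt.2 - tt.1).support.card : ℝ) ≤ 19 * ρ * (2 ^ l) ^ 3 * m
    · refine ((Pr_mono h0 h1 fun ω hω => hω.2).trans
        (step_tail hN ha hab h0 h1 tt.1 tt.2 (by positivity) hc (by positivity))).trans ?_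
      rw [Real.exp_le_exp, neg_le_neg_iff]
      have hba : 0 < b - a := sub_pos.2 hab
      have h2 : (b - a) ^ 2 ≤ (ρ * a) ^ 2 := by gcongr; linarith
      rw [div_le_div_iff₀ (by positivity) (by positivity)]
      have h32 : (32 : ℝ) ^ l = (2 ^ l) ^ 5 := by rw [← pow_mul, mul_comm, pow_mul]; norm_num
      have e : (a * m / 2 ^ (l + 3)) ^ 2 * (32 ^ l * (20000 * ρ ^ 3)) =
          m * (20000 / 64 * (ρ * (2 ^ l) ^ 3 * m * (ρ * a) ^ 2)) := by
        rw [h32]; field_simp; ring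
      rw [e]
      refine mul_le_mul_of_nonneg_left ?_ hm0.le
      have h3 : 0 ≤ ρ * (2 ^ l) ^ 3 * m * (ρ * a) ^ 2 := by positivity
      have h4 : ρ * (2 ^ l) ^ 3 * m * (b - a) ^ 2 ≤ ρ * (2 ^ l) ^ 3 * m * (ρ * a) ^ 2 := by gcongr
      linarith
    · refine le_trans (Pr_mono h0 h1 (B := fun _ => False) fun ω hω => hc hω.1) ?_
      simp [Pr, Real.exp_nonneg]
  refine (Pr_mono h0 h1 step1).trans ((Pr_union h0 h1 _ _).trans (le_trans (sum_le_sum ?_)
    (num_sum hm2 S fun m hm => (mem_filter.1 hm).2)))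
  intro m hm
  refine (Pr_union h0 h1 _ _).trans ?_
  have step3 : ∀ l ∈ Ls m, Pr p (fun ω => ∃ tt ∈ T m l ×ˢ T m (l + 1), A m l tt ω) ≤
      Real.exp (-(2 * √(m : ℝ))) := by
    intro l hl
    refine (Pr_union h0 h1 _ _).trans ((sum_le_card_nsmul _ _ _ fun tt _ => step2 m hm l tt).trans ?_)
    rw [card_product, nsmul_eq_mul, Nat.cast_mul]
    have c1 := count_lev hD n r m l (T m l) fun t ht =>
      (lev_finite hD n r m l).mem_toFinset.1 ht
    have c2 := count_lev hD n r m (l + 1) (T m (l + 1))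
      fun t ht => (lev_finite hD n r m (l + 1)).mem_toFinset.1 ht
    have c3 := hnum D (by omega) m l (hm₁.trans (mem_filter.1 hm).2) (mem_filter.1 hl).2
    calc _ ≤ Real.exp (ent D m l) * Real.exp (ent D m (l + 1)) *
          Real.exp (-(m / (32 ^ l * (20000 * ρ ^ 3)))) := by gcongr
      _ ≤ _ := by
        rw [← Real.exp_add, ← Real.exp_add, Real.exp_le_exp]
        linarith
  refine (sum_le_card_nsmul _ _ _ step3).trans ?_
  rw [nsmul_eq_mul]
  gcongr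
  exact (card_filter_le _ _).trans (card_range m).le

end Pool.Agent.P.MP_67bca4_pr
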