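import Pool.Agent.P.MP_67bca4_pr.Defs

namespace Pool.Agent.P.MP_67bca4_pr

open Finset
open scoped Classical

variable {D : ℕ}

variable {I : Type} [Fintype I] [DecidableEq I] {p : ℝ}

theorem wt_nonneg (h0 : 0 ≤ p) (h1 : p ≤ 1) (ω : I → Bool) : 0 ≤ wt p ω := by
  unfold wt
  refine Finset.prod_nonneg fun i _ => ?_
  split_ifs
  · exact h0
  · linarith

theorem sum_wt (p : ℝ) : ∑ ω : I → Bool, wt p ω = 1 := by
  unfold wt
  have h := Finset.prod_univ_sum (fun _ : I => (Finset.univ : Finset Bool))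
    (fun _ (b : Bool) => if b then p else 1 - p)
  rw [Fintype.piFinset_univ] at h
  rw [← h]
  simp

theorem PL_wt_perm (π : Equiv.Perm I) (ω : I → Bool) : wt p (ω ∘ π) = wt p ω := by
  unfold wt
  exact Equiv.prod_comp π (fun i => if ω i then p else 1 - p)

theorem Ex_perm (π : Equiv.Perm I) (f : (I → Bool) → ℝ) : Ex p (fun ω => f (ω ∘ π)) = Ex p f := by
  unfold Ex
  have h := Equiv.sum_comp (Equiv.arrowCongr π.symm (Equiv.refl Bool)) (fun ω => wt p ω * f ω)
  rw [← h]
  refine Finset.sum_congr rfl fun ω _ => ?_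
  have e : (Equiv.arrowCongr π.symm (Equiv.refl Bool)) ω = ω ∘ π := by
    ext i
    simp [Equiv.arrowCongr]
  rw [e, PL_wt_perm]

theorem PL_Pr_eq_Ex (A : (I → Bool) → Prop) : Pr p A = Ex p (fun ω => if A ω then 1 else 0) := by
  unfold Pr Ex
  refine Finset.sum_congr rfl fun ω _ => ?_
  by_cases h : A ω <;> simp [h]

theorem Pr_perm (π : Equiv.Perm I) (A : (I → Bool) → Prop) :
    Pr p (fun ω => A (ω ∘ π)) = Pr p A := by
  rw [PL_Pr_eq_Ex, PL_Pr_eq_Ex]
  have h := Ex_perm (p := p) π (fun ω => if A ω then (1 : ℝ) else 0)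
  convert h using 1

theorem Pr_mono (h0 : 0 ≤ p) (h1 : p ≤ 1) {A B : (I → Bool) → Prop} (h : ∀ ω, A ω → B ω) :
    Pr p A ≤ Pr p B := by
  unfold Pr
  refine Finset.sum_le_sum fun ω _ => ?_
  have hw := wt_nonneg h0 h1 ω
  by_cases hA : A ω
  · simp [hA, h ω hA]
  · by_cases hB : B ω <;> simp [hA, hB, hw]

theorem Pr_or (h0 : 0 ≤ p) (h1 : p ≤ 1) (A B : (I → Bool) → Prop) :
    Pr p (fun ω => A ω ∨ B ω) ≤ Pr p A + Pr p B := by
  unfold Pr
  rw [← Finset.sum_add_distrib]
  refine Finset.sum_le_sum fun ω _ => ?_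
  have hw := wt_nonneg h0 h1 ω
  by_cases hA : A ω <;> by_cases hB : B ω <;> simp [hA, hB, hw]

theorem Pr_union (h0 : 0 ≤ p) (h1 : p ≤ 1) {ι : Type} (S : Finset ι)
    (A : ι → (I → Bool) → Prop) : Pr p (fun ω => ∃ i ∈ S, A i ω) ≤ ∑ i ∈ S, Pr p (A i) := by
  unfold Pr
  rw [Finset.sum_comm]
  refine Finset.sum_le_sum fun ω _ => ?_
  have hw := wt_nonneg h0 h1 ω
  have hn : ∀ i ∈ S, 0 ≤ (if A i ω then wt p ω else 0) := by
    intro i _
    split_ifs
    · exact hw
    · exact le_rfl
  by_cases hA : ∃ i ∈ S, A i ω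
  · rw [if_pos hA]
    obtain ⟨i, hi, hA⟩ := hA
    have := Finset.single_le_sum hn hi
    simpa [hA] using this
  · rw [if_neg hA]
    exact Finset.sum_nonneg hn

theorem Pr_not (A : (I → Bool) → Prop) : Pr p (fun ω => ¬A ω) = 1 - Pr p A := by
  rw [← sum_wt (I := I) p]
  unfold Pr
  rw [← Finset.sum_sub_distrib]
  refine Finset.sum_congr rfl fun ω _ => ?_
  by_cases hA : A ω <;> simp [hA]

theorem Ex_mono (h0 : 0 ≤ p) (h1 : p ≤ 1) {f g : (I → Bool) → ℝ} (h : ∀ ω, f ω ≤ g ω) :
    Ex p f ≤ Ex p g := by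
  unfold Ex
  exact Finset.sum_le_sum fun ω _ => mul_le_mul_of_nonneg_left (h ω) (wt_nonneg h0 h1 ω)

theorem Ex_add (f g : (I → Bool) → ℝ) : Ex p (fun ω => f ω + g ω) = Ex p f + Ex p g := by
  unfold Ex
  rw [← Finset.sum_add_distrib]
  exact Finset.sum_congr rfl fun ω _ => by ring

theorem Pr_le_Ex (h0 : 0 ≤ p) (h1 : p ≤ 1) {A : (I → Bool) → Prop} {f : (I → Bool) → ℝ} {c : ℝ}
    (hf : ∀ ω, 0 ≤ f ω) (h : ∀ ω, A ω → c ≤ f ω) : c * Pr p A ≤ Ex p f := by
  unfold Pr Ex
  rw [Finset.mul_sum]
  refine Finset.sum_le_sum fun ω _ => ?_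
  have hw := wt_nonneg h0 h1 ω
  by_cases hA : A ω
  · rw [if_pos hA, mul_comm]
    exact mul_le_mul_of_nonneg_left (h ω hA) hw
  · rw [if_neg hA, mul_zero]
    exact mul_nonneg hw (hf ω)

/-- Flipping one bit. -/
def PL_flipBit (e : I) : Equiv.Perm (I → Bool) :=
  Function.Involutive.toPerm (fun ω => Function.update ω e (!ω e)) (by
    intro ω
    simp)

theorem PL_flipBit_apply (e : I) (ω : I → Bool) : PL_flipBit e ω = Function.update ω e (!ω e) := rfl

/-- The weight of the other bits. -/
noncomputable def PL_wtOff (p : ℝ) (e : I) (ω : I → Bool) : ℝ :=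
  ∏ i ∈ Finset.univ.erase e, if ω i then p else 1 - p

theorem PL_wt_eq_off (e : I) (ω : I → Bool) :
    wt p ω = (if ω e then p else 1 - p) * PL_wtOff p e ω := by
  unfold wt PL_wtOff
  exact (Finset.mul_prod_erase Finset.univ (fun i => if ω i then p else 1 - p)
    (Finset.mem_univ e)).symm

theorem PL_wtOff_update (e : I) (ω : I → Bool) (b : Bool) :
    PL_wtOff p e (Function.update ω e b) = PL_wtOff p e ω := by
  unfold PL_wtOff
  refine Finset.prod_congr rfl fun i hi => ?_
  rw [Function.update_of_ne (Finset.ne_of_mem_erase hi)]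

theorem PL_two_mul_Ex (e : I) (f : (I → Bool) → ℝ) :
    2 * Ex p f = ∑ ω, PL_wtOff p e ω *
      (p * f (Function.update ω e true) + (1 - p) * f (Function.update ω e false)) := by
  have h := Equiv.sum_comp (PL_flipBit e) (fun ω => wt p ω * f ω)
  have h2 : 2 * Ex p f = ∑ ω, (wt p ω * f ω + wt p (PL_flipBit e ω) * f (PL_flipBit e ω)) := by
    rw [Finset.sum_add_distrib, h]
    unfold Ex
    ring
  rw [h2]
  refine Finset.sum_congr rfl fun ω _ => ?_
  rw [PL_wt_eq_off e ω, PL_wt_eq_off e (PL_flipBit e ω), PL_flipBit_apply, PL_wtOff_update]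
  cases hω : ω e
  · have e1 : Function.update ω e false = ω := by
      rw [← hω]
      exact Function.update_eq_self e ω
    simp [e1]
    ring
  · have e1 : Function.update ω e true = ω := by
      rw [← hω]
      exact Function.update_eq_self e ω
    simp [e1]
    ring

/-- Conditioning on one bit. -/
theorem Ex_update (e : I) (f : (I → Bool) → ℝ) :
    Ex p f = p * Ex p (fun ω => f (Function.update ω e true)) +
      (1 - p) * Ex p (fun ω => f (Function.update ω e false)) := by
  have h1 := PL_two_mul_Ex (p := p) e f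
  have h2 := PL_two_mul_Ex (p := p) e (fun ω => f (Function.update ω e true))
  have h3 := PL_two_mul_Ex (p := p) e (fun ω => f (Function.update ω e false))
  simp only [Function.update_idem] at h2 h3
  have h4 : 2 * Ex p f = p * (2 * Ex p (fun ω => f (Function.update ω e true))) +
      (1 - p) * (2 * Ex p (fun ω => f (Function.update ω e false))) := by
    rw [h1, h2, h3, Finset.mul_sum, Finset.mul_sum, ← Finset.sum_add_distrib]
    exact Finset.sum_congr rfl fun ω _ => by ring
  linarith

theorem PL_Ex_const_mul (c : ℝ) (f : (I → Bool) → ℝ) : Ex p (fun ω => c * f ω) = c * Ex p f := by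
  unfold Ex
  rw [Finset.mul_sum]
  exact Finset.sum_congr rfl fun ω _ => by ring

theorem PL_Ex_const (c : ℝ) : Ex p (fun _ : I → Bool => c) = c := by
  unfold Ex
  rw [← Finset.sum_mul, sum_wt, one_mul]

theorem PL_Ex_sub (f g : (I → Bool) → ℝ) : Ex p (fun ω => f ω - g ω) = Ex p f - Ex p g := by
  unfold Ex
  rw [← Finset.sum_sub_distrib]
  exact Finset.sum_congr rfl fun ω _ => by ring

theorem PL_Ex_sum {ι : Type} (S : Finset ι) (f : ι → (I → Bool) → ℝ) :
    Ex p (fun ω => ∑ i ∈ S, f i ω) = ∑ i ∈ S, Ex p (f i) := by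
  unfold Ex
  rw [Finset.sum_comm]
  exact Finset.sum_congr rfl fun ω _ => by rw [Finset.mul_sum]

theorem PL_Ex_mul_chi (e : I) (g : (I → Bool) → ℝ) :
    Ex p (fun ω => g ω * (bit (ω e) - p)) = p * (1 - p) *
      Ex p (fun ω => g (Function.update ω e true) - g (Function.update ω e false)) := by
  rw [Ex_update e, PL_Ex_sub]
  have h1 : Ex p (fun ω => g (Function.update ω e true) * (bit (Function.update ω e true e) - p))
      = (1 - p) * Ex p (fun ω => g (Function.update ω e true)) := by
    rw [← PL_Ex_const_mul]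
    congr 1
    funext ω
    simp [bit]
    ring
  have h2 : Ex p (fun ω => g (Function.update ω e false) * (bit (Function.update ω e false e) - p))
      = (-p) * Ex p (fun ω => g (Function.update ω e false)) := by
    rw [← PL_Ex_const_mul]
    congr 1
    funext ω
    simp [bit]
    ring
  rw [h1, h2]
  ring

/-- The level-one lower bound for the variance. -/
theorem bessel (h0 : 0 ≤ p) (h1 : p ≤ 1) (f : (I → Bool) → ℝ) (S : Finset I) :
    ∑ e ∈ S, p * (1 - p) *
      (Ex p fun ω => f (Function.update ω e true) - f (Function.update ω e false)) ^ 2 ≤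
      Vr p f := by
  set d : I → ℝ := fun e =>
    Ex p fun ω => f (Function.update ω e true) - f (Function.update ω e false) with hd
  set L : (I → Bool) → ℝ := fun ω => ∑ e ∈ S, d e * (bit (ω e) - p) with hL
  set T : ℝ := ∑ e ∈ S, p * (1 - p) * d e ^ 2 with hT
  have key : ∀ g : (I → Bool) → ℝ, Ex p (fun ω => g ω * L ω) = ∑ e ∈ S, d e * (p * (1 - p) *
      Ex p (fun ω => g (Function.update ω e true) - g (Function.update ω e false))) := by
    intro g
    have e1 : (fun ω => g ω * L ω) = fun ω => ∑ e ∈ S, d e * (g ω * (bit (ω e) - p)) := by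
      funext ω
      rw [hL]
      simp only
      rw [Finset.mul_sum]
      exact Finset.sum_congr rfl fun e _ => by ring
    rw [e1, PL_Ex_sum]
    refine Finset.sum_congr rfl fun e _ => ?_
    rw [PL_Ex_const_mul, PL_Ex_mul_chi]
  have hA : Ex p (fun ω => (f ω - Ex p f) * L ω) = T := by
    rw [key, hT]
    refine Finset.sum_congr rfl fun e _ => ?_
    have e1 : (fun ω => (f (Function.update ω e true) - Ex p f) -
        (f (Function.update ω e false) - Ex p f)) =
        fun ω => f (Function.update ω e true) - f (Function.update ω e false) := by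
      funext ω
      ring
    rw [e1]
    show d e * (p * (1 - p) * d e) = _
    ring
  have hB : Ex p (fun ω => L ω * L ω) = T := by
    rw [key, hT]
    refine Finset.sum_congr rfl fun e he => ?_
    have e1 : (fun ω => L (Function.update ω e true) - L (Function.update ω e false)) =
        fun _ => d e := by
      funext ω
      rw [hL]
      simp only
      rw [← Finset.sum_sub_distrib, Finset.sum_eq_single e]
      · simp [bit]
        ring
      · intro b _ hb
        rw [Function.update_of_ne hb, Function.update_of_ne hb]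
        ring
      · intro h
        exact absurd he h
    rw [e1, PL_Ex_const]
    ring
  have hC : 0 ≤ Ex p (fun ω => ((f ω - Ex p f) - L ω) ^ 2) := by
    have := Ex_mono (I := I) h0 h1 (f := fun _ => 0) (g := fun ω => ((f ω - Ex p f) - L ω) ^ 2)
      (fun ω => sq_nonneg _)
    rwa [PL_Ex_const] at this
  have hE : (fun ω => ((f ω - Ex p f) - L ω) ^ 2) = fun ω =>
      ((f ω - Ex p f) ^ 2 - 2 * ((f ω - Ex p f) * L ω)) + L ω * L ω := by
    funext ω
    ring
  rw [hE, Ex_add, PL_Ex_sub, PL_Ex_const_mul, hA, hB] at hC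
  unfold Vr
  linarith

end Pool.Agent.P.MP_67bca4_pr
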