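import Pool.Agent.P.MP_67bca4_pr.MinEx
import Pool.Agent.P.MP_67bca4_pr.Det
import Pool.Agent.P.MP_67bca4_pr.Conc
import Pool.Agent.P.MP_67bca4_pr.Lin

namespace Pool.Agent.P.MP_67bca4_pr

open Finset
open scoped Classical

variable {D : ℕ}

/-- The least energy among windowed configurations with bounded layering over `Y`. -/
noncomputable def GT (n R : ℕ) (Y : Finset (V D)) (β : ℝ) (ξ : Dis D) : ℝ :=
  GEc n ξ fun U => Cfg n U ∧ Win (-(2 * R : ℤ)) (2 * R) U ∧ (Lay n U Y : ℝ) ≤ β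

lemma step_class_nonempty {n R : ℕ} {Y : Finset (V D)} {β : ℝ} (hY : (Y.card : ℝ) ≤ β) :
    ∃ U : Conf D, Cfg n U ∧ Win (-(2 * R : ℤ)) (2 * R) U ∧ (Lay n U Y : ℝ) ≤ β := by
  refine ⟨fun _ => flat 0, cfg_flat n, fun x => ⟨fun k hk => ?_, fun k hk => ?_⟩, ?_⟩
  · rw [mem_flat]; omega
  · rw [mem_flat] at hk; omega
  · simpa [Lay, Wt] using hY

lemma comp_sperm {n N : ℕ} (t t' : Fn D) (ω : Ix D n N → Bool) :
    ω ∘ sperm t' = (ω ∘ sperm t) ∘ sperm (t' - t : Fn D) := by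
  funext i
  simp only [Function.comp_apply, sperm, Equiv.coe_fn_mk, Finsupp.sub_apply]
  congr 3
  push_cast
  ring

lemma step_bit (a b : ℝ) (x y : Bool) :
    (if x then b else a) = (if y then b else a) + (b - a) * (bit x - bit y) := by
  cases x <;> cases y <;> simp [bit]

lemma step_grad {n N R : ℕ} [NeZero N] (hN : 4 * R < N) {a b : ℝ} (ha : 0 < a) (hab : a < b)
    {Y : Finset (V D)} {β : ℝ} (hY : (Y.card : ℝ) ≤ β) (ω : Ix D n N → Bool) :
    ∃ g : Ix D n N → ℝ,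
      ∑ i ∈ univ.filter (fun i : Ix D n N => i.1.1 ∈ Y), g i ^ 2 ≤ β * (b - a) ^ 2 ∧
      ∀ ω' : Ix D n N → Bool,
        (∀ i, i ∉ univ.filter (fun i : Ix D n N => i.1.1 ∈ Y) → ω' i = ω i) →
        GT n R Y β (dis a b ω') ≤ GT n R Y β (dis a b ω) +
          ∑ i ∈ univ.filter (fun i : Ix D n N => i.1.1 ∈ Y), g i * (bit (ω' i) - bit (ω i)) := by
  obtain ⟨U, hU⟩ := exists_isMinC (n := n) ha.le (ha.trans hab).le (twoV_dis a b ω)
    (step_class_nonempty (n := n) (R := R) hY)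
  have hN' : (2 * R : ℤ) - -(2 * R : ℤ) < N := by omega
  obtain ⟨S, hS1, hS2, -⟩ := en_linear (n := n) hN' hU.1.2.1
  have hfil : ∀ h : Ix D n N → ℝ,
      ∑ i ∈ univ.filter (fun i : Ix D n N => i.1.1 ∈ Y), (if i ∈ S then h i else 0) =
        ∑ i ∈ S.filter (fun i => i.1.1 ∈ Y), h i := by
    intro h
    rw [← sum_filter]
    refine sum_congr ?_ fun _ _ => rfl
    ext i
    simp only [mem_filter, mem_univ, true_and]
    tauto
  refine ⟨fun i => if i ∈ S then b - a else 0, ?_, fun ω' hω => ?_⟩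
  · have e : ∀ i : Ix D n N, (if i ∈ S then b - a else 0) ^ 2 =
        if i ∈ S then (b - a) ^ 2 else 0 := by
      intro i; split_ifs <;> simp
    simp only [e]
    rw [hfil fun _ => (b - a) ^ 2, sum_const, nsmul_eq_mul]
    refine mul_le_mul_of_nonneg_right ?_ (sq_nonneg _)
    exact le_trans (by exact_mod_cast hS2 Y) hU.1.2.2
  · have h1 : GT n R Y β (dis a b ω') ≤ En n (dis a b ω') U :=
      GEc_le (fun x o k => ha.le.trans ((twoV_dis a b ω').le hab.le x o k).1) hU.1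
    have h2 : GT n R Y β (dis a b ω) = En n (dis a b ω) U := hU.GEc_eq
    have e : ∀ i : Ix D n N, (if i ∈ S then b - a else 0) * (bit (ω' i) - bit (ω i)) =
        if i ∈ S then (b - a) * (bit (ω' i) - bit (ω i)) else 0 := by
      intro i; split_ifs <;> simp
    simp only [e]
    rw [hfil fun i => (b - a) * (bit (ω' i) - bit (ω i)), h2, hS1 a b ω]
    rw [hS1 a b ω'] at h1
    refine h1.trans (le_of_eq ?_)
    rw [sum_filter, ← sum_add_distrib]
    refine sum_congr rfl fun i _ => ?_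
    by_cases hi : i.1.1 ∈ Y
    · rw [if_pos hi]; exact step_bit a b _ _
    · rw [if_neg hi, hω i (by simpa using hi), add_zero]

/-- The tail of one step of the chain. -/
theorem step_tail {n N R : ℕ} [NeZero N] (hN : 4 * R < N) {a b : ℝ} (ha : 0 < a) (hab : a < b)
    {p : ℝ} (h0 : 0 ≤ p) (h1 : p ≤ 1) (t t' : Fn D) {β : ℝ} (hβ : 0 < β)
    (hY : ((t' - t).support.card : ℝ) ≤ β) {lam : ℝ} (hlam : 0 ≤ lam) :
    Pr p (fun ω : Ix D n N → Bool =>
      lam ≤ GT n R (t' - t).support β (shift t' (dis a b ω)) -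
        GT n R (t' - t).support β (shift t (dis a b ω))) ≤
      Real.exp (-(lam ^ 2 / (16 * (β * (b - a) ^ 2)))) := by
  have hB : 0 < β * (b - a) ^ 2 := mul_pos hβ (pow_pos (sub_pos.2 hab) 2)
  have hπ : ∀ i : Ix D n N, i ∉ univ.filter (fun i : Ix D n N => i.1.1 ∈ (t' - t).support) →
      sperm (t' - t : Fn D) i = i := by
    intro i hi
    have h2 : (t' - t : Fn D) i.1.1 = 0 := by
      by_contra h2
      exact hi (mem_filter.2 ⟨mem_univ _, Finsupp.mem_support_iff.2 h2⟩)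
    simp only [sperm, Equiv.coe_fn_mk, h2, Int.cast_zero, add_zero]
  have key := perm_tail h0 h1 (fun ω : Ix D n N → Bool => GT n R (t' - t).support β (dis a b ω))
    (univ.filter fun i : Ix D n N => i.1.1 ∈ (t' - t).support) hB
    (step_grad hN ha hab hY) (sperm (t' - t : Fn D)) hπ hlam
  rw [← Pr_perm (sperm t)] at key
  refine le_trans (le_of_eq ?_) key
  congr 1
  funext ω
  rw [shift_dis, shift_dis, comp_sperm t t' ω]

end Pool.Agent.P.MP_67bca4_pr
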