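import Pool.Agent.P.MP_67bca4_pr.ProbL

namespace Pool.Agent.P.MP_67bca4_pr

open Finset
open scoped Classical

variable {D : ℕ}

variable {I : Type} [Fintype I] [DecidableEq I] {p : ℝ}

namespace TalAux

theorem wt_nn (h0 : 0 ≤ p) (h1 : p ≤ 1) (ω : I → Bool) : 0 ≤ wt p ω := by
  unfold wt
  refine Finset.prod_nonneg fun i _ => ?_
  split_ifs
  · exact h0
  · linarith

theorem wt_sum (p : ℝ) : ∑ ω : I → Bool, wt p ω = 1 := by
  unfold wt
  have h := Finset.prod_univ_sum (fun _ : I => (Finset.univ : Finset Bool))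
    (fun _ b => if b then p else 1 - p)
  rw [Fintype.piFinset_univ] at h
  rw [← h]
  simp

theorem ex_mono (h0 : 0 ≤ p) (h1 : p ≤ 1) {f g : (I → Bool) → ℝ} (h : ∀ ω, f ω ≤ g ω) :
    Ex p f ≤ Ex p g :=
  Finset.sum_le_sum fun ω _ => mul_le_mul_of_nonneg_left (h ω) (wt_nn h0 h1 ω)

theorem ex_const (c : ℝ) : Ex p (fun _ : I → Bool => c) = c := by
  unfold Ex
  rw [← Finset.sum_mul, wt_sum, one_mul]

theorem ex_lin (a b : ℝ) (f g : (I → Bool) → ℝ) :
    Ex p (fun ω => a * f ω + b * g ω) = a * Ex p f + b * Ex p g := by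
  unfold Ex
  rw [Finset.mul_sum, Finset.mul_sum, ← Finset.sum_add_distrib]
  exact Finset.sum_congr rfl fun ω _ => by ring

theorem ex_smul (a : ℝ) (f : (I → Bool) → ℝ) :
    Ex p (fun ω => a * f ω) = a * Ex p f := by
  unfold Ex
  rw [Finset.mul_sum]
  exact Finset.sum_congr rfl fun ω _ => by ring

theorem ex_exp_pos (h0 : 0 ≤ p) (h1 : p ≤ 1) (f : (I → Bool) → ℝ) :
    0 < Ex p (fun ω => Real.exp (f ω)) := by
  obtain ⟨y, -, hy⟩ := Finset.exists_min_image Finset.univ f ⟨fun _ => true, Finset.mem_univ _⟩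
  have h : Ex p (fun _ : I → Bool => Real.exp (f y)) ≤ Ex p (fun ω => Real.exp (f ω)) :=
    ex_mono h0 h1 fun ω => Real.exp_le_exp.2 (hy ω (Finset.mem_univ _))
  rw [ex_const] at h
  exact lt_of_lt_of_le (Real.exp_pos _) h

theorem wt_split (e : I) (ω : I → Bool) :
    wt p ω = (if ω e then p else 1 - p) *
      ∏ i ∈ Finset.univ.erase e, (if ω i then p else 1 - p) := by
  unfold wt
  rw [Finset.mul_prod_erase Finset.univ (fun i => if ω i then p else 1 - p) (Finset.mem_univ e)]

/-- Flipping one bit. -/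
def flipE (e : I) : Equiv.Perm (I → Bool) where
  toFun ω := Function.update ω e (!ω e)
  invFun ω := Function.update ω e (!ω e)
  left_inv ω := by simp
  right_inv ω := by simp

theorem ex_update (e : I) (f : (I → Bool) → ℝ) :
    Ex p f = p * Ex p (fun ω => f (Function.update ω e true)) +
      (1 - p) * Ex p (fun ω => f (Function.update ω e false)) := by
  rw [← ex_lin]
  unfold Ex
  set u : (I → Bool) → ℝ := fun ω => wt p ω * f ω with hu
  set v : (I → Bool) → ℝ := fun ω => wt p ω *
    (p * f (Function.update ω e true) + (1 - p) * f (Function.update ω e false)) with hv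
  have hu2 : ∑ ω, u ω = ∑ ω, u (flipE e ω) := (Equiv.sum_comp (flipE e) u).symm
  have hv2 : ∑ ω, v ω = ∑ ω, v (flipE e ω) := (Equiv.sum_comp (flipE e) v).symm
  have key : ∑ ω, (u ω + u (flipE e ω)) = ∑ ω, (v ω + v (flipE e ω)) := by
    refine Finset.sum_congr rfl fun ω _ => ?_
    have hp : ∏ i ∈ Finset.univ.erase e, (if (flipE e ω) i then p else 1 - p) =
        ∏ i ∈ Finset.univ.erase e, (if ω i then p else 1 - p) := by
      refine Finset.prod_congr rfl fun i hi => ?_
      have : i ≠ e := Finset.ne_of_mem_erase hi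
      simp [flipE, Function.update_of_ne this]
    simp only [hu, hv]
    rw [wt_split e ω, wt_split e (flipE e ω), hp]
    cases hb : ω e
    · have h1 : Function.update ω e false = ω := by rw [← hb]; simp
      simp [flipE, hb, h1]
      ring
    · have h1 : Function.update ω e true = ω := by rw [← hb]; simp
      simp [flipE, hb, h1]
      ring
  rw [Finset.sum_add_distrib, Finset.sum_add_distrib, ← hu2, ← hv2] at key
  linarith

theorem exp_le_quad {x : ℝ} (hx : |x| ≤ 1) : Real.exp x ≤ 1 + x + x ^ 2 := by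
  have := (abs_le.1 (Real.abs_exp_sub_one_sub_id_le hx)).2
  linarith

theorem num_step {u : ℝ} (hu : 0 ≤ u) :
    ∃ θ : ℝ, 0 ≤ θ ∧ θ ≤ 1 ∧ Real.exp (θ ^ 2 / 8 + (1 - θ) * u) ≤ 2 - Real.exp (-u) := by
  by_cases h : u ≤ 1 / 4
  · refine ⟨4 * u, by linarith, by linarith, ?_⟩
    have e1 : (4 * u) ^ 2 / 8 + (1 - 4 * u) * u = u - 2 * u ^ 2 := by ring
    rw [e1]
    have a1 := exp_le_quad (x := u - 2 * u ^ 2) (abs_le.2 ⟨by nlinarith, by nlinarith⟩)
    have a2 := exp_le_quad (x := -u) (abs_le.2 ⟨by linarith, by linarith⟩)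
    have a3 : 0 ≤ u ^ 2 * (u * (1 - u)) :=
      mul_nonneg (sq_nonneg u) (mul_nonneg hu (by linarith))
    nlinarith
  · refine ⟨1, zero_le_one, le_rfl, ?_⟩
    have e1 : (1 : ℝ) ^ 2 / 8 + (1 - 1) * u = 1 / 8 := by ring
    rw [e1]
    have a1 := exp_le_quad (x := 1 / 8) (abs_le.2 ⟨by norm_num, by norm_num⟩)
    have a2 := exp_le_quad (x := -(1 / 4)) (abs_le.2 ⟨by norm_num, by norm_num⟩)
    have a3 : Real.exp (-u) ≤ Real.exp (-(1 / 4)) := Real.exp_le_exp.2 (by linarith)
    linarith

theorem fin_step {q Xb Xn Ab An : ℝ} (hq0 : 0 ≤ q) (hq1 : q ≤ 1) (hAb : 0 < Ab) (hAn : 0 ≤ An)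
    (h1 : Xb * Ab ≤ 1) (h2 : Xn * Ab ≤ 2 - An / Ab) :
    (q * Xn + (1 - q) * Xb) * (q * An + (1 - q) * Ab) ≤ 1 := by
  set r := An / Ab with hr
  have hr0 : 0 ≤ r := div_nonneg hAn hAb.le
  have hA : An = r * Ab := by rw [hr]; field_simp
  have e1 : (q * Xn + (1 - q) * Xb) * (q * An + (1 - q) * Ab) =
      (q * (Xn * Ab) + (1 - q) * (Xb * Ab)) * (q * r + (1 - q)) := by
    rw [hA]; ring
  have hq : 0 ≤ 1 - q := by linarith
  have a1 : q * (Xn * Ab) + (1 - q) * (Xb * Ab) ≤ q * (2 - r) + (1 - q) * 1 :=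
    add_le_add (mul_le_mul_of_nonneg_left h2 hq0) (mul_le_mul_of_nonneg_left h1 hq)
  have a2 : 0 ≤ q * r + (1 - q) := add_nonneg (mul_nonneg hq0 hr0) hq
  rw [e1]
  calc _ ≤ (q * (2 - r) + (1 - q) * 1) * (q * r + (1 - q)) := mul_le_mul_of_nonneg_right a1 a2
    _ = 1 - (q * (1 - r)) ^ 2 := by ring
    _ ≤ 1 := by nlinarith [sq_nonneg (q * (1 - r))]

/-- `G` lies below the dual form of the infimum convolution of `f` in the coordinates of `S`. -/
def Cert (S : Finset I) (G f : (I → Bool) → ℝ) : Prop :=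
  ∀ x, ∃ g : I → ℝ, ∀ y,
    G x ≤ f y + ∑ i ∈ S, g i * (bit (x i) - bit (y i)) - 2 * ∑ i ∈ S, g i ^ 2

theorem bit_sq (b : Bool) : (bit (!b) - bit b) ^ 2 = 1 := by
  cases b <;> simp [bit]

theorem sum_upd {S : Finset I} {e : I} (he : e ∉ S) (g : I → ℝ) (x y : I → Bool) (b c : Bool) :
    ∑ i ∈ insert e S, g i * (bit (Function.update x e b i) - bit (Function.update y e c i)) =
      g e * (bit b - bit c) + ∑ i ∈ S, g i * (bit (x i) - bit (y i)) := by
  rw [Finset.sum_insert he]
  simp only [Function.update_self]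
  congr 1
  refine Finset.sum_congr rfl fun i hi => ?_
  have : i ≠ e := fun h => he (h ▸ hi)
  rw [Function.update_of_ne this, Function.update_of_ne this]

theorem one_side (h0 : 0 ≤ p) (h1 : p ≤ 1) {S : Finset I} {e : I} (he : e ∉ S)
    (ih : ∀ G f : (I → Bool) → ℝ, Cert S G f →
      Ex p (fun ω => Real.exp (G ω)) * Ex p (fun ω => Real.exp (-f ω)) ≤ 1)
    {G f : (I → Bool) → ℝ} (hc : Cert (insert e S) G f) (b : Bool)
    (hle : Ex p (fun ω => Real.exp (-f (Function.update ω e (!b)))) ≤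
      Ex p (fun ω => Real.exp (-f (Function.update ω e b)))) {q : ℝ} (hq0 : 0 ≤ q) (hq1 : q ≤ 1) :
    (q * Ex p (fun ω => Real.exp (G (Function.update ω e (!b)))) +
        (1 - q) * Ex p (fun ω => Real.exp (G (Function.update ω e b)))) *
      (q * Ex p (fun ω => Real.exp (-f (Function.update ω e (!b)))) +
        (1 - q) * Ex p (fun ω => Real.exp (-f (Function.update ω e b)))) ≤ 1 := by
  choose g hg using hc
  set s : ℝ := bit (!b) - bit b with hs
  have hs2 : s ^ 2 = 1 := bit_sq b
  set γ : (I → Bool) → ℝ := fun x => g (Function.update x e (!b)) e with hγ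
  set G0 : (I → Bool) → ℝ := fun x => max (G (Function.update x e b))
    (G (Function.update x e (!b)) - γ x * s + 2 * γ x ^ 2) with hG0
  set G1 : (I → Bool) → ℝ := fun x => G (Function.update x e (!b)) + 2 * γ x ^ 2 with hG1
  have c0 : Cert S G0 (fun y => f (Function.update y e b)) := by
    intro x
    rcases le_total (G (Function.update x e b))
      (G (Function.update x e (!b)) - γ x * s + 2 * γ x ^ 2) with h | h
    · refine ⟨g (Function.update x e (!b)), fun y => ?_⟩
      have := hg (Function.update x e (!b)) (Function.update y e b)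
      rw [sum_upd he, Finset.sum_insert he] at this
      simp only [hG0, max_eq_right h]
      simp only [hγ]
      linarith
    · refine ⟨g (Function.update x e b), fun y => ?_⟩
      have := hg (Function.update x e b) (Function.update y e b)
      rw [sum_upd he, Finset.sum_insert he] at this
      simp only [hG0, max_eq_left h]
      nlinarith [sq_nonneg (g (Function.update x e b) e)]
  have c1 : Cert S G1 (fun y => f (Function.update y e (!b))) := by
    intro x
    refine ⟨g (Function.update x e (!b)), fun y => ?_⟩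
    have := hg (Function.update x e (!b)) (Function.update y e (!b))
    rw [sum_upd he, Finset.sum_insert he] at this
    simp only [hG1, hγ]
    linarith
  have i0 := ih _ _ c0
  have i1 := ih _ _ c1
  set A0 := Ex p (fun ω => Real.exp (-f (Function.update ω e b))) with hA0
  set A1 := Ex p (fun ω => Real.exp (-f (Function.update ω e (!b)))) with hA1
  have p0 : 0 < A0 := ex_exp_pos h0 h1 _
  have p1 : 0 < A1 := ex_exp_pos h0 h1 _
  refine fin_step hq0 hq1 p0 p1.le ?_ ?_
  · refine le_trans (mul_le_mul_of_nonneg_right ?_ p0.le) i0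
    exact ex_mono h0 h1 fun ω => Real.exp_le_exp.2 (le_max_left _ _)
  · set u := Real.log A0 - Real.log A1 with hu
    have hu0 : 0 ≤ u := sub_nonneg.2 (Real.log_le_log p1 hle)
    obtain ⟨θ, t0, t1, ht⟩ := num_step hu0
    have hr : Real.exp (-u) = A1 / A0 := by
      rw [hu, neg_sub, Real.exp_sub, Real.exp_log p0, Real.exp_log p1]
    rw [← hr]
    refine le_trans ?_ ht
    set C := Real.exp (θ ^ 2 / 8 + (1 - θ) * u) with hC
    have hC0 : 0 ≤ C := (Real.exp_pos _).le
    have pt : ∀ ω, A0 * Real.exp (G (Function.update ω e (!b))) ≤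
        (C * θ * A0) * Real.exp (G0 ω) + (C * (1 - θ) * A1) * Real.exp (G1 ω) := by
      intro ω
      have cv := convexOn_exp.2 (Set.mem_univ (G0 ω + Real.log A0))
        (Set.mem_univ (G1 ω + Real.log A1)) t0 (sub_nonneg.2 t1) (by ring)
      simp only [smul_eq_mul] at cv
      rw [Real.exp_add (G0 ω), Real.exp_add (G1 ω), Real.exp_log p0, Real.exp_log p1] at cv
      have m0 : G (Function.update ω e (!b)) - γ ω * s + 2 * γ ω ^ 2 ≤ G0 ω := le_max_right _ _
      have m1 : G1 ω = G (Function.update ω e (!b)) + 2 * γ ω ^ 2 := rfl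
      have m2 : θ * (γ ω * s) - 2 * γ ω ^ 2 ≤ θ ^ 2 / 8 := by
        have : θ ^ 2 / 8 = θ ^ 2 * s ^ 2 / 8 := by rw [hs2, mul_one]
        rw [this]
        nlinarith [sq_nonneg (γ ω - θ * s / 4)]
      have m3 : Real.log A0 + G (Function.update ω e (!b)) ≤
          (θ ^ 2 / 8 + (1 - θ) * u) +
            (θ * (G0 ω + Real.log A0) + (1 - θ) * (G1 ω + Real.log A1)) := by
        have := mul_le_mul_of_nonneg_left m0 t0
        rw [m1, hu]
        nlinarith
      have m4 := Real.exp_le_exp.2 m3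
      rw [Real.exp_add (Real.log A0), Real.exp_log p0, Real.exp_add (θ ^ 2 / 8 + (1 - θ) * u),
        ← hC] at m4
      have m5 := mul_le_mul_of_nonneg_left cv hC0
      calc _ ≤ _ := m4
        _ ≤ _ := m5
        _ = _ := by ring
    have := ex_mono h0 h1 pt
    rw [ex_smul, ex_lin] at this
    have b0 := mul_le_mul_of_nonneg_left i0 (mul_nonneg hC0 t0)
    have b1 := mul_le_mul_of_nonneg_left i1 (mul_nonneg hC0 (sub_nonneg.2 t1))
    nlinarith

theorem maurey (h0 : 0 ≤ p) (h1 : p ≤ 1) (S : Finset I) :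
    ∀ G f : (I → Bool) → ℝ, Cert S G f →
      Ex p (fun ω => Real.exp (G ω)) * Ex p (fun ω => Real.exp (-f ω)) ≤ 1 := by
  induction S using Finset.induction_on with
  | empty =>
    intro G f hc
    obtain ⟨x, -, hx⟩ := Finset.exists_max_image Finset.univ G ⟨fun _ => true, Finset.mem_univ _⟩
    obtain ⟨g, hg⟩ := hc x
    have a1 : Ex p (fun ω => Real.exp (G ω)) ≤ Ex p (fun _ : I → Bool => Real.exp (G x)) :=
      ex_mono h0 h1 fun ω => Real.exp_le_exp.2 (hx ω (Finset.mem_univ _))
    have a2 : Ex p (fun ω => Real.exp (-f ω)) ≤ Ex p (fun _ : I → Bool => Real.exp (-G x)) :=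
      ex_mono h0 h1 fun ω => Real.exp_le_exp.2 (by have := hg ω; simp at this; linarith)
    rw [ex_const] at a1 a2
    calc _ ≤ Real.exp (G x) * Real.exp (-G x) :=
          mul_le_mul a1 a2 (ex_exp_pos h0 h1 _).le (Real.exp_pos _).le
      _ = 1 := by rw [← Real.exp_add]; simp
  | insert e S he ih =>
    intro G f hc
    rw [ex_update e (fun ω => Real.exp (G ω)), ex_update e (fun ω => Real.exp (-f ω))]
    rcases le_total (Ex p (fun ω => Real.exp (-f (Function.update ω e true))))
      (Ex p (fun ω => Real.exp (-f (Function.update ω e false)))) with h | h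
    · exact one_side h0 h1 he ih hc false h h0 h1
    · have := one_side h0 h1 he ih hc true h (q := 1 - p) (by linarith) (by linarith)
      simp only [Bool.not_true, sub_sub_cancel] at this
      calc _ = _ := by ring
        _ ≤ 1 := this

end TalAux

/-- Convex concentration on the discrete cube (Talagrand, Maurey) for a concave function with
supergradients of squared norm at most `B`. -/
theorem tal_conc (h0 : 0 ≤ p) (h1 : p ≤ 1) (F : (I → Bool) → ℝ) {B : ℝ}
    (hF : ∀ ω, ∃ g : I → ℝ, ∑ i, g i ^ 2 ≤ B ∧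
      ∀ ω', F ω' ≤ F ω + ∑ i, g i * (bit (ω' i) - bit (ω i))) (lam : ℝ) (hlam : 0 ≤ lam) :
    Ex p (fun ω => Real.exp (lam * F ω)) * Ex p (fun ω => Real.exp (-(lam * F ω))) ≤
      Real.exp (2 * lam ^ 2 * B) := by
  have hc : TalAux.Cert Finset.univ (fun ω => -(2 * lam ^ 2 * B) + -(lam * F ω))
      (fun ω => -(lam * F ω)) := by
    intro x
    obtain ⟨g, hB, hg⟩ := hF x
    refine ⟨fun i => -lam * g i, fun y => ?_⟩
    have e1 : ∑ i, -lam * g i * (bit (x i) - bit (y i)) =
        lam * ∑ i, g i * (bit (y i) - bit (x i)) := by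
      rw [Finset.mul_sum]
      exact Finset.sum_congr rfl fun i _ => by ring
    have e2 : ∑ i, (-lam * g i) ^ 2 = lam ^ 2 * ∑ i, g i ^ 2 := by
      rw [Finset.mul_sum]
      exact Finset.sum_congr rfl fun i _ => by ring
    have a1 := mul_le_mul_of_nonneg_left (hg y) hlam
    have a2 := mul_le_mul_of_nonneg_left hB (sq_nonneg lam)
    simp only [e1, e2]
    nlinarith
  have h := TalAux.maurey h0 h1 Finset.univ _ _ hc
  simp only [Real.exp_add, neg_neg] at h
  rw [TalAux.ex_smul] at h
  have hE : Real.exp (2 * lam ^ 2 * B) * Real.exp (-(2 * lam ^ 2 * B)) = 1 := by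
    rw [← Real.exp_add]; simp
  have := mul_le_mul_of_nonneg_left h (Real.exp_pos (2 * lam ^ 2 * B)).le
  calc _ = (Real.exp (2 * lam ^ 2 * B) * Real.exp (-(2 * lam ^ 2 * B))) *
        (Ex p (fun ω => Real.exp (lam * F ω)) * Ex p (fun ω => Real.exp (-(lam * F ω)))) := by
        rw [hE, one_mul]
    _ = _ := by ring
    _ ≤ _ := this
    _ = _ := mul_one _

end Pool.Agent.P.MP_67bca4_pr
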